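import Mathlib
import Pool.Agent.Helper310_Saxl.Young
import Pool.Agent.Helper310_Saxl.Stair

/-!
# Staircase bases and the model of the tensor square
-/

namespace Pool.Agent.Helper310_SaxlA

open Equiv Finset Pool.Agent.Helper310_Saxl

/-- Two transversal functions of staircase type on `X`: rows and columns. -/
structure Base (k : ℕ) (X : Type*) [Fintype X] where
  R : X → ℕ
  C : X → ℕ
  hR : IsStair k univ R
  hC : IsStair k univ C
  hRC : ∀ x y, R x = R y → C x = C y → x = y

section

variable {k : ℕ} {X : Type*} [Fintype X] [DecidableEq X]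

/-- The polytabloid of a base: `g ↦ Σ_c sgn c [R ∘ g⁻¹ = R ∘ c⁻¹]`, `c` in the column
stabiliser. -/
noncomputable def uh (β : Base k X) (g : Perm X) : ℂ :=
  ∑ c ∈ univ.filter (fun c : Perm X => ∀ x, β.C (c x) = β.C x),
    ((Perm.sign c : ℤ) : ℂ) * (if ∀ x, β.R (g⁻¹ x) = β.R (c⁻¹ x) then 1 else 0)

/-- Functions of two permutations with the diagonal left action. -/
noncomputable def rep2 (X : Type*) : Representation ℂ (Perm X) (Perm X × Perm X → ℂ) where
  toFun g :=
    { toFun := fun F p => F (g⁻¹ * p.1, g⁻¹ * p.2)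
      map_add' := by intro F F'; rfl
      map_smul' := by intro c F; rfl }
  map_one' := by ext F p; simp
  map_mul' := by intro g h; ext F p; simp [mul_assoc]

omit [Fintype X] [DecidableEq X] in
lemma rep2_apply (g : Perm X) (F : Perm X × Perm X → ℂ) (p : Perm X × Perm X) :
    rep2 X g F p = F (g⁻¹ * p.1, g⁻¹ * p.2) := rfl

/-- The model of `V ⊗ V`. -/
noncomputable def VV (β : Base k X) : Submodule ℂ (Perm X × Perm X → ℂ) :=
  Submodule.span ℂ {F | ∃ h h' : Perm X, F = fun p => uh β (h⁻¹ * p.1) * uh β (h'⁻¹ * p.2)}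

/-- There is a nonzero equivariant map from `U` to the model of `V ⊗ V`. -/
def Good (β : Base k X) {U : Type*} [AddCommGroup U] [Module ℂ U]
    (ρ : Representation ℂ (Perm X) U) : Prop :=
  ∃ T : U →ₗ[ℂ] (Perm X × Perm X → ℂ), (∀ g x, T (ρ g x) = rep2 X g (T x)) ∧ T ≠ 0 ∧
    ∀ x, T x ∈ VV β

/-- the twist by the sign character -/
noncomputable def tw {V : Type*} [AddCommGroup V] [Module ℂ V]
    (ρ : Representation ℂ (Perm X) V) : Representation ℂ (Perm X) V where
  toFun π := (((Perm.sign π : ℤˣ) : ℤ) : ℂ) • ρ π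
  map_one' := by simp
  map_mul' := by
    intro a b
    ext v
    simp [smul_smul, mul_comm]

lemma tw_apply {V : Type*} [AddCommGroup V] [Module ℂ V] (ρ : Representation ℂ (Perm X) V)
    (π : Perm X) (v : V) : tw ρ π v = (((Perm.sign π : ℤˣ) : ℤ) : ℂ) • ρ π v := rfl

end

section tail

variable {k : ℕ} {X : Type*} [Fintype X]

lemma Base.row_unique (β : Base (k + 1) X) {m : ℕ} (hm : 1 ≤ m ∧ m ≤ k + 1) :
    ∃! x, β.R x = m ∧ β.C x = k + 1 := by
  classical
  have h1 := β.hC.image_block β.hR (fun x _ y _ h1 h2 => β.hRC x y h2 h1)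
    (m := k + 1) ⟨by omega, le_refl _⟩
  have h2 : m ∈ (univ.filter fun x => β.C x = k + 1).image β.R := by
    rw [h1, Finset.mem_Icc]; omega
  obtain ⟨x, hx, hxm⟩ := Finset.mem_image.1 h2
  rw [Finset.mem_filter] at hx
  refine ⟨x, ⟨hxm, hx.2⟩, ?_⟩
  intro y hy
  exact β.hRC y x (by rw [hy.1, hxm]) (by rw [hy.2, hx.2])

/-- remove the column with `k + 1` elements -/
def Base.tail (β : Base (k + 1) X) : Base k {x // β.C x ≠ k + 1} where
  R x := β.R x - 1
  C x := β.C x
  hR := by
    classical
    intro m
    have hRpos : ∀ x, 1 ≤ β.R x := fun x => (β.hR.bounds (Finset.mem_univ x)).1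
    have e1 : ((univ : Finset {x // β.C x ≠ k + 1}).filter
        fun x : {x // β.C x ≠ k + 1} => β.R (x : X) - 1 = m).card =
        (univ.filter fun x : X => β.R x = m + 1 ∧ β.C x ≠ k + 1).card := by
      refine Finset.card_bij (fun x _ => (x : X)) ?_ ?_ ?_
      · intro x hx
        rw [Finset.mem_filter] at hx ⊢
        have := hRpos x
        exact ⟨Finset.mem_univ _, by omega, x.2⟩
      · intro x _ y _ h; exact Subtype.ext h
      · intro x hx
        rw [Finset.mem_filter] at hx
        exact ⟨⟨x, hx.2.2⟩, Finset.mem_filter.2 ⟨Finset.mem_univ _, by simp [hx.2.1]⟩, rfl⟩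
    have e2 : (univ.filter fun x : X => β.R x = m + 1).card =
        (univ.filter fun x : X => β.R x = m + 1 ∧ β.C x ≠ k + 1).card +
        (univ.filter fun x : X => β.R x = m + 1 ∧ β.C x = k + 1).card := by
      rw [← Finset.card_union_of_disjoint]
      · congr 1
        ext x
        simp only [Finset.mem_filter, Finset.mem_union, Finset.mem_univ, true_and]
        tauto
      · rw [Finset.disjoint_left]
        intro x hx hx'
        rw [Finset.mem_filter] at hx hx'
        exact hx.2.2 hx'.2.2
    have e3 := β.hR (m + 1)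
    rw [e2] at e3
    refine e1.trans ?_
    by_cases hm : m ≤ k
    · have e4 : (univ.filter fun x : X => β.R x = m + 1 ∧ β.C x = k + 1).card = 1 := by
        obtain ⟨x, hx, hux⟩ := β.row_unique (m := m + 1) ⟨by omega, by omega⟩
        rw [Finset.card_eq_one]
        refine ⟨x, ?_⟩
        ext y
        rw [Finset.mem_filter, Finset.mem_singleton]
        constructor
        · intro h; exact hux y h.2
        · rintro rfl; exact ⟨Finset.mem_univ _, hx⟩
      rw [e4, if_pos ⟨by omega, by omega⟩] at e3
      by_cases h0 : 1 ≤ m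
      · rw [if_pos ⟨h0, hm⟩]; omega
      · rw [if_neg (fun h => h0 h.1)]; omega
    · rw [if_neg (fun h => hm (by omega))] at e3
      rw [if_neg (fun h => hm h.2)]
      omega
  hC := by
    classical
    intro m
    have e1 : ((univ : Finset {x // β.C x ≠ k + 1}).filter
        fun x : {x // β.C x ≠ k + 1} => β.C (x : X) = m).card =
        (univ.filter fun x : X => β.C x = m ∧ β.C x ≠ k + 1).card := by
      refine Finset.card_bij (fun x _ => (x : X)) ?_ ?_ ?_
      · intro x hx
        rw [Finset.mem_filter] at hx ⊢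
        exact ⟨Finset.mem_univ _, hx.2, x.2⟩
      · intro x _ y _ h; exact Subtype.ext h
      · intro x hx
        rw [Finset.mem_filter] at hx
        exact ⟨⟨x, hx.2.2⟩, Finset.mem_filter.2 ⟨Finset.mem_univ _, hx.2.1⟩, rfl⟩
    refine e1.trans ?_
    have e3 := β.hC m
    by_cases hm : m = k + 1
    · rw [if_neg (by omega), Finset.card_eq_zero, Finset.filter_eq_empty_iff]
      intro x _ h
      exact h.2 (h.1.trans hm)
    · have e2 : (univ.filter fun x : X => β.C x = m ∧ β.C x ≠ k + 1) =
          univ.filter fun x : X => β.C x = m := by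
        ext x
        simp only [Finset.mem_filter, Finset.mem_univ, true_and]
        constructor
        · exact fun h => h.1
        · intro h; exact ⟨h, by rw [h]; exact hm⟩
      rw [e2, e3]
      by_cases h1 : 1 ≤ m ∧ m ≤ k
      · rw [if_pos h1, if_pos ⟨h1.1, by omega⟩]
      · rw [if_neg h1, if_neg (by omega)]
  hRC := by
    intro x y h1 h2
    have hRpos : ∀ x, 1 ≤ β.R x := fun x => (β.hR.bounds (Finset.mem_univ x)).1
    have h3 := hRpos x
    have h4 := hRpos y
    exact Subtype.ext (β.hRC x y (by omega) h2)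

end tail

end Pool.Agent.Helper310_SaxlA
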