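import Mathlib
import Pool.Agent.Helper310_SaxlA.Base

/-!
# Existence of staircase bases
-/

namespace Pool.Agent.Helper310_SaxlA

open Finset Equiv Pool.Agent.Helper310_Saxl Pool.Agent.Helper310_SaxlA

section helpers

lemma sx_ext {k : ℕ} (u v : Σ i : Fin k, Fin ((i : ℕ) + 1)) (h1 : (u.1 : ℕ) = v.1)
    (h2 : (u.2 : ℕ) = v.2) : u = v := by
  obtain ⟨⟨i, hi⟩, ⟨j, hj⟩⟩ := u
  obtain ⟨⟨i', hi'⟩, ⟨j', hj'⟩⟩ := v
  simp only at h1 h2
  subst h1 h2
  rfl

lemma sx_card (k : ℕ) : Fintype.card (Σ i : Fin k, Fin ((i : ℕ) + 1)) = k * (k + 1) / 2 := by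
  rw [Fintype.card_sigma]
  simp only [Fintype.card_fin]
  rw [Fin.sum_univ_eq_sum_range (fun i => i + 1) k]
  have h1 := Finset.sum_range_succ' (fun i => i) k
  have h2 := Finset.sum_range_id (k + 1)
  rw [h1] at h2
  simp only [add_zero, Nat.add_sub_cancel] at h2
  rw [h2, Nat.mul_comm]

end helpers

/-- TARGET 1 -/
theorem exists_base {X : Type*} [Fintype X] (k : ℕ) (h : Fintype.card X = k * (k + 1) / 2) :
    Nonempty (Base k X) := by
  classical
  obtain ⟨e⟩ : Nonempty (X ≃ Σ i : Fin k, Fin ((i : ℕ) + 1)) := by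
    rw [← Fintype.card_eq, h, sx_card]
  have hlt : ∀ x, ((e x).2 : ℕ) ≤ (e x).1 := fun x => Nat.lt_succ_iff.1 (e x).2.2
  have hk : ∀ x, ((e x).1 : ℕ) < k := fun x => (e x).1.2
  refine ⟨⟨fun x => (e x).1 + 1, fun x => k - (e x).2, ?_, ?_, ?_⟩⟩
  · intro m
    show (univ.filter fun x : X => ((e x).1 : ℕ) + 1 = m).card = _
    by_cases hm : 1 ≤ m ∧ m ≤ k
    · rw [if_pos hm]
      refine (Finset.card_bij (t := range m) (fun x _ => ((e x).2 : ℕ)) ?_ ?_
        ?_).trans (Finset.card_range m)
      · intro x hx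
        have h1 := (Finset.mem_filter.1 hx).2
        have h2 := hlt x
        rw [Finset.mem_range]
        omega
      · intro x hx y hy hxy
        have h1 := (Finset.mem_filter.1 hx).2
        have h2 := (Finset.mem_filter.1 hy).2
        apply e.injective
        exact sx_ext _ _ (by omega) hxy
      · intro a ha
        rw [Finset.mem_range] at ha
        refine ⟨e.symm ⟨⟨m - 1, by omega⟩, ⟨a, by simp only; omega⟩⟩, ?_, ?_⟩
        · rw [Finset.mem_filter, Equiv.apply_symm_apply]
          exact ⟨Finset.mem_univ _, by simp only; omega⟩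
        · rw [Equiv.apply_symm_apply]
    · rw [if_neg hm, Finset.card_eq_zero, Finset.filter_eq_empty_iff]
      intro x _ h1
      have := hk x
      exact hm ⟨by omega, by omega⟩
  · intro m
    show (univ.filter fun x : X => k - ((e x).2 : ℕ) = m).card = _
    by_cases hm : 1 ≤ m ∧ m ≤ k
    · rw [if_pos hm]
      refine (Finset.card_bij (t := range m) (fun x _ => ((e x).1 : ℕ) - (k - m)) ?_ ?_
        ?_).trans (Finset.card_range m)
      · intro x hx
        have h1 := (Finset.mem_filter.1 hx).2
        have h2 := hlt x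
        have h3 := hk x
        rw [Finset.mem_range]
        omega
      · intro x hx y hy hxy
        have h1 := (Finset.mem_filter.1 hx).2
        have h2 := (Finset.mem_filter.1 hy).2
        have h3 := hlt x
        have h4 := hk x
        have h5 := hlt y
        have h6 := hk y
        apply e.injective
        exact sx_ext _ _ (by omega) (by omega)
      · intro a ha
        rw [Finset.mem_range] at ha
        refine ⟨e.symm ⟨⟨a + (k - m), by omega⟩, ⟨k - m, by simp only; omega⟩⟩, ?_, ?_⟩
        · rw [Finset.mem_filter, Equiv.apply_symm_apply]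
          exact ⟨Finset.mem_univ _, by simp only; omega⟩
        · rw [Equiv.apply_symm_apply]
          simp only
          omega
    · rw [if_neg hm, Finset.card_eq_zero, Finset.filter_eq_empty_iff]
      intro x _ h1
      have := hk x
      have := hlt x
      exact hm ⟨by omega, by omega⟩
  · intro x y h1 h2
    have h3 := hlt x
    have h4 := hk x
    have h5 := hlt y
    have h6 := hk y
    apply e.injective
    exact sx_ext _ _ (by omega) (by omega)

/-- TARGET 2 -/
theorem base_tableau {X : Type*} [Fintype X] {k : ℕ} (β : Base k X) :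
    Function.Injective (fun x => (k - β.R x, k - β.C x)) ∧
      ∀ p : ℕ × ℕ, (∃ x, (k - β.R x, k - β.C x) = p) ↔ p.2 < k - p.1 := by
  have hR : ∀ x, 1 ≤ β.R x ∧ β.R x ≤ k := fun x => β.hR.bounds (Finset.mem_univ x)
  have hC : ∀ x, 1 ≤ β.C x ∧ β.C x ≤ k := fun x => β.hC.bounds (Finset.mem_univ x)
  have hT : Transv univ β.R β.C := fun x _ y _ h1 h2 => β.hRC x y h1 h2
  refine ⟨?_, ?_⟩
  · intro x y hxy
    simp only [Prod.mk.injEq] at hxy
    have h1 := hR x
    have h2 := hR y
    have h3 := hC x
    have h4 := hC y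
    exact β.hRC x y (by omega) (by omega)
  · rintro ⟨a, b⟩
    constructor
    · rintro ⟨x, hx⟩
      rw [Prod.mk.injEq] at hx
      have h1 := hR x
      have h3 := hC x
      have h5 := β.hR.add_ge β.hC hT (Finset.mem_univ x)
      simp only
      omega
    · intro h
      simp only at h
      have h1 := β.hR.image_block β.hC hT (m := k - a) ⟨by omega, by omega⟩
      have h2 : k - b ∈ (univ.filter fun x => β.R x = k - a).image β.C := by
        rw [h1, Finset.mem_Icc]
        omega
      obtain ⟨x, hx, hxb⟩ := Finset.mem_image.1 h2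
      have hxa := (Finset.mem_filter.1 hx).2
      refine ⟨x, ?_⟩
      rw [hxa, hxb, Prod.mk.injEq]
      omega

end Pool.Agent.Helper310_SaxlA
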