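import Mathlib
import Pool.Agent.Helper310_SaxlA.Base

/-!
# Column labellings

The Young diagram has `p i + 2 * t i` cells in the row `i`. Its columns are labelled by
`(j, ε)`, `ε : Fin 3`: the column `(j, 0)` has a cell in the row `i` when `j < p i`, the columns
`(j, 1)` and `(j, 2)` have one when `j < t i`.
-/

namespace Pool.Agent.Helper310_SaxlA

open Equiv Finset Pool.Agent.Helper310_Saxl

/-- The column `κ` has a cell in the row `i`. -/
def cell (p t : ℕ → ℕ) (i : ℕ) (κ : ℕ × Fin 3) : Prop :=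
  if κ.2 = 0 then κ.1 < p i else κ.1 < t i

instance (p t : ℕ → ℕ) (i : ℕ) (κ : ℕ × Fin 3) : Decidable (cell p t i κ) := by
  unfold cell; infer_instance

variable {X : Type*} [Fintype X] [DecidableEq X]

/-- The rows `D` and the columns `s` form a tableau: `x ↦ (D x, s x)` is injective with values in
the diagram. -/
def Tab (p t : ℕ → ℕ) (D : X → ℕ) (s : X → ℕ × Fin 3) : Prop :=
  (∀ x y, D x = D y → s x = s y → x = y) ∧ ∀ x, cell p t (D x) (s x)

instance (p t : ℕ → ℕ) (D : X → ℕ) (s : X → ℕ × Fin 3) : Decidable (Tab p t D s) := by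
  unfold Tab; infer_instance

/-- The labels `ε ≠ 0` alternate `1, 2, 1, 2, ...` along every group of columns `(j, ·)`. -/
def Alt [LinearOrder X] (s : X → ℕ × Fin 3) : Prop :=
  ∀ x, (s x).2 ≠ 0 →
    ((s x).2 = 1 ↔ Even (univ.filter fun y => y < x ∧ (s y).1 = (s x).1 ∧ (s y).2 ≠ 0).card)

instance [LinearOrder X] (s : X → ℕ × Fin 3) : Decidable (Alt s) := by
  unfold Alt; infer_instance

/-- the family of column labellings with the margins `P` -/
def fam [LinearOrder X] (N : ℕ) (A : X → ℕ) (P : ℕ → ℕ → ℕ) : Finset (X → ℕ × Fin 3) :=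
  (Fintype.piFinset fun _ : X => (range N) ×ˢ (univ : Finset (Fin 3))).filter fun s =>
    (∀ j ∈ range N, ∀ x0, (univ.filter fun x => A x = A x0 ∧ (s x).1 = j).card = P (A x0) j) ∧
      Alt s

/-- the groupings with the margins `P` and the content prescribed by `D` -/
def groupings (N : ℕ) (p t : ℕ → ℕ) (D A : X → ℕ) (P : ℕ → ℕ → ℕ) : Finset (X → ℕ) :=
  (Fintype.piFinset fun _ : X => range N).filter fun τ =>
    (∀ j ∈ range N, ∀ x0, (univ.filter fun x => A x = A x0 ∧ τ x = j).card = P (A x0) j) ∧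
      (∀ j ∈ range N, ∀ x0, (univ.filter fun x => D x = D x0 ∧ τ x = j).card =
        (if j < p (D x0) then 1 else 0) + 2 * (if j < t (D x0) then 1 else 0))

end Pool.Agent.Helper310_SaxlA
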