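import Mathlib

/-!
# The crossing lemma
-/

namespace Pool.Agent.Helper310_SaxlA

open Finset

namespace SaxlX1

section
variable {X Λ J : Type*} [Fintype X] [LinearOrder X] [DecidableEq Λ] [DecidableEq J]

/-- the elements of the letter `a` -/
def fib (f : X → Λ) (a : Λ) : Finset X := univ.filter fun y => f y = a

/-- kept elements of the letter `a`, with deleted element `x` -/
def kp (f : X → Λ) (a : Λ) (x : X) : Finset X := (fib f a).erase x

/-- the crossing number -/
def cc (f : X → Λ) (r : Λ → J) (a a' : Λ) (x x' : X) : ZMod 2 :=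
  if a = a' then 1 else
    if r a = r a' then ∑ y ∈ kp f a x, ∑ z ∈ kp f a' x', (if z < y then 1 else 0) else 0

omit [LinearOrder X] in
theorem mem_fib {f : X → Λ} {a : Λ} {x : X} : x ∈ fib f a ↔ f x = a := by simp [fib]

theorem mem_kp {f : X → Λ} {a : Λ} {x y : X} : y ∈ kp f a x ↔ f y = a ∧ y ≠ x := by
  simp [kp, mem_fib, and_comm]

theorem card_kp {f : X → Λ} {a : Λ} {x : X} (hx : f x = a) (h : (fib f a).card = 3) :
    (kp f a x).card = 2 := by
  rw [kp, card_erase_of_mem (mem_fib.2 hx), h]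

theorem z2 (x : ZMod 2) : x + x = 0 := CharTwo.add_self_eq_zero x

theorem z2m (x : ZMod 2) : x * x = x := by revert x; decide

theorem cc_symm (f : X → Λ) (r : Λ → J) {a a' : Λ} {x x' : X} (hx : f x = a) (hx' : f x' = a')
    (h : (fib f a).card = 3) (h' : (fib f a').card = 3) :
    cc f r a a' x x' = cc f r a' a x' x := by
  unfold cc
  by_cases haa : a = a'
  · subst haa; simp
  rw [if_neg haa, if_neg (Ne.symm haa)]
  by_cases hr : r a = r a'
  swap
  · rw [if_neg hr, if_neg (Ne.symm hr)]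
  rw [if_pos hr, if_pos hr.symm]
  have key : (∑ y ∈ kp f a x, ∑ z ∈ kp f a' x', (if z < y then (1 : ZMod 2) else 0)) +
      (∑ y ∈ kp f a' x', ∑ z ∈ kp f a x, (if z < y then (1 : ZMod 2) else 0)) = 0 := by
    rw [sum_comm (s := kp f a' x'), ← sum_add_distrib]
    have : ∀ y ∈ kp f a x, (∑ z ∈ kp f a' x', (if z < y then (1 : ZMod 2) else 0)) +
        (∑ z ∈ kp f a' x', (if y < z then (1 : ZMod 2) else 0)) = 0 := by
      intro y hy
      rw [← sum_add_distrib]
      have h1 : ∀ z ∈ kp f a' x', (if z < y then (1 : ZMod 2) else 0) +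
          (if y < z then (1 : ZMod 2) else 0) = 1 := by
        intro z hz
        have hne : y ≠ z := by
          rintro rfl
          exact haa ((mem_kp.1 hy).1.symm.trans (mem_kp.1 hz).1)
        rcases lt_or_gt_of_ne hne with h2 | h2
        · rw [if_neg (not_lt.2 h2.le), if_pos h2, zero_add]
        · rw [if_pos h2, if_neg (not_lt.2 h2.le), add_zero]
      rw [sum_congr rfl h1, sum_const, card_kp hx' h']
      decide
    exact sum_eq_zero this
  have := eq_neg_of_add_eq_zero_left key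
  rwa [CharTwo.neg_eq] at this

theorem cc_sum (f : X → Λ) (r : Λ → J) {a a' : Λ} (hne : a ≠ a') (x' : X)
    (h : (fib f a).card = 3) : ∑ x ∈ fib f a, cc f r a a' x x' = 0 := by
  unfold cc
  simp only [if_neg hne]
  by_cases hr : r a = r a'
  swap
  · simp [hr]
  simp only [if_pos hr]
  have h1 : ∀ x ∈ fib f a, (∑ y ∈ kp f a x, ∑ z ∈ kp f a' x', (if z < y then (1 : ZMod 2) else 0)) =
      (∑ y ∈ fib f a, ∑ z ∈ kp f a' x', (if z < y then (1 : ZMod 2) else 0)) -
        ∑ z ∈ kp f a' x', (if z < x then (1 : ZMod 2) else 0) := by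
    intro x hx
    rw [kp, ← sum_erase_add _ _ hx, add_sub_cancel_right]
  rw [sum_congr rfl h1, sum_sub_distrib, sum_const, h]
  set T := ∑ y ∈ fib f a, ∑ z ∈ kp f a' x', (if z < y then (1 : ZMod 2) else 0)
  have : (3 : ℕ) • T - T = (T + T) := by
    rw [show (3 : ℕ) • T = T + T + T by
      rw [succ_nsmul, two_nsmul]]
    ring
  rw [this]
  exact z2 T

/-- product over all letters -/
def Pr (f : X → Λ) (r : Λ → J) (S : Finset Λ) (δ : S → X) (g : S → S) : ZMod 2 :=
  ∏ a : S, cc f r a (g a) (δ a) (δ (g a))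

/-- the choices -/
def P (f : X → Λ) (S : Finset Λ) : Finset (S → X) := Fintype.piFinset fun a : S => fib f a

theorem mem_P {f : X → Λ} {S : Finset Λ} {δ : S → X} : δ ∈ P f S ↔ ∀ a : S, f (δ a) = a := by
  simp [P, mem_fib]

theorem sum_update (f : X → Λ) (S : Finset Λ) (a₀ : S) (h : (fib f a₀).card = 3)
    (F : (S → X) → ZMod 2) :
    ∑ δ ∈ P f S, F δ = ∑ δ ∈ P f S, ∑ x ∈ fib f a₀, F (Function.update δ a₀ x) := by
  classical
  have h1 : ∑ δ ∈ P f S, ∑ x ∈ fib f a₀, F (Function.update δ a₀ x) =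
      ∑ p ∈ P f S ×ˢ fib f a₀, F (Function.update p.1 a₀ p.2) := by
    rw [sum_product]
  have h2 : ∑ p ∈ P f S ×ˢ fib f a₀, F (Function.update p.1 a₀ p.2) =
      ∑ p ∈ P f S ×ˢ fib f a₀, F p.1 := by
    have hm : ∀ p ∈ P f S ×ˢ fib f a₀, (Function.update p.1 a₀ p.2, p.1 a₀) ∈ P f S ×ˢ fib f a₀ := by
      intro p hp
      rw [mem_product] at hp ⊢
      obtain ⟨h3, h4⟩ := hp
      refine ⟨?_, ?_⟩
      · rw [mem_P] at h3 ⊢
        intro a
        by_cases ha : a = a₀
        · subst ha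
          simpa using mem_fib.1 h4
        · simpa [Function.update_of_ne ha] using h3 a
      · rw [mem_fib]
        exact mem_P.1 h3 a₀
    refine sum_bij' (fun p _ => (Function.update p.1 a₀ p.2, p.1 a₀))
      (fun p _ => (Function.update p.1 a₀ p.2, p.1 a₀)) hm hm ?_ ?_ ?_
    · intro p _
      simp
    · intro p _
      simp
    · intro p _
      rfl
  rw [h1, h2, sum_product]
  refine sum_congr rfl fun δ _ => ?_
  show F δ = ∑ _y ∈ fib f a₀, F δ
  rw [sum_const, h]
  rw [show (3 : ℕ) • F δ = F δ + F δ + F δ by rw [succ_nsmul, two_nsmul], z2, zero_add]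

theorem W_zero (f : X → Λ) (r : Λ → J) (S : Finset Λ) (hS : ∀ a ∈ S, (fib f a).card = 3)
    (g : S → S) (a₀ : S) (h0 : g a₀ ≠ a₀) (hb : ∀ b, g b = a₀ → b = g a₀) :
    ∑ δ ∈ P f S, Pr f r S δ g = 0 := by
  classical
  rw [sum_update f S a₀ (hS _ a₀.2)]
  refine sum_eq_zero fun δ hδ => ?_
  rw [mem_P] at hδ
  suffices h : ∃ K : ZMod 2, ∀ x ∈ fib f a₀, Pr f r S (Function.update δ a₀ x) g =
      cc f r a₀ (g a₀) x (δ (g a₀)) * K by
    obtain ⟨K, hK⟩ := h
    rw [sum_congr rfl hK, ← sum_mul, cc_sum f r (fun hh => h0 (Subtype.ext hh.symm)) _ (hS _ a₀.2),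
      zero_mul]
  have hbm : g a₀ ∈ (univ : Finset S).erase a₀ := by simp [h0]
  have hrest : ∀ x, ∀ a ∈ ((univ : Finset S).erase a₀).erase (g a₀),
      cc f r a (g a) (Function.update δ a₀ x a) (Function.update δ a₀ x (g a)) =
        cc f r a (g a) (δ a) (δ (g a)) := by
    intro x a ha
    simp only [mem_erase, mem_univ, and_true] at ha
    rw [Function.update_of_ne ha.2, Function.update_of_ne (fun hh => ha.1 (hb a hh))]
  have hsplit : ∀ x, Pr f r S (Function.update δ a₀ x) g =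
      cc f r a₀ (g a₀) x (δ (g a₀)) *
      (cc f r (g a₀) (g (g a₀)) (δ (g a₀)) (Function.update δ a₀ x (g (g a₀))) *
        ∏ a ∈ ((univ : Finset S).erase a₀).erase (g a₀), cc f r a (g a) (δ a) (δ (g a))) := by
    intro x
    unfold Pr
    rw [← mul_prod_erase _ _ (mem_univ a₀), ← mul_prod_erase _ _ hbm,
      prod_congr rfl (hrest x)]
    rw [Function.update_self, Function.update_of_ne h0]
  by_cases hgg : g (g a₀) = a₀
  · refine ⟨∏ a ∈ ((univ : Finset S).erase a₀).erase (g a₀), cc f r a (g a) (δ a) (δ (g a)), ?_⟩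
    intro x hx
    rw [hsplit, hgg, Function.update_self,
      cc_symm f r (hδ (g a₀)) (mem_fib.1 hx) (hS _ (g a₀).2) (hS _ a₀.2), ← mul_assoc, z2m]
  · refine ⟨cc f r (g a₀) (g (g a₀)) (δ (g a₀)) (δ (g (g a₀))) *
        ∏ a ∈ ((univ : Finset S).erase a₀).erase (g a₀), cc f r a (g a) (δ a) (δ (g a)),
        fun x hx => ?_⟩
    rw [hsplit, Function.update_of_ne hgg]

theorem total (f : X → Λ) (r : Λ → J) (S : Finset Λ) (hS : ∀ a ∈ S, (fib f a).card = 3) :
    ∑ δ ∈ P f S, ∏ a : S, ∑ a' : S, cc f r a a' (δ a) (δ a') = 1 := by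
  classical
  have h1 : ∀ δ ∈ P f S, ∏ a : S, ∑ a' : S, cc f r a a' (δ a) (δ a') = ∑ g : S → S, Pr f r S δ g := by
    intro δ _
    rw [prod_univ_sum, Fintype.piFinset_univ]
    rfl
  rw [sum_congr rfl h1, sum_comm]
  -- restrict to bijections
  have h2 : ∑ g : S → S, ∑ δ ∈ P f S, Pr f r S δ g =
      ∑ g ∈ (univ : Finset (S → S)).filter Function.Bijective, ∑ δ ∈ P f S, Pr f r S δ g := by
    symm
    apply sum_subset (filter_subset _ _)
    intro g _ hg
    simp only [mem_filter, mem_univ, true_and] at hg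
    have hg2 : ¬ Function.Surjective g := fun h => hg (Finite.surjective_iff_bijective.1 h)
    obtain ⟨a₀, ha₀⟩ := not_forall.1 hg2
    rw [not_exists] at ha₀
    exact W_zero f r S hS g a₀ (ha₀ a₀) (fun b hb => absurd hb (ha₀ b))
  have h3 : ∑ g ∈ (univ : Finset (S → S)).filter Function.Bijective, ∑ δ ∈ P f S, Pr f r S δ g =
      ∑ σ : Equiv.Perm S, ∑ δ ∈ P f S, Pr f r S δ σ := by
    refine sum_bij (fun g hg => Equiv.ofBijective g (mem_filter.1 hg).2) (fun _ _ => mem_univ _) ?_ ?_ ?_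
    · intro g₁ hg₁ g₂ hg₂ h
      have := congrArg (fun e : Equiv.Perm S => (e : S → S)) h
      simpa using this
    · intro σ _
      exact ⟨σ, by rw [mem_filter]; exact ⟨mem_univ _, σ.bijective⟩, by ext; simp⟩
    · intro g _
      rfl
  rw [h2, h3, ← add_sum_erase _ _ (mem_univ (1 : Equiv.Perm S))]
  have h4 : ∑ σ ∈ (univ : Finset (Equiv.Perm S)).erase 1, ∑ δ ∈ P f S, Pr f r S δ σ = 0 := by
    refine sum_involution (fun σ _ => σ⁻¹) ?_ ?_ ?_ ?_
    · intro σ _
      have : ∑ δ ∈ P f S, Pr f r S δ (σ⁻¹ : Equiv.Perm S) = ∑ δ ∈ P f S, Pr f r S δ σ := by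
        refine sum_congr rfl fun δ hδ => ?_
        rw [mem_P] at hδ
        unfold Pr
        rw [← Equiv.prod_comp σ]
        refine prod_congr rfl fun a _ => ?_
        rw [show (σ⁻¹ : Equiv.Perm S) (σ a) = a from σ.symm_apply_apply a]
        exact cc_symm f r (hδ _) (hδ _) (hS _ (σ a).2) (hS _ a.2)
      rw [this]
      exact z2 _
    · intro σ hσ hne heq
      apply hne
      obtain ⟨a₀, ha₀⟩ : ∃ a₀, σ a₀ ≠ a₀ := by
        by_contra hcon
        push Not at hcon
        exact (mem_erase.1 hσ).1 (Equiv.ext hcon)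
      have hss : ∀ b, σ (σ b) = b := by
        intro b
        have h7 : (σ⁻¹ : Equiv.Perm S) (σ b) = b := σ.symm_apply_apply b
        rwa [heq] at h7
      refine W_zero f r S hS σ a₀ ha₀ ?_
      intro b hb
      rw [← hb, hss]
    · intro σ hσ
      simp only [mem_erase, mem_univ, and_true, ne_eq, inv_eq_one] at hσ ⊢
      exact hσ
    · intro σ _
      exact inv_inv σ
  rw [h4, add_zero]
  have h5 : ∀ δ ∈ P f S, Pr f r S δ (1 : Equiv.Perm S) = 1 := by
    intro δ _
    unfold Pr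
    exact prod_eq_one fun a _ => by simp [cc]
  rw [sum_congr rfl h5, sum_const, P, Fintype.card_piFinset]
  have h6 : ∏ a : S, (fib f (a : Λ)).card = ∏ _a : S, 3 := prod_congr rfl fun a _ => hS a a.2
  rw [h6, prod_const]
  simp only [nsmul_eq_mul, mul_one]
  push_cast
  rw [show (3 : ZMod 2) = 1 by decide, one_pow]

/-- the set of deleted elements -/
def Zd (f : X → Λ) (S : Finset Λ) (δ : S → X) : Finset X :=
  univ.filter fun x => ∀ h : f x ∈ S, x = δ ⟨f x, h⟩

theorem mem_Zd {f : X → Λ} {S : Finset Λ} {δ : S → X} {x : X} :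
    x ∈ Zd f S δ ↔ ∀ h : f x ∈ S, x = δ ⟨f x, h⟩ := by simp [Zd]

theorem not_mem_Zd {f : X → Λ} {S : Finset Λ} {δ : S → X} {x : X} :
    x ∉ Zd f S δ ↔ ∃ h : f x ∈ S, x ≠ δ ⟨f x, h⟩ := by
  rw [mem_Zd]; push Not; rfl

theorem not_mem_Zd' {f : X → Λ} {S : Finset Λ} {δ : S → X} {x : X} (a : S) (hx : f x = a) :
    x ∉ Zd f S δ ↔ x ∈ kp f a (δ a) := by
  rw [not_mem_Zd, mem_kp]
  obtain ⟨a, ha⟩ := a
  subst hx
  simp [ha]

open Classical in
theorem rank_cast (f : X → Λ) (r : Λ → J) (S : Finset Λ) (δ : S → X) (y : X) :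
    (((univ.filter fun w => w ∉ Zd f S δ ∧ w < y ∧ r (f w) = r (f y)).card : ℕ) : ZMod 2) =
      ∑ a' : S, if r a' = r (f y) then ∑ z ∈ kp f a' (δ a'), (if z < y then (1 : ZMod 2) else 0)
        else 0 := by
  have h1 : (univ.filter fun w => w ∉ Zd f S δ ∧ w < y ∧ r (f w) = r (f y)).card =
      ∑ a' ∈ S, ((univ.filter fun w => w ∉ Zd f S δ ∧ w < y ∧ r (f w) = r (f y)).filter
        fun w => f w = a').card := by
    apply card_eq_sum_card_fiberwise
    intro w hw
    simp only [coe_filter, mem_univ, true_and, Set.mem_setOf_eq] at hw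
    exact (not_mem_Zd.1 hw.1).1
  rw [h1, ← sum_coe_sort S (fun a' => ((univ.filter fun w => w ∉ Zd f S δ ∧ w < y ∧
    r (f w) = r (f y)).filter fun w => f w = a').card)]
  push_cast
  refine sum_congr rfl fun a' _ => ?_
  split_ifs with hr
  · rw [sum_boole]
    congr 2
    ext w
    simp only [mem_filter, mem_univ, true_and]
    constructor
    · rintro ⟨⟨h2, h3, -⟩, h5⟩
      exact ⟨(not_mem_Zd' a' h5).1 h2, h3⟩
    · rintro ⟨h2, h3⟩
      have h5 := (mem_kp.1 h2).1
      exact ⟨⟨(not_mem_Zd' a' h5).2 h2, h3, by rw [h5, hr]⟩, h5⟩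
  · rw [card_eq_zero.2, Nat.cast_zero]
    rw [filter_eq_empty_iff]
    intro w hw hfw
    simp only [mem_filter, mem_univ, true_and] at hw
    exact hr (by rw [← hfw, hw.2.2])

theorem rank_sum (f : X → Λ) (r : Λ → J) (S : Finset Λ) (hS : ∀ a ∈ S, (fib f a).card = 3)
    (δ : S → X) (hδ : δ ∈ P f S) (a : S) {y y' : X} (hy : y ∈ kp f a (δ a)) (hy' : y' ∈ kp f a (δ a))
    (hne : y ≠ y') :
    (∑ a' : S, if r a' = r (f y) then ∑ z ∈ kp f a' (δ a'), (if z < y then (1 : ZMod 2) else 0)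
        else 0) +
      (∑ a' : S, if r a' = r (f y') then ∑ z ∈ kp f a' (δ a'), (if z < y' then (1 : ZMod 2) else 0)
        else 0) = ∑ a' : S, cc f r a a' (δ a) (δ a') := by
  classical
  have e1 := (mem_kp.1 hy).1
  have e2 := (mem_kp.1 hy').1
  rw [mem_P] at hδ
  have hk : kp f a (δ a) = {y, y'} := by
    symm
    apply eq_of_subset_of_card_le
    · intro z hz
      simp only [mem_insert, mem_singleton] at hz
      rcases hz with rfl | rfl
      · exact hy
      · exact hy'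
    · rw [card_kp (hδ a) (hS a a.2), card_pair hne]
  rw [← sum_add_distrib]
  refine sum_congr rfl fun a' _ => ?_
  rw [e1, e2]
  unfold cc
  by_cases haa : (a : Λ) = a'
  · have haa' : a = a' := Subtype.ext haa
    subst haa'
    simp only [if_true]
    rw [hk, sum_pair hne, sum_pair hne]
    rcases lt_or_gt_of_ne hne with h2 | h2
    · simp [h2, not_lt.2 h2.le]
    · simp [h2, not_lt.2 h2.le]
  · rw [if_neg haa]
    by_cases hr : r a = r a'
    · rw [if_pos hr, if_pos hr.symm, if_pos hr.symm, hk, sum_pair hne]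
    · rw [if_neg hr, if_neg (Ne.symm hr), if_neg (Ne.symm hr), add_zero]

/-- the condition on `Z` -/
def Cond (f : X → Λ) (r : Λ → J) (Z : Finset X) : Prop :=
  ∀ y, y ∉ Z → ∀ y', y' ∉ Z → f y = f y' → y ≠ y' →
    ((univ.filter fun w => w ∉ Z ∧ w < y ∧ r (f w) = r (f y)).card +
      (univ.filter fun w => w ∉ Z ∧ w < y' ∧ r (f w) = r (f y')).card) % 2 = 1

theorem cond_iff (f : X → Λ) (r : Λ → J) (S : Finset Λ) (hS : ∀ a ∈ S, (fib f a).card = 3)
    (δ : S → X) (hδ : δ ∈ P f S) :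
    Cond f r (Zd f S δ) ↔ ∀ a : S, ∑ a' : S, cc f r a a' (δ a) (δ a') = 1 := by
  have hmod : ∀ m : ℕ, m % 2 = 1 ↔ ((m : ℕ) : ZMod 2) = 1 := by
    intro m
    rw [← ZMod.natCast_eq_natCast_iff' m 1 2] 
    simp
  unfold Cond
  constructor
  · intro h a
    have hc : (kp f a (δ a)).card = 2 := card_kp (mem_P.1 hδ a) (hS a a.2)
    obtain ⟨y, y', hne, hk⟩ := card_eq_two.1 hc
    have hy : y ∈ kp f a (δ a) := by rw [hk]; simp
    have hy' : y' ∈ kp f a (δ a) := by rw [hk]; simp
    have e1 := (mem_kp.1 hy).1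
    have e2 := (mem_kp.1 hy').1
    have := h y ((not_mem_Zd' a e1).2 hy) y' ((not_mem_Zd' a e2).2 hy') (e1.trans e2.symm) hne
    rw [hmod, Nat.cast_add, rank_cast, rank_cast, rank_sum f r S hS δ hδ a hy hy' hne] at this
    exact this
  · intro h y hy y' hy' hff hne
    obtain ⟨h1, h2⟩ := not_mem_Zd.1 hy
    have hyk := (not_mem_Zd' (f := f) (δ := δ) (x := y) (⟨f y, h1⟩ : S) rfl).1 hy
    have hyk' := (not_mem_Zd' (f := f) (δ := δ) (x := y') (⟨f y, h1⟩ : S) hff.symm).1 hy'
    rw [hmod, Nat.cast_add, rank_cast, rank_cast,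
      rank_sum f r S hS δ hδ ⟨f y, h1⟩ hyk hyk' hne]
    exact h _

end

end SaxlX1

open Classical in
/-- TARGET -/
theorem crossing {X Λ J : Type*} [Fintype X] [LinearOrder X] [DecidableEq Λ] [DecidableEq J]
    (f : X → Λ) (r : Λ → J) (S : Finset Λ)
    (hS : ∀ a ∈ S, (univ.filter fun x => f x = a).card = 3) :
    Odd ((univ : Finset (Finset X)).filter fun Z =>
      (∀ x, f x ∉ S → x ∈ Z) ∧ (∀ a ∈ S, (Z.filter fun x => f x = a).card = 1) ∧
      ∀ y, y ∉ Z → ∀ y', y' ∉ Z → f y = f y' → y ≠ y' →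
        ((univ.filter fun w => w ∉ Z ∧ w < y ∧ r (f w) = r (f y)).card +
          (univ.filter fun w => w ∉ Z ∧ w < y' ∧ r (f w) = r (f y')).card) % 2 = 1).card := by
  have hS' : ∀ a ∈ S, (SaxlX1.fib f a).card = 3 := by
    intro a ha
    rw [← hS a ha]
    unfold SaxlX1.fib
    congr
  have key : ((univ : Finset (Finset X)).filter fun Z =>
      (∀ x, f x ∉ S → x ∈ Z) ∧ (∀ a ∈ S, (Z.filter fun x => f x = a).card = 1) ∧
      ∀ y, y ∉ Z → ∀ y', y' ∉ Z → f y = f y' → y ≠ y' →
        ((univ.filter fun w => w ∉ Z ∧ w < y ∧ r (f w) = r (f y)).card +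
          (univ.filter fun w => w ∉ Z ∧ w < y' ∧ r (f w) = r (f y')).card) % 2 = 1).card =
      ((SaxlX1.P f S).filter fun δ =>
        ∀ a : S, ∑ a' : S, SaxlX1.cc f r a a' (δ a) (δ a') = 1).card := by
    symm
    refine card_bij (fun δ _ => SaxlX1.Zd f S δ) ?_ ?_ ?_
    · intro δ hδ
      rw [mem_filter] at hδ
      have hP := SaxlX1.mem_P.1 hδ.1
      rw [mem_filter]
      refine ⟨mem_univ _, ?_, ?_, ?_⟩
      · intro x hx
        rw [SaxlX1.mem_Zd]
        exact fun h => absurd h hx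
      · intro a ha
        rw [card_eq_one]
        refine ⟨δ ⟨a, ha⟩, ?_⟩
        ext x
        rw [mem_filter, SaxlX1.mem_Zd, mem_singleton]
        constructor
        · rintro ⟨h1, rfl⟩
          exact h1 ha
        · intro hx
          have hfx : f x = a := by rw [hx]; exact hP ⟨a, ha⟩
          subst hfx
          exact ⟨fun _ => hx, rfl⟩
      · have := (SaxlX1.cond_iff f r S hS' δ hδ.1).2 hδ.2
        intro y hy y' hy' h1 h2
        have h3 := this y hy y' hy' h1 h2
        convert h3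
    · intro δ₁ h₁ δ₂ h₂ heq
      rw [mem_filter] at h₁ h₂
      have hP₁ := SaxlX1.mem_P.1 h₁.1
      have hP₂ := SaxlX1.mem_P.1 h₂.1
      funext a
      have hm : δ₁ a ∈ SaxlX1.Zd f S δ₁ := by
        rw [SaxlX1.mem_Zd]
        intro h
        congr 1
        exact Subtype.ext (hP₁ a).symm
      rw [heq, SaxlX1.mem_Zd] at hm
      have := hm (by rw [hP₁ a]; exact a.2)
      rw [this]
      congr 1
      exact Subtype.ext (hP₁ a)
    · intro Z hZ
      rw [mem_filter] at hZ
      obtain ⟨-, hZ1, hZ2, hZ3⟩ := hZ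
      have hch : ∀ a : S, ∃ x, (Z.filter fun x => f x = a) = {x} := fun a => card_eq_one.1 (hZ2 a a.2)
      choose δ hδ using hch
      have hmem : ∀ a : S, δ a ∈ Z ∧ f (δ a) = a := by
        intro a
        have : δ a ∈ (Z.filter fun x => f x = a) := by rw [hδ]; simp
        exact mem_filter.1 this
      have hZd : SaxlX1.Zd f S δ = Z := by
        ext x
        rw [SaxlX1.mem_Zd]
        constructor
        · intro h
          by_cases hx : f x ∈ S
          · rw [h hx]
            exact (hmem _).1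
          · exact hZ1 x hx
        · intro hxZ h
          have : x ∈ (Z.filter fun x' => f x' = ((⟨f x, h⟩ : S) : Λ)) := by
            rw [mem_filter]
            exact ⟨hxZ, rfl⟩
          rw [hδ] at this
          exact mem_singleton.1 this
      have hP : δ ∈ SaxlX1.P f S := SaxlX1.mem_P.2 fun a => (hmem a).2
      refine ⟨δ, ?_, hZd⟩
      rw [mem_filter]
      refine ⟨hP, ?_⟩
      rw [← SaxlX1.cond_iff f r S hS' δ hP, hZd]
      intro y hy y' hy' h1 h2
      have h3 := hZ3 y hy y' hy' h1 h2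
      convert h3
  rw [key, ← ZMod.natCast_ne_zero_iff_odd]
  have hcast : ((((SaxlX1.P f S).filter fun δ =>
      ∀ a : S, ∑ a' : S, SaxlX1.cc f r a a' (δ a) (δ a') = 1).card : ℕ) : ZMod 2) =
      ∑ δ ∈ SaxlX1.P f S, ∏ a : S, ∑ a' : S, SaxlX1.cc f r a a' (δ a) (δ a') := by
    rw [← sum_boole]
    refine sum_congr rfl fun δ _ => ?_
    split_ifs with h
    · exact (prod_eq_one fun a _ => h a).symm
    · obtain ⟨a, ha⟩ := not_forall.1 h
      symm
      apply prod_eq_zero (mem_univ a)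
      revert ha
      generalize (∑ a' : S, SaxlX1.cc f r a a' (δ a) (δ a')) = v
      revert v
      decide
  rw [hcast, SaxlX1.total f r S hS']
  decide

end Pool.Agent.Helper310_SaxlA
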