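import Mathlib
import Pool.Agent.Helper310_SaxlA.Crossing
import Pool.Agent.Helper310_SaxlA.Tab

/-!
# Parity for a grouping
-/

namespace Pool.Agent.Helper310_SaxlA

open Finset

section
variable {X : Type*} [Fintype X] [DecidableEq X]

end

theorem tp_cell_card (p t : ℕ → ℕ) (i j : ℕ) :
    (univ.filter fun ε : Fin 3 => cell p t i (j, ε)).card =
      (if j < p i then 1 else 0) + 2 * (if j < t i then 1 else 0) := by
  rw [Finset.card_filter, Fin.sum_univ_three]
  by_cases h1 : j < p i <;> by_cases h2 : j < t i <;> simp [cell, h1, h2]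

open Classical in
theorem tp_count_le {X : Type*} [Fintype X] [LinearOrder X] {p t : ℕ → ℕ} {D τ : X → ℕ}
    {s : X → ℕ × Fin 3} (h1 : ∀ x, (s x).1 = τ x) (hT : Tab p t D s) (i j : ℕ) :
    (univ.filter fun x => D x = i ∧ τ x = j).card ≤
      (if j < p i then 1 else 0) + 2 * (if j < t i then 1 else 0) := by
  rw [← tp_cell_card]
  apply Finset.card_le_card_of_injOn (fun x => (s x).2)
  · intro x hx
    have hx' := (Finset.mem_filter.1 (Finset.mem_coe.1 hx)).2
    refine Finset.mem_coe.2 (Finset.mem_filter.2 ⟨Finset.mem_univ _, ?_⟩)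
    have h2 := hT.2 x
    have e : s x = (j, (s x).2) := by
      rw [← hx'.2, ← h1 x]
    rw [hx'.1, e] at h2
    exact h2
  · intro x hx y hy hxy
    have hx' := (Finset.mem_filter.1 (Finset.mem_coe.1 hx)).2
    have hy' := (Finset.mem_filter.1 (Finset.mem_coe.1 hy)).2
    refine hT.1 x y (hx'.1.trans hy'.1.symm) (Prod.ext ?_ hxy)
    rw [h1, h1, hx'.2, hy'.2]

theorem tp_sum_range (N a : ℕ) (h : a ≤ N) : ∑ j ∈ range N, (if j < a then 1 else 0) = a := by
  rw [← Finset.card_filter]
  have e : (range N).filter (fun j => j < a) = range a := by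
    ext j
    simp only [Finset.mem_filter, Finset.mem_range]
    omega
  rw [e, Finset.card_range]

theorem tp_le_sum (p : ℕ → ℕ) (M : ℕ) (hM : ∀ i, M ≤ i → p i = 0) (i : ℕ) :
    p i ≤ ∑ k ∈ range M, p k := by
  by_cases h : i < M
  · exact Finset.single_le_sum (f := p) (fun _ _ => Nat.zero_le _) (Finset.mem_range.2 h)
  · rw [hM i (not_lt.1 h)]
    exact Nat.zero_le _

open Classical in
/-- the numbers of elements of the letters -/
theorem tp_count_eq {X : Type*} [Fintype X] [LinearOrder X] {p t : ℕ → ℕ}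
    (htp : ∀ i, t i ≤ p i) {M : ℕ} (hM : ∀ i, M ≤ i → p i = 0)
    (hcard : Fintype.card X = ∑ i ∈ range M, (p i + 2 * t i)) {D τ : X → ℕ}
    {s : X → ℕ × Fin 3} (h1 : ∀ x, (s x).1 = τ x) (hT : Tab p t D s) (i j : ℕ) :
    (univ.filter fun x => D x = i ∧ τ x = j).card =
      (if j < p i then 1 else 0) + 2 * (if j < t i then 1 else 0) := by
  obtain ⟨N, hN⟩ : ∃ N, N = ∑ k ∈ range M, p k := ⟨_, rfl⟩
  have hpN : ∀ i, p i ≤ N := fun i => by rw [hN]; exact tp_le_sum p M hM i
  have hx1 : ∀ x, τ x < p (D x) := by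
    intro x
    have h2 := hT.2 x
    unfold cell at h2
    rw [h1] at h2
    split_ifs at h2
    · exact h2
    · exact lt_of_lt_of_le h2 (htp _)
  have hx2 : ∀ x, D x < M := by
    intro x
    by_contra h
    have := hx1 x
    rw [hM _ (not_lt.1 h)] at this
    omega
  have hsum : Fintype.card X = ∑ b ∈ range M ×ˢ range N,
      (univ.filter fun x => (D x, τ x) = b).card := by
    rw [← Finset.card_univ]
    refine Finset.card_eq_sum_card_fiberwise fun x _ => ?_
    rw [Finset.mem_coe, Finset.mem_product, Finset.mem_range, Finset.mem_range]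
    exact ⟨hx2 x, lt_of_lt_of_le (hx1 x) (hpN _)⟩
  have e0 : ∀ b : ℕ × ℕ, (univ.filter fun x => (D x, τ x) = b) =
      univ.filter fun x => D x = b.1 ∧ τ x = b.2 := by
    intro b
    refine Finset.filter_congr fun x _ => ?_
    rw [Prod.ext_iff]
  have hsum2 : ∑ b ∈ range M ×ˢ range N, (univ.filter fun x => D x = b.1 ∧ τ x = b.2).card =
      ∑ b ∈ range M ×ˢ range N,
        ((if b.2 < p b.1 then 1 else 0) + 2 * (if b.2 < t b.1 then 1 else 0)) := by
    have e00 : ∑ b ∈ range M ×ˢ range N, (univ.filter fun x => D x = b.1 ∧ τ x = b.2).card =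
        ∑ b ∈ range M ×ˢ range N, (univ.filter fun x => (D x, τ x) = b).card :=
      Finset.sum_congr rfl fun b _ => by rw [e0 b]
    rw [e00, ← hsum, hcard, Finset.sum_product]
    refine Finset.sum_congr rfl fun i _ => ?_
    show p i + 2 * t i = ∑ j ∈ range N, ((if j < p i then 1 else 0) + 2 * (if j < t i then 1 else 0))
    rw [Finset.sum_add_distrib, ← Finset.mul_sum, tp_sum_range N (p i) (hpN i),
      tp_sum_range N (t i) ((htp i).trans (hpN i))]
  have hle : ∀ b ∈ range M ×ˢ range N, (univ.filter fun x => D x = b.1 ∧ τ x = b.2).card ≤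
      (if b.2 < p b.1 then 1 else 0) + 2 * (if b.2 < t b.1 then 1 else 0) :=
    fun b _ => tp_count_le h1 hT b.1 b.2
  have heq := (Finset.sum_eq_sum_iff_of_le hle).1 hsum2
  by_cases hij : i < M ∧ j < N
  · exact heq (i, j) (Finset.mem_product.2 ⟨Finset.mem_range.2 hij.1, Finset.mem_range.2 hij.2⟩)
  · have h3 : p i ≤ j := by
      by_cases hi : i < M
      · have : ¬ j < N := fun h => hij ⟨hi, h⟩
        exact (hpN i).trans (not_lt.1 this)
      · rw [hM i (not_lt.1 hi)]
        exact Nat.zero_le _
    have h4 := htp i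
    rw [if_neg (by omega), if_neg (by omega)]
    refine Finset.card_eq_zero.2 (Finset.filter_eq_empty_iff.2 fun x _ hx => ?_)
    have h5 := hx1 x
    rw [hx.1, hx.2] at h5
    omega

open Classical in
/-- the rank of an element outside `Z` -/
noncomputable def tpRk {X : Type*} [Fintype X] [LinearOrder X] (τ : X → ℕ) (Z : Finset X)
    (x : X) : ℕ := (univ.filter fun w => w ∉ Z ∧ w < x ∧ τ w = τ x).card

open Classical in
/-- the tableau of `Z` -/
noncomputable def tpS {X : Type*} [Fintype X] [LinearOrder X] (τ : X → ℕ) (Z : Finset X)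
    (x : X) : ℕ × Fin 3 := (τ x, if x ∈ Z then 0 else if Even (tpRk τ Z x) then 1 else 2)

theorem tpS_fst {X : Type*} [Fintype X] [LinearOrder X] (τ : X → ℕ) (Z : Finset X) (x : X) :
    (tpS τ Z x).1 = τ x := rfl

theorem tpS_ne {X : Type*} [Fintype X] [LinearOrder X] (τ : X → ℕ) (Z : Finset X) (x : X) :
    (tpS τ Z x).2 ≠ 0 ↔ x ∉ Z := by
  unfold tpS
  by_cases h : x ∈ Z
  · simp [h]
  · by_cases h2 : Even (tpRk τ Z x) <;> simp [h, h2]

theorem tpS_eq {X : Type*} [Fintype X] [LinearOrder X] (τ : X → ℕ) (Z : Finset X) (x : X) :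
    (tpS τ Z x).2 = 0 ↔ x ∈ Z := by
  have := tpS_ne τ Z x
  tauto

theorem tpS_one {X : Type*} [Fintype X] [LinearOrder X] (τ : X → ℕ) (Z : Finset X) (x : X)
    (hx : x ∉ Z) : (tpS τ Z x).2 = 1 ↔ Even (tpRk τ Z x) := by
  unfold tpS
  by_cases h2 : Even (tpRk τ Z x) <;> simp [hx, h2]

theorem tpS_two {X : Type*} [Fintype X] [LinearOrder X] (τ : X → ℕ) (Z : Finset X) (x : X)
    (hx : x ∉ Z) : (tpS τ Z x).2 = 2 ↔ ¬ Even (tpRk τ Z x) := by
  unfold tpS
  by_cases h2 : Even (tpRk τ Z x) <;> simp [hx, h2]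

theorem tp_fin3 (ε : Fin 3) : ε = 0 ∨ ε = 1 ∨ ε = 2 := by
  fin_cases ε <;> simp

theorem tp_alt {X : Type*} [Fintype X] [LinearOrder X] (τ : X → ℕ) (Z : Finset X) :
    Alt (tpS τ Z) := by
  intro x hx
  rw [tpS_one τ Z x ((tpS_ne τ Z x).1 hx)]
  unfold tpRk
  have e : (univ.filter fun w => w ∉ Z ∧ w < x ∧ τ w = τ x) =
      univ.filter fun y => y < x ∧ (tpS τ Z y).1 = (tpS τ Z x).1 ∧ (tpS τ Z y).2 ≠ 0 := by
    refine Finset.filter_congr fun y _ => ?_
    rw [tpS_ne, tpS_fst, tpS_fst]
    tauto
  have e2 := congrArg Finset.card e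
  rw [show (univ.filter fun w => w ∉ Z ∧ w < x ∧ τ w = τ x).card = _ from e2]

open Classical in
/-- the two descriptions agree -/
theorem tp_bij {X : Type*} [Fintype X] [LinearOrder X] (p t : ℕ → ℕ)
    (htp : ∀ i, t i ≤ p i) (D τ : X → ℕ) (S : Finset (ℕ × ℕ)) (hS : ∀ a, a ∈ S ↔ a.2 < t a.1)
    (hc : ∀ i j, (univ.filter fun x => D x = i ∧ τ x = j).card =
        (if j < p i then 1 else 0) + 2 * (if j < t i then 1 else 0)) :
    ((Fintype.piFinset fun x : X => ({τ x} : Finset ℕ) ×ˢ (univ : Finset (Fin 3))).filter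
      fun s => Alt s ∧ Tab p t D s).card =
    ((univ : Finset (Finset X)).filter fun Z =>
      (∀ x, (D x, τ x) ∉ S → x ∈ Z) ∧ (∀ a ∈ S, (Z.filter fun x => (D x, τ x) = a).card = 1) ∧
      ∀ y, y ∉ Z → ∀ y', y' ∉ Z → (D y, τ y) = (D y', τ y') → y ≠ y' →
        (tpRk τ Z y + tpRk τ Z y') % 2 = 1).card := by
  refine Finset.card_bij' (fun s _ => univ.filter fun x => (s x).2 = 0) (fun Z _ => tpS τ Z)
    ?_ ?_ ?_ ?_
  · -- from s to Z
    intro s hs
    obtain ⟨hs1, hAlt, hTab⟩ := Finset.mem_filter.1 hs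
    have h1 : ∀ x, (s x).1 = τ x := by
      intro x
      have := Fintype.mem_piFinset.1 hs1 x
      rw [Finset.mem_product, Finset.mem_singleton] at this
      exact this.1
    have hZ : ∀ x, x ∈ (univ.filter fun x => (s x).2 = 0) ↔ (s x).2 = 0 := fun x => by simp
    have hrk : ∀ x, tpRk τ (univ.filter fun x => (s x).2 = 0) x =
        (univ.filter fun y => y < x ∧ (s y).1 = (s x).1 ∧ (s y).2 ≠ 0).card := by
      intro x
      unfold tpRk
      refine congrArg Finset.card (Finset.filter_congr fun y _ => ?_)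
      rw [hZ, h1, h1]
      tauto
    refine Finset.mem_filter.2 ⟨Finset.mem_univ _, ?_, ?_, ?_⟩
    · intro x hx
      rw [hZ]
      by_contra h0
      apply hx
      rw [hS]
      have h2 := hTab.2 x
      unfold cell at h2
      rw [if_neg h0, h1] at h2
      exact h2
    · intro a ha
      have ha' := (hS a).1 ha
      have hca := hc a.1 a.2
      rw [if_pos (lt_of_lt_of_le ha' (htp _)), if_pos ha'] at hca
      have hinj : Set.InjOn (fun x => (s x).2)
          ((univ.filter fun x => D x = a.1 ∧ τ x = a.2 : Finset X) : Set X) := by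
        intro x hx y hy hxy
        have hx' := (Finset.mem_filter.1 (Finset.mem_coe.1 hx)).2
        have hy' := (Finset.mem_filter.1 (Finset.mem_coe.1 hy)).2
        refine hTab.1 x y (hx'.1.trans hy'.1.symm) (Prod.ext ?_ hxy)
        rw [h1, h1, hx'.2, hy'.2]
      have himg : (univ.filter fun x => D x = a.1 ∧ τ x = a.2).image (fun x => (s x).2) =
          (univ : Finset (Fin 3)) := by
        refine Finset.eq_univ_of_card _ ?_
        rw [Finset.card_image_of_injOn hinj, hca, Fintype.card_fin]
      obtain ⟨x, hx, hx0⟩ := Finset.mem_image.1 (himg ▸ Finset.mem_univ (0 : Fin 3))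
      rw [Finset.card_eq_one]
      refine ⟨x, ?_⟩
      ext y
      rw [Finset.mem_filter, Finset.mem_singleton, hZ]
      constructor
      · rintro ⟨hy0, hya⟩
        rw [Prod.ext_iff] at hya
        refine hinj (Finset.mem_coe.2 (Finset.mem_filter.2 ⟨Finset.mem_univ _, hya⟩))
          (Finset.mem_coe.2 hx) ?_
        show (s y).2 = (s x).2
        rw [hy0]
        exact hx0.symm
      · rintro rfl
        refine ⟨hx0, ?_⟩
        rw [Prod.ext_iff]
        exact (Finset.mem_filter.1 hx).2
    · intro y hy y' hy' hf hne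
      rw [hZ] at hy hy'
      rw [hrk, hrk]
      rw [Prod.ext_iff] at hf
      have h2 : (s y).2 ≠ (s y').2 := by
        intro h
        refine hne (hTab.1 y y' hf.1 (Prod.ext ?_ h))
        rw [h1, h1]
        exact hf.2
      have a1 := hAlt y hy
      have a2 := hAlt y' hy'
      have b1 := tp_fin3 (s y).2
      have b2 := tp_fin3 (s y').2
      rcases b1 with b1 | b1 | b1
      · exact absurd b1 hy
      · rcases b2 with b2 | b2 | b2
        · exact absurd b2 hy'
        · exact absurd (b1.trans b2.symm) h2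
        · have c1 := a1.1 b1
          have c2 : ¬ Even (univ.filter fun z => z < y' ∧ (s z).1 = (s y').1 ∧
            (s z).2 ≠ 0).card := by
            intro h
            have := a2.2 h
            rw [b2] at this
            exact absurd this (by decide)
          rw [Nat.even_iff] at c1 c2
          omega
      · rcases b2 with b2 | b2 | b2
        · exact absurd b2 hy'
        · have c1 : ¬ Even (univ.filter fun z => z < y ∧ (s z).1 = (s y).1 ∧
            (s z).2 ≠ 0).card := by
            intro h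
            have := a1.2 h
            rw [b1] at this
            exact absurd this (by decide)
          have c2 := a2.1 b2
          rw [Nat.even_iff] at c1 c2
          omega
        · exact absurd (b1.trans b2.symm) h2
  · -- from Z to s
    intro Z hZ
    obtain ⟨-, hZ1, hZ2, hZ3⟩ := Finset.mem_filter.1 hZ
    refine Finset.mem_filter.2 ⟨?_, tp_alt τ Z, ?_, ?_⟩
    · rw [Fintype.mem_piFinset]
      intro x
      rw [Finset.mem_product, Finset.mem_singleton]
      exact ⟨rfl, Finset.mem_univ _⟩
    · intro x y hD hs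
      have hτ : τ x = τ y := congrArg Prod.fst hs
      have hε : (tpS τ Z x).2 = (tpS τ Z y).2 := congrArg Prod.snd hs
      by_contra hne
      by_cases hx : x ∈ Z
      · have hy : y ∈ Z := by
          rw [← tpS_eq τ Z, ← hε, tpS_eq]
          exact hx
        by_cases ha : (D x, τ x) ∈ S
        · obtain ⟨z, hz⟩ := Finset.card_eq_one.1 (hZ2 _ ha)
          have m1 : x ∈ Z.filter fun w => (D w, τ w) = (D x, τ x) :=
            Finset.mem_filter.2 ⟨hx, rfl⟩
          have m2 : y ∈ Z.filter fun w => (D w, τ w) = (D x, τ x) :=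
            Finset.mem_filter.2 ⟨hy, by rw [hD, hτ]⟩
          rw [hz, Finset.mem_singleton] at m1 m2
          exact hne (m1.trans m2.symm)
        · have hc1 := hc (D x) (τ x)
          rw [hS] at ha
          rw [if_neg (show ¬ τ x < t (D x) from ha)] at hc1
          have hc2 : (univ.filter fun w => D w = D x ∧ τ w = τ x).card ≤ 1 := by
            rw [hc1]
            split_ifs <;> simp
          exact hne (Finset.card_le_one.1 hc2 x (by simp) y (by simp [hD, hτ]))
      · have hy : y ∉ Z := by
          rw [← tpS_ne τ Z, ← hε, tpS_ne]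
          exact hx
        have h3 := hZ3 x hx y hy (by rw [hD, hτ]) hne
        have hxy : Even (tpRk τ Z x) ↔ Even (tpRk τ Z y) := by
          rw [← tpS_one τ Z x hx, ← tpS_one τ Z y hy, hε]
        rw [Nat.even_iff, Nat.even_iff] at hxy
        omega
    · intro x
      unfold cell
      by_cases hx : x ∈ Z
      · rw [if_pos ((tpS_eq τ Z x).2 hx), tpS_fst]
        by_contra hcon
        have hc1 := hc (D x) (τ x)
        have h4 := htp (D x)
        rw [if_neg hcon, if_neg (by omega)] at hc1
        have hc2 : (univ.filter fun w => D w = D x ∧ τ w = τ x) = ∅ := by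
          rw [← Finset.card_eq_zero, hc1]
        have : x ∈ (univ.filter fun w => D w = D x ∧ τ w = τ x) := by simp
        rw [hc2] at this
        exact absurd this (Finset.notMem_empty _)
      · rw [if_neg ((tpS_ne τ Z x).2 hx), tpS_fst]
        by_contra hcon
        refine hx (hZ1 x ?_)
        rw [hS]
        exact hcon
  · -- left inverse
    intro s hs
    obtain ⟨hs1, hAlt, hTab⟩ := Finset.mem_filter.1 hs
    have h1 : ∀ x, (s x).1 = τ x := by
      intro x
      have := Fintype.mem_piFinset.1 hs1 x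
      rw [Finset.mem_product, Finset.mem_singleton] at this
      exact this.1
    have hZ : ∀ x, x ∈ (univ.filter fun x => (s x).2 = 0) ↔ (s x).2 = 0 := fun x => by simp
    have hrk : ∀ x, tpRk τ (univ.filter fun x => (s x).2 = 0) x =
        (univ.filter fun y => y < x ∧ (s y).1 = (s x).1 ∧ (s y).2 ≠ 0).card := by
      intro x
      unfold tpRk
      refine congrArg Finset.card (Finset.filter_congr fun y _ => ?_)
      rw [hZ, h1, h1]
      tauto
    funext x
    refine Prod.ext (h1 x).symm ?_
    show (tpS τ (univ.filter fun x => (s x).2 = 0) x).2 = (s x).2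
    by_cases h0 : (s x).2 = 0
    · rw [h0, tpS_eq, hZ]
      exact h0
    · have hx : x ∉ (univ.filter fun x => (s x).2 = 0) := by
        rw [hZ]
        exact h0
      have a1 := hAlt x h0
      rcases tp_fin3 (s x).2 with b | b | b
      · exact absurd b h0
      · rw [b, tpS_one τ _ x hx, hrk]
        exact a1.1 b
      · rw [b, tpS_two τ _ x hx, hrk]
        intro h
        have := a1.2 h
        rw [b] at this
        exact absurd this (by decide)
  · -- right inverse
    intro Z hZ
    ext x
    rw [Finset.mem_filter, tpS_eq]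
    simp

open Classical in
/-- TARGET -/
theorem tau_parity {X : Type*} [Fintype X] [LinearOrder X] (p t : ℕ → ℕ)
    (htp : ∀ i, t i ≤ p i) (M : ℕ) (hM : ∀ i, M ≤ i → p i = 0)
    (hcard : Fintype.card X = ∑ i ∈ range M, (p i + 2 * t i)) (D τ : X → ℕ) :
    ((((Fintype.piFinset fun x : X => ({τ x} : Finset ℕ) ×ˢ (univ : Finset (Fin 3))).filter
      fun s => Alt s ∧ Tab p t D s).card : ℕ) : ZMod 2) =
      if (∀ i j, (univ.filter fun x => D x = i ∧ τ x = j).card =
        (if j < p i then 1 else 0) + 2 * (if j < t i then 1 else 0)) then 1 else 0 := by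
  by_cases hc : ∀ i j, (univ.filter fun x => D x = i ∧ τ x = j).card =
        (if j < p i then 1 else 0) + 2 * (if j < t i then 1 else 0)
  · rw [if_pos hc]
    obtain ⟨N, hN⟩ : ∃ N, N = ∑ k ∈ range M, p k := ⟨_, rfl⟩
    have hpN : ∀ i, p i ≤ N := fun i => by rw [hN]; exact tp_le_sum p M hM i
    obtain ⟨S, hSdef⟩ : ∃ S : Finset (ℕ × ℕ), S = (range M ×ˢ range N).filter
      fun a => a.2 < t a.1 := ⟨_, rfl⟩
    have hS : ∀ a, a ∈ S ↔ a.2 < t a.1 := by
      intro a
      rw [hSdef, Finset.mem_filter, Finset.mem_product, Finset.mem_range, Finset.mem_range]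
      refine ⟨fun h => h.2, fun h => ⟨⟨?_, ?_⟩, h⟩⟩
      · by_contra hcon
        have h2 := htp a.1
        rw [hM a.1 (not_lt.1 hcon)] at h2
        omega
      · exact lt_of_lt_of_le h ((htp _).trans (hpN _))
    rw [tp_bij p t htp D τ S hS hc]
    have h3 : ∀ a ∈ S, (univ.filter fun x => (D x, τ x) = a).card = 3 := by
      intro a ha
      have ha' := (hS a).1 ha
      have hca := hc a.1 a.2
      rw [if_pos (lt_of_lt_of_le ha' (htp _)), if_pos ha'] at hca
      rw [show (3 : ℕ) = 1 + 2 * 1 from rfl, ← hca]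
      refine congrArg Finset.card (Finset.filter_congr fun x _ => ?_)
      rw [Prod.ext_iff]
    have h4 := crossing (fun x : X => (D x, τ x)) (Prod.snd : ℕ × ℕ → ℕ) S h3
    rw [ZMod.natCast_eq_one_iff_odd]
    convert h4 <;> (unfold tpRk; congr 1)
  · rw [if_neg hc]
    rw [Finset.filter_eq_empty_iff.2, Finset.card_empty, Nat.cast_zero]
    rintro s hs1 ⟨-, hTab⟩
    apply hc
    have h1 : ∀ x, (s x).1 = τ x := by
      intro x
      have := Fintype.mem_piFinset.1 hs1 x
      rw [Finset.mem_product, Finset.mem_singleton] at this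
      exact this.1
    exact tp_count_eq htp hM hcard h1 hTab

end Pool.Agent.Helper310_SaxlA
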