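import Mathlib
import Pool.Agent.Helper310_SaxlA.TauParity
import Pool.Agent.Helper310_SaxlA.Tab

/-!
# Parity for a family
-/

namespace Pool.Agent.Helper310_SaxlA

open Finset

section
variable {X : Type*} [Fintype X] [DecidableEq X]

end

theorem fam_parity_sum (N a b : ℕ) (ha : a ≤ N) (hb : b ≤ N) :
    ∑ j ∈ range N, ((if j < a then 1 else 0) + 2 * (if j < b then 1 else 0)) = a + 2 * b := by
  have h : ∀ c, c ≤ N → ∑ j ∈ range N, (if j < c then 1 else 0) = c := by
    intro c hc
    rw [← sum_filter]
    have : (range N).filter (fun j => j < c) = range c := by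
      ext j
      simp only [mem_filter, mem_range]
      omega
    rw [this]
    simp
  rw [sum_add_distrib, ← mul_sum, h a ha, h b hb]

theorem fam_parity_key {X : Type*} [Fintype X] [DecidableEq X] (N : ℕ) (p t : ℕ → ℕ)
    (htp : ∀ i, t i ≤ p i) (hN : ∀ i, p i ≤ N) (M : ℕ) (hM : ∀ i, M ≤ i → p i = 0)
    (hcard : Fintype.card X = ∑ i ∈ range M, (p i + 2 * t i)) (D τ : X → ℕ)
    (hτ : ∀ x, τ x ∈ range N)
    (h2 : ∀ j ∈ range N, ∀ x0, (univ.filter fun x => D x = D x0 ∧ τ x = j).card =
        (if j < p (D x0) then 1 else 0) + 2 * (if j < t (D x0) then 1 else 0))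
    (i : ℕ) (hi : i ∉ univ.image D) : p i + 2 * t i = 0 := by
  have h3 : Fintype.card X = ∑ i ∈ univ.image D, (p i + 2 * t i) := by
    rw [← card_univ, card_eq_sum_card_image D univ]
    refine sum_congr rfl fun i hi => ?_
    obtain ⟨x0, -, rfl⟩ := mem_image.1 hi
    rw [← fam_parity_sum N (p (D x0)) (t (D x0)) (hN _) ((htp _).trans (hN _)),
      card_eq_sum_card_fiberwise (f := τ) (t := range N) (fun x _ => hτ x)]
    refine sum_congr rfl fun j hj => ?_
    rw [← h2 j hj x0, filter_filter]
  by_contra hne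
  have hiM : i ∈ range M := by
    rw [mem_range]
    by_contra hlt
    push Not at hlt
    have h4 := hM i hlt
    have h5 := htp i
    omega
  have h6 : ∑ i ∈ univ.image D, (p i + 2 * t i) < ∑ i ∈ range M, (p i + 2 * t i) := by
    calc ∑ i ∈ univ.image D, (p i + 2 * t i)
        = ∑ i ∈ (univ.image D).filter (fun i => i ∈ range M), (p i + 2 * t i) := by
          symm
          refine sum_subset (filter_subset _ _) fun k hk hk' => ?_
          have hkM : k ∉ range M := fun h => hk' (mem_filter.2 ⟨hk, h⟩)
          rw [mem_range] at hkM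
          push Not at hkM
          have h4 := hM k hkM
          have h5 := htp k
          omega
      _ < ∑ i ∈ range M, (p i + 2 * t i) := by
          refine sum_lt_sum_of_subset (i := i) (fun k hk => (mem_filter.1 hk).2) hiM ?_ ?_ ?_
          · intro h
            exact hi (mem_filter.1 h).1
          · omega
          · intro _ _ _
            exact Nat.zero_le _
  rw [← h3, ← hcard] at h6
  exact lt_irrefl _ h6

theorem fam_parity_iff {X : Type*} [Fintype X] [DecidableEq X] (N : ℕ) (p t : ℕ → ℕ)
    (htp : ∀ i, t i ≤ p i) (hN : ∀ i, p i ≤ N) (M : ℕ) (hM : ∀ i, M ≤ i → p i = 0)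
    (hcard : Fintype.card X = ∑ i ∈ range M, (p i + 2 * t i)) (D τ : X → ℕ)
    (hτ : ∀ x, τ x ∈ range N) :
    (∀ i j, (univ.filter fun x => D x = i ∧ τ x = j).card =
        (if j < p i then 1 else 0) + 2 * (if j < t i then 1 else 0)) ↔
    (∀ j ∈ range N, ∀ x0, (univ.filter fun x => D x = D x0 ∧ τ x = j).card =
        (if j < p (D x0) then 1 else 0) + 2 * (if j < t (D x0) then 1 else 0)) := by
  constructor
  · intro h j _ x0
    exact h (D x0) j
  · intro h2 i j
    by_cases hj : j ∈ range N
    · by_cases hi : i ∈ univ.image D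
      · obtain ⟨x0, -, rfl⟩ := mem_image.1 hi
        exact h2 j hj x0
      · have h3 := fam_parity_key N p t htp hN M hM hcard D τ hτ h2 i hi
        have h4 : (univ.filter fun x => D x = i ∧ τ x = j) = ∅ := by
          rw [filter_eq_empty_iff]
          rintro x - ⟨hx, -⟩
          exact hi (mem_image.2 ⟨x, mem_univ _, hx⟩)
        rw [h4, card_empty, if_neg (by omega), if_neg (by omega)]
    · rw [mem_range] at hj
      have h5 := htp i
      have h6 := hN i
      have h4 : (univ.filter fun x => D x = i ∧ τ x = j) = ∅ := by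
        rw [filter_eq_empty_iff]
        rintro x - ⟨-, hx⟩
        have := mem_range.1 (hτ x)
        omega
      rw [h4, card_empty, if_neg (by omega), if_neg (by omega)]

/-- TARGET -/
theorem fam_parity {X : Type*} [Fintype X] [LinearOrder X] (N : ℕ) (p t : ℕ → ℕ)
    (htp : ∀ i, t i ≤ p i) (hN : ∀ i, p i ≤ N) (M : ℕ) (hM : ∀ i, M ≤ i → p i = 0)
    (hcard : Fintype.card X = ∑ i ∈ range M, (p i + 2 * t i)) (D A : X → ℕ)
    (P : ℕ → ℕ → ℕ) :
    (((fam N A P).filter fun s => Tab p t D s).card : ZMod 2) =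
      ((groupings N p t D A P).card : ZMod 2) := by
  classical
  have hmaps : ∀ s ∈ (fam N A P).filter fun s => Tab p t D s,
      (fun x => (s x).1) ∈ Fintype.piFinset fun _ : X => range N := by
    intro s hs
    have h1 := (mem_filter.1 (mem_filter.1 hs).1).1
    rw [Fintype.mem_piFinset] at h1 ⊢
    intro x
    exact (mem_product.1 (h1 x)).1
  rw [card_eq_sum_card_fiberwise (f := fun (s : X → ℕ × Fin 3) (x : X) => (s x).1) hmaps]
  unfold groupings
  rw [card_filter]
  push_cast
  refine sum_congr rfl fun τ hτ => ?_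
  have hτ' : ∀ x, τ x ∈ range N := Fintype.mem_piFinset.1 hτ
  by_cases hA : ∀ j ∈ range N, ∀ x0, (univ.filter fun x => A x = A x0 ∧ τ x = j).card = P (A x0) j
  · have h1 : (((fam N A P).filter fun s => Tab p t D s).filter fun s => (fun x => (s x).1) = τ)
        = ((Fintype.piFinset fun x : X => ({τ x} : Finset ℕ) ×ˢ (univ : Finset (Fin 3))).filter
      fun s => Alt s ∧ Tab p t D s) := by
      ext s
      simp only [fam, mem_filter, Fintype.mem_piFinset, mem_product, mem_univ, and_true,
        mem_singleton]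
      constructor
      · rintro ⟨⟨⟨h1, h2, h3⟩, h4⟩, rfl⟩
        exact ⟨fun x => rfl, h3, h4⟩
      · rintro ⟨h1, h3, h4⟩
        have h5 : (fun x => (s x).1) = τ := funext h1
        subst h5
        exact ⟨⟨⟨hτ', hA, h3⟩, h4⟩, rfl⟩
    rw [h1]
    have h2 := tau_parity p t htp M hM hcard D τ
    have h3 := fam_parity_iff N p t htp hN M hM hcard D τ hτ'
    by_cases h4 : (∀ j ∈ range N, ∀ x0, (univ.filter fun x => D x = D x0 ∧ τ x = j).card =
        (if j < p (D x0) then 1 else 0) + 2 * (if j < t (D x0) then 1 else 0))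
    · rw [if_pos ⟨hA, h4⟩]
      rw [if_pos (h3.2 h4)] at h2
      convert h2
    · rw [if_neg (fun h => h4 h.2)]
      rw [if_neg (fun h => h4 (h3.1 h))] at h2
      convert h2
  · rw [if_neg (fun h => hA h.1)]
    have h1 : (((fam N A P).filter fun s => Tab p t D s).filter fun s => (fun x => (s x).1) = τ)
        = ∅ := by
      rw [filter_eq_empty_iff]
      rintro s hs rfl
      exact hA (mem_filter.1 (mem_filter.1 hs).1).2.1
    rw [h1]
    simp

end Pool.Agent.Helper310_SaxlA
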