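import Mathlib
import Pool.Agent.Helper310_Saxl.Young

/-!
# Column antisymmetrisation
-/

namespace Pool.Agent.Helper310_SaxlA

open Finset Equiv Pool.Agent.Helper310_Saxl

namespace H424

variable {X : Type*} [Fintype X] [DecidableEq X] {κ : Type*} [DecidableEq κ]

lemma supp_mem_iff {S : Finset X} {g : Perm X} (hg : g ∈ supp S) (x : X) : g x ∈ S ↔ x ∈ S := by
  have h := mem_supp.1 hg
  constructor
  · intro hx
    by_contra hcon
    rw [h x hcon] at hx
    exact hcon hx
  · intro hx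
    by_contra hcon
    have h2 := g.injective (h _ hcon)
    rw [h2] at hcon
    exact hcon hx

omit [DecidableEq κ] in
lemma supp_s {S : Finset X} {s : X → κ} {k : κ} (hk : ∀ x ∈ S, s x = k) {g : Perm X} (hg : g ∈ supp S) (x : X) :
    s (g x) = s x := by
  by_cases hx : x ∈ S
  · rw [hk x hx, hk _ ((supp_mem_iff hg x).2 hx)]
  · rw [mem_supp.1 hg x hx]

/-- the sum of the signed images under the permutations of `S` which preserve `s` -/
noncomputable def csum {V : Type*} [AddCommGroup V] [Module ℂ V] (ρ : Representation ℂ (Perm X) V) (s : X → κ)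
    (S : Finset X) (φ : V) : V :=
  ∑ g ∈ (supp S).filter (fun g => ∀ x, s (g x) = s x), ((Perm.sign g : ℤ) : ℂ) • ρ g φ

lemma csum_split {V : Type*} [AddCommGroup V] [Module ℂ V] (ρ : Representation ℂ (Perm X) V) (s : X → κ)
    (S : Finset X) (k : κ) (φ : V) :
    csum ρ s S φ = csum ρ s (S \ S.filter (fun x => s x = k)) (asym ρ (S.filter (fun x => s x = k)) φ) := by
  set C := S.filter (fun x => s x = k) with hC
  have hCk : ∀ x ∈ C, s x = k := fun x hx => (Finset.mem_filter.1 hx).2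
  have hCS : C ⊆ S := Finset.filter_subset _ _
  have hR : csum ρ s (S \ C) (asym ρ C φ) =
      ∑ p ∈ ((supp (S \ C)).filter (fun g => ∀ x, s (g x) = s x)) ×ˢ (supp C),
        ((Perm.sign (p.1 * p.2) : ℤ) : ℂ) • ρ (p.1 * p.2) φ := by
    rw [Finset.sum_product]
    unfold csum
    refine Finset.sum_congr rfl fun g _ => ?_
    rw [asym_apply, map_sum, Finset.smul_sum]
    refine Finset.sum_congr rfl fun h _ => ?_
    rw [rho_mul, map_smul, smul_smul, Perm.sign_mul]
    push_cast
    rfl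
  rw [hR]
  symm
  refine Finset.sum_bij (fun p _ => p.1 * p.2) ?_ ?_ ?_ ?_
  · rintro ⟨g1, g2⟩ hp
    rw [Finset.mem_product, Finset.mem_filter] at hp
    obtain ⟨⟨h1, h2⟩, h3⟩ := hp
    simp only at h1 h2 h3
    rw [Finset.mem_filter]
    refine ⟨supp_mul (supp_mono Finset.sdiff_subset h1) (supp_mono hCS h3), fun x => ?_⟩
    rw [Perm.mul_apply, h2, supp_s hCk h3]
  · rintro ⟨g1, g2⟩ hp ⟨h1, h2⟩ hq heq
    rw [Finset.mem_product, Finset.mem_filter] at hp hq
    simp only at hp hq heq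
    have e2 : g2 = h2 := by
      refine Equiv.ext fun x => ?_
      by_cases hx : x ∈ C
      · have a1 : g2 x ∈ C := (supp_mem_iff hp.2 x).2 hx
        have a2 : h2 x ∈ C := (supp_mem_iff hq.2 x).2 hx
        have b1 : g1 (g2 x) = g2 x := mem_supp.1 hp.1.1 _ (fun h => (Finset.mem_sdiff.1 h).2 a1)
        have b2 : h1 (h2 x) = h2 x := mem_supp.1 hq.1.1 _ (fun h => (Finset.mem_sdiff.1 h).2 a2)
        rw [← b1, ← b2, ← Perm.mul_apply, ← Perm.mul_apply, heq]
      · rw [mem_supp.1 hp.2 x hx, mem_supp.1 hq.2 x hx]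
    subst e2
    rw [mul_right_cancel heq]
  · intro g hg
    rw [Finset.mem_filter] at hg
    obtain ⟨hgS, hgs⟩ := hg
    have hmem : ∀ x, g x ∈ C ↔ x ∈ C := by
      intro x
      rw [hC, Finset.mem_filter, Finset.mem_filter, supp_mem_iff hgS, hgs]
    set g2 : Perm X := Equiv.Perm.ofSubtype (g.subtypePerm (p := fun x => x ∈ C) hmem) with hg2
    have h2in : ∀ x ∈ C, g2 x = g x := by
      intro x hx
      rw [hg2, Equiv.Perm.ofSubtype_apply_of_mem (p := fun x => x ∈ C) _ hx]
      rfl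
    have h2out : ∀ x, x ∉ C → g2 x = x := by
      intro x hx
      rw [hg2, Equiv.Perm.ofSubtype_apply_of_not_mem (p := fun x => x ∈ C) _ hx]
    have hg2C : g2 ∈ supp C := mem_supp.2 h2out
    refine ⟨(g * g2⁻¹, g2), ?_, by simp⟩
    rw [Finset.mem_product, Finset.mem_filter]
    refine ⟨⟨?_, ?_⟩, hg2C⟩
    · rw [mem_supp]
      intro x hx
      show (g * g2⁻¹) x = x
      rw [Perm.mul_apply]
      by_cases hxC : x ∈ C
      · have h3 : g2⁻¹ x ∈ C := (supp_mem_iff (supp_inv hg2C) x).2 hxC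
        rw [← h2in _ h3, perm_apply_inv]
      · have h3 : g2⁻¹ x = x := mem_supp.1 (supp_inv hg2C) x hxC
        rw [h3]
        refine mem_supp.1 hgS x fun h => hx (Finset.mem_sdiff.2 ⟨h, hxC⟩)
    · intro x
      show s ((g * g2⁻¹) x) = s x
      rw [Perm.mul_apply, hgs, supp_s hCk (supp_inv hg2C)]
  · rintro ⟨g1, g2⟩ _
    rfl

theorem csum_ne_zero {V : Type*} [AddCommGroup V] [Module ℂ V] (ρ : Representation ℂ (Perm X) V)
    (D : X → ℕ) (s : X → κ) : ∀ (n : ℕ) (S : Finset X) (φ : V), S.card = n → φ ≠ 0 → HW ρ S D φ →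
    (∀ x ∈ S, ∀ y ∈ S, D x = D y → s x = s y → x = y) →
    (∀ x ∈ S, ∀ i < D x, ∃ y ∈ S, s y = s x ∧ D y = i) → csum ρ s S φ ≠ 0 := by
  intro n
  induction n using Nat.strong_induction_on with
  | _ n ih =>
    intro S φ hn hφ h hinj htop
    by_cases hS : S = ∅
    · subst hS
      have : supp (∅ : Finset X) = {1} := by
        ext g
        rw [mem_supp, mem_singleton]
        constructor
        · intro h; exact Equiv.ext fun x => h x (by simp)
        · rintro rfl; simp
      unfold csum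
      rw [this, Finset.filter_true_of_mem]
      · simpa using hφ
      · intro g hg x
        rw [Finset.mem_singleton.1 hg]
        rfl
    · obtain ⟨x1, hx1, hmax⟩ := Finset.exists_max_image S D (Finset.nonempty_iff_ne_empty.2 hS)
      rw [csum_split ρ s S (s x1) φ]
      set C := S.filter (fun x => s x = s x1) with hC
      have hCS : C ⊆ S := Finset.filter_subset _ _
      have hx1C : x1 ∈ C := Finset.mem_filter.2 ⟨hx1, rfl⟩
      have hCinj : Set.InjOn D (C : Set X) := by
        intro x hx y hy hD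
        have hx' := Finset.mem_filter.1 (Finset.mem_coe.1 hx)
        have hy' := Finset.mem_filter.1 (Finset.mem_coe.1 hy)
        exact hinj x hx'.1 y hy'.1 hD (by rw [hx'.2, hy'.2])
      have hhit : ∀ x ∈ S, ∃ y ∈ C, D y = D x := by
        intro x hx
        rcases Nat.eq_or_lt_of_le (hmax x hx) with h1 | h1
        · exact ⟨x1, hx1C, h1.symm⟩
        · obtain ⟨y, hy, hys, hyD⟩ := htop x1 hx1 _ h1
          exact ⟨y, Finset.mem_filter.2 ⟨hy, hys⟩, hyD⟩
      refine ih (S \ C).card ?_ (S \ C) _ rfl (h.asym_ne_zero ρ hφ C hCS hCinj) (h.sdiff ρ C hCS hCinj hhit) ?_ ?_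
      · rw [← hn]
        refine Finset.card_lt_card ⟨Finset.sdiff_subset, fun hsub => ?_⟩
        exact (Finset.mem_sdiff.1 (hsub hx1)).2 hx1C
      · intro x hx y hy
        exact hinj x (Finset.mem_sdiff.1 hx).1 y (Finset.mem_sdiff.1 hy).1
      · intro x hx i hi
        rw [Finset.mem_sdiff] at hx
        obtain ⟨y, hy, hys, hyD⟩ := htop x hx.1 i hi
        refine ⟨y, Finset.mem_sdiff.2 ⟨hy, fun hyC => hx.2 ?_⟩, hys, hyD⟩
        exact Finset.mem_filter.2 ⟨hx.1, by rw [← hys]; exact (Finset.mem_filter.1 hyC).2⟩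

end H424

open H424 in
/-- TARGET -/
theorem colasym_ne_zero {X : Type*} [Fintype X] [DecidableEq X] {κ : Type*} [DecidableEq κ]
    {V : Type*} [AddCommGroup V] [Module ℂ V] (ρ : Representation ℂ (Perm X) V)
    (D : X → ℕ) (φ : V) (hφ : φ ≠ 0) (h : HW ρ univ D φ) (s : X → κ)
    (hinj : ∀ x y, D x = D y → s x = s y → x = y)
    (htop : ∀ x, ∀ i < D x, ∃ y, s y = s x ∧ D y = i) :
    ∑ g ∈ (univ : Finset (Perm X)).filter (fun g => ∀ x, s (g x) = s x),
      ((Perm.sign g : ℤ) : ℂ) • ρ g φ ≠ 0 := by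
  have h1 := csum_ne_zero ρ D s _ univ φ rfl hφ h (fun x _ y _ => hinj x y) (fun x _ i hi => by
    obtain ⟨y, h2, h3⟩ := htop x i hi
    exact ⟨y, Finset.mem_univ _, h2, h3⟩)
  have h2 : supp (univ : Finset X) = univ := by
    ext g
    simp [mem_supp]
  unfold csum at h1
  rw [h2] at h1
  exact h1

end Pool.Agent.Helper310_SaxlA
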