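import Mathlib

/-!
# Column permutations
-/

namespace Pool.Agent.Helper310_SaxlA

open Finset Equiv

theorem exists_col_perm_aux (B : Finset ℕ) :
    (∑ i ∈ range B.card, i) + (range B.card \ B).card ≤ ∑ b ∈ B, b := by
  classical
  have h1 : ∑ b ∈ B, b = ∑ b ∈ B ∩ range B.card, b + ∑ b ∈ B \ range B.card, b :=
    (Finset.sum_inter_add_sum_sdiff B (range B.card) (fun b => b)).symm
  have h2 : ∑ b ∈ range B.card, b = ∑ b ∈ range B.card ∩ B, b + ∑ b ∈ range B.card \ B, b :=
    (Finset.sum_inter_add_sum_sdiff (range B.card) B (fun b => b)).symm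
  have h3 : (range B.card \ B).card = (B \ range B.card).card := by
    apply Finset.card_sdiff_comm
    simp
  have h4 : ∑ b ∈ range B.card \ B, (b + 1) ≤ (range B.card \ B).card * B.card := by
    have := Finset.sum_le_card_nsmul (range B.card \ B) (fun b => b + 1) B.card (by
      intro x hx
      rw [mem_sdiff, mem_range] at hx
      show x + 1 ≤ B.card
      omega)
    simpa using this
  have h5 : (B \ range B.card).card * B.card ≤ ∑ b ∈ B \ range B.card, b := by
    have := Finset.card_nsmul_le_sum (B \ range B.card) (fun b => b) B.card (by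
      intro x hx
      rw [mem_sdiff, mem_range] at hx
      show B.card ≤ x
      omega)
    simpa using this
  rw [Finset.sum_add_distrib] at h4
  simp only [sum_const, smul_eq_mul, mul_one] at h4
  rw [h1, h2, Finset.inter_comm (range B.card) B]
  rw [h3] at h4 ⊢
  omega

theorem exists_col_perm {X : Type*} [Fintype X] [DecidableEq X] {κ : Type*} [DecidableEq κ]
    (D D' : X → ℕ) (s : X → κ)
    (hc : ∀ i, (univ.filter fun x => D' x = i).card = (univ.filter fun x => D x = i).card)
    (hinj : ∀ x y, D x = D y → s x = s y → x = y)
    (htop : ∀ x, ∀ i < D x, ∃ y, s y = s x ∧ D y = i)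
    (hinj' : ∀ x y, D' x = D' y → s x = s y → x = y) :
    ∃ h : Perm X, (∀ x, s (h x) = s x) ∧ ∀ x, D' (h x) = D x := by
  classical
  -- the column
  set col : κ → Finset X := fun k => univ.filter fun x => s x = k with hcol
  have hmem : ∀ k x, x ∈ col k ↔ s x = k := by
    intro k x; simp [hcol]
  -- total sums agree
  have htot : ∑ x, D' x = ∑ x, D x := by
    have himg : univ.image D' = univ.image D := by
      ext i
      have := hc i
      constructor
      · intro hi
        obtain ⟨x, -, hx⟩ := mem_image.mp hi
        have hpos : 0 < (univ.filter fun x => D x = i).card := by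
          rw [← this]
          exact card_pos.mpr ⟨x, by simp [hx]⟩
        obtain ⟨y, hy⟩ := card_pos.mp hpos
        exact mem_image.mpr ⟨y, mem_univ _, by simpa using hy⟩
      · intro hi
        obtain ⟨x, -, hx⟩ := mem_image.mp hi
        have hpos : 0 < (univ.filter fun x => D' x = i).card := by
          rw [this]
          exact card_pos.mpr ⟨x, by simp [hx]⟩
        obtain ⟨y, hy⟩ := card_pos.mp hpos
        exact mem_image.mpr ⟨y, mem_univ _, by simpa using hy⟩
    have e1 := Finset.sum_comp (s := (univ : Finset X)) (fun i : ℕ => i) D'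
    have e2 := Finset.sum_comp (s := (univ : Finset X)) (fun i : ℕ => i) D
    rw [e1, e2, himg]
    apply Finset.sum_congr rfl
    intro i _
    rw [hc i]
  -- D maps each column onto an initial segment
  have hDimg : ∀ k, (col k).image D = range (col k).card := by
    intro k
    have hcard : ((col k).image D).card = (col k).card := by
      apply Finset.card_image_of_injOn
      intro x hx y hy hxy
      have hx' := (hmem k x).mp hx
      have hy' := (hmem k y).mp hy
      exact hinj x y hxy (hx'.trans hy'.symm)
    -- a lower set
    have hlow : ∀ a ∈ (col k).image D, ∀ b < a, b ∈ (col k).image D := by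
      intro a ha b hb
      obtain ⟨x, hx, rfl⟩ := mem_image.mp ha
      obtain ⟨y, hy1, hy2⟩ := htop x b hb
      exact mem_image.mpr ⟨y, (hmem k y).mpr (hy1.trans ((hmem k x).mp hx)), hy2⟩
    have hsub : (col k).image D ⊆ range (col k).card := by
      intro a ha
      rw [mem_range]
      have : range (a + 1) ⊆ (col k).image D := by
        intro b hb
        rw [mem_range] at hb
        rcases Nat.lt_or_ge b a with h | h
        · exact hlow a ha b h
        · have : b = a := by omega
          rwa [this]
      have := card_le_card this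
      rw [card_range, hcard] at this
      omega
    exact eq_of_subset_of_card_le hsub (by rw [hcard, card_range])
  have hcard' : ∀ k, ((col k).image D').card = (col k).card := by
    intro k
    apply Finset.card_image_of_injOn
    intro x hx y hy hxy
    have hx' := (hmem k x).mp hx
    have hy' := (hmem k y).mp hy
    exact hinj' x y hxy (hx'.trans hy'.symm)
  have hsD : ∀ k, ∑ x ∈ col k, D x = ∑ i ∈ range (col k).card, i := by
    intro k
    rw [← hDimg k, Finset.sum_image]
    intro x hx y hy hxy
    have hx' := (hmem k x).mp hx
    have hy' := (hmem k y).mp hy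
    exact hinj x y hxy (hx'.trans hy'.symm)
  have hsD' : ∀ k, ∑ x ∈ col k, D' x = ∑ i ∈ (col k).image D', i := by
    intro k
    rw [Finset.sum_image]
    intro x hx y hy hxy
    have hx' := (hmem k x).mp hx
    have hy' := (hmem k y).mp hy
    exact hinj' x y hxy (hx'.trans hy'.symm)
  have hle : ∀ k, ∑ x ∈ col k, D x + (range (col k).card \ (col k).image D').card
      ≤ ∑ x ∈ col k, D' x := by
    intro k
    rw [hsD, hsD']
    have := exists_col_perm_aux ((col k).image D')
    rwa [hcard'] at this
  have hfD : ∑ k ∈ univ.image s, ∑ x ∈ col k, D x = ∑ x, D x := by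
    apply Finset.sum_fiberwise_of_maps_to
    intro x _
    exact mem_image_of_mem s (mem_univ x)
  have hfD' : ∑ k ∈ univ.image s, ∑ x ∈ col k, D' x = ∑ x, D' x := by
    apply Finset.sum_fiberwise_of_maps_to
    intro x _
    exact mem_image_of_mem s (mem_univ x)
  have hall : ∀ k ∈ univ.image s, ∑ x ∈ col k, D x = ∑ x ∈ col k, D' x := by
    rw [← Finset.sum_eq_sum_iff_of_le]
    · rw [hfD, hfD', htot]
    · intro k _
      have := hle k
      omega
  have hDimg' : ∀ k ∈ univ.image s, (col k).image D' = range (col k).card := by
    intro k hk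
    have h1 := hle k
    have h2 := hall k hk
    have h3 : (range (col k).card \ (col k).image D').card = 0 := by omega
    rw [card_eq_zero, sdiff_eq_empty_iff_subset] at h3
    exact (eq_of_subset_of_card_le h3 (by rw [hcard', card_range])).symm
  have hex : ∀ x, ∃ y, s y = s x ∧ D' y = D x := by
    intro x
    have h1 : D x ∈ (col (s x)).image D :=
      mem_image_of_mem D ((hmem _ _).mpr rfl)
    rw [hDimg, ← hDimg' (s x) (mem_image_of_mem s (mem_univ x))] at h1
    obtain ⟨y, hy, hy2⟩ := mem_image.mp h1
    exact ⟨y, (hmem _ _).mp hy, hy2⟩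
  choose h hh1 hh2 using hex
  have hi : Function.Injective h := by
    intro x y hxy
    apply hinj
    · rw [← hh2 x, ← hh2 y, hxy]
    · rw [← hh1 x, ← hh1 y, hxy]
  exact ⟨Equiv.ofBijective h (Finite.injective_iff_bijective.mp hi), hh1, hh2⟩

end Pool.Agent.Helper310_SaxlA
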