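import Mathlib
import Pool.Agent.Helper310_SaxlA.Tab
import Pool.Agent.Helper310_SaxlA.ColAsym
import Pool.Agent.Helper310_SaxlA.ColPerm

/-!
# Matrix coefficients of a highest weight vector
-/

namespace Pool.Agent.Helper310_SaxlA

open Finset Equiv Pool.Agent.Helper310_Saxl Pool.Agent.Helper310_SaxlA

theorem exists_transport {X : Type*} [Fintype X] [DecidableEq X] (D D' : X → ℕ)
    (hD' : ∀ i, (univ.filter fun x => D' x = i).card = (univ.filter fun x => D x = i).card) :
    ∃ g0 : Perm X, ∀ x, D' (g0 x) = D x := by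
  have h : ∀ i, Nonempty ({x // D x = i} ≃ {x // D' x = i}) := by
    intro i
    refine ⟨Fintype.equivOfCardEq ?_⟩
    rw [Fintype.card_subtype, Fintype.card_subtype]
    exact (hD' i).symm
  have e : ∀ i, {x // D x = i} ≃ {x // D' x = i} := fun i => Classical.choice (h i)
  refine ⟨(Equiv.sigmaFiberEquiv D).symm.trans
    ((Equiv.sigmaCongrRight e).trans (Equiv.sigmaFiberEquiv D')), fun x => ?_⟩
  exact (e (D x) ⟨x, rfl⟩).2

theorem rho_swap_conj {X : Type*} [Fintype X] [DecidableEq X]
    {U : Type*} [AddCommGroup U] [Module ℂ U]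
    (ρ : Representation ℂ (Perm X) U) (g : Perm X) (x y : X) (v : U) :
    ρ (swap x y) (ρ g v) = ρ g (ρ (swap (g⁻¹ x) (g⁻¹ y)) v) := by
  rw [← rho_mul, ← rho_mul, Equiv.swap_mul_eq_mul_swap]

theorem HW_transport {X : Type*} [Fintype X] [DecidableEq X]
    {U : Type*} [AddCommGroup U] [Module ℂ U]
    (ρ : Representation ℂ (Perm X) U) (D D' : X → ℕ) (φ : U) (hHW : HW ρ univ D φ)
    (g0 : Perm X) (hg0 : ∀ x, D' (g0 x) = D x) : HW ρ univ D' (ρ g0 φ) := by
  have hinv : ∀ x, D (g0⁻¹ x) = D' x := by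
    intro x
    rw [← hg0, perm_apply_inv]
  refine ⟨?_, ?_⟩
  · intro x _ y _ hxy
    rw [rho_swap_conj, hHW.1 _ (mem_univ _) _ (mem_univ _) (by rw [hinv, hinv, hxy])]
  · intro x _ y0 _ hlt
    have h1 := hHW.2 (g0⁻¹ x) (mem_univ _) (g0⁻¹ y0) (mem_univ _) (by rw [hinv, hinv]; exact hlt)
    have h2 : ∑ y ∈ univ.filter (fun y => D' y = D' y0), ρ (swap x y) (ρ g0 φ) =
        ρ g0 (∑ y ∈ univ.filter (fun y => D y = D (g0⁻¹ y0)), ρ (swap (g0⁻¹ x) y) φ) := by
      rw [map_sum]
      refine Finset.sum_bij' (fun y _ => g0⁻¹ y) (fun y _ => g0 y) ?_ ?_ ?_ ?_ ?_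
      · intro y hy
        rw [Finset.mem_filter] at hy ⊢
        exact ⟨mem_univ _, by rw [hinv, hinv, hy.2]⟩
      · intro y hy
        rw [Finset.mem_filter] at hy ⊢
        exact ⟨mem_univ _, by rw [hg0, hy.2, hinv]⟩
      · intro y _
        exact perm_apply_inv g0 y
      · intro y _
        exact perm_inv_apply g0 y
      · intro y _
        exact rho_swap_conj ρ g0 x y φ
    rw [h2, ← map_add, h1, map_zero]

theorem cell_top {X : Type*} [Fintype X] [DecidableEq X] (p t : ℕ → ℕ) (hp : Antitone p)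
    (ht : Antitone t) (s : X → ℕ × Fin 3) (D' : X → ℕ)
    (hL : ∀ i, (univ.filter fun x => D' x = i).card = p i + 2 * t i)
    (hs : Tab p t D' s) (x : X) (i : ℕ) (hi : i < D' x) : ∃ y, s y = s x ∧ D' y = i := by
  classical
  have hcell : cell p t i (s x) := by
    have h1 := hs.2 x
    unfold cell at h1 ⊢
    split_ifs at h1 ⊢ with h2
    · exact lt_of_lt_of_le h1 (hp hi.le)
    · exact lt_of_lt_of_le h1 (ht hi.le)
  set cells : Finset (ℕ × Fin 3) := (range (p i)) ×ˢ {(0 : Fin 3)} ∪
    (range (t i)) ×ˢ {(1 : Fin 3), (2 : Fin 3)} with hcells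
  have hmem : ∀ κ, cell p t i κ → κ ∈ cells := by
    rintro ⟨j, ε⟩ h
    rw [hcells, Finset.mem_union, Finset.mem_product, Finset.mem_product, mem_range, mem_range]
    unfold cell at h
    fin_cases ε
    · left
      simpa using h
    · right
      simpa using h
    · right
      simpa using h
  have hcard : cells.card ≤ p i + 2 * t i := by
    refine (Finset.card_union_le _ _).trans ?_
    rw [Finset.card_product, Finset.card_product, card_range, card_range]
    have h1 : ({(1 : Fin 3), (2 : Fin 3)} : Finset (Fin 3)).card = 2 := by decide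
    rw [h1, Finset.card_singleton]
    omega
  have hsub : (univ.filter fun y => D' y = i).image s ⊆ cells := by
    intro κ hκ
    obtain ⟨y, hy, rfl⟩ := Finset.mem_image.1 hκ
    rw [Finset.mem_filter] at hy
    refine hmem _ ?_
    have h3 := hs.2 y
    rw [hy.2] at h3
    exact h3
  have himg : ((univ.filter fun y => D' y = i).image s).card = p i + 2 * t i := by
    rw [Finset.card_image_of_injOn, hL]
    intro a ha b hb hab
    have ha' := (Finset.mem_filter.1 (Finset.mem_coe.1 ha)).2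
    have hb' := (Finset.mem_filter.1 (Finset.mem_coe.1 hb)).2
    exact hs.1 a b (by rw [ha', hb']) hab
  have heq := Finset.eq_of_subset_of_card_le hsub (by rw [himg]; exact hcard)
  have h4 : s x ∈ cells := hmem _ hcell
  rw [← heq] at h4
  obtain ⟨y, hy, hys⟩ := Finset.mem_image.1 h4
  exact ⟨y, hys, (Finset.mem_filter.1 hy).2⟩

/-- the column antisymmetriser of `s` -/
noncomputable def colasym {X : Type*} [Fintype X] [DecidableEq X] {κ : Type*} [DecidableEq κ]
    {V : Type*} [AddCommGroup V] [Module ℂ V] (ρ : Representation ℂ (Perm X) V) (s : X → κ) :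
    V →ₗ[ℂ] V :=
  ∑ g ∈ (univ : Finset (Perm X)).filter (fun g => ∀ x, s (g x) = s x),
      ((Perm.sign g : ℤ) : ℂ) • ρ g

theorem colasym_apply {X : Type*} [Fintype X] [DecidableEq X] {κ : Type*} [DecidableEq κ]
    {V : Type*} [AddCommGroup V] [Module ℂ V] (ρ : Representation ℂ (Perm X) V) (s : X → κ)
    (v : V) : colasym ρ s v =
      ∑ g ∈ (univ : Finset (Perm X)).filter (fun g => ∀ x, s (g x) = s x),
      ((Perm.sign g : ℤ) : ℂ) • ρ g v := by
  simp [colasym, LinearMap.sum_apply]

theorem colasym_rho {X : Type*} [Fintype X] [DecidableEq X] {κ : Type*} [DecidableEq κ]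
    {V : Type*} [AddCommGroup V] [Module ℂ V] (ρ : Representation ℂ (Perm X) V) (s : X → κ)
    (h : Perm X) (hh : ∀ x, s (h x) = s x) (v : V) :
    colasym ρ s (ρ h v) = ((Perm.sign h : ℤ) : ℂ) • colasym ρ s v := by
  rw [colasym_apply, colasym_apply, Finset.smul_sum]
  refine Finset.sum_bij' (fun g _ => g * h) (fun g _ => g * h⁻¹) ?_ ?_ ?_ ?_ ?_
  · intro g hg
    rw [Finset.mem_filter] at hg ⊢
    exact ⟨mem_univ _, fun x => by rw [Perm.mul_apply, hg.2, hh]⟩
  · intro g hg
    rw [Finset.mem_filter] at hg ⊢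
    refine ⟨mem_univ _, fun x => ?_⟩
    rw [Perm.mul_apply, hg.2, ← hh (h⁻¹ x), perm_apply_inv]
  · intro g _
    rw [mul_assoc, mul_inv_cancel, mul_one]
  · intro g _
    rw [mul_assoc, inv_mul_cancel, mul_one]
  · intro g _
    rw [← rho_mul, smul_smul, Perm.sign_mul]
    congr 1
    have h1 : ((Perm.sign h : ℤ) : ℂ) * ((Perm.sign h : ℤ) : ℂ) = 1 := by
      rcases Int.units_eq_one_or (Perm.sign h) with h2 | h2 <;> rw [h2] <;> simp
    push_cast
    linear_combination (-((Perm.sign g : ℤ) : ℂ)) * h1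

/-- TARGET -/
theorem exists_functional {X : Type*} [Fintype X] [DecidableEq X]
    {U : Type*} [AddCommGroup U] [Module ℂ U]
    (ρ : Representation ℂ (Perm X) U) (D : X → ℕ) (φ : U) (hφ : φ ≠ 0) (hHW : HW ρ univ D φ)
    (p t : ℕ → ℕ) (hp : Antitone p) (ht : Antitone t)
    (hL : ∀ i, (univ.filter fun x => D x = i).card = p i + 2 * t i)
    (s : X → ℕ × Fin 3) (D' : X → ℕ)
    (hD' : ∀ i, (univ.filter fun x => D' x = i).card = (univ.filter fun x => D x = i).card)
    (hs : Tab p t D' s) :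
    ∃ (l : U →ₗ[ℂ] ℂ) (m : Perm X → ℤ), (∀ g, l (ρ g φ) = m g) ∧
      ∀ g, ((m g : ℤ) : ZMod 2) = if Tab p t (fun x => D (g⁻¹ x)) s then 1 else 0 := by
  classical
  obtain ⟨g0, hg0⟩ := exists_transport D D' hD'
  have hφ' : ρ g0 φ ≠ 0 := by
    intro h0
    apply hφ
    have h1 : ρ g0⁻¹ (ρ g0 φ) = φ := by
      rw [← rho_mul, inv_mul_cancel, map_one]
      rfl
    rw [← h1, h0, map_zero]
  have hHW' := HW_transport ρ D D' φ hHW g0 hg0
  have hL' : ∀ i, (univ.filter fun x => D' x = i).card = p i + 2 * t i := fun i => by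
    rw [hD', hL]
  have htop := cell_top p t hp ht s D' hL' hs
  have hw := colasym_ne_zero ρ D' (ρ g0 φ) hφ' hHW' s hs.1 htop
  rw [← colasym_apply] at hw
  obtain ⟨l0, hl0⟩ : ∃ l0 : U →ₗ[ℂ] ℂ, l0 (colasym ρ s (ρ g0 φ)) ≠ 0 := by
    by_contra hcon
    push Not at hcon
    exact hw ((Module.forall_dual_apply_eq_zero_iff ℂ _).1 hcon)
  set l1 : U →ₗ[ℂ] ℂ := (l0 (colasym ρ s (ρ g0 φ)))⁻¹ • l0 with hl1
  have hl1w : l1 (colasym ρ s (ρ g0 φ)) = 1 := by
    rw [hl1, LinearMap.smul_apply, smul_eq_mul, inv_mul_cancel₀ hl0]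
  have key : ∀ g : Perm X, ∃ m : ℤ, (l1 ∘ₗ colasym ρ s) (ρ g φ) = m ∧
      ((m : ℤ) : ZMod 2) = if Tab p t (fun x => D (g⁻¹ x)) s then 1 else 0 := by
    intro g
    by_cases hinj : ∀ x y, D (g⁻¹ x) = D (g⁻¹ y) → s x = s y → x = y
    · -- injective
      have hcD : ∀ i, (univ.filter fun x => D (g⁻¹ x) = i).card =
          (univ.filter fun x => D' x = i).card := by
        intro i
        rw [hD']
        refine Finset.card_bij' (fun x _ => g⁻¹ x) (fun x _ => g x) ?_ ?_ ?_ ?_
        · intro x hx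
          rw [Finset.mem_filter] at hx ⊢
          exact ⟨mem_univ _, hx.2⟩
        · intro x hx
          rw [Finset.mem_filter] at hx ⊢
          exact ⟨mem_univ _, by rw [perm_inv_apply]; exact hx.2⟩
        · intro x _
          exact perm_apply_inv g x
        · intro x _
          exact perm_inv_apply g x
      obtain ⟨h, hh, hhD⟩ := exists_col_perm D' (fun x => D (g⁻¹ x)) s hcD hs.1 htop hinj
      have hfix : ρ (g⁻¹ * h * g0) φ = φ := by
        refine young_fixed ρ D φ (fun x y _ hxy => hHW.1 x (mem_univ _) y (mem_univ _) hxy) _ ?_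
        intro z
        rw [Perm.mul_apply, Perm.mul_apply]
        have := hhD (g0 z)
        rw [hg0] at this
        exact this
      have hρ : ρ g φ = ρ h (ρ g0 φ) := by
        have h1 : ρ g (ρ (g⁻¹ * h * g0) φ) = ρ h (ρ g0 φ) := by
          rw [← rho_mul, ← rho_mul]
          congr 1
          group
        rw [hfix] at h1
        exact h1
      have hTab : Tab p t (fun x => D (g⁻¹ x)) s := by
        refine ⟨hinj, fun x => ?_⟩
        have h1 := hhD (h⁻¹ x)
        have h2 := hh (h⁻¹ x)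
        rw [perm_apply_inv] at h1 h2
        have h3 := hs.2 (h⁻¹ x)
        rw [← h1, ← h2] at h3
        exact h3
      refine ⟨(Perm.sign h : ℤ), ?_, ?_⟩
      · rw [hρ, LinearMap.comp_apply, colasym_rho ρ s h hh, map_smul, hl1w, smul_eq_mul, mul_one]
      · rw [if_pos hTab]
        rcases Int.units_eq_one_or (Perm.sign h) with h2 | h2 <;> rw [h2] <;> simp
    · -- not injective
      have hTab : ¬ Tab p t (fun x => D (g⁻¹ x)) s := fun h => hinj h.1
      push Not at hinj
      obtain ⟨x, y, hxy, hsxy, hne⟩ := hinj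
      refine ⟨0, ?_, ?_⟩
      · have h1 : ρ (swap x y) (ρ g φ) = ρ g φ := by
          rw [rho_swap_conj, hHW.1 _ (mem_univ _) _ (mem_univ _) hxy]
        have hsw : ∀ z, s (swap x y z) = s z := by
          intro z
          by_cases h2 : z = x
          · rw [h2, swap_apply_left, hsxy]
          · by_cases h3 : z = y
            · rw [h3, swap_apply_right, hsxy]
            · rw [swap_apply_of_ne_of_ne h2 h3]
        have h2 := colasym_rho ρ s (swap x y) hsw (ρ g φ)
        rw [h1, Perm.sign_swap hne] at h2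
        have h3 : colasym ρ s (ρ g φ) = 0 := by
          have h4 : colasym ρ s (ρ g φ) = -colasym ρ s (ρ g φ) := by
            simpa using h2
          have h5 : (2 : ℂ) • colasym ρ s (ρ g φ) = 0 := by
            rw [two_smul]
            nth_rewrite 1 [h4]
            simp
          exact (smul_eq_zero.1 h5).resolve_left two_ne_zero
        rw [LinearMap.comp_apply, h3, map_zero]
        simp
      · rw [if_neg hTab]
        simp
  choose m hm1 hm2 using key
  exact ⟨l1 ∘ₗ colasym ρ s, m, hm1, hm2⟩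

end Pool.Agent.Helper310_SaxlA
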