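import Mathlib

/-!
# Uniqueness of the increasing filling
-/

namespace Pool.Agent.Helper310_SaxlA

open Finset

def inc (T : ℕ → ℕ → ℕ) (i l : ℕ) : ℕ := ((range l).filter fun l' => T i l' = 1).card

/-- rank inside a finite set -/
def incA (A : Finset ℕ) (l : ℕ) : ℕ := (A.filter fun l' => l' < l).card

theorem incA_lt (A : Finset ℕ) {l l' : ℕ} (hl : l ∈ A) (h : l < l') : incA A l < incA A l' := by
  unfold incA
  apply card_lt_card
  rw [Finset.ssubset_iff_of_subset]
  · exact ⟨l, by simp [hl, h], by simp⟩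
  · intro a ha
    rw [mem_filter] at ha ⊢
    exact ⟨ha.1, ha.2.trans h⟩

theorem incA_card (A : Finset ℕ) {l : ℕ} (hl : l ∈ A) : incA A l < A.card := by
  unfold incA
  apply card_lt_card
  rw [Finset.ssubset_iff_of_subset (filter_subset _ _)]
  exact ⟨l, hl, by simp⟩

theorem incA_inj (A : Finset ℕ) {l l' : ℕ} (hl : l ∈ A) (hl' : l' ∈ A) (h : incA A l = incA A l') :
    l = l' := by
  rcases lt_trichotomy l l' with h1 | h1 | h1
  · exact absurd h (incA_lt A hl h1).ne
  · exact h1
  · exact absurd h.symm (incA_lt A hl' h1).ne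

theorem surj_aux (A : Finset ℕ) (G : ℕ → ℕ) (h1 : ∀ l ∈ A, G l < A.card)
    (h2 : ∀ l ∈ A, ∀ l' ∈ A, G l = G l' → l = l') {j : ℕ} (hj : j < A.card) :
    ∃ l ∈ A, G l = j := by
  have himg : A.image G = range A.card := by
    apply Finset.eq_of_subset_of_card_le
    · intro a ha
      obtain ⟨l, hl, rfl⟩ := mem_image.1 ha
      exact mem_range.2 (h1 l hl)
    · rw [card_range, card_image_of_injOn]
      intro l hl l' hl' h
      exact h2 l hl l' hl' h
  have : j ∈ A.image G := by rw [himg]; exact mem_range.2 hj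
  obtain ⟨l, hl, h⟩ := mem_image.1 this
  exact ⟨l, hl, h⟩

theorem sum_single_aux (A : Finset ℕ) (G : ℕ → ℕ)
    (h2 : ∀ l ∈ A, ∀ l' ∈ A, G l = G l' → l = l') {j g : ℕ} (hg : g ∈ A) (hgj : G g = j) :
    ∑ l ∈ A.filter (fun l => G l = j), l = g := by
  have : A.filter (fun l => G l = j) = {g} := by
    ext l
    rw [mem_filter, mem_singleton]
    constructor
    · rintro ⟨hl, h⟩
      exact h2 l hl g hg (h.trans hgj.symm)
    · rintro rfl
      exact ⟨hg, hgj⟩
  rw [this, sum_singleton]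

/-- one row -/
theorem row_aux (A : Finset ℕ) (G : ℕ → ℕ) (h1 : ∀ l ∈ A, G l < A.card)
    (h2 : ∀ l ∈ A, ∀ l' ∈ A, G l = G l' → l = l') (j : ℕ)
    (ih : ∀ j' < j, ∀ l ∈ A, (G l = j' ↔ incA A l = j')) :
    ∑ l ∈ A.filter (fun l => incA A l = j), l ≤ ∑ l ∈ A.filter (fun l => G l = j), l ∧
    (∑ l ∈ A.filter (fun l => incA A l = j), l = ∑ l ∈ A.filter (fun l => G l = j), l →
      ∀ l ∈ A, (G l = j ↔ incA A l = j)) := by
  rcases Nat.lt_or_ge j A.card with hj | hj
  · obtain ⟨g, hg, hgj⟩ := surj_aux A G h1 h2 hj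
    obtain ⟨c, hc, hcj⟩ := surj_aux A (incA A) (fun l hl => incA_card A hl)
      (fun l hl l' hl' h => incA_inj A hl hl' h) hj
    rw [sum_single_aux A G h2 hg hgj,
      sum_single_aux A (incA A) (fun l hl l' hl' h => incA_inj A hl hl' h) hc hcj]
    constructor
    · by_contra hlt
      have h3 := incA_lt A hg (not_le.1 hlt)
      rw [hcj] at h3
      have h4 := (ih _ h3 g hg).2 rfl
      rw [hgj] at h4
      omega
    · rintro rfl l hl
      constructor
      · intro h
        rw [h2 l hl c hg (h.trans hgj.symm)]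
        exact hcj
      · intro h
        rw [incA_inj A hl hc (h.trans hcj.symm)]
        exact hgj
  · have e1 : ∀ l ∈ A, incA A l ≠ j := fun l hl h => by
      have := incA_card A hl
      omega
    have e2 : ∀ l ∈ A, G l ≠ j := fun l hl h => by
      have := h1 l hl
      omega
    rw [Finset.filter_false_of_mem e1, Finset.filter_false_of_mem e2]
    exact ⟨le_rfl, fun _ l hl => ⟨fun h => absurd h (e2 l hl), fun h => absurd h (e1 l hl)⟩⟩

theorem inc_eq (T : ℕ → ℕ → ℕ) (i k : ℕ) {l : ℕ} (hl : l < k) :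
    inc T i l = incA ((range k).filter fun l => T i l = 1) l := by
  unfold inc incA
  congr 1
  ext a
  simp only [mem_filter, mem_range]
  constructor
  · rintro ⟨h1, h2⟩
    exact ⟨⟨h1.trans hl, h2⟩, h1⟩
  · rintro ⟨⟨_, h2⟩, h1⟩
    exact ⟨h1, h2⟩

theorem swap_aux (m k : ℕ) (T H : ℕ → ℕ → ℕ) (j : ℕ) :
    ∑ l ∈ range k, l * ((range m).filter fun i => T i l = 1 ∧ H i l = j).card =
      ∑ i ∈ range m, ∑ l ∈ ((range k).filter fun l => T i l = 1).filter (fun l => H i l = j), l := by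
  have h1 : ∀ l ∈ range k, l * ((range m).filter fun i => T i l = 1 ∧ H i l = j).card =
      ∑ i ∈ range m, if T i l = 1 ∧ H i l = j then l else 0 := by
    intro l _
    rw [← sum_filter, sum_const, smul_eq_mul, mul_comm]
  rw [sum_congr rfl h1, sum_comm]
  apply sum_congr rfl
  intro i _
  rw [filter_filter, sum_filter]

/-- TARGET -/
theorem filling_unique (m k N : ℕ) (p t : ℕ → ℕ) (hN1 : ∀ i < m, p i ≤ N) (hN2 : ∀ i < m, t i ≤ N)
    (T1 T2 G1 G2 : ℕ → ℕ → ℕ)
    (hr1 : ∀ i < m, ((range k).filter fun l => T1 i l = 1).card = p i)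
    (hr2 : ∀ i < m, ((range k).filter fun l => T2 i l = 1).card = t i)
    (hG1 : ∀ i < m, ∀ l < k, T1 i l = 1 → G1 i l < p i)
    (hG2 : ∀ i < m, ∀ l < k, T2 i l = 1 → G2 i l < t i)
    (hi1 : ∀ i < m, ∀ l < k, ∀ l' < k, T1 i l = 1 → T1 i l' = 1 → G1 i l = G1 i l' → l = l')
    (hi2 : ∀ i < m, ∀ l < k, ∀ l' < k, T2 i l = 1 → T2 i l' = 1 → G2 i l = G2 i l' → l = l')
    (hP : ∀ l < k, ∀ j < N,
      ((range m).filter fun i => T1 i l = 1 ∧ G1 i l = j).card +
        2 * ((range m).filter fun i => T2 i l = 1 ∧ G2 i l = j).card =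
      ((range m).filter fun i => T1 i l = 1 ∧ inc T1 i l = j).card +
        2 * ((range m).filter fun i => T2 i l = 1 ∧ inc T2 i l = j).card) :
    (∀ i < m, ∀ l < k, T1 i l = 1 → G1 i l = inc T1 i l) ∧
      (∀ i < m, ∀ l < k, T2 i l = 1 → G2 i l = inc T2 i l) := by
  set A1 : ℕ → Finset ℕ := fun i => (range k).filter fun l => T1 i l = 1 with hA1
  set A2 : ℕ → Finset ℕ := fun i => (range k).filter fun l => T2 i l = 1 with hA2
  have memA1 : ∀ i l, l ∈ A1 i ↔ l < k ∧ T1 i l = 1 := fun i l => by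
    simp [hA1]
  have memA2 : ∀ i l, l ∈ A2 i ↔ l < k ∧ T2 i l = 1 := fun i l => by
    simp [hA2]
  have b1 : ∀ i < m, ∀ l ∈ A1 i, G1 i l < (A1 i).card := by
    intro i hi l hl
    rw [memA1] at hl
    rw [show (A1 i).card = p i from hr1 i hi]
    exact hG1 i hi l hl.1 hl.2
  have b2 : ∀ i < m, ∀ l ∈ A2 i, G2 i l < (A2 i).card := by
    intro i hi l hl
    rw [memA2] at hl
    rw [show (A2 i).card = t i from hr2 i hi]
    exact hG2 i hi l hl.1 hl.2
  have c1 : ∀ i < m, ∀ l ∈ A1 i, ∀ l' ∈ A1 i, G1 i l = G1 i l' → l = l' := by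
    intro i hi l hl l' hl' h
    rw [memA1] at hl hl'
    exact hi1 i hi l hl.1 l' hl'.1 hl.2 hl'.2 h
  have c2 : ∀ i < m, ∀ l ∈ A2 i, ∀ l' ∈ A2 i, G2 i l = G2 i l' → l = l' := by
    intro i hi l hl l' hl' h
    rw [memA2] at hl hl'
    exact hi2 i hi l hl.1 l' hl'.1 hl.2 hl'.2 h
  have key : ∀ j : ℕ, j < N → (∀ i < m, ∀ l ∈ A1 i, (G1 i l = j ↔ incA (A1 i) l = j)) ∧
      (∀ i < m, ∀ l ∈ A2 i, (G2 i l = j ↔ incA (A2 i) l = j)) := by
    intro j
    induction j using Nat.strong_induction_on with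
    | _ j ih =>
      intro hj
      have r1 := fun i (hi : i < m) => row_aux (A1 i) (G1 i) (b1 i hi) (c1 i hi) j
        (fun j' hj' => (ih j' hj' (hj'.trans hj)).1 i hi)
      have r2 := fun i (hi : i < m) => row_aux (A2 i) (G2 i) (b2 i hi) (c2 i hi) j
        (fun j' hj' => (ih j' hj' (hj'.trans hj)).2 i hi)
      have f1 : ∀ i, (A1 i).filter (fun l => inc T1 i l = j) = (A1 i).filter fun l => incA (A1 i) l = j := by
        intro i
        apply filter_congr
        intro l hl
        rw [inc_eq T1 i k ((memA1 i l).1 hl).1]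
      have f2 : ∀ i, (A2 i).filter (fun l => inc T2 i l = j) = (A2 i).filter fun l => incA (A2 i) l = j := by
        intro i
        apply filter_congr
        intro l hl
        rw [inc_eq T2 i k ((memA2 i l).1 hl).1]
      have htot : ∑ i ∈ range m, ∑ l ∈ (A1 i).filter (fun l => G1 i l = j), l +
          2 * ∑ i ∈ range m, ∑ l ∈ (A2 i).filter (fun l => G2 i l = j), l =
          ∑ i ∈ range m, ∑ l ∈ (A1 i).filter (fun l => incA (A1 i) l = j), l +
          2 * ∑ i ∈ range m, ∑ l ∈ (A2 i).filter (fun l => incA (A2 i) l = j), l := by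
        have s1 := swap_aux m k T1 G1 j
        have s2 := swap_aux m k T2 G2 j
        have s3 := swap_aux m k T1 (inc T1) j
        have s4 := swap_aux m k T2 (inc T2) j
        have s3' : ∑ i ∈ range m, ∑ l ∈ (A1 i).filter (fun l => inc T1 i l = j), l =
            ∑ i ∈ range m, ∑ l ∈ (A1 i).filter (fun l => incA (A1 i) l = j), l :=
          sum_congr rfl fun i _ => by rw [f1 i]
        have s4' : ∑ i ∈ range m, ∑ l ∈ (A2 i).filter (fun l => inc T2 i l = j), l =
            ∑ i ∈ range m, ∑ l ∈ (A2 i).filter (fun l => incA (A2 i) l = j), l :=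
          sum_congr rfl fun i _ => by rw [f2 i]
        rw [← s3', ← s4']
        change _ = ∑ i ∈ range m, ∑ l ∈ ((range k).filter fun l => T1 i l = 1).filter
          (fun l => inc T1 i l = j), l + 2 * ∑ i ∈ range m,
          ∑ l ∈ ((range k).filter fun l => T2 i l = 1).filter (fun l => inc T2 i l = j), l
        rw [← s3, ← s4]
        change ∑ i ∈ range m, ∑ l ∈ ((range k).filter fun l => T1 i l = 1).filter
          (fun l => G1 i l = j), l + 2 * ∑ i ∈ range m,
          ∑ l ∈ ((range k).filter fun l => T2 i l = 1).filter (fun l => G2 i l = j), l = _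
        rw [← s1, ← s2, mul_sum, mul_sum, ← sum_add_distrib, ← sum_add_distrib]
        apply sum_congr rfl
        intro l hl
        have := hP l (mem_range.1 hl) j hj
        calc l * ((range m).filter fun i => T1 i l = 1 ∧ G1 i l = j).card +
            2 * (l * ((range m).filter fun i => T2 i l = 1 ∧ G2 i l = j).card)
            = l * (((range m).filter fun i => T1 i l = 1 ∧ G1 i l = j).card +
              2 * ((range m).filter fun i => T2 i l = 1 ∧ G2 i l = j).card) := by ring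
          _ = l * (((range m).filter fun i => T1 i l = 1 ∧ inc T1 i l = j).card +
              2 * ((range m).filter fun i => T2 i l = 1 ∧ inc T2 i l = j).card) := by rw [this]
          _ = _ := by ring
      have g1 : ∑ i ∈ range m, ∑ l ∈ (A1 i).filter (fun l => incA (A1 i) l = j), l ≤
          ∑ i ∈ range m, ∑ l ∈ (A1 i).filter (fun l => G1 i l = j), l :=
        sum_le_sum fun i hi => (r1 i (mem_range.1 hi)).1
      have g2 : ∑ i ∈ range m, ∑ l ∈ (A2 i).filter (fun l => incA (A2 i) l = j), l ≤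
          ∑ i ∈ range m, ∑ l ∈ (A2 i).filter (fun l => G2 i l = j), l :=
        sum_le_sum fun i hi => (r2 i (mem_range.1 hi)).1
      have q1 : ∑ i ∈ range m, ∑ l ∈ (A1 i).filter (fun l => incA (A1 i) l = j), l =
          ∑ i ∈ range m, ∑ l ∈ (A1 i).filter (fun l => G1 i l = j), l := by omega
      have q2 : ∑ i ∈ range m, ∑ l ∈ (A2 i).filter (fun l => incA (A2 i) l = j), l =
          ∑ i ∈ range m, ∑ l ∈ (A2 i).filter (fun l => G2 i l = j), l := by omega
      have u1 := (sum_eq_sum_iff_of_le fun i hi => (r1 i (mem_range.1 hi)).1).1 q1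
      have u2 := (sum_eq_sum_iff_of_le fun i hi => (r2 i (mem_range.1 hi)).1).1 q2
      exact ⟨fun i hi => (r1 i hi).2 (u1 i (mem_range.2 hi)),
        fun i hi => (r2 i hi).2 (u2 i (mem_range.2 hi))⟩
  constructor
  · intro i hi l hl hT
    have hj : G1 i l < N := (hG1 i hi l hl hT).trans_le (hN1 i hi)
    have h := ((key _ hj).1 i hi l ((memA1 i l).2 ⟨hl, hT⟩)).1 rfl
    rw [inc_eq T1 i k hl]
    exact h.symm
  · intro i hi l hl hT
    have hj : G2 i l < N := (hG2 i hi l hl hT).trans_le (hN2 i hi)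
    have h := ((key _ hj).2 i hi l ((memA2 i l).2 ⟨hl, hT⟩)).1 rfl
    rw [inc_eq T2 i k hl]
    exact h.symm

end Pool.Agent.Helper310_SaxlA
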