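import Mathlib
import Pool.Agent.Helper310_SaxlA.Filling
import Pool.Agent.Helper310_SaxlA.Tab

/-!
# An odd number of groupings
-/

namespace Pool.Agent.Helper310_SaxlA

open Finset

private theorem even_card_of_invol {α : Type*} [DecidableEq α] (S : Finset α) (f : α → α)
    (hf : ∀ a ∈ S, f a ∈ S) (hff : ∀ a, f (f a) = a) (hne : ∀ a ∈ S, f a ≠ a) : Even S.card := by
  have h : ∑ x ∈ S, (1 : ZMod 2) = 0 :=
    Finset.sum_involution (fun a _ => f a) (fun _ _ => by decide)
      (fun a ha _ => hne a ha) (fun a ha => hf a ha) (fun a _ => hff a)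
  rw [Finset.sum_const, nsmul_eq_mul, mul_one] at h
  exact (ZMod.natCast_eq_zero_iff_even).1 h

private theorem inc_bij (T : ℕ → ℕ) (k j : ℕ) :
    ((range k).filter fun l => T l = 1 ∧ ((range l).filter fun l' => T l' = 1).card = j).card =
      if j < ((range k).filter fun l => T l = 1).card then 1 else 0 := by
  induction k with
  | zero => simp
  | succ k ih =>
    rw [Finset.range_add_one, Finset.filter_insert, Finset.filter_insert]
    by_cases hk : T k = 1
    · rw [if_pos hk, Finset.card_insert_of_notMem (by simp)]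
      by_cases hj : ((range k).filter fun l' => T l' = 1).card = j
      · rw [if_pos ⟨hk, hj⟩, Finset.card_insert_of_notMem (by simp), ih, hj]
        simp
      · rw [if_neg (fun h => hj h.2), ih]
        split_ifs <;> omega
    · rw [if_neg (fun h => hk h.1), if_neg hk, ih]

private theorem cell_split {X : Type*} [DecidableEq X] (Q : Finset X) (t1 t2 : ℕ)
    (h : Q.card = t1 + 2 * t2) :
    ∃ Q1 Q2 : Finset X, Q = Q1 ∪ Q2 ∧ Disjoint Q1 Q2 ∧ Q1.card = t1 ∧ Q2.card = 2 * t2 := by
  obtain ⟨Q1, hQ1, hc⟩ := Finset.exists_subset_card_eq (show t1 ≤ Q.card by omega)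
  refine ⟨Q1, Q \ Q1, (Finset.union_sdiff_of_subset hQ1).symm, Finset.disjoint_sdiff, hc, ?_⟩
  have := Finset.card_sdiff_add_card_eq_card hQ1
  omega

/-- TARGET -/
theorem exists_odd_groupings {X : Type*} [Fintype X] [DecidableEq X] (k N : ℕ) (p t : ℕ → ℕ)
    (htp : ∀ i, t i ≤ p i) (hN : ∀ i, p i ≤ N) (D A : X → ℕ) (T1 T2 : ℕ → ℕ → ℕ)
    (h1 : ∀ i l, T1 i l ≤ 1) (h2 : ∀ i l, T2 i l ≤ 1)
    (hr1 : ∀ i, ∑ l ∈ range k, T1 i l = p i) (hr2 : ∀ i, ∑ l ∈ range k, T2 i l = t i)
    (hA : ∀ x, A x < k)
    (hcnt : ∀ i, ∀ l < k, (univ.filter fun x => D x = i ∧ A x = l).card =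
      T1 i l + 2 * T2 i l) :
    ∃ P : ℕ → ℕ → ℕ, Odd (groupings N p t D A P).card := by
  classical
  -- the cells are cut in two parts
  have hsplit : ∀ i l, ∃ Q1 Q2 : Finset X, l < k →
      (univ.filter fun x => D x = i ∧ A x = l) = Q1 ∪ Q2 ∧ Disjoint Q1 Q2 ∧
        Q1.card = T1 i l ∧ Q2.card = 2 * T2 i l := by
    intro i l
    by_cases hl : l < k
    · obtain ⟨Q1, Q2, h⟩ := cell_split _ _ _ (hcnt i l hl)
      exact ⟨Q1, Q2, fun _ => h⟩
    · exact ⟨∅, ∅, fun h => absurd h hl⟩
  choose Q1 Q2 hQ using hsplit
  have hQ1D : ∀ i l, l < k → ∀ x ∈ Q1 i l, D x = i ∧ A x = l := by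
    intro i l hl x hx
    have : x ∈ (univ.filter fun x => D x = i ∧ A x = l) := by
      rw [(hQ i l hl).1]; exact Finset.mem_union_left _ hx
    exact (Finset.mem_filter.1 this).2
  have hQ2D : ∀ i l, l < k → ∀ x ∈ Q2 i l, D x = i ∧ A x = l := by
    intro i l hl x hx
    have : x ∈ (univ.filter fun x => D x = i ∧ A x = l) := by
      rw [(hQ i l hl).1]; exact Finset.mem_union_right _ hx
    exact (Finset.mem_filter.1 this).2
  have hQmem : ∀ x, x ∈ Q1 (D x) (A x) ∨ x ∈ Q2 (D x) (A x) := by
    intro x
    have : x ∈ (univ.filter fun y => D y = D x ∧ A y = A x) :=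
      Finset.mem_filter.2 ⟨Finset.mem_univ _, rfl, rfl⟩
    rw [(hQ (D x) (A x) (hA x)).1] at this
    exact Finset.mem_union.1 this
  -- sums and cardinalities of rows
  have hr1' : ∀ i, ((range k).filter fun l => T1 i l = 1).card = p i := by
    intro i
    rw [← hr1 i, Finset.card_filter]
    refine Finset.sum_congr rfl fun l _ => ?_
    have := h1 i l
    split_ifs with h <;> omega
  have hr2' : ∀ i, ((range k).filter fun l => T2 i l = 1).card = t i := by
    intro i
    rw [← hr2 i, Finset.card_filter]
    refine Finset.sum_congr rfl fun l _ => ?_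
    have := h2 i l
    split_ifs with h <;> omega
  -- a bound for the rows
  obtain ⟨m, hm⟩ : ∃ m, ∀ x, D x < m :=
    ⟨univ.sup D + 1, fun x => Nat.lt_succ_of_le (Finset.le_sup (f := D) (Finset.mem_univ x))⟩
  -- the invariant functions
  let inv : (X → ℕ) → ℕ × ℕ → Prop := fun τ c => ∀ x ∈ Q2 c.1 c.2, ∀ y ∈ Q2 c.1 c.2, τ x = τ y
  let G1 : (X → ℕ) → ℕ → ℕ → ℕ := fun τ i l => (Q1 i l).sup τ
  let G2 : (X → ℕ) → ℕ → ℕ → ℕ := fun τ i l => (Q2 i l).sup τ
  have hG1 : ∀ τ i l, l < k → T1 i l = 1 → ∀ x ∈ Q1 i l, G1 τ i l = τ x := by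
    intro τ i l hl hT x hx
    have hc := (hQ i l hl).2.2.1
    rw [hT, Finset.card_eq_one] at hc
    obtain ⟨r, hr⟩ := hc
    rw [hr, Finset.mem_singleton] at hx
    change (Q1 i l).sup τ = τ x
    rw [hr, Finset.sup_singleton, hx]
  have hG2 : ∀ τ i l, l < k → inv τ (i, l) → ∀ x ∈ Q2 i l, G2 τ i l = τ x := by
    intro τ i l hl hinv x hx
    change (Q2 i l).sup τ = τ x
    refine le_antisymm (Finset.sup_le fun y hy => (hinv y hy x hx).le) (Finset.le_sup hx)
  -- counting in a cell
  have hcell : ∀ τ i l j, l < k → inv τ (i, l) →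
      (univ.filter fun x => (D x = i ∧ A x = l) ∧ τ x = j).card =
        (if T1 i l = 1 ∧ G1 τ i l = j then 1 else 0) +
          2 * (if T2 i l = 1 ∧ G2 τ i l = j then 1 else 0) := by
    intro τ i l j hl hinv
    rw [← Finset.filter_filter, (hQ i l hl).1, Finset.filter_union,
      Finset.card_union_of_disjoint (Finset.disjoint_filter_filter (hQ i l hl).2.1)]
    congr 1
    · have hc := (hQ i l hl).2.2.1
      rcases Nat.lt_or_ge (T1 i l) 1 with h | h
      · have h0 : T1 i l = 0 := by omega
        rw [h0, Finset.card_eq_zero] at hc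
        rw [hc, Finset.filter_empty, Finset.card_empty, if_neg]
        rintro ⟨h', -⟩
        omega
      · have h0 : T1 i l = 1 := le_antisymm (h1 i l) h
        have hc' := hc
        rw [h0, Finset.card_eq_one] at hc'
        obtain ⟨r, hr⟩ := hc'
        have hG : G1 τ i l = τ r := hG1 τ i l hl h0 r (by rw [hr]; exact Finset.mem_singleton_self r)
        rw [hG, hr, Finset.filter_singleton]
        by_cases hj : τ r = j
        · rw [if_pos hj, if_pos ⟨h0, hj⟩, Finset.card_singleton]
        · rw [if_neg hj, if_neg (fun h => hj h.2), Finset.card_empty]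
    · have hc := (hQ i l hl).2.2.2
      rcases Nat.lt_or_ge (T2 i l) 1 with h | h
      · have h0 : T2 i l = 0 := by omega
        rw [h0, Nat.mul_zero, Finset.card_eq_zero] at hc
        rw [hc, Finset.filter_empty, Finset.card_empty, if_neg]
        rintro ⟨h', -⟩
        omega
      · have h0 : T2 i l = 1 := le_antisymm (h2 i l) h
        by_cases hj : G2 τ i l = j
        · rw [if_pos ⟨h0, hj⟩, Finset.filter_true_of_mem, hc, h0]
          intro x hx
          rw [← hj]
          exact (hG2 τ i l hl hinv x hx).symm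
        · rw [if_neg (fun h => hj h.2), Finset.filter_false_of_mem, Finset.card_empty]
          intro x hx h'
          exact hj ((hG2 τ i l hl hinv x hx).trans h')
  -- counting in a row and in a column
  have hrow : ∀ τ i j, (∀ l < k, inv τ (i, l)) →
      (univ.filter fun x => D x = i ∧ τ x = j).card =
        ((range k).filter fun l => T1 i l = 1 ∧ G1 τ i l = j).card +
          2 * ((range k).filter fun l => T2 i l = 1 ∧ G2 τ i l = j).card := by
    intro τ i j hinv
    rw [Finset.card_eq_sum_card_fiberwise (f := A) (t := range k)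
      (fun x _ => Finset.mem_coe.2 (Finset.mem_range.2 (hA x))), Finset.card_filter (fun l =>
      T1 i l = 1 ∧ G1 τ i l = j), Finset.card_filter (fun l => T2 i l = 1 ∧ G2 τ i l = j),
      Finset.mul_sum, ← Finset.sum_add_distrib]
    refine Finset.sum_congr rfl fun l hl => ?_
    rw [← hcell τ i l j (Finset.mem_range.1 hl) (hinv l (Finset.mem_range.1 hl)), Finset.filter_filter]
    congr 1
    refine Finset.filter_congr fun x _ => ?_
    tauto
  have hcolm : ∀ τ l j, l < k → (∀ i < m, inv τ (i, l)) →
      (univ.filter fun x => A x = l ∧ τ x = j).card =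
        ((range m).filter fun i => T1 i l = 1 ∧ G1 τ i l = j).card +
          2 * ((range m).filter fun i => T2 i l = 1 ∧ G2 τ i l = j).card := by
    intro τ l j hl hinv
    rw [Finset.card_eq_sum_card_fiberwise (f := D) (t := range m)
      (fun x _ => Finset.mem_coe.2 (Finset.mem_range.2 (hm x))), Finset.card_filter (fun i =>
      T1 i l = 1 ∧ G1 τ i l = j), Finset.card_filter (fun i => T2 i l = 1 ∧ G2 τ i l = j),
      Finset.mul_sum, ← Finset.sum_add_distrib]
    refine Finset.sum_congr rfl fun i hi => ?_
    rw [← hcell τ i l j hl (hinv i (Finset.mem_range.1 hi)), Finset.filter_filter]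
    congr 1
    refine Finset.filter_congr fun x _ => ?_
    tauto
  -- the content
  let P : ℕ → ℕ → ℕ := fun l j =>
    ((range m).filter fun i => T1 i l = 1 ∧ inc T1 i l = j).card +
      2 * ((range m).filter fun i => T2 i l = 1 ∧ inc T2 i l = j).card
  refine ⟨P, ?_⟩
  -- the increasing one
  let τ0 : X → ℕ := fun x => if x ∈ Q1 (D x) (A x) then inc T1 (D x) (A x) else inc T2 (D x) (A x)
  have hτ01 : ∀ i l, l < k → ∀ x ∈ Q1 i l, τ0 x = inc T1 i l := by
    intro i l hl x hx
    obtain ⟨rfl, rfl⟩ := hQ1D i l hl x hx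
    exact if_pos hx
  have hτ02 : ∀ i l, l < k → ∀ x ∈ Q2 i l, τ0 x = inc T2 i l := by
    intro i l hl x hx
    obtain ⟨rfl, rfl⟩ := hQ2D i l hl x hx
    exact if_neg (fun h => Finset.disjoint_left.1 (hQ (D x) (A x) hl).2.1 h hx)
  have hτ0inv : ∀ i l, l < k → inv τ0 (i, l) := by
    intro i l hl x hx y hy
    rw [hτ02 i l hl x hx, hτ02 i l hl y hy]
  have hne1 : ∀ i l, l < k → T1 i l = 1 → (Q1 i l).Nonempty := by
    intro i l hl hT
    rw [← Finset.card_pos, (hQ i l hl).2.2.1, hT]
    exact Nat.one_pos
  have hne2 : ∀ i l, l < k → T2 i l = 1 → (Q2 i l).Nonempty := by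
    intro i l hl hT
    rw [← Finset.card_pos, (hQ i l hl).2.2.2, hT]
    norm_num
  have hG10 : ∀ i l, l < k → T1 i l = 1 → G1 τ0 i l = inc T1 i l := by
    intro i l hl hT
    obtain ⟨x, hx⟩ := hne1 i l hl hT
    rw [hG1 τ0 i l hl hT x hx, hτ01 i l hl x hx]
  have hG20 : ∀ i l, l < k → T2 i l = 1 → G2 τ0 i l = inc T2 i l := by
    intro i l hl hT
    obtain ⟨x, hx⟩ := hne2 i l hl hT
    rw [hG2 τ0 i l hl (hτ0inv i l hl) x hx, hτ02 i l hl x hx]
  have hinc1 : ∀ i l, l < k → T1 i l = 1 → inc T1 i l < p i := by
    intro i l hl hT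
    rw [← hr1' i]
    refine Finset.card_lt_card (Finset.ssubset_iff_of_subset ?_ |>.2 ⟨l, ?_, ?_⟩)
    · exact Finset.filter_subset_filter _ (Finset.range_subset_range.2 hl.le)
    · exact Finset.mem_filter.2 ⟨Finset.mem_range.2 hl, hT⟩
    · simp
  have hinc2 : ∀ i l, l < k → T2 i l = 1 → inc T2 i l < t i := by
    intro i l hl hT
    rw [← hr2' i]
    refine Finset.card_lt_card (Finset.ssubset_iff_of_subset ?_ |>.2 ⟨l, ?_, ?_⟩)
    · exact Finset.filter_subset_filter _ (Finset.range_subset_range.2 hl.le)
    · exact Finset.mem_filter.2 ⟨Finset.mem_range.2 hl, hT⟩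
    · simp
  have hT1of : ∀ x, x ∈ Q1 (D x) (A x) → T1 (D x) (A x) = 1 := by
    intro x hx
    have := Finset.card_pos.2 ⟨x, hx⟩
    rw [(hQ _ _ (hA x)).2.2.1] at this
    have := h1 (D x) (A x)
    omega
  have hT2of : ∀ x, x ∈ Q2 (D x) (A x) → T2 (D x) (A x) = 1 := by
    intro x hx
    have := Finset.card_pos.2 ⟨x, hx⟩
    rw [(hQ _ _ (hA x)).2.2.2] at this
    have := h2 (D x) (A x)
    omega
  have hτ0mem : τ0 ∈ groupings N p t D A P := by
    unfold groupings
    refine Finset.mem_filter.2 ⟨Fintype.mem_piFinset.2 fun x => Finset.mem_range.2 ?_, ?_, ?_⟩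
    · rcases hQmem x with hx | hx
      · rw [hτ01 _ _ (hA x) x hx]
        exact (hinc1 _ _ (hA x) (hT1of x hx)).trans_le (hN _)
      · rw [hτ02 _ _ (hA x) x hx]
        exact (hinc2 _ _ (hA x) (hT2of x hx)).trans_le ((htp _).trans (hN _))
    · intro j _ x0
      rw [hcolm τ0 (A x0) j (hA x0) (fun i _ => hτ0inv i _ (hA x0))]
      change _ = ((range m).filter fun i => T1 i (A x0) = 1 ∧ inc T1 i (A x0) = j).card +
        2 * ((range m).filter fun i => T2 i (A x0) = 1 ∧ inc T2 i (A x0) = j).card
      congr 2
      · refine Finset.filter_congr fun i _ => ?_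
        constructor
        · rintro ⟨ha, hb⟩
          exact ⟨ha, by rw [← hG10 i _ (hA x0) ha]; exact hb⟩
        · rintro ⟨ha, hb⟩
          exact ⟨ha, by rw [hG10 i _ (hA x0) ha]; exact hb⟩
      · congr 1
        refine Finset.filter_congr fun i _ => ?_
        constructor
        · rintro ⟨ha, hb⟩
          exact ⟨ha, by rw [← hG20 i _ (hA x0) ha]; exact hb⟩
        · rintro ⟨ha, hb⟩
          exact ⟨ha, by rw [hG20 i _ (hA x0) ha]; exact hb⟩
    · intro j _ x0
      rw [hrow τ0 (D x0) j (fun l hl => hτ0inv _ l hl)]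
      have e1 : ((range k).filter fun l => T1 (D x0) l = 1 ∧ G1 τ0 (D x0) l = j) =
          (range k).filter fun l => T1 (D x0) l = 1 ∧
            ((range l).filter fun l' => T1 (D x0) l' = 1).card = j := by
        refine Finset.filter_congr fun l hl => ?_
        have hl' := Finset.mem_range.1 hl
        constructor
        · rintro ⟨ha, hb⟩
          refine ⟨ha, ?_⟩
          rw [hG10 _ l hl' ha] at hb
          exact hb
        · rintro ⟨ha, hb⟩
          refine ⟨ha, ?_⟩
          rw [hG10 _ l hl' ha]
          exact hb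
      have e2 : ((range k).filter fun l => T2 (D x0) l = 1 ∧ G2 τ0 (D x0) l = j) =
          (range k).filter fun l => T2 (D x0) l = 1 ∧
            ((range l).filter fun l' => T2 (D x0) l' = 1).card = j := by
        refine Finset.filter_congr fun l hl => ?_
        have hl' := Finset.mem_range.1 hl
        constructor
        · rintro ⟨ha, hb⟩
          refine ⟨ha, ?_⟩
          rw [hG20 _ l hl' ha] at hb
          exact hb
        · rintro ⟨ha, hb⟩
          refine ⟨ha, ?_⟩
          rw [hG20 _ l hl' ha]
          exact hb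
      rw [e1, e2, inc_bij (T1 (D x0)), inc_bij (T2 (D x0)), hr1', hr2']
  -- uniqueness
  have huniq : ∀ τ ∈ groupings N p t D A P, (∀ c ∈ (range m) ×ˢ (range k), inv τ c) → τ = τ0 := by
    intro τ hτ hinv
    unfold groupings at hτ
    obtain ⟨hτN, hτA, hτD⟩ := Finset.mem_filter.1 hτ
    have hτN' : ∀ x, τ x < N := fun x => Finset.mem_range.1 (Fintype.mem_piFinset.1 hτN x)
    have hinv' : ∀ i l, l < k → inv τ (i, l) := by
      intro i l hl
      by_cases hi : i < m
      · exact hinv (i, l) (Finset.mem_product.2 ⟨Finset.mem_range.2 hi, Finset.mem_range.2 hl⟩)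
      · intro x hx
        exact absurd ((hQ2D i l hl x hx).1 ▸ hm x) hi
    have hG1N : ∀ i l, l < k → T1 i l = 1 → G1 τ i l < N := by
      intro i l hl hT
      obtain ⟨x, hx⟩ := hne1 i l hl hT
      rw [hG1 τ i l hl hT x hx]
      exact hτN' x
    have hG2N : ∀ i l, l < k → T2 i l = 1 → G2 τ i l < N := by
      intro i l hl hT
      obtain ⟨x, hx⟩ := hne2 i l hl hT
      rw [hG2 τ i l hl (hinv' i l hl) x hx]
      exact hτN' x
    -- the row condition
    have hD : ∀ i, ∀ j < N, ((range k).filter fun l => T1 i l = 1 ∧ G1 τ i l = j).card +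
        2 * ((range k).filter fun l => T2 i l = 1 ∧ G2 τ i l = j).card =
          (if j < p i then 1 else 0) + 2 * (if j < t i then 1 else 0) := by
      intro i j hj
      by_cases hex : ∃ x0, D x0 = i
      · obtain ⟨x0, rfl⟩ := hex
        rw [← hrow τ (D x0) j (fun l hl => hinv' _ l hl)]
        exact hτD j (Finset.mem_range.2 hj) x0
      · have hT1 : ∀ l, l < k → T1 i l ≠ 1 := by
          intro l hl hT
          obtain ⟨x, hx⟩ := hne1 i l hl hT
          exact hex ⟨x, (hQ1D i l hl x hx).1⟩
        have hT2 : ∀ l, l < k → T2 i l ≠ 1 := by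
          intro l hl hT
          obtain ⟨x, hx⟩ := hne2 i l hl hT
          exact hex ⟨x, (hQ2D i l hl x hx).1⟩
        have hp : p i = 0 := by
          rw [← hr1' i, Finset.card_eq_zero, Finset.filter_eq_empty_iff]
          exact fun l hl => hT1 l (Finset.mem_range.1 hl)
        have ht : t i = 0 := by
          rw [← hr2' i, Finset.card_eq_zero, Finset.filter_eq_empty_iff]
          exact fun l hl => hT2 l (Finset.mem_range.1 hl)
        rw [hp, ht, Finset.filter_false_of_mem, Finset.filter_false_of_mem]
        · simp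
        · exact fun l hl h => hT2 l (Finset.mem_range.1 hl) h.1
        · exact fun l hl h => hT1 l (Finset.mem_range.1 hl) h.1
    -- for every row the first numbers are determined
    have hD1 : ∀ i, ∀ j < N, ((range k).filter fun l => T1 i l = 1 ∧ G1 τ i l = j).card =
        (if j < p i then 1 else 0) := by
      intro i
      have hsum : ∑ j ∈ range N, ((range k).filter fun l => T1 i l = 1 ∧ G1 τ i l = j).card =
          ∑ j ∈ range N, (if j < p i then 1 else 0) := by
        have e1 : ∑ j ∈ range N, ((range k).filter fun l => T1 i l = 1 ∧ G1 τ i l = j).card = p i := by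
          rw [← hr1' i, Finset.card_eq_sum_card_fiberwise (f := fun l => G1 τ i l) (t := range N)]
          · refine Finset.sum_congr rfl fun j _ => ?_
            rw [Finset.filter_filter]
          · intro l hl
            obtain ⟨ha, hb⟩ := Finset.mem_filter.1 (Finset.mem_coe.1 hl)
            exact Finset.mem_coe.2 (Finset.mem_range.2 (hG1N i l (Finset.mem_range.1 ha) hb))
        have e2 : ∑ j ∈ range N, (if j < p i then 1 else 0) = p i := by
          rw [← Finset.card_filter]
          have : (range N).filter (fun j => j < p i) = range (p i) := by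
            ext j
            simp only [Finset.mem_filter, Finset.mem_range]
            have := hN i
            omega
          rw [this, Finset.card_range]
        rw [e1, e2]
      have hge : ∀ j ∈ range N, (if j < p i then 1 else 0) ≤
          ((range k).filter fun l => T1 i l = 1 ∧ G1 τ i l = j).card := by
        intro j hj
        have := hD i j (Finset.mem_range.1 hj)
        split_ifs at this ⊢ <;> omega
      intro j hj
      exact ((Finset.sum_eq_sum_iff_of_le hge).1 hsum.symm j (Finset.mem_range.2 hj)).symm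
    have hD2 : ∀ i, ∀ j < N, ((range k).filter fun l => T2 i l = 1 ∧ G2 τ i l = j).card =
        (if j < t i then 1 else 0) := by
      intro i j hj
      have e := hD i j hj
      rw [hD1 i j hj] at e
      omega
    have hlt1 : ∀ i l, l < k → T1 i l = 1 → G1 τ i l < p i := by
      intro i l hl hT
      by_contra hcon
      have e := hD1 i (G1 τ i l) (hG1N i l hl hT)
      rw [if_neg hcon, Finset.card_eq_zero] at e
      have : l ∈ ((range k).filter fun l' => T1 i l' = 1 ∧ G1 τ i l' = G1 τ i l) :=
        Finset.mem_filter.2 ⟨Finset.mem_range.2 hl, hT, rfl⟩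
      rw [e] at this
      exact absurd this (Finset.notMem_empty _)
    have hlt2 : ∀ i l, l < k → T2 i l = 1 → G2 τ i l < t i := by
      intro i l hl hT
      by_contra hcon
      have e := hD2 i (G2 τ i l) (hG2N i l hl hT)
      rw [if_neg hcon, Finset.card_eq_zero] at e
      have : l ∈ ((range k).filter fun l' => T2 i l' = 1 ∧ G2 τ i l' = G2 τ i l) :=
        Finset.mem_filter.2 ⟨Finset.mem_range.2 hl, hT, rfl⟩
      rw [e] at this
      exact absurd this (Finset.notMem_empty _)
    have hinj1 : ∀ i, ∀ l < k, ∀ l' < k, T1 i l = 1 → T1 i l' = 1 → G1 τ i l = G1 τ i l' → l = l' := by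
      intro i l hl l' hl' hT hT' heq
      have e := hD1 i (G1 τ i l) (hG1N i l hl hT)
      have hle : ((range k).filter fun x => T1 i x = 1 ∧ G1 τ i x = G1 τ i l).card ≤ 1 := by
        rw [e]; split_ifs <;> omega
      exact Finset.card_le_one.1 hle l (Finset.mem_filter.2 ⟨Finset.mem_range.2 hl, hT, rfl⟩) l'
        (Finset.mem_filter.2 ⟨Finset.mem_range.2 hl', hT', heq.symm⟩)
    have hinj2 : ∀ i, ∀ l < k, ∀ l' < k, T2 i l = 1 → T2 i l' = 1 → G2 τ i l = G2 τ i l' → l = l' := by
      intro i l hl l' hl' hT hT' heq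
      have e := hD2 i (G2 τ i l) (hG2N i l hl hT)
      have hle : ((range k).filter fun x => T2 i x = 1 ∧ G2 τ i x = G2 τ i l).card ≤ 1 := by
        rw [e]; split_ifs <;> omega
      exact Finset.card_le_one.1 hle l (Finset.mem_filter.2 ⟨Finset.mem_range.2 hl, hT, rfl⟩) l'
        (Finset.mem_filter.2 ⟨Finset.mem_range.2 hl', hT', heq.symm⟩)
    have hPcond : ∀ l < k, ∀ j < N,
        ((range m).filter fun i => T1 i l = 1 ∧ G1 τ i l = j).card +
          2 * ((range m).filter fun i => T2 i l = 1 ∧ G2 τ i l = j).card =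
        ((range m).filter fun i => T1 i l = 1 ∧ inc T1 i l = j).card +
          2 * ((range m).filter fun i => T2 i l = 1 ∧ inc T2 i l = j).card := by
      intro l hl j hj
      by_cases hex : ∃ x0, A x0 = l
      · obtain ⟨x0, rfl⟩ := hex
        rw [← hcolm τ (A x0) j (hA x0) (fun i _ => hinv' i _ (hA x0))]
        exact hτA j (Finset.mem_range.2 hj) x0
      · have hT1 : ∀ i, T1 i l ≠ 1 := by
          intro i hT
          obtain ⟨x, hx⟩ := hne1 i l hl hT
          exact hex ⟨x, (hQ1D i l hl x hx).2⟩
        have hT2 : ∀ i, T2 i l ≠ 1 := by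
          intro i hT
          obtain ⟨x, hx⟩ := hne2 i l hl hT
          exact hex ⟨x, (hQ2D i l hl x hx).2⟩
        rw [Finset.filter_false_of_mem, Finset.filter_false_of_mem, Finset.filter_false_of_mem,
          Finset.filter_false_of_mem]
        · exact fun i _ h => hT2 i h.1
        · exact fun i _ h => hT1 i h.1
        · exact fun i _ h => hT2 i h.1
        · exact fun i _ h => hT1 i h.1
    obtain ⟨hF1, hF2⟩ := filling_unique m k N p t (fun i _ => hN i) (fun i _ => (htp i).trans (hN i))
      T1 T2 (G1 τ) (G2 τ) (fun i _ => hr1' i) (fun i _ => hr2' i)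
      (fun i _ l hl hT => hlt1 i l hl hT) (fun i _ l hl hT => hlt2 i l hl hT)
      (fun i _ => hinj1 i) (fun i _ => hinj2 i) hPcond
    funext x
    rcases hQmem x with hx | hx
    · rw [hτ01 _ _ (hA x) x hx, ← hF1 (D x) (hm x) (A x) (hA x) (hT1of x hx),
        hG1 τ _ _ (hA x) (hT1of x hx) x hx]
    · rw [hτ02 _ _ (hA x) x hx, ← hF2 (D x) (hm x) (A x) (hA x) (hT2of x hx),
        hG2 τ _ _ (hA x) (hinv' _ _ (hA x)) x hx]
  -- parity
  have hpar : ∀ s : Finset (ℕ × ℕ), s ⊆ (range m) ×ˢ (range k) →
      (Odd (groupings N p t D A P).card ↔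
        Odd ((groupings N p t D A P).filter fun τ => ∀ c ∈ s, inv τ c).card) := by
    intro s
    induction s using Finset.induction_on with
    | empty =>
      intro _
      rw [Finset.filter_true_of_mem]
      intro τ _ c hc
      exact absurd hc (Finset.notMem_empty _)
    | insert c0 s hc0 ih =>
      intro hsub
      rw [ih ((Finset.subset_insert _ _).trans hsub)]
      have hc0k : c0.2 < k :=
        Finset.mem_range.1 (Finset.mem_product.1 (hsub (Finset.mem_insert_self _ _))).2
      set S : Finset (X → ℕ) := (groupings N p t D A P).filter fun τ => ∀ c ∈ s, inv τ c with hS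
      have e1 : ((groupings N p t D A P).filter fun τ => ∀ c ∈ insert c0 s, inv τ c) =
          S.filter fun τ => inv τ c0 := by
        rw [hS, Finset.filter_filter]
        refine Finset.filter_congr fun τ _ => ?_
        rw [Finset.forall_mem_insert]
        tauto
      rw [e1]
      have e2 : (S.filter fun τ => inv τ c0).card + (S.filter fun τ => ¬ inv τ c0).card = S.card :=
        Finset.card_filter_add_card_filter_not _
      suffices hev : Even (S.filter fun τ => ¬ inv τ c0).card by
        rw [← e2, Nat.odd_add]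
        tauto
      rcases Nat.lt_or_ge (T2 c0.1 c0.2) 1 with h | h
      · have h0 : T2 c0.1 c0.2 = 0 := by omega
        have hc := (hQ c0.1 c0.2 hc0k).2.2.2
        rw [h0, Nat.mul_zero, Finset.card_eq_zero] at hc
        rw [Finset.filter_false_of_mem]
        · simp
        · intro τ _ hcon
          apply hcon
          intro x hx
          rw [hc] at hx
          exact absurd hx (Finset.notMem_empty _)
      · have h0 : T2 c0.1 c0.2 = 1 := le_antisymm (h2 _ _) h
        have hc := (hQ c0.1 c0.2 hc0k).2.2.2
        rw [h0, Nat.mul_one, Finset.card_eq_two] at hc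
        obtain ⟨a, b, hab, hQab⟩ := hc
        have haD := hQ2D c0.1 c0.2 hc0k a (by rw [hQab]; simp)
        have hbD := hQ2D c0.1 c0.2 hc0k b (by rw [hQab]; simp)
        have hσD : ∀ x, D (Equiv.swap a b x) = D x := by
          intro x
          rcases Equiv.swap_apply_eq_iff (x := a) (y := b) (z := x) (w := x) with _
          by_cases hxa : x = a
          · rw [hxa, Equiv.swap_apply_left, haD.1, hbD.1]
          · by_cases hxb : x = b
            · rw [hxb, Equiv.swap_apply_right, haD.1, hbD.1]
            · rw [Equiv.swap_apply_of_ne_of_ne hxa hxb]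
        have hσA : ∀ x, A (Equiv.swap a b x) = A x := by
          intro x
          by_cases hxa : x = a
          · rw [hxa, Equiv.swap_apply_left, haD.2, hbD.2]
          · by_cases hxb : x = b
            · rw [hxb, Equiv.swap_apply_right, haD.2, hbD.2]
            · rw [Equiv.swap_apply_of_ne_of_ne hxa hxb]
        have hcard : ∀ (F : X → ℕ) (y j : ℕ) (τ : X → ℕ), (∀ x, F (Equiv.swap a b x) = F x) →
            (univ.filter fun x => F x = y ∧ τ (Equiv.swap a b x) = j).card =
              (univ.filter fun x => F x = y ∧ τ x = j).card := by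
          intro F y j τ hF
          refine Finset.card_bij (fun x _ => Equiv.swap a b x) ?_ ?_ ?_
          · intro x hx
            obtain ⟨-, ha, hb⟩ := Finset.mem_filter.1 hx
            exact Finset.mem_filter.2 ⟨Finset.mem_univ _, by rw [hF]; exact ha, hb⟩
          · intro x _ y _ hxy
            exact (Equiv.swap a b).injective hxy
          · intro x hx
            obtain ⟨-, ha, hb⟩ := Finset.mem_filter.1 hx
            refine ⟨Equiv.swap a b x, Finset.mem_filter.2 ⟨Finset.mem_univ _, by rw [hF]; exact ha, ?_⟩, ?_⟩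
            · rw [Equiv.swap_apply_self]; exact hb
            · rw [Equiv.swap_apply_self]
        refine even_card_of_invol _ (fun τ => τ ∘ Equiv.swap a b) ?_ ?_ ?_
        · intro τ hτ
          obtain ⟨hτS, hτn⟩ := Finset.mem_filter.1 hτ
          obtain ⟨hτG, hτs⟩ := Finset.mem_filter.1 hτS
          unfold groupings at hτG
          obtain ⟨hg1, hg2, hg3⟩ := Finset.mem_filter.1 hτG
          refine Finset.mem_filter.2 ⟨Finset.mem_filter.2 ⟨?_, ?_⟩, ?_⟩
          · unfold groupings
            refine Finset.mem_filter.2 ⟨Fintype.mem_piFinset.2 fun x => ?_, ?_, ?_⟩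
            · exact Fintype.mem_piFinset.1 hg1 (Equiv.swap a b x)
            · intro j hj x0
              rw [← hg2 j hj x0]
              exact hcard A (A x0) j τ hσA
            · intro j hj x0
              rw [← hg3 j hj x0]
              exact hcard D (D x0) j τ hσD
          · intro c hc x hx y hy
            have hck : c.2 < k := Finset.mem_range.1
              (Finset.mem_product.1 (hsub (Finset.mem_insert_of_mem hc))).2
            have hne : ∀ z ∈ Q2 c.1 c.2, Equiv.swap a b z = z := by
              intro z hz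
              have hzD := hQ2D c.1 c.2 hck z hz
              refine Equiv.swap_apply_of_ne_of_ne ?_ ?_
              · rintro rfl
                apply hc0
                have : c = c0 := Prod.ext (hzD.1.symm.trans haD.1) (hzD.2.symm.trans haD.2)
                rw [← this]; exact hc
              · rintro rfl
                apply hc0
                have : c = c0 := Prod.ext (hzD.1.symm.trans hbD.1) (hzD.2.symm.trans hbD.2)
                rw [← this]; exact hc
            change τ (Equiv.swap a b x) = τ (Equiv.swap a b y)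
            rw [hne x hx, hne y hy]
            exact hτs c hc x hx y hy
          · intro hcon
            apply hτn
            have h3 := hcon a (by rw [hQab]; simp) b (by rw [hQab]; simp)
            change τ (Equiv.swap a b a) = τ (Equiv.swap a b b) at h3
            rw [Equiv.swap_apply_left, Equiv.swap_apply_right] at h3
            intro x hx y hy
            rw [hQab, Finset.mem_insert, Finset.mem_singleton] at hx hy
            rcases hx with rfl | rfl <;> rcases hy with rfl | rfl
            · rfl
            · exact h3.symm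
            · exact h3
            · rfl
        · intro τ
          funext x
          change τ (Equiv.swap a b (Equiv.swap a b x)) = τ x
          rw [Equiv.swap_apply_self]
        · intro τ hτ heq
          obtain ⟨hτS, hτn⟩ := Finset.mem_filter.1 hτ
          apply hτn
          have h3 := congrFun heq a
          change τ (Equiv.swap a b a) = τ a at h3
          rw [Equiv.swap_apply_left] at h3
          intro x hx y hy
          rw [hQab, Finset.mem_insert, Finset.mem_singleton] at hx hy
          rcases hx with rfl | rfl <;> rcases hy with rfl | rfl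
          · rfl
          · exact h3.symm
          · exact h3
          · rfl
  rw [hpar _ (Finset.Subset.refl _)]
  have hone : ((groupings N p t D A P).filter fun τ => ∀ c ∈ (range m) ×ˢ (range k), inv τ c) = {τ0} := by
    ext τ
    rw [Finset.mem_filter, Finset.mem_singleton]
    constructor
    · rintro ⟨ha, hb⟩
      exact huniq τ ha hb
    · rintro rfl
      exact ⟨hτ0mem, fun c hc => hτ0inv c.1 c.2
        (Finset.mem_range.1 (Finset.mem_product.1 hc).2)⟩
  rw [hone, Finset.card_singleton]
  exact odd_one

end Pool.Agent.Helper310_SaxlA
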