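import Mathlib
import Pool.Agent.Helper310_SaxlA.FamParity
import Pool.Agent.Helper310_SaxlA.Groupings
import Pool.Agent.Helper310_SaxlA.Functional

/-!
# An integral functional which is odd at the highest weight vector
-/

namespace Pool.Agent.Helper310_SaxlA

open Equiv Finset Pool.Agent.Helper310_Saxl

lemma card_comp {X : Type*} [Fintype X] (h : Perm X) (Q : X → Prop) [DecidablePred Q] :
    (univ.filter fun x => Q (h x)).card = (univ.filter fun x => Q x).card := by
  refine Finset.card_bij' (fun x _ => h x) (fun x _ => h⁻¹ x) ?_ ?_ ?_ ?_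
  · intro x hx
    rw [Finset.mem_filter] at hx ⊢
    exact ⟨Finset.mem_univ _, hx.2⟩
  · intro x hx
    rw [Finset.mem_filter] at hx ⊢
    refine ⟨Finset.mem_univ _, ?_⟩
    rw [perm_apply_inv]; exact hx.2
  · intro x _; exact perm_inv_apply _ _
  · intro x _; exact perm_apply_inv _ _

lemma groupings_mem_comp {X : Type*} [Fintype X] [DecidableEq X] {N : ℕ} {p t : ℕ → ℕ}
    {D D' A : X → ℕ} {P : ℕ → ℕ → ℕ} (h : Perm X) (hA : ∀ x, A (h x) = A x)
    (hD : ∀ x, D' (h x) = D x) {τ : X → ℕ} (hτ : τ ∈ groupings N p t D' A P) :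
    (fun x => τ (h x)) ∈ groupings N p t D A P := by
  rw [groupings, Finset.mem_filter, Fintype.mem_piFinset] at hτ ⊢
  obtain ⟨h1, h2, h3⟩ := hτ
  refine ⟨fun x => h1 _, ?_, ?_⟩
  · intro j hj x0
    have e1 := card_comp h (fun y => A y = A x0 ∧ τ y = j)
    simp only [hA] at e1
    rw [e1]
    exact h2 j hj x0
  · intro j hj x0
    have e1 := card_comp h (fun y => D' y = D' (h x0) ∧ τ y = j)
    simp only [hD] at e1
    have e2 := h3 j hj (h x0)
    rw [hD] at e2
    simp only at e1 ⊢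
    rw [e1, e2]

lemma groupings_card_comp {X : Type*} [Fintype X] [DecidableEq X] (N : ℕ) (p t : ℕ → ℕ)
    (D D' A : X → ℕ) (P : ℕ → ℕ → ℕ) (h : Perm X) (hA : ∀ x, A (h x) = A x)
    (hD : ∀ x, D' (h x) = D x) :
    (groupings N p t D' A P).card = (groupings N p t D A P).card := by
  have hA' : ∀ x, A (h⁻¹ x) = A x := by
    intro x
    have := hA (h⁻¹ x)
    rw [perm_apply_inv] at this
    exact this.symm
  have hD' : ∀ x, D (h⁻¹ x) = D' x := by
    intro x
    have := hD (h⁻¹ x)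
    rw [perm_apply_inv] at this
    exact this.symm
  refine Finset.card_bij' (fun τ _ => fun x => τ (h x)) (fun τ _ => fun x => τ (h⁻¹ x)) ?_ ?_ ?_ ?_
  · intro τ hτ; exact groupings_mem_comp h hA hD hτ
  · intro τ hτ; exact groupings_mem_comp h⁻¹ hA' hD' hτ
  · intro τ _; funext x; simp only [perm_apply_inv]
  · intro τ _; funext x; simp only [perm_inv_apply]

theorem exists_coeff {X : Type*} [Fintype X] [LinearOrder X] {U : Type*} [AddCommGroup U]
    [Module ℂ U] (ρ : Representation ℂ (Perm X) U) (D : X → ℕ) (φ : U) (hφ : φ ≠ 0)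
    (hHW : HW ρ univ D φ) (k : ℕ) (p t : ℕ → ℕ) (hp : Antitone p) (ht : Antitone t)
    (htp : ∀ i, t i ≤ p i) (hL : ∀ i, (univ.filter fun x => D x = i).card = p i + 2 * t i)
    (A : X → ℕ) (T1 T2 : ℕ → ℕ → ℕ) (h1 : ∀ i l, T1 i l ≤ 1) (h2 : ∀ i l, T2 i l ≤ 1)
    (hr1 : ∀ i, ∑ l ∈ range k, T1 i l = p i) (hr2 : ∀ i, ∑ l ∈ range k, T2 i l = t i)
    (hA : ∀ x, A x < k)
    (hcnt : ∀ i, ∀ l < k, (univ.filter fun x => D x = i ∧ A x = l).card =
      T1 i l + 2 * T2 i l) :
    ∃ (l : U →ₗ[ℂ] ℂ) (m : Perm X → ℤ), (∀ g, l (ρ g φ) = m g) ∧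
      (∀ h g : Perm X, (∀ x, A (h x) = A x) →
        ((m (h * g) : ℤ) : ZMod 2) = ((m g : ℤ) : ZMod 2)) ∧ ((m 1 : ℤ) : ZMod 2) = 1 := by
  have hN : ∀ i, p i ≤ p 0 := fun i => hp (Nat.zero_le i)
  obtain ⟨P, hodd⟩ := exists_odd_groupings k (p 0) p t htp hN D A T1 T2 h1 h2 hr1 hr2 hA hcnt
  -- the functionals
  have hfun : ∀ s : X → ℕ × Fin 3, ∃ (l : U →ₗ[ℂ] ℂ) (m : Perm X → ℤ),
      (∀ g, l (ρ g φ) = m g) ∧
      ∀ g, ((m g : ℤ) : ZMod 2) = if Tab p t (fun x => D (g⁻¹ x)) s then 1 else 0 := by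
    intro s
    by_cases hex : ∃ g : Perm X, Tab p t (fun x => D (g⁻¹ x)) s
    · obtain ⟨g, hg⟩ := hex
      refine exists_functional ρ D φ hφ hHW p t hp ht hL s (fun x => D (g⁻¹ x)) ?_ hg
      intro i
      exact card_comp g⁻¹ (fun y => D y = i)
    · push Not at hex
      refine ⟨0, fun _ => 0, fun g => by simp, fun g => ?_⟩
      rw [if_neg (hex g)]
      simp
  choose l m hlm hm2 using hfun
  -- bounds for the rows
  obtain ⟨M, hM'⟩ : ∃ M, ∀ x, D x < M := by
    refine ⟨univ.sup D + 1, fun x => ?_⟩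
    have : D x ≤ univ.sup D := Finset.le_sup (Finset.mem_univ x)
    omega
  have hM : ∀ i, M ≤ i → p i = 0 := by
    intro i hi
    have h3 := hL i
    have h4 : (univ.filter fun x => D x = i) = ∅ := by
      rw [Finset.filter_eq_empty_iff]
      intro x _ hx
      have := hM' x
      omega
    rw [h4, Finset.card_empty] at h3
    omega
  have hcard : Fintype.card X = ∑ i ∈ range M, (p i + 2 * t i) := by
    rw [← Finset.card_univ, Finset.card_eq_sum_card_fiberwise (f := D) (t := range M)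
      (fun x _ => by simpa using hM' x)]
    exact Finset.sum_congr rfl fun i _ => hL i
  have key : ∀ g : Perm X, ((∑ s ∈ fam (p 0) A P, m s g : ℤ) : ZMod 2) =
      ((groupings (p 0) p t (fun x => D (g⁻¹ x)) A P).card : ZMod 2) := by
    intro g
    rw [← fam_parity (p 0) p t htp hN M hM hcard (fun x => D (g⁻¹ x)) A P, Int.cast_sum,
      Finset.card_filter, Nat.cast_sum]
    refine Finset.sum_congr rfl fun s _ => ?_
    rw [hm2 s g]
    by_cases hT : Tab p t (fun x => D (g⁻¹ x)) s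
    · rw [if_pos hT, if_pos hT, Nat.cast_one]
    · rw [if_neg hT, if_neg hT, Nat.cast_zero]
  refine ⟨∑ s ∈ fam (p 0) A P, l s, fun g => ∑ s ∈ fam (p 0) A P, m s g, ?_, ?_, ?_⟩
  · intro g
    rw [LinearMap.sum_apply, Int.cast_sum]
    exact Finset.sum_congr rfl fun s _ => hlm s g
  · intro h g hAh
    simp only
    rw [key, key]
    congr 1
    refine groupings_card_comp (p 0) p t _ _ A P h hAh ?_
    intro x
    rw [mul_inv_rev, Perm.mul_apply, perm_inv_apply]
  · simp only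
    rw [key]
    simp only [inv_one, Perm.one_apply]
    obtain ⟨c, hc⟩ := hodd
    rw [hc]
    push_cast
    have : (2 : ZMod 2) = 0 := by decide
    rw [this, zero_mul, zero_add]

end Pool.Agent.Helper310_SaxlA
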