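import Mathlib

/-!
# The last maximum
-/

namespace Pool.Agent.Helper310_SaxlA

open Finset

theorem comb_pt1a {k c1 : ℕ} {L : ℕ → ℕ} (hL : Antitone L)
    (hsum : ∑ i ∈ range k, L i = k * (k + 1) / 2)
    (hc : ∀ i, 0 < L i ↔ i < c1) (hc1k : c1 < k) :
    ∃ h q : ℕ, h + q = k ∧ 1 ≤ q ∧ 1 ≤ h ∧ (∀ i < h, q + 1 ≤ L i) ∧ (∀ i, h ≤ i → L i + 1 ≤ q) ∧
      (∀ x ≤ k, ∑ i ∈ range x, L i + ∑ i ∈ range h, (k - i) ≤
        ∑ i ∈ range x, (k - i) + ∑ i ∈ range h, L i) ∧
      ∑ i ∈ range h, (k - i) + 1 ≤ ∑ i ∈ range h, L i := by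
  -- `A x`, `B x`: the two sums
  set A : ℕ → ℕ := fun x => ∑ i ∈ range x, L i with hA
  set B : ℕ → ℕ := fun x => ∑ i ∈ range x, (k - i) with hB
  have hA1 : ∀ x, A (x + 1) = A x + L x := fun x => Finset.sum_range_succ _ _
  have hB1 : ∀ x, B (x + 1) = B x + (k - x) := fun x => Finset.sum_range_succ _ _
  have hA0 : A 0 = 0 := by simp [hA]
  have hB0 : B 0 = 0 := by simp [hB]
  have hBk : B k = k * (k + 1) / 2 := by
    have e1 : B k = ∑ i ∈ range k, (i + 1) := by
      rw [hB]
      simp only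
      rw [← Finset.sum_range_reflect (fun i => i + 1) k]
      refine Finset.sum_congr rfl ?_
      intro i hi
      have := Finset.mem_range.mp hi
      omega
    have e2 : ∑ i ∈ range (k + 1), i = ∑ i ∈ range k, (i + 1) := by
      rw [Finset.sum_range_succ']
      simp
    rw [e1, ← e2, Finset.sum_range_id, Nat.mul_comm, Nat.add_sub_cancel]
  have hAk : A k = B k := by rw [hBk]; exact hsum
  have hLk : L (k - 1) = 0 := by
    by_contra h
    have h1 : 0 < L (k - 1) := Nat.pos_of_ne_zero h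
    have h2 := (hc (k - 1)).1 h1
    omega
  have hk1 : (k - 1) + 1 = k := by omega
  have hAk1 : A (k - 1) = A k := by
    have := hA1 (k - 1)
    rw [hk1, hLk] at this
    omega
  have hBk1 : B (k - 1) + 1 = B k := by
    have := hB1 (k - 1)
    rw [hk1] at this
    omega
  -- the last maximum
  obtain ⟨h, hh, hmax⟩ := Finset.exists_max_image (range (k + 1))
    (fun x : ℕ => ((A x : ℤ) - B x) * ((k : ℤ) + 1) + x) ⟨0, by simp⟩
  have hhk : h ≤ k := by
    have := Finset.mem_range.mp hh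
    omega
  have hM : ∀ x, x ≤ k → ((A x : ℤ) - B x) ≤ (A h : ℤ) - B h := by
    intro x hx
    have h1 := hmax x (by simp; omega)
    by_contra hcon
    push Not at hcon
    have h2 : (A h : ℤ) - B h + 1 ≤ (A x : ℤ) - B x := by omega
    have h3 : ((A h : ℤ) - B h + 1) * ((k : ℤ) + 1) ≤ ((A x : ℤ) - B x) * ((k : ℤ) + 1) :=
      mul_le_mul_of_nonneg_right h2 (by positivity)
    have h4 : (h : ℤ) ≤ k := by exact_mod_cast hhk
    have h5 : (0 : ℤ) ≤ x := by positivity
    nlinarith
  have hM' : ∀ x, x ≤ k → h < x → ((A x : ℤ) - B x) < (A h : ℤ) - B h := by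
    intro x hx hhx
    refine lt_of_le_of_ne (hM x hx) ?_
    intro he
    have h1 := hmax x (by simp; omega)
    rw [he] at h1
    have : (x : ℤ) ≤ h := by linarith
    omega
  have hpos : (1 : ℤ) ≤ (A h : ℤ) - B h := by
    have h1 := hM (k - 1) (by omega)
    omega
  have hh1 : 1 ≤ h := by
    rcases Nat.eq_zero_or_pos h with h0 | h0
    · rw [h0, hA0, hB0] at hpos
      simp at hpos
    · exact h0
  have hhk' : h < k := by
    rcases Nat.lt_or_ge h k with h0 | h0
    · exact h0
    · have : h = k := by omega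
      rw [this, hAk] at hpos
      omega
  refine ⟨h, k - h, by omega, by omega, hh1, ?_, ?_, ?_, ?_⟩
  · intro i hi
    have h1 := hM (h - 1) (by omega)
    have h2 := hA1 (h - 1)
    have h3 := hB1 (h - 1)
    have h4 : h - 1 + 1 = h := by omega
    rw [h4] at h2 h3
    have h5 : L (h - 1) ≤ L i := hL (by omega)
    omega
  · intro i hi
    have h1 := hM' (h + 1) (by omega) (by omega)
    have h2 := hA1 h
    have h3 := hB1 h
    have h5 : L i ≤ L h := hL hi
    omega
  · intro x hx
    have h1 := hM x hx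
    change A x + B h ≤ B x + A h
    omega
  · change B h + 1 ≤ A h
    omega

end Pool.Agent.Helper310_SaxlA
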