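import Mathlib

/-!
# Pairs of columns
-/

namespace Pool.Agent.Helper310_SaxlA

open Finset

private lemma sum_lin (a : ℤ) (x : ℕ) :
    2 * ∑ i ∈ range x, (a - (i : ℤ)) = 2 * a * x - x * (x - 1) := by
  induction x with
  | zero => simp
  | succ n ih =>
    rw [sum_range_succ, mul_add, ih]
    push_cast
    ring

theorem comb_pt1b {k c1 h q : ℕ} {L : ℕ → ℕ} (hL : Antitone L)
    (hsum : ∑ i ∈ range k, L i = k * (k + 1) / 2) (h0 : L 0 < k)
    (hc : ∀ i, 0 < L i ↔ i < c1) (hc1k : c1 < k) (tall : L 0 ≤ c1)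
    (hh : h + q = k) (hq : 1 ≤ q) (hh1 : 1 ≤ h) (hLh : ∀ i < h, q + 1 ≤ L i)
    (hLh' : ∀ i, h ≤ i → L i + 1 ≤ q)
    (hmax : ∀ x ≤ k, ∑ i ∈ range x, L i + ∑ i ∈ range h, (k - i) ≤
        ∑ i ∈ range x, (k - i) + ∑ i ∈ range h, L i)
    (hpos : ∑ i ∈ range h, (k - i) + 1 ≤ ∑ i ∈ range h, L i) :
    ∃ p t : ℕ → ℕ, Antitone p ∧ Antitone t ∧ (∀ i, t i ≤ p i) ∧ (∀ i, L i = p i + 2 * t i) ∧
      (∀ i < h, q ≤ p i) ∧ (∀ i, h ≤ i → t i = 0) ∧
      (∀ x ≤ k, ∑ i ∈ range x, p i ≤ ∑ i ∈ range x, (k - i)) ∧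
      (∀ x, h ≤ x → x ≤ k → ∑ i ∈ range h, (k - i) + ∑ i ∈ range x, p i ≤
        ∑ i ∈ range x, (k - i) + ∑ i ∈ range h, p i) ∧
      ∑ i ∈ range h, p i + (k - c1) ≤ ∑ i ∈ range h, (k - i) ∧
      t 0 * (t 0 - 1) ≤ ∑ i ∈ range k, t i ∧ 1 ≤ ∑ i ∈ range k, t i := by
  classical
  obtain ⟨b, hb1, hb0⟩ : ∃ b : ℕ → ℕ, (∀ i < h, L i = q + b i) ∧ (∀ i, h ≤ i → b i = 0) := by
    refine ⟨fun i => if i < h then L i - q else 0, ?_, ?_⟩
    · intro i hi
      have := hLh i hi
      simp only [hi, if_true]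
      omega
    · intro i hi
      have : ¬ i < h := by omega
      simp [this]
  have hbS : ∀ i, b (i + 1) ≤ b i := by
    intro i
    rcases lt_or_ge (i + 1) h with h1 | h1
    · have e1 := hb1 i (by omega)
      have e2 := hb1 (i + 1) h1
      have := hL (Nat.le_succ i)
      simp only [Nat.succ_eq_add_one] at this
      omega
    · rw [hb0 _ h1]; exact Nat.zero_le _
  obtain ⟨u, hu0, hu1⟩ : ∃ u : ℕ → ℕ, (∀ i, h ≤ i → u i = 0) ∧
      (∀ i < h, u i = (b i - b (i + 1)) / 2 + u (i + 1)) := by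
    refine ⟨fun i => ∑ x ∈ Ico i h, (b x - b (x + 1)) / 2, ?_, ?_⟩
    · intro i hi
      simp [Ico_eq_empty_of_le hi]
    · intro i hi
      simp only
      rw [Finset.sum_eq_sum_Ico_succ_bot hi]
  obtain ⟨R, hR0, hR1⟩ : ∃ R : ℕ → ℕ, (∀ i, h ≤ i → R i = 0) ∧
      (∀ i < h, R i = (b i - b (i + 1)) % 2 + R (i + 1)) := by
    refine ⟨fun i => ∑ x ∈ Ico i h, (b x - b (x + 1)) % 2, ?_, ?_⟩
    · intro i hi
      simp [Ico_eq_empty_of_le hi]
    · intro i hi
      simp only
      rw [Finset.sum_eq_sum_Ico_succ_bot hi]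
  -- b = 2u + R
  have key : ∀ j i, i + j = h → b i = 2 * u i + R i ∧ R i ≤ j := by
    intro j
    induction j with
    | zero =>
      intro i hi
      have : h ≤ i := by omega
      rw [hb0 _ this, hu0 _ this, hR0 _ this]; simp
    | succ j ih =>
      intro i hi
      have e1 := ih (i + 1) (by omega)
      have e2 := hu1 i (by omega)
      have e3 := hR1 i (by omega)
      have e4 := hbS i
      omega
  have hbuR : ∀ i, b i = 2 * u i + R i := by
    intro i
    rcases le_total i h with h1 | h1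
    · exact (key (h - i) i (by omega)).1
    · rw [hb0 _ h1, hu0 _ h1, hR0 _ h1]
  have hRle : ∀ i < h, R i ≤ h - i := fun i hi => (key (h - i) i (by omega)).2
  have hRA : Antitone R := by
    apply antitone_nat_of_succ_le
    intro i
    rcases lt_or_ge i h with h1 | h1
    · have := hR1 i h1; omega
    · rw [hR0 _ h1, hR0 _ (by omega)]
  have huA : Antitone u := by
    apply antitone_nat_of_succ_le
    intro i
    rcases lt_or_ge i h with h1 | h1
    · have := hu1 i h1; omega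
    · rw [hu0 _ h1, hu0 _ (by omega)]
  obtain ⟨t, ht⟩ : ∃ t : ℕ → ℕ, ∀ i, t i = min q (u i) := ⟨_, fun _ => rfl⟩
  obtain ⟨p, hp⟩ : ∃ p : ℕ → ℕ, ∀ i, p i = L i - 2 * t i := ⟨_, fun _ => rfl⟩
  have ht0 : ∀ i, h ≤ i → t i = 0 := by
    intro i hi; rw [ht, hu0 i hi]; simp
  have hpq : ∀ i < h, q ≤ p i ∧ L i = p i + 2 * t i := by
    intro i hi
    have e1 := hb1 i hi
    have e2 := hbuR i
    have e3 := ht i
    have e4 := hp i
    have e5 : t i ≤ u i := by rw [e3]; exact min_le_right _ _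
    omega
  have hLpt : ∀ i, L i = p i + 2 * t i := by
    intro i
    rcases lt_or_ge i h with h1 | h1
    · exact (hpq i h1).2
    · rw [hp, ht0 i h1]; simp
  have htA : Antitone t := by
    intro i j hij
    rw [ht, ht]
    exact min_le_min le_rfl (huA hij)
  have hpA : Antitone p := by
    apply antitone_nat_of_succ_le
    intro i
    rcases lt_or_ge (i + 1) h with h1 | h1
    · have e1 := hb1 i (by omega)
      have e2 := hb1 (i + 1) h1
      have e3 := hu1 i (by omega)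
      have e4 := hbS i
      have e5 := hLpt i
      have e6 := hLpt (i + 1)
      have e7 := ht i
      have e8 := ht (i + 1)
      have e9 := huA (Nat.le_succ i)
      simp only [Nat.succ_eq_add_one] at e9
      omega
    · rcases lt_or_ge i h with h2 | h2
      · have e1 := (hpq i h2).1
        have e2 := hLh' (i + 1) h1
        have e3 := hp (i + 1)
        omega
      · have e1 := hLpt i
        have e2 := hLpt (i + 1)
        have e3 := ht0 i h2
        have e4 := ht0 (i + 1) h1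
        have e5 := hL (Nat.le_succ i)
        simp only [Nat.succ_eq_add_one] at e5
        omega
  have htp : ∀ i, t i ≤ p i := by
    intro i
    rcases lt_or_ge i h with h1 | h1
    · have := (hpq i h1).1
      have e3 := ht i
      have e5 : t i ≤ q := by rw [e3]; exact min_le_left _ _
      omega
    · rw [ht0 i h1]; exact Nat.zero_le _
  -- integer sums
  have hcast : ∀ x ≤ k, ((∑ i ∈ range x, (k - i) : ℕ) : ℤ) = ∑ i ∈ range x, ((k : ℤ) - i) := by
    intro x hx
    push_cast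
    apply sum_congr rfl
    intro i hi
    rw [mem_range] at hi
    rw [Nat.cast_sub (by omega)]
  obtain ⟨psi, hpsi⟩ : ∃ psi : ℕ → ℤ, ∀ x, psi x = ∑ i ∈ range x, ((L i : ℤ) - ((k : ℤ) - i)) :=
    ⟨_, fun _ => rfl⟩
  obtain ⟨S, hS⟩ : ∃ S : ℕ → ℤ, ∀ x, S x = ∑ i ∈ range x, (((k : ℤ) - i) - (p i : ℤ)) :=
    ⟨_, fun _ => rfl⟩
  obtain ⟨T, hT⟩ : ∃ T : ℕ → ℤ, ∀ x, T x = ∑ i ∈ range x, (t i : ℤ) :=
    ⟨_, fun _ => rfl⟩
  have hSpsi : ∀ x, S x = 2 * T x - psi x := by
    intro x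
    rw [hS, hT, hpsi, mul_sum, ← sum_sub_distrib]
    apply sum_congr rfl
    intro i _
    have := hLpt i
    have h2 : (L i : ℤ) = p i + 2 * t i := by exact_mod_cast this
    rw [h2]; ring
  have hpsimax : ∀ x ≤ k, psi x ≤ psi h := by
    intro x hx
    have e1 := hmax x hx
    have e2 := hcast x hx
    have e3 := hcast h (by omega)
    have e2' := hpsi x
    have e3' := hpsi h
    rw [sum_sub_distrib, ← e2] at e2'
    rw [sum_sub_distrib, ← e3] at e3'
    rw [e2', e3']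
    have : ((∑ i ∈ range x, L i + ∑ i ∈ range h, (k - i) : ℕ) : ℤ) ≤
        ((∑ i ∈ range x, (k - i) + ∑ i ∈ range h, L i : ℕ) : ℤ) := by exact_mod_cast e1
    rw [Nat.cast_add, Nat.cast_add] at this
    have e4 : ((∑ i ∈ range x, L i : ℕ) : ℤ) = ∑ i ∈ range x, (L i : ℤ) := by push_cast; rfl
    have e5 : ((∑ i ∈ range h, L i : ℕ) : ℤ) = ∑ i ∈ range h, (L i : ℤ) := by push_cast; rfl
    rw [e4, e5] at this
    linarith
  have hpsipos : 1 ≤ psi h := by
    have e3 := hcast h (by omega)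
    rw [hpsi, sum_sub_distrib, ← e3]
    have : ((∑ i ∈ range h, (k - i) + 1 : ℕ) : ℤ) ≤ ((∑ i ∈ range h, L i : ℕ) : ℤ) := by
      exact_mod_cast hpos
    rw [Nat.cast_add] at this
    have e5 : ((∑ i ∈ range h, L i : ℕ) : ℤ) = ∑ i ∈ range h, (L i : ℤ) := by push_cast; rfl
    rw [e5] at this
    push_cast at this ⊢
    linarith
  have hpsik : psi k = 0 := by
    rw [hpsi, sum_sub_distrib]
    have e1 := sum_lin (k : ℤ) k
    have e2 : 2 * (k * (k + 1) / 2) = k * (k + 1) :=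
      Nat.mul_div_cancel' (Nat.even_mul_succ_self k).two_dvd
    have e3 : 2 * ∑ i ∈ range k, L i = k * (k + 1) := by rw [hsum, e2]
    have e4 : 2 * ∑ i ∈ range k, (L i : ℤ) = k * (k + 1) := by exact_mod_cast e3
    nlinarith
  have hdiff : ∀ (f : ℕ → ℤ) (x y : ℕ), x ≤ y → ∑ i ∈ range y, f i = ∑ i ∈ range x, f i + ∑ i ∈ Ico x y, f i := by
    intro f x y hxy
    rw [sum_range_add_sum_Ico _ hxy]
  -- 2 * psi h ≤ q (q+1)
  have hpsiTq : 2 * psi h ≤ q * (q + 1) := by
    have e1 : psi k = psi h + ∑ i ∈ Ico h k, ((L i : ℤ) - ((k : ℤ) - i)) := by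
      rw [hpsi, hpsi]; exact hdiff _ h k (by omega)
    have e2 : ∑ i ∈ Ico h k, (-((k : ℤ) - i)) ≤ ∑ i ∈ Ico h k, ((L i : ℤ) - ((k : ℤ) - i)) := by
      apply sum_le_sum
      intro i _
      have : (0 : ℤ) ≤ L i := Int.natCast_nonneg _
      linarith
    rw [sum_neg_distrib] at e2
    have e3 := hdiff (fun i => (k : ℤ) - i) h k (by omega)
    have e4 := sum_lin (k : ℤ) k
    have e5 := sum_lin (k : ℤ) h
    have e6 : (k : ℤ) = h + q := by exact_mod_cast hh.symm
    rw [e6] at e2 e3 e4 e5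
    have e7 : 2 * ∑ i ∈ Ico h k, ((h : ℤ) + q - i) = q * (q + 1) := by
      have : 2 * ∑ i ∈ Ico h k, ((h : ℤ) + q - i) = 2 * ∑ i ∈ range k, ((h : ℤ) + q - i) - 2 * ∑ i ∈ range h, ((h : ℤ) + q - i) := by
        rw [e3]; ring
      rw [this, e4, e5]; ring
    rw [hpsik] at e1
    rw [e6] at e1
    linarith
  -- y0
  obtain ⟨y0, hy0⟩ : ∃ y0 : ℕ, k = c1 + y0 := ⟨k - c1, by omega⟩
  have hy0pos : 1 ≤ y0 := by omega
  have hy0q : y0 ≤ q := by
    have e1 := hLh (h - 1) (by omega)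
    have e2 := (hc (h - 1)).1 (by omega)
    omega
  have hL0 : L 0 + y0 ≤ k := by omega
  -- psi x ≤ ...
  have hpsix : ∀ x, 2 * psi x ≤ - 2 * x * y0 + x * (x - 1) := by
    intro x
    have e1 : psi x ≤ ∑ i ∈ range x, (-((y0 : ℤ) - i)) := by
      rw [hpsi]
      apply sum_le_sum
      intro i _
      have e2 : (L i : ℤ) ≤ L 0 := by exact_mod_cast hL (Nat.zero_le i)
      have e3 : (L 0 : ℤ) + y0 ≤ k := by exact_mod_cast hL0
      linarith
    rw [sum_neg_distrib] at e1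
    have e2 := sum_lin (y0 : ℤ) x
    linarith
  -- i1
  obtain ⟨i1, hi1a, hi1b, hi1h⟩ : ∃ i1, (∀ i < i1, q < u i) ∧ (∀ i, i1 ≤ i → u i ≤ q) ∧ i1 ≤ h := by
    have hex : ∃ i, u i ≤ q := ⟨h, by rw [hu0 h le_rfl]; exact Nat.zero_le _⟩
    refine ⟨Nat.find hex, ?_, ?_, ?_⟩
    · intro i hi
      have := Nat.find_min hex hi
      omega
    · intro i hi
      exact (huA hi).trans (Nat.find_spec hex)
    · apply Nat.find_min' hex
      rw [hu0 h le_rfl]; exact Nat.zero_le _
  have hti1 : ∀ i < i1, t i = q := by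
    intro i hi
    rw [ht]; exact min_eq_left (hi1a i hi).le
  have hti1' : ∀ i, i1 ≤ i → t i = u i := by
    intro i hi
    rw [ht]; exact min_eq_right (hi1b i hi)
  have hTx : ∀ x ≤ i1, T x = q * x := by
    intro x hx
    rw [hT]
    rw [sum_congr rfl (g := fun _ => (q : ℤ))]
    · simp; ring
    · intro i hi
      rw [mem_range] at hi
      rw [hti1 i (by omega)]
  -- term bounds
  have hterm : ∀ i, i1 ≤ i → i < h → (0 : ℤ) ≤ ((k : ℤ) - i) - p i ∧ (y0 : ℤ) + 2 * u 0 - i ≤ ((k : ℤ) - i) - p i := by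
    intro i h1 h2
    have e1 := hb1 i h2
    have e2 := hbuR i
    have e3 := hti1' i h1
    have e4 := hLpt i
    have e5 := hRle i h2
    have e6 := hRA (Nat.zero_le i)
    have e7 := hb1 0 (by omega)
    have e8 := hbuR 0
    omega
  have hSmono : ∀ x y, i1 ≤ x → x ≤ y → y ≤ h → S x ≤ S y := by
    intro x y h1 h2 h3
    rw [hS, hS, hdiff _ x y h2]
    have : (0 : ℤ) ≤ ∑ i ∈ Ico x y, (((k : ℤ) - i) - (p i : ℤ)) := by
      apply sum_nonneg
      intro i hi
      rw [mem_Ico] at hi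
      exact (hterm i (by omega) (by omega)).1
    linarith
  -- bounds for x ≤ i1
  have hSi1a : ∀ x ≤ i1, 4 * q * (x : ℤ) - q * (q + 1) ≤ 2 * S x := by
    intro x hx
    have e1 := hpsimax x (by omega)
    rw [hSpsi, hTx x hx]
    linarith
  have hSi1b : ∀ x ≤ i1, 4 * q * (x : ℤ) + 2 * x * y0 - x * (x - 1) ≤ 2 * S x := by
    intro x hx
    have e1 := hpsix x
    rw [hSpsi, hTx x hx]
    linarith
  have hqZ : (1 : ℤ) ≤ q := by exact_mod_cast hq
  have hy0Z : (1 : ℤ) ≤ y0 := by exact_mod_cast hy0pos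
  have hy0qZ : (y0 : ℤ) ≤ q := by exact_mod_cast hy0q
  have hSlow : ∀ x ≤ i1, 0 ≤ S x := by
    intro x hx
    rcases le_total x q with h1 | h1
    · have e1 := hSi1b x hx
      have h1' : (x : ℤ) ≤ q := by exact_mod_cast h1
      have hx0 : (0 : ℤ) ≤ x := Int.natCast_nonneg _
      nlinarith
    · have e1 := hSi1a x hx
      have h1' : (q : ℤ) ≤ x := by exact_mod_cast h1
      nlinarith
  have hSx : ∀ x ≤ h, 0 ≤ S x := by
    intro x hx
    rcases le_total x i1 with h1 | h1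
    · exact hSlow x h1
    · exact (hSlow i1 le_rfl).trans (hSmono i1 x le_rfl h1 hx)
  have hSh : ∀ x, h ≤ x → x ≤ k → S h ≤ S x := by
    intro x h1 h2
    rw [hSpsi, hSpsi]
    have e1 := hpsimax x h2
    have e2 : T x = T h := by
      rw [hT, hT, hdiff _ h x h1]
      have : ∑ i ∈ Ico h x, (t i : ℤ) = 0 := by
        apply sum_eq_zero
        intro i hi
        rw [mem_Ico] at hi
        rw [ht0 i hi.1]; rfl
      linarith
    rw [e2]; linarith
  -- (d)
  have hSd : (y0 : ℤ) ≤ S h := by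
    rcases Nat.eq_zero_or_pos i1 with h1 | h1
    · have e1 := (hterm 0 (by omega) (by omega)).2
      have e2 : S 1 ≤ S h := hSmono 1 h (by omega) hh1 le_rfl
      have e3 : S 1 = ((k : ℤ) - (0 : ℕ)) - p 0 := by
        rw [hS, sum_range_one]
      have e4 : (0 : ℤ) ≤ u 0 := Int.natCast_nonneg _
      rw [e3] at e2
      push_cast at e1 e2 ⊢
      linarith
    · have e1 := hSmono i1 h le_rfl hi1h le_rfl
      have hiZ : (1 : ℤ) ≤ i1 := by exact_mod_cast h1
      rcases le_total i1 q with h2 | h2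
      · have e2 := hSi1b i1 le_rfl
        have h1' : (i1 : ℤ) ≤ q := by exact_mod_cast h2
        nlinarith
      · have e2 := hSi1a i1 le_rfl
        have h1' : (q : ℤ) ≤ i1 := by exact_mod_cast h2
        nlinarith
  -- sums of t over range k
  have hTk : T k = T h := by
    rw [hT, hT, hdiff _ h k (by omega)]
    have : ∑ i ∈ Ico h k, (t i : ℤ) = 0 := by
      apply sum_eq_zero
      intro i hi
      rw [mem_Ico] at hi
      rw [ht0 i hi.1]; rfl
    linarith
  have hTcast : ((∑ i ∈ range k, t i : ℕ) : ℤ) = T h := by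
    rw [← hTk, hT]; push_cast; rfl
  have h2T : 2 * T h = psi h + S h := by
    have := hSpsi h; linarith
  have h2u0 : 2 * u 0 + 1 ≤ h := by
    have e7 := hb1 0 (by omega)
    have e8 := hbuR 0
    omega
  -- lower bound of S h by the sum of terms
  have hSsum : ∀ m, m ≤ h → i1 ≤ m → ∀ a : ℤ, a ≤ y0 + 2 * u 0 →
      2 * S i1 + ((2 * a * m - m * (m - 1)) - (2 * a * i1 - i1 * (i1 - 1))) ≤ 2 * S h := by
    intro m hm him a ha
    have e1 : S m ≤ S h := hSmono m h him hm le_rfl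
    have e2 : S m = S i1 + ∑ i ∈ Ico i1 m, (((k : ℤ) - i) - (p i : ℤ)) := by
      rw [hS, hS, hdiff _ i1 m him]
    have e3 : ∑ i ∈ Ico i1 m, (a - (i : ℤ)) ≤ ∑ i ∈ Ico i1 m, (((k : ℤ) - i) - (p i : ℤ)) := by
      apply sum_le_sum
      intro i hi
      rw [mem_Ico] at hi
      have := (hterm i hi.1 (by omega)).2
      linarith
    have e4 := hdiff (fun i => a - (i : ℤ)) i1 m him
    have e5 := sum_lin a m
    have e6 := sum_lin a i1
    linarith
  have hTt0 : (t 0 : ℤ) * (t 0 - 1) ≤ T h := by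
    rcases Nat.eq_zero_or_pos i1 with h1 | h1
    · have e1 : t 0 = u 0 := hti1' 0 (by omega)
      have e2 := hSsum (2 * u 0 + 1) h2u0 (by omega) (2 * u 0 + 1) (by linarith)
      rw [h1] at e2
      have e3 : S 0 = 0 := by rw [hS]; simp
      rw [e3] at e2
      push_cast at e2
      rw [e1]
      have e4 : (0 : ℤ) ≤ u 0 := Int.natCast_nonneg _
      nlinarith
    · have e1 : t 0 = q := hti1 0 h1
      have e1' := hi1a 0 h1
      rw [e1]
      rcases le_or_gt q (i1 + 1) with h2 | h2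
      · have e2 : T i1 ≤ T h := by
          rw [hT, hT, hdiff _ i1 h hi1h]
          have : (0 : ℤ) ≤ ∑ i ∈ Ico i1 h, (t i : ℤ) := sum_nonneg (fun i _ => Int.natCast_nonneg _)
          linarith
        rw [hTx i1 le_rfl] at e2
        have h2' : (q : ℤ) ≤ i1 + 1 := by exact_mod_cast h2
        nlinarith
      · have e2 := hSsum (2 * q + 1) (by omega) (by omega) (2 * q + 1) (by
          have : (q : ℤ) < u 0 := by exact_mod_cast e1'
          linarith)
        have e3 := hSi1b i1 le_rfl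
        push_cast at e2
        have hiZ : (1 : ℤ) ≤ i1 := by exact_mod_cast h1
        have h2' : (i1 : ℤ) + 1 < q := by exact_mod_cast h2
        nlinarith
  have hScast : ∀ x ≤ k, S x = ((∑ i ∈ range x, (k - i) : ℕ) : ℤ) - ((∑ i ∈ range x, p i : ℕ) : ℤ) := by
    intro x hx
    rw [hcast x hx, hS, sum_sub_distrib]
    push_cast
    rfl
  refine ⟨p, t, hpA, htA, htp, hLpt, fun i hi => (hpq i hi).1, ht0, ?_, ?_, ?_, ?_, ?_⟩
  · intro x hx
    have e1 := hScast x hx
    have e2 : 0 ≤ S x := by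
      rcases le_total x h with h1 | h1
      · exact hSx x h1
      · exact (hSx h le_rfl).trans (hSh x h1 hx)
    have : ((∑ i ∈ range x, p i : ℕ) : ℤ) ≤ ((∑ i ∈ range x, (k - i) : ℕ) : ℤ) := by linarith
    exact_mod_cast this
  · intro x h1 h2
    have e1 := hScast x h2
    have e2 := hScast h (by omega)
    have e3 := hSh x h1 h2
    have : ((∑ i ∈ range h, (k - i) : ℕ) : ℤ) + ((∑ i ∈ range x, p i : ℕ) : ℤ) ≤
        ((∑ i ∈ range x, (k - i) : ℕ) : ℤ) + ((∑ i ∈ range h, p i : ℕ) : ℤ) := by linarith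
    exact_mod_cast this
  · have e2 := hScast h (by omega)
    have : ((∑ i ∈ range h, p i : ℕ) : ℤ) + (y0 : ℤ) ≤ ((∑ i ∈ range h, (k - i) : ℕ) : ℤ) := by linarith
    have h3 : k - c1 = y0 := by omega
    rw [h3]
    exact_mod_cast this
  · rcases Nat.eq_zero_or_pos (t 0) with h1 | h1
    · rw [h1]; simp
    · have : ((t 0 * (t 0 - 1) : ℕ) : ℤ) ≤ ((∑ i ∈ range k, t i : ℕ) : ℤ) := by
        rw [hTcast, Nat.cast_mul, Nat.cast_sub h1]
        push_cast
        exact hTt0
      exact_mod_cast this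
  · have : (1 : ℤ) ≤ ((∑ i ∈ range k, t i : ℕ) : ℤ) := by
      rw [hTcast]
      have := hSx h le_rfl
      linarith
    exact_mod_cast this

end Pool.Agent.Helper310_SaxlA
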