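import Mathlib

/-!
# The choice of the labels
-/

namespace Pool.Agent.Helper310_SaxlA

open Finset

theorem saxlC2_F1 (s : ℕ) : 4 * (s ^ 2 / 4) + 2 * ((s + 1) / 2) = s * (s + 1) := by
  obtain ⟨a, rfl | rfl⟩ := Nat.even_or_odd' s
  · have h1 : (2 * a) ^ 2 = 4 * a ^ 2 := by ring
    have h2 : 2 * a * (2 * a + 1) = 4 * a ^ 2 + 2 * a := by ring
    rw [h1, h2]
    omega
  · have h1 : (2 * a + 1) ^ 2 = 4 * (a ^ 2 + a) + 1 := by ring
    have h2 : (2 * a + 1) * (2 * a + 1 + 1) = 4 * (a ^ 2 + a) + 2 * a + 2 := by ring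
    rw [h1, h2]
    omega

theorem saxlC2_F2 (s : ℕ) : (s + 1) ^ 2 / 4 = s ^ 2 / 4 + (s + 1) / 2 := by
  obtain ⟨a, rfl | rfl⟩ := Nat.even_or_odd' s
  · have h1 : (2 * a) ^ 2 = 4 * a ^ 2 := by ring
    have h2 : (2 * a + 1) ^ 2 = 4 * (a ^ 2 + a) + 1 := by ring
    rw [h1, h2]
    omega
  · have h1 : (2 * a + 1) ^ 2 = 4 * (a ^ 2 + a) + 1 := by ring
    have h2 : (2 * a + 1 + 1) ^ 2 = 4 * (a ^ 2 + a + a + 1) := by ring
    rw [h1, h2]
    omega

theorem saxlC2_mul (h q : ℕ) (hh : 1 ≤ h) (hq : 1 ≤ q) : h + q ≤ h * q + 1 := by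
  obtain ⟨a, rfl⟩ := Nat.exists_eq_add_of_le hh
  obtain ⟨b, rfl⟩ := Nat.exists_eq_add_of_le hq
  have : (1 + a) * (1 + b) = 1 + a + b + a * b := by ring
  omega

theorem saxlC2_mul' (a q : ℕ) (hq : 1 ≤ q) : q + a ≤ (a + 1) * q := by
  have h1 := Nat.le_mul_of_pos_right a hq
  have h2 : (a + 1) * q = a * q + q := by ring
  omega

theorem saxlC2_sum (k v : ℕ) (hv : v ≤ k) :
    2 * ∑ i ∈ range v, (k - i) + (k - v) * (k - v + 1) = k * (k + 1) := by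
  induction v with
  | zero => simp
  | succ v ih =>
    have h1 := ih (by omega)
    rw [sum_range_succ]
    obtain ⟨m, hm⟩ : ∃ m, k - v = m + 1 := ⟨k - v - 1, by omega⟩
    have h2 : k - (v + 1) = m := by omega
    rw [hm] at h1 ⊢
    rw [h2]
    nlinarith

theorem comb_pt2 {k h q c1 : ℕ} {L p t : ℕ → ℕ} (hk5 : 5 ≤ k) (hL : ∀ i, L i = p i + 2 * t i)
    (hsum : ∑ i ∈ range k, L i = k * (k + 1) / 2) (hc : ∀ i, 0 < L i ↔ i < c1) (hc1k : c1 < k)
    (hh : h + q = k) (hq : 1 ≤ q) (hh1 : 1 ≤ h) (hpq : ∀ i < h, q ≤ p i)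
    (hth : ∀ i, h ≤ i → t i = 0)
    (hs1 : ∀ x, h ≤ x → x ≤ k → ∑ i ∈ range h, (k - i) + ∑ i ∈ range x, p i ≤
        ∑ i ∈ range x, (k - i) + ∑ i ∈ range h, p i)
    (hs2 : ∑ i ∈ range h, p i + (k - c1) ≤ ∑ i ∈ range h, (k - i))
    (ht2 : t 0 * (t 0 - 1) ≤ ∑ i ∈ range k, t i) (ht1 : 1 ≤ ∑ i ∈ range k, t i) :
    ∃ s y : ℕ, ∑ i ∈ range k, t i = s ^ 2 / 4 + y ∧ y < (s + 1) / 2 ∧ s < k ∧
      t 0 ≤ (s + 1) / 2 ∧
      ∑ i ∈ range (k - s), p i + y ≤ ∑ i ∈ range (k - s), (k - i) := by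
  set w := ∑ i ∈ range k, t i with hw
  set s := Nat.sqrt (4 * w + 3) with hs
  have hs_le : s ^ 2 ≤ 4 * w + 3 := by
    rw [hs]; exact Nat.sqrt_le' _
  have hs_lt : 4 * w + 3 < (s + 1) ^ 2 := by
    rw [hs]; exact Nat.lt_succ_sqrt' _
  have hs4 : s ^ 2 / 4 ≤ w := by omega
  have hs5 : w < (s + 1) ^ 2 / 4 := by omega
  have F1 := saxlC2_F1 s
  have F2 := saxlC2_F2 s
  have hs2' : 2 ≤ s := by
    rw [hs]
    exact Nat.le_sqrt.2 (by omega)
  have hP : 2 * ∑ i ∈ range k, p i + 4 * w = k * (k + 1) := by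
    have h1 : ∑ i ∈ range k, L i = ∑ i ∈ range k, p i + 2 * w := by
      rw [hw, mul_sum, ← sum_add_distrib]
      exact sum_congr rfl fun i _ => hL i
    have h2 : 2 * (k * (k + 1) / 2) = k * (k + 1) :=
      Nat.mul_div_cancel' (Nat.even_mul_succ_self k).two_dvd
    omega
  have hhk : h ≤ k := by omega
  have hPh : h * q ≤ ∑ i ∈ range h, p i := by
    calc h * q = ∑ i ∈ range h, q := by simp
      _ ≤ _ := sum_le_sum fun i hi => hpq i (mem_range.1 hi)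
  have hPk : ∑ i ∈ range h, p i ≤ ∑ i ∈ range k, p i :=
    sum_le_sum_of_subset (range_subset_range.2 hhk)
  have hsk : s < k := by
    by_contra hc
    have hc : k ≤ s := not_lt.1 hc
    have h1 : k ^ 2 ≤ s ^ 2 := Nat.pow_le_pow_left hc 2
    have h2 : k ^ 2 / 4 ≤ s ^ 2 / 4 := Nat.div_le_div_right h1
    have h3 := saxlC2_F1 k
    have h4 := saxlC2_mul h q hh1 hq
    omega
  have ht0 : t 0 ≤ (s + 1) / 2 := by
    by_contra hc
    have hc1 : s + 2 ≤ 2 * t 0 := by omega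
    obtain ⟨a, ha⟩ : ∃ a, t 0 = a + 1 := ⟨t 0 - 1, by omega⟩
    rw [ha] at ht2 hc1
    have h1 : (a + 1) * (a + 1 - 1) = a ^ 2 + a := by
      rw [Nat.add_sub_cancel]; ring
    rw [h1] at ht2
    have h2 : (s + 1) ^ 2 ≤ (2 * a + 1) ^ 2 := Nat.pow_le_pow_left (by omega) 2
    have h3 : (2 * a + 1) ^ 2 = 4 * (a ^ 2 + a) + 1 := by ring
    omega
  refine ⟨s, w - s ^ 2 / 4, by omega, by omega, hsk, ht0, ?_⟩
  set y := w - s ^ 2 / 4 with hy
  set v := k - s with hv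
  have hvk : v ≤ k := by omega
  have hsum1 := saxlC2_sum k v hvk
  have hkv : k - v = s := by omega
  rw [hkv] at hsum1
  have hsplit : ∑ i ∈ range v, p i + ∑ i ∈ Ico v k, p i = ∑ i ∈ range k, p i :=
    sum_range_add_sum_Ico _ hvk
  have red : (s + 1) / 2 ≤ y + ∑ i ∈ Ico v k, p i →
      ∑ i ∈ range v, p i + y ≤ ∑ i ∈ range v, (k - i) := by
    intro hq'
    omega
  by_cases hvh : v < h
  · apply red
    have h1 : ∑ i ∈ Ico v h, p i ≤ ∑ i ∈ Ico v k, p i :=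
      sum_le_sum_of_subset (Ico_subset_Ico le_rfl hhk)
    have h2 : (h - v) * q ≤ ∑ i ∈ Ico v h, p i := by
      calc (h - v) * q = ∑ i ∈ Ico v h, q := by simp
        _ ≤ _ := sum_le_sum fun i hi => hpq i (mem_Ico.1 hi).2
    have h3 : h - v = s - q := by omega
    obtain ⟨a, ha⟩ : ∃ a, s = q + a + 1 := ⟨s - q - 1, by omega⟩
    have h4 : s - q = a + 1 := by omega
    have h5 := saxlC2_mul' a q hq
    rw [h3, h4] at h2
    omega
  · have hvh' : h ≤ v := not_lt.1 hvh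
    have h1 := hs1 v hvh' hvk
    by_cases hyD : y + ∑ i ∈ range h, p i ≤ ∑ i ∈ range h, (k - i)
    · omega
    · apply red
      have h2 : k - c1 < y := by omega
      have h3 : v ≤ c1 := by omega
      have h4 : ∑ i ∈ Ico v c1, p i ≤ ∑ i ∈ Ico v k, p i :=
        sum_le_sum_of_subset (Ico_subset_Ico le_rfl hc1k.le)
      have h5 : c1 - v ≤ ∑ i ∈ Ico v c1, p i := by
        calc c1 - v = ∑ i ∈ Ico v c1, 1 := by simp
          _ ≤ _ := sum_le_sum fun i hi => by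
            have hi' := mem_Ico.1 hi
            have h6 := (hc i).2 hi'.2
            have h7 := hL i
            have h8 := hth i (hvh'.trans hi'.1)
            omega
      omega

end Pool.Agent.Helper310_SaxlA
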