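import Mathlib

/-!
# The theorem of Gale and Ryser
-/

namespace Pool.Agent.Helper310_SaxlA

open Finset

theorem gr_sum_le_range (p : ℕ → ℕ) (hp : Antitone p) (S : Finset ℕ) :
    ∑ i ∈ S, p i ≤ ∑ i ∈ range S.card, p i := by
  induction S using Finset.induction_on_max with
  | empty => simp
  | insert a s ha ih =>
    have hns : a ∉ s := fun h => lt_irrefl a (ha a h)
    rw [sum_insert hns, card_insert_of_notMem hns, sum_range_succ]
    have h1 : s.card ≤ a := by
      have : s ⊆ range a := fun x hx => mem_range.2 (ha x hx)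
      simpa using card_le_card this
    have h2 := hp h1
    omega

theorem gr_key (m k : ℕ) (p n : ℕ → ℕ) (hp : Antitone p)
    (hsum : ∑ i ∈ range m, p i = ∑ l ∈ range k, n l)
    (hdom : ∀ x ≤ m, ∑ i ∈ range x, p i ≤ ∑ l ∈ range k, min (n l) x)
    (hn : ∀ l ∈ range k, n l ≤ m)
    (I B : Finset ℕ) (hI : I ⊆ range m) (hB : B ⊆ range k) :
    I.card * B.card ≤ ∑ i ∈ I, p i + ∑ l ∈ B, (m - n l) := by
  have hIm : I.card ≤ m := by simpa using card_le_card hI
  set x := m - I.card with hx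
  have hc : (range m \ I).card = x := by
    rw [card_sdiff_of_subset hI, card_range]
  have h1 : ∑ i ∈ range m \ I, p i + ∑ i ∈ I, p i = ∑ i ∈ range m, p i := sum_sdiff hI
  have h2 : ∑ i ∈ range m \ I, p i ≤ ∑ l ∈ range k, min (n l) x := by
    refine (gr_sum_le_range p hp _).trans ?_
    rw [hc]
    exact hdom x (Nat.sub_le _ _)
  have h3 : ∑ l ∈ range k, n l = ∑ l ∈ range k, min (n l) x + ∑ l ∈ range k, (n l - min (n l) x) := by
    rw [← sum_add_distrib]
    refine sum_congr rfl fun l _ => ?_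
    have := min_le_left (n l) x
    omega
  have h4 : ∑ l ∈ B, (n l - min (n l) x) ≤ ∑ l ∈ range k, (n l - min (n l) x) :=
    sum_le_sum_of_subset hB
  have h5 : I.card * B.card ≤ ∑ l ∈ B, (n l - min (n l) x) + ∑ l ∈ B, (m - n l) := by
    rw [← sum_add_distrib, mul_comm, ← smul_eq_mul, ← sum_const]
    refine sum_le_sum fun l hl => ?_
    have h6 := min_le_left (n l) x
    have h7 := min_le_right (n l) x
    have h8 := hn l (hB hl)
    omega
  omega

theorem gale_ryser (m k : ℕ) (p n : ℕ → ℕ) (hp : Antitone p)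
    (hsum : ∑ i ∈ range m, p i = ∑ l ∈ range k, n l)
    (hdom : ∀ x ≤ m, ∑ i ∈ range x, p i ≤ ∑ l ∈ range k, min (n l) x) :
    ∃ T : ℕ → ℕ → ℕ, (∀ i l, T i l ≤ 1) ∧ (∀ i < m, ∑ l ∈ range k, T i l = p i) ∧
      (∀ l < k, ∑ i ∈ range m, T i l = n l) := by
  classical
  have hn : ∀ l ∈ range k, n l ≤ m := by
    have h1 : ∑ l ∈ range k, n l ≤ ∑ l ∈ range k, min (n l) m := hsum ▸ hdom m le_rfl
    have h2 : ∑ l ∈ range k, min (n l) m = ∑ l ∈ range k, n l :=
      le_antisymm (sum_le_sum fun l _ => min_le_left _ _) h1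
    have h3 := (sum_eq_sum_iff_of_le (fun l _ => min_le_left (n l) m)).1 h2
    intro l hl
    have := h3 l hl
    exact min_eq_left_iff.1 this
  let t : Fin m × Fin k → Finset ((Σ _ : ℕ, ℕ) ⊕ (Σ _ : ℕ, ℕ)) := fun x =>
    (Finset.sigma {(x.1 : ℕ)} (fun i => range (p i))).disjSum
      (Finset.sigma {(x.2 : ℕ)} (fun l => range (m - n l)))
  have hall : ∀ s : Finset (Fin m × Fin k), s.card ≤ (s.biUnion t).card := by
    intro s
    set I : Finset ℕ := s.image (fun x => (x.1 : ℕ)) with hI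
    set B : Finset ℕ := s.image (fun x => (x.2 : ℕ)) with hB
    have hIm : I ⊆ range m := by
      intro i hi
      obtain ⟨x, -, rfl⟩ := mem_image.1 hi
      exact mem_range.2 x.1.2
    have hBk : B ⊆ range k := by
      intro i hi
      obtain ⟨x, -, rfl⟩ := mem_image.1 hi
      exact mem_range.2 x.2.2
    have h1 : s.card ≤ I.card * B.card := by
      rw [← card_product]
      refine card_le_card_of_injOn (fun x => ((x.1 : ℕ), (x.2 : ℕ))) ?_ ?_
      · intro x hx
        exact mem_product.2 ⟨mem_image.2 ⟨x, hx, rfl⟩, mem_image.2 ⟨x, hx, rfl⟩⟩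
      · intro x _ y _ hxy
        have h := Prod.mk.inj hxy
        exact Prod.ext (Fin.ext h.1) (Fin.ext h.2)
    have h2 : (Finset.sigma I (fun i => range (p i))).disjSum
        (Finset.sigma B (fun l => range (m - n l))) ⊆ s.biUnion t := by
      intro y hy
      rcases mem_disjSum.1 hy with ⟨a, ha, rfl⟩ | ⟨b, hb, rfl⟩
      · obtain ⟨h3, h4⟩ := mem_sigma.1 ha
        obtain ⟨x, hx, hxa⟩ := mem_image.1 h3
        refine mem_biUnion.2 ⟨x, hx, inl_mem_disjSum.2 (mem_sigma.2 ⟨?_, h4⟩)⟩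
        exact mem_singleton.2 hxa.symm
      · obtain ⟨h3, h4⟩ := mem_sigma.1 hb
        obtain ⟨x, hx, hxa⟩ := mem_image.1 h3
        refine mem_biUnion.2 ⟨x, hx, inr_mem_disjSum.2 (mem_sigma.2 ⟨?_, h4⟩)⟩
        exact mem_singleton.2 hxa.symm
    have h3 := card_le_card h2
    rw [card_disjSum, card_sigma, card_sigma] at h3
    simp only [card_range] at h3
    exact h1.trans ((gr_key m k p n hp hsum hdom hn I B hIm hBk).trans h3)
  obtain ⟨f, hf, hft⟩ := (Finset.all_card_le_biUnion_card_iff_exists_injective t).1 hall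
  let T : ℕ → ℕ → ℕ := fun i l =>
    if h : i < m ∧ l < k then (if (f (⟨i, h.1⟩, ⟨l, h.2⟩)).isLeft then 1 else 0) else 0
  have hT1 : ∀ i l, T i l ≤ 1 := by
    intro i l
    simp only [T]
    split_ifs <;> simp
  -- row sums
  have hrow : ∀ i < m, ∑ l ∈ range k, T i l ≤ p i := by
    intro i hi
    have h1 : ∑ l ∈ range k, T i l =
        ((univ : Finset (Fin k)).filter fun l => (f (⟨i, hi⟩, l)).isLeft).card := by
      rw [card_filter, ← Fin.sum_univ_eq_sum_range]
      refine sum_congr rfl fun l _ => ?_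
      simp only [T]
      rw [dif_pos ⟨hi, l.2⟩]
    have h2 : (Finset.sigma {i} (fun i => range (p i))).card = p i := by
      rw [card_sigma, sum_singleton, card_range]
    rw [h1, ← h2, ← card_map (Function.Embedding.inl : (Σ _ : ℕ, ℕ) ↪ (Σ _ : ℕ, ℕ) ⊕ (Σ _ : ℕ, ℕ))]
    refine card_le_card_of_injOn (fun l => f (⟨i, hi⟩, l)) ?_ ?_
    · intro l hl
      have h3 : (f (⟨i, hi⟩, l)).isLeft := by simpa using hl
      rcases mem_disjSum.1 (hft (⟨i, hi⟩, l)) with ⟨a, ha, hfa⟩ | ⟨b, hb, hfb⟩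
      · exact mem_coe.2 (mem_map.2 ⟨a, ha, hfa⟩)
      · rw [← hfb] at h3
        simp at h3
    · intro x _ y _ hxy
      exact (Prod.mk.inj (hf hxy)).2
  have hcol : ∀ l < k, n l ≤ ∑ i ∈ range m, T i l := by
    intro l hl
    have h1 : ∑ i ∈ range m, T i l =
        ((univ : Finset (Fin m)).filter fun i => (f (i, ⟨l, hl⟩)).isLeft).card := by
      rw [card_filter, ← Fin.sum_univ_eq_sum_range (fun i => T i l)]
      refine sum_congr rfl fun i _ => ?_
      simp only [T]
      rw [dif_pos ⟨i.2, hl⟩]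
    have h2 : (Finset.sigma {l} (fun l => range (m - n l))).card = m - n l := by
      rw [card_sigma, sum_singleton, card_range]
    have h3 : ((univ : Finset (Fin m)).filter fun i => ¬ (f (i, ⟨l, hl⟩)).isLeft).card ≤ m - n l := by
      rw [← h2, ← card_map (Function.Embedding.inr : (Σ _ : ℕ, ℕ) ↪ (Σ _ : ℕ, ℕ) ⊕ (Σ _ : ℕ, ℕ))]
      refine card_le_card_of_injOn (fun i => f (i, ⟨l, hl⟩)) ?_ ?_
      · intro i hi
        have h3 : ¬ (f (i, ⟨l, hl⟩)).isLeft := (mem_filter.1 (mem_coe.1 hi)).2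
        rcases mem_disjSum.1 (hft (i, ⟨l, hl⟩)) with ⟨a, ha, hfa⟩ | ⟨b, hb, hfb⟩
        · rw [← hfa] at h3
          simp at h3
        · exact mem_coe.2 (mem_map.2 ⟨b, hb, hfb⟩)
      · intro x _ y _ hxy
        exact (Prod.mk.inj (hf hxy)).1
    have h4 := card_filter_add_card_filter_not (s := (univ : Finset (Fin m)))
      (p := fun i => (f (i, ⟨l, hl⟩)).isLeft = true)
    rw [card_univ, Fintype.card_fin] at h4
    have h5 := hn l (mem_range.2 hl)
    rw [h1]
    omega
  -- all inequalities are equalities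
  have htot1 : ∑ i ∈ range m, ∑ l ∈ range k, T i l ≤ ∑ i ∈ range m, p i :=
    sum_le_sum fun i hi => hrow i (mem_range.1 hi)
  have htot2 : ∑ l ∈ range k, n l ≤ ∑ l ∈ range k, ∑ i ∈ range m, T i l :=
    sum_le_sum fun l hl => hcol l (mem_range.1 hl)
  have hcomm : ∑ i ∈ range m, ∑ l ∈ range k, T i l = ∑ l ∈ range k, ∑ i ∈ range m, T i l := sum_comm
  refine ⟨T, hT1, ?_, ?_⟩
  · have h : ∑ i ∈ range m, ∑ l ∈ range k, T i l = ∑ i ∈ range m, p i := by omega
    have h' := (sum_eq_sum_iff_of_le fun i hi => hrow i (mem_range.1 hi)).1 h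
    exact fun i hi => h' i (mem_range.2 hi)
  · have h : ∑ l ∈ range k, n l = ∑ l ∈ range k, ∑ i ∈ range m, T i l := by omega
    have h' := (sum_eq_sum_iff_of_le fun l hl => hcol l (mem_range.1 hl)).1 h
    exact fun l hl => (h' l (mem_range.2 hl)).symm

end Pool.Agent.Helper310_SaxlA
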