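import Mathlib
import Pool.Agent.Helper310_SaxlA.GaleRyser

/-!
# The matrices
-/

namespace Pool.Agent.Helper310_SaxlA

open Finset

theorem c3_E1 (s : ℕ) : ∑ j ∈ range s, (j + 1) / 2 = s ^ 2 / 4 := by
  induction s with
  | zero => simp
  | succ s ih =>
    rw [sum_range_succ, ih]
    rcases Nat.even_or_odd' s with ⟨r, rfl | rfl⟩
    · have h1 : (2 * r) ^ 2 / 4 = r ^ 2 := by
        rw [show (2 * r) ^ 2 = r ^ 2 * 4 by ring]; exact Nat.mul_div_cancel _ (by norm_num)
      have h2 : (2 * r + 1) ^ 2 / 4 = r ^ 2 + r := by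
        rw [show (2 * r + 1) ^ 2 = (r ^ 2 + r) * 4 + 1 by ring]; omega
      rw [h1, h2]; omega
    · have h1 : (2 * r + 1) ^ 2 / 4 = r ^ 2 + r := by
        rw [show (2 * r + 1) ^ 2 = (r ^ 2 + r) * 4 + 1 by ring]; omega
      have h2 : (2 * r + 1 + 1) ^ 2 / 4 = r ^ 2 + 2 * r + 1 := by
        rw [show (2 * r + 1 + 1) ^ 2 = (r ^ 2 + 2 * r + 1) * 4 by ring]
        exact Nat.mul_div_cancel _ (by norm_num)
      rw [h1, h2]; omega

theorem c3_E2 (s y : ℕ) :
    ∑ j ∈ range s, (if j % 2 = 0 ∧ j + 1 < 2 * y then 1 else 0) = min y ((s + 1) / 2) := by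
  induction s with
  | zero => simp
  | succ s ih =>
    rw [sum_range_succ, ih]
    split_ifs with h <;> omega

theorem c3_E3a (k x : ℕ) : ∑ i ∈ range x, (if i ≤ k then 1 else 0) = min (k + 1) x := by
  induction x with
  | zero => simp
  | succ x ih =>
    rw [sum_range_succ, ih]
    split_ifs with h <;> omega

theorem c3_E3 (k x : ℕ) : ∑ l ∈ range k, min (l + 1) x = ∑ i ∈ range x, (k - i) := by
  induction k with
  | zero => simp
  | succ k ih =>
    rw [sum_range_succ, ih, ← c3_E3a k x, ← sum_add_distrib]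
    refine sum_congr rfl fun i _ => ?_
    split_ifs with h <;> omega

theorem c3_E4 (s x : ℕ) (h : 2 * x ≤ s) : ∑ j ∈ range s, min ((j + 1) / 2) x = x * (s - x) := by
  obtain ⟨d, rfl⟩ := Nat.exists_eq_add_of_le h
  clear h
  induction d with
  | zero =>
    have h1 : ∑ j ∈ range (2 * x + 0), min ((j + 1) / 2) x = ∑ j ∈ range (2 * x + 0), (j + 1) / 2 := by
      refine sum_congr rfl fun j hj => ?_
      rw [mem_range] at hj
      omega
    rw [h1, c3_E1]
    have h2 : (2 * x + 0) ^ 2 / 4 = x ^ 2 := by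
      rw [show (2 * x + 0) ^ 2 = x ^ 2 * 4 by ring]; exact Nat.mul_div_cancel _ (by norm_num)
    rw [h2, show 2 * x + 0 - x = x by omega]; ring
  | succ d ih =>
    rw [← add_assoc, sum_range_succ, ih, show 2 * x + d - x = x + d by omega,
      show 2 * x + d + 1 - x = x + d + 1 by omega]
    have : min ((2 * x + d + 1) / 2) x = x := by omega
    rw [this]; ring

theorem c3_tri (k : ℕ) : ∑ l ∈ range k, (l + 1) = k * (k + 1) / 2 := by
  have h : ∀ k : ℕ, (∑ l ∈ range k, (l + 1)) * 2 = k * (k + 1) := by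
    intro k
    induction k with
    | zero => simp
    | succ k ih => rw [sum_range_succ, add_mul, ih]; ring
  have := h k
  omega

/-- TARGET -/
theorem comb_mat {k s y : ℕ} {p t : ℕ → ℕ} (hp : Antitone p) (ht : Antitone t)
    (hpk : ∀ i, k ≤ i → p i = 0) (htp : ∀ i, t i ≤ p i)
    (hsum : ∑ i ∈ range k, (p i + 2 * t i) = k * (k + 1) / 2)
    (hW : ∑ i ∈ range k, t i = s ^ 2 / 4 + y) (hy : y < (s + 1) / 2) (hs : s < k)
    (ht0 : t 0 ≤ (s + 1) / 2)
    (hslack : ∀ x, x + s < k → ∑ i ∈ range x, p i ≤ ∑ i ∈ range x, (k - i))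
    (hv : ∑ i ∈ range (k - s), p i + y ≤ ∑ i ∈ range (k - s), (k - i)) :
    ∃ T1 T2 : ℕ → ℕ → ℕ, (∀ i l, T1 i l ≤ 1) ∧ (∀ i l, T2 i l ≤ 1) ∧
      (∀ i, ∑ l ∈ range k, T1 i l = p i) ∧ (∀ i, ∑ l ∈ range k, T2 i l = t i) ∧
      ∀ l < k, ∑ i ∈ range k, (T1 i l + 2 * T2 i l) = l + 1 := by
  obtain ⟨v, rfl⟩ := Nat.exists_eq_add_of_lt hs
  -- k = s + v + 1
  set A : ℕ → ℕ := fun j => (j + 1) / 2 + (if j % 2 = 0 ∧ j + 1 < 2 * y then 1 else 0) with hA
  set a : ℕ → ℕ := fun l => if l < v + 1 then 0 else A (l - (v + 1)) with ha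
  set n : ℕ → ℕ := fun l => l + 1 - 2 * a l with hn
  have haA : ∀ j, a (v + 1 + j) = A j := by
    intro j
    simp only [ha]
    rw [if_neg (by omega), show v + 1 + j - (v + 1) = j by omega]
  have ha0 : ∀ l, l < v + 1 → a l = 0 := by
    intro l hl
    simp only [ha]
    rw [if_pos hl]
  have hAle : ∀ j, 2 * A j ≤ j + 2 := by
    intro j
    simp only [hA]
    split_ifs <;> omega
  have hAge : ∀ j, (j + 1) / 2 ≤ A j := by
    intro j
    simp only [hA]
    omega
  have hAs : ∀ j, j < s → A j ≤ s / 2 := by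
    intro j hj
    simp only [hA]
    split_ifs <;> omega
  have hna : ∀ l, n l + 2 * a l = l + 1 := by
    intro l
    simp only [hn]
    rcases Nat.lt_or_ge l (v + 1) with h | h
    · rw [ha0 l h]; omega
    · obtain ⟨j, rfl⟩ := Nat.exists_eq_add_of_le h
      rw [haA]
      have := hAle j
      omega
  have hsumA : ∑ j ∈ range s, A j = s ^ 2 / 4 + y := by
    simp only [hA]
    rw [sum_add_distrib, c3_E1, c3_E2, min_eq_left hy.le]
  have hsuma : ∑ l ∈ range (s + v + 1), a l = s ^ 2 / 4 + y := by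
    rw [show s + v + 1 = (v + 1) + s by ring, sum_range_add]
    rw [sum_eq_zero (fun l hl => ha0 l (mem_range.mp hl)), zero_add, ← hsumA]
    exact sum_congr rfl fun j _ => haA j
  have hsumn : ∑ l ∈ range (s + v + 1), n l + 2 * (s ^ 2 / 4 + y)
      = (s + v + 1) * (s + v + 1 + 1) / 2 := by
    rw [← hsuma, mul_sum, ← sum_add_distrib, ← c3_tri]
    exact sum_congr rfl fun l _ => hna l
  have hsump : ∑ i ∈ range (s + v + 1), p i + 2 * (s ^ 2 / 4 + y)
      = (s + v + 1) * (s + v + 1 + 1) / 2 := by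
    rw [← hW, mul_sum, ← sum_add_distrib]
    exact hsum
  have hpn : ∑ i ∈ range (s + v + 1), p i = ∑ l ∈ range (s + v + 1), n l := by omega
  have hta : ∑ i ∈ range (s + v + 1), t i = ∑ l ∈ range (s + v + 1), a l := by
    rw [hW, hsuma]
  have hn0 : ∀ l, l < v + 1 → n l = l + 1 := by
    intro l hl
    have := hna l
    rw [ha0 l hl] at this
    omega
  -- first Gale-Ryser
  have hdom1 : ∀ x ≤ s + v + 1, ∑ i ∈ range x, p i ≤ ∑ l ∈ range (s + v + 1), min (n l) x := by
    intro x hx
    rcases lt_trichotomy x (v + 1) with hxv | hxv | hxv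
    · have h1 := hslack x (by omega)
      rw [← c3_E3] at h1
      refine h1.trans (sum_le_sum fun l _ => ?_)
      rcases Nat.lt_or_ge l (v + 1) with h | h
      · rw [hn0 l h]
      · obtain ⟨j, rfl⟩ := Nat.exists_eq_add_of_le h
        have h2 := hna (v + 1 + j)
        rw [haA] at h2
        have h3 := hAle j
        have h4 : x ≤ n (v + 1 + j) := by omega
        rw [min_eq_right h4]
        exact min_le_right _ _
    · subst hxv
      have h1 := hv
      rw [show s + v + 1 - s = v + 1 by omega, ← c3_E3] at h1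
      have h2 : ∑ l ∈ range (s + v + 1), min (l + 1) (v + 1)
          ≤ ∑ l ∈ range (s + v + 1), min (n l) (v + 1) + y := by
        rw [show s + v + 1 = (v + 1) + s by ring,
          sum_range_add (fun l => min (l + 1) (v + 1)) (v + 1) s,
          sum_range_add (fun l => min (n l) (v + 1)) (v + 1) s]
        have h3 : ∑ l ∈ range (v + 1), min (l + 1) (v + 1)
            = ∑ l ∈ range (v + 1), min (n l) (v + 1) := by
          refine sum_congr rfl fun l hl => ?_
          rw [hn0 l (mem_range.mp hl)]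
        have h5 : y = ∑ j ∈ range s, (if j % 2 = 0 ∧ j + 1 < 2 * y then 1 else 0) := by
          rw [c3_E2, min_eq_left hy.le]
        have h4 : ∑ j ∈ range s, min (v + 1 + j + 1) (v + 1)
            ≤ ∑ j ∈ range s, min (n (v + 1 + j)) (v + 1) + y := by
          conv_rhs => rw [h5]
          rw [← sum_add_distrib]
          refine sum_le_sum fun j _ => ?_
          have h6 := hna (v + 1 + j)
          rw [haA] at h6
          simp only [hA] at h6
          split_ifs at h6 ⊢ with h7 <;> omega
        omega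
      omega
    · have h1 : ∑ l ∈ range (s + v + 1), min (n l) x = ∑ l ∈ range (s + v + 1), n l := by
        refine sum_congr rfl fun l _ => ?_
        apply min_eq_left
        rcases Nat.lt_or_ge l (v + 1) with h | h
        · rw [hn0 l h]; omega
        · obtain ⟨j, rfl⟩ := Nat.exists_eq_add_of_le h
          have h2 := hna (v + 1 + j)
          rw [haA] at h2
          have h3 := hAge j
          omega
      rw [h1, ← hpn]
      exact sum_le_sum_of_subset (range_subset_range.mpr hx)
  -- second Gale-Ryser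
  have hdom2 : ∀ x ≤ s + v + 1, ∑ i ∈ range x, t i ≤ ∑ l ∈ range (s + v + 1), min (a l) x := by
    intro x hx
    rcases Nat.lt_or_ge x (s / 2) with hxs | hxs
    · have h1 : ∑ i ∈ range x, t i ≤ x * ((s + 1) / 2) := by
        calc ∑ i ∈ range x, t i ≤ ∑ _i ∈ range x, ((s + 1) / 2) :=
              sum_le_sum fun i _ => (ht (Nat.zero_le i)).trans ht0
          _ = x * ((s + 1) / 2) := by rw [sum_const, card_range, smul_eq_mul]
      have h2 : x * ((s + 1) / 2) ≤ x * (s - x) := Nat.mul_le_mul_left x (by omega)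
      have h3 := c3_E4 s x (by omega)
      have h4 : ∑ j ∈ range s, min ((j + 1) / 2) x ≤ ∑ l ∈ range (s + v + 1), min (a l) x := by
        rw [show s + v + 1 = (v + 1) + s by ring, sum_range_add]
        refine le_trans ?_ (Nat.le_add_left _ _)
        refine sum_le_sum fun j _ => ?_
        rw [haA]
        exact min_le_min_right _ (hAge j)
      omega
    · have h1 : ∑ l ∈ range (s + v + 1), min (a l) x = ∑ l ∈ range (s + v + 1), a l := by
        refine sum_congr rfl fun l hl => ?_
        apply min_eq_left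
        rcases Nat.lt_or_ge l (v + 1) with h | h
        · rw [ha0 l h]; omega
        · obtain ⟨j, rfl⟩ := Nat.exists_eq_add_of_le h
          rw [haA]
          rw [mem_range] at hl
          exact (hAs j (by omega)).trans hxs
      rw [h1, ← hta]
      exact sum_le_sum_of_subset (range_subset_range.mpr hx)
  obtain ⟨P, hP1, hP2, hP3⟩ := gale_ryser (s + v + 1) (s + v + 1) p n hp hpn hdom1
  obtain ⟨Q, hQ1, hQ2, hQ3⟩ := gale_ryser (s + v + 1) (s + v + 1) t a ht hta hdom2
  refine ⟨fun i l => if i < s + v + 1 then P i l else 0, fun i l => if i < s + v + 1 then Q i l else 0,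
    ?_, ?_, ?_, ?_, ?_⟩
  · intro i l
    dsimp only
    split_ifs
    · exact hP1 i l
    · exact Nat.zero_le _
  · intro i l
    dsimp only
    split_ifs
    · exact hQ1 i l
    · exact Nat.zero_le _
  · intro i
    by_cases h : i < s + v + 1
    · simp only [if_pos h]
      exact hP2 i h
    · simp only [if_neg h, sum_const_zero]
      exact (hpk i (not_lt.mp h)).symm
  · intro i
    by_cases h : i < s + v + 1
    · simp only [if_pos h]
      exact hQ2 i h
    · simp only [if_neg h, sum_const_zero]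
      have h1 := hpk i (not_lt.mp h)
      have h2 := htp i
      omega
  · intro l hl
    have h1 : ∑ i ∈ range (s + v + 1), ((if i < s + v + 1 then P i l else 0)
        + 2 * (if i < s + v + 1 then Q i l else 0))
        = ∑ i ∈ range (s + v + 1), (P i l + 2 * Q i l) := by
      refine sum_congr rfl fun i hi => ?_
      rw [if_pos (mem_range.mp hi), if_pos (mem_range.mp hi)]
    have h2 := hP3 l hl
    have h3 := hQ3 l hl
    show ∑ i ∈ range (s + v + 1), ((if i < s + v + 1 then P i l else 0)
        + 2 * (if i < s + v + 1 then Q i l else 0)) = l + 1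
    rw [h1, sum_add_distrib, ← mul_sum, h2, h3]
    exact hna l

end Pool.Agent.Helper310_SaxlA
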