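import Mathlib
import Pool.Agent.Helper310_SaxlA.Comb1
import Pool.Agent.Helper310_SaxlA.Comb2
import Pool.Agent.Helper310_SaxlA.Comb3
import Pool.Agent.Helper310_SaxlA.Comb4

/-!
# The combinatorial lemma for shapes inside the box
-/

namespace Pool.Agent.Helper310_SaxlA

open Finset

theorem comb {k : ℕ} (hk1 : 1 ≤ k) {L : ℕ → ℕ} (hL : Antitone L)
    (hsum : ∑ i ∈ range k, L i = k * (k + 1) / 2) (h0 : L 0 < k) (hk : L (k - 1) = 0)
    (tall : ∀ i, L i = 0 → L 0 ≤ i) :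
    ∃ (p t : ℕ → ℕ) (T1 T2 : ℕ → ℕ → ℕ), Antitone p ∧ Antitone t ∧ (∀ i, t i ≤ p i) ∧
      (∀ i, L i = p i + 2 * t i) ∧ (∀ i l, T1 i l ≤ 1) ∧ (∀ i l, T2 i l ≤ 1) ∧
      (∀ i, ∑ l ∈ range k, T1 i l = p i) ∧ (∀ i, ∑ l ∈ range k, T2 i l = t i) ∧
      (∀ l < k, ∑ i ∈ range k, (T1 i l + 2 * T2 i l) = l + 1) := by
  classical
  have hex : ∃ i, L i = 0 := ⟨k - 1, hk⟩
  obtain ⟨c1, hc1, hc1min⟩ : ∃ c1, L c1 = 0 ∧ ∀ i < c1, L i ≠ 0 :=
    ⟨Nat.find hex, Nat.find_spec hex, fun i hi => Nat.find_min hex hi⟩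
  have hc : ∀ i, 0 < L i ↔ i < c1 := by
    intro i
    constructor
    · intro h
      by_contra hcon
      have := hL (not_lt.1 hcon)
      omega
    · intro h
      exact Nat.pos_of_ne_zero (hc1min i h)
  have hc1k : c1 < k := by
    by_contra hcon
    have := (hc (k - 1)).2 (by omega)
    omega
  have htall : L 0 ≤ c1 := tall c1 hc1
  have hk5 : 5 ≤ k := by
    have h1 : ∑ i ∈ range k, L i ≤ (k - 1) * (k - 1) := by
      obtain ⟨j, rfl⟩ : ∃ j, k = j + 1 := ⟨k - 1, by omega⟩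
      rw [Finset.sum_range_succ]
      simp only [Nat.add_sub_cancel] at hk ⊢
      rw [hk, add_zero]
      calc ∑ i ∈ range j, L i ≤ ∑ _i ∈ range j, j :=
            Finset.sum_le_sum fun i _ => by have := hL (Nat.zero_le i); omega
        _ = j * j := by rw [Finset.sum_const, card_range, smul_eq_mul]
    rw [hsum] at h1
    by_contra hcon
    push Not at hcon
    interval_cases k <;> omega
  obtain ⟨h, q, hh, hq, hh1, hLh, hLh', hmax, hpos⟩ := comb_pt1a hL hsum hc hc1k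
  obtain ⟨p, t, hp, ht, htp, hLpt, hpq, hth, hsl, hs1, hs2, ht2, ht1⟩ :=
    comb_pt1b hL hsum h0 hc hc1k htall hh hq hh1 hLh hLh' hmax hpos
  obtain ⟨s, y, hW, hy, hs, ht0, hv⟩ :=
    comb_pt2 hk5 hLpt hsum hc hc1k hh hq hh1 hpq hth hs1 hs2 ht2 ht1
  have hpk : ∀ i, k ≤ i → p i = 0 := by
    intro i hi
    have h1 := hL (show k - 1 ≤ i by omega)
    have h2 := hLpt i
    omega
  have hsum' : ∑ i ∈ range k, (p i + 2 * t i) = k * (k + 1) / 2 := by
    rw [← hsum]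
    exact Finset.sum_congr rfl fun i _ => (hLpt i).symm
  obtain ⟨T1, T2, h1, h2, h3, h4, h5⟩ := comb_mat hp ht hpk htp hsum' hW hy hs ht0
    (fun x hx => hsl x (by omega)) hv
  exact ⟨p, t, T1, T2, hp, ht, htp, hLpt, h1, h2, h3, h4, h5⟩

end Pool.Agent.Helper310_SaxlA
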