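import Mathlib

/-!
# Labellings with prescribed counts
-/

namespace Pool.Agent.Helper310_SaxlA

open Finset

theorem exists_labelling_aux {X : Type*} [Fintype X] [DecidableEq X] (D : X → ℕ)
    (n : ℕ → ℕ → ℕ) (k : ℕ) : ∀ S : Finset X,
    (∀ i, (S.filter fun x => D x = i).card = ∑ l ∈ range k, n i l) →
    ∃ A : X → ℕ, (∀ x ∈ S, A x < k) ∧
      ∀ i, ∀ l < k, (S.filter fun x => D x = i ∧ A x = l).card = n i l := by
  induction k with
  | zero =>
    intro S h
    refine ⟨fun _ => 0, fun x hx => ?_, fun i l hl => absurd hl (Nat.not_lt_zero l)⟩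
    exfalso
    have h1 := h (D x)
    rw [range_zero, sum_empty, card_eq_zero, filter_eq_empty_iff] at h1
    exact h1 hx rfl
  | succ k ih =>
    intro S h
    have hsub : ∀ i, ∃ T ⊆ S.filter (fun x => D x = i), T.card = n i k := by
      intro i
      apply exists_subset_card_eq
      rw [h i, sum_range_succ]
      omega
    choose T hT hTc using hsub
    have hTD : ∀ i x, x ∈ T i → D x = i := fun i x hx => (mem_filter.1 (hT i hx)).2
    have hTS : ∀ i x, x ∈ T i → x ∈ S := fun i x hx => (mem_filter.1 (hT i hx)).1
    obtain ⟨A, hA, hAc⟩ := ih (S.filter fun x => x ∉ T (D x)) (by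
      intro i
      have e1 : ((S.filter fun x => x ∉ T (D x)).filter fun x => D x = i) =
          (S.filter fun x => D x = i) \ T i := by
        ext x
        simp only [mem_filter, mem_sdiff]
        constructor
        · rintro ⟨⟨h1, h2⟩, h3⟩
          rw [h3] at h2
          exact ⟨⟨h1, h3⟩, h2⟩
        · rintro ⟨⟨h1, h3⟩, h2⟩
          rw [← h3] at h2
          exact ⟨⟨h1, h2⟩, h3⟩
      rw [e1, card_sdiff_of_subset (hT i), h i, hTc, sum_range_succ]
      omega)
    refine ⟨fun x => if x ∈ T (D x) then k else A x, ?_, ?_⟩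
    · intro x hx
      by_cases h1 : x ∈ T (D x)
      · simp [h1]
      · have h2 := hA x (mem_filter.2 ⟨hx, h1⟩)
        simp only [h1, if_false]
        omega
    · intro i l hl
      by_cases hlk : l = k
      · subst hlk
        rw [← hTc i]
        congr 1
        ext x
        simp only [mem_filter]
        constructor
        · rintro ⟨h1, h2, h3⟩
          by_cases h4 : x ∈ T (D x)
          · rw [← h2]; exact h4
          · rw [if_neg h4] at h3
            have := hA x (mem_filter.2 ⟨h1, h4⟩)
            omega
        · intro h1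
          have h2 := hTD i x h1
          refine ⟨hTS i x h1, h2, ?_⟩
          rw [h2, if_pos h1]
      · have hlk' : l < k := by omega
        rw [← hAc i l hlk']
        congr 1
        ext x
        simp only [mem_filter]
        constructor
        · rintro ⟨h1, h2, h3⟩
          by_cases h4 : x ∈ T (D x)
          · rw [if_pos h4] at h3
            exact absurd h3.symm hlk
          · rw [if_neg h4] at h3
            exact ⟨⟨h1, h4⟩, h2, h3⟩
        · rintro ⟨⟨h1, h4⟩, h2, h3⟩
          refine ⟨h1, h2, ?_⟩
          rw [if_neg h4]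
          exact h3

/-- TARGET -/
theorem exists_labelling {X : Type*} [Fintype X] [DecidableEq X] (D : X → ℕ) (k : ℕ)
    (n : ℕ → ℕ → ℕ)
    (h : ∀ i, (univ.filter fun x => D x = i).card = ∑ l ∈ range k, n i l) :
    ∃ A : X → ℕ, (∀ x, A x < k) ∧
      ∀ i, ∀ l < k, (univ.filter fun x => D x = i ∧ A x = l).card = n i l := by
  obtain ⟨A, hA, hAc⟩ := exists_labelling_aux D n k univ h
  exact ⟨A, fun x => hA x (mem_univ x), hAc⟩

end Pool.Agent.Helper310_SaxlA
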