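import Mathlib
import Pool.Agent.Helper310_SaxlA.Base

/-!
# The criterion modulo two
-/

namespace Pool.Agent.Helper310_SaxlA

set_option linter.unusedSectionVars false

open Finset Equiv Pool.Agent.Helper310_Saxl Pool.Agent.Helper310_SaxlA

namespace H338

section

variable {k : ℕ} {X : Type*} [Fintype X] [DecidableEq X]

/-- Two transversal pairs of labellings are related by a permutation. -/
lemma exists_perm_pair {C R C' R' : X → ℕ}
    (hC : IsStair k univ C) (hR : IsStair k univ R) (hCR : Transv univ C R)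
    (hC' : IsStair k univ C') (hR' : IsStair k univ R') (hCR' : Transv univ C' R') :
    ∃ π : Perm X, ∀ x, C (π x) = C' x ∧ R (π x) = R' x := by
  have h : ∀ x, ∃ y, C y = C' x ∧ R y = R' x := by
    intro x
    have hb := hC'.bounds (Finset.mem_univ x)
    have h1 := hC.image_block hR hCR hb
    have h2 : R' x ∈ Finset.Icc (k + 1 - C' x) k := by
      have h3 := hC'.add_ge hR' hCR' (Finset.mem_univ x)
      have h4 := hR'.bounds (Finset.mem_univ x)
      rw [Finset.mem_Icc]; omega
    rw [← h1, Finset.mem_image] at h2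
    obtain ⟨y, hy, hyR⟩ := h2
    exact ⟨y, (Finset.mem_filter.1 hy).2, hyR⟩
  choose f hf using h
  have hinj : Function.Injective f := by
    intro x x' hxx
    refine hCR' x (mem_univ _) x' (mem_univ _) ?_ ?_
    · rw [← (hf x).1, ← (hf x').1, hxx]
    · rw [← (hf x).2, ← (hf x').2, hxx]
  exact ⟨Equiv.ofBijective f (Finite.injective_iff_bijective.1 hinj), hf⟩

/-- Two labellings are related by a permutation. -/
lemma exists_perm_one {A C : X → ℕ} (hA : IsStair k univ A) (hC : IsStair k univ C) :
    ∃ π : Perm X, ∀ x, C (π x) = A x := by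
  have e : ∀ m, Nonempty ({x // A x = m} ≃ {x // C x = m}) := by
    intro m
    rw [← Fintype.card_eq, Fintype.card_subtype, Fintype.card_subtype, hA m, hC m]
  let e' := fun m => (e m).some
  refine ⟨(Equiv.sigmaFiberEquiv A).symm.trans
    ((Equiv.sigmaCongrRight e').trans (Equiv.sigmaFiberEquiv C)), fun x => ?_⟩
  exact (e' (A x) ⟨x, rfl⟩).2

/-- The integer behind `uh`. -/
noncomputable def ui (β : Base k X) (g : Perm X) : ℤ :=
  ∑ c ∈ univ.filter (fun c : Perm X => ∀ x, β.C (c x) = β.C x),
    (Perm.sign c : ℤ) * (if ∀ x, β.R (g⁻¹ x) = β.R (c⁻¹ x) then 1 else 0)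

lemma uh_eq (β : Base k X) (g : Perm X) : uh β g = ((ui β g : ℤ) : ℂ) := by
  unfold uh ui
  rw [Int.cast_sum]
  refine Finset.sum_congr rfl fun c _ => ?_
  rw [Int.cast_mul]
  congr 1
  split_ifs <;> simp

lemma isStair_comp {f : X → ℕ} (hf : IsStair k univ f) (g : Perm X) :
    IsStair k univ (fun x => f (g x)) := by
  intro m
  rw [← hf m]
  refine Finset.card_bij (fun x _ => g x) ?_ ?_ ?_
  · intro x hx
    rw [Finset.mem_filter] at hx ⊢
    exact ⟨mem_univ _, hx.2⟩
  · intro x _ y _ h; exact g.injective h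
  · intro y hy
    rw [Finset.mem_filter] at hy
    exact ⟨g⁻¹ y, Finset.mem_filter.2 ⟨mem_univ _, by simpa using hy.2⟩, by simp⟩

open Classical in
lemma ui_mod (β : Base k X) (g : Perm X) : ((ui β g : ℤ) : ZMod 2) =
    if Transv univ (fun x => β.R (g⁻¹ x)) β.C then 1 else 0 := by
  unfold ui
  rw [Int.cast_sum]
  have e1 : ∀ c ∈ univ.filter (fun c : Perm X => ∀ x, β.C (c x) = β.C x),
      (((Perm.sign c : ℤ) * (if ∀ x, β.R (g⁻¹ x) = β.R (c⁻¹ x) then 1 else 0) : ℤ) : ZMod 2) =
      if ∀ x, β.R (g⁻¹ x) = β.R (c⁻¹ x) then 1 else 0 := by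
    intro c _
    rw [Int.cast_mul]
    have hs : (((Perm.sign c : ℤˣ) : ℤ) : ZMod 2) = 1 := by
      rcases Int.units_eq_one_or (Perm.sign c) with h | h <;> rw [h]
      · simp
      · simp only [Units.val_neg, Units.val_one, Int.cast_neg, Int.cast_one]
        decide
    rw [hs, one_mul]
    split_ifs <;> simp
  rw [Finset.sum_congr rfl e1, ← Finset.sum_filter, Finset.sum_const, Finset.filter_filter]
  have hinvC : ∀ c : Perm X, (∀ x, β.C (c x) = β.C x) → ∀ x, β.C (c⁻¹ x) = β.C x := by
    intro c hc x
    have := hc (c⁻¹ x)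
    rw [perm_apply_inv] at this
    exact this.symm
  by_cases hT : Transv univ (fun x => β.R (g⁻¹ x)) β.C
  · rw [if_pos hT]
    have hstair : IsStair k univ (fun x => β.R (g⁻¹ x)) := isStair_comp β.hR g⁻¹
    obtain ⟨π, hπ⟩ := exists_perm_pair β.hC β.hR (fun x _ y _ h1 h2 => β.hRC x y h2 h1)
      β.hC hstair hT.symm
    have hcard : (univ.filter (fun c : Perm X => (∀ x, β.C (c x) = β.C x) ∧
        ∀ x, β.R (g⁻¹ x) = β.R (c⁻¹ x))).card = 1 := by
      rw [Finset.card_eq_one]
      refine ⟨π⁻¹, ?_⟩
      ext c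
      rw [Finset.mem_filter, Finset.mem_singleton]
      constructor
      · rintro ⟨_, h1, h2⟩
        have h3 : c⁻¹ = π := by
          refine Equiv.ext fun x => β.hRC _ _ ?_ ?_
          · rw [← h2 x, (hπ x).2]
          · rw [hinvC c h1 x, (hπ x).1]
        rw [← h3, inv_inv]
      · rintro rfl
        refine ⟨mem_univ _, ?_, ?_⟩
        · intro x
          have := (hπ (π⁻¹ x)).1
          rw [perm_apply_inv] at this
          exact this.symm
        · intro x
          rw [inv_inv, (hπ x).2]
    rw [hcard, one_smul]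
  · rw [if_neg hT]
    have hcard : (univ.filter (fun c : Perm X => (∀ x, β.C (c x) = β.C x) ∧
        ∀ x, β.R (g⁻¹ x) = β.R (c⁻¹ x))) = ∅ := by
      rw [Finset.filter_eq_empty_iff]
      rintro c _ ⟨h1, h2⟩
      apply hT
      intro x _ y _ hx hy
      have h3 : c⁻¹ x = c⁻¹ y := by
        refine β.hRC _ _ ?_ ?_
        · rw [← h2 x, ← h2 y]; exact hx
        · rw [hinvC c h1 x, hinvC c h1 y]; exact hy
      exact c⁻¹.injective h3
    rw [hcard, Finset.card_empty, zero_smul]

/-- the third labelling -/
lemma third {s A t : X → ℕ} (hs : IsStair k univ s) (hA : IsStair k univ A)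
    (hsA : Transv univ s A) (ht : ∀ x, t x = 2 * k + 1 - s x - A x) : IsStair k univ t := by
  intro m
  have hbs := fun x => hs.bounds (Finset.mem_univ x)
  have hbA := fun x => hA.bounds (Finset.mem_univ x)
  have hge := fun x => hs.add_ge hA hsA (Finset.mem_univ x)
  by_cases hm : 1 ≤ m ∧ m ≤ k
  · rw [if_pos hm]
    have h1 : ((univ.filter fun x => t x = m).image s) = Finset.Icc (k + 1 - m) k := by
      ext i
      rw [Finset.mem_image, Finset.mem_Icc]
      constructor
      · rintro ⟨x, hx, rfl⟩
        have h2 := (Finset.mem_filter.1 hx).2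
        rw [ht] at h2
        have := hbs x
        have := hbA x
        have := hge x
        omega
      · rintro ⟨h2, h3⟩
        have h4 := hs.image_block hA hsA (m := i) ⟨by omega, h3⟩
        have h5 : 2 * k + 1 - m - i ∈ Finset.Icc (k + 1 - i) k := by
          rw [Finset.mem_Icc]; omega
        rw [← h4, Finset.mem_image] at h5
        obtain ⟨x, hx, hxA⟩ := h5
        have hxs := (Finset.mem_filter.1 hx).2
        refine ⟨x, Finset.mem_filter.2 ⟨mem_univ _, ?_⟩, hxs⟩
        rw [ht, hxs, hxA]
        omega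
    have h2 : ((univ.filter fun x => t x = m).image s).card = (univ.filter fun x => t x = m).card := by
      refine Finset.card_image_of_injOn ?_
      intro x hx y hy hxy
      rw [Finset.mem_coe, Finset.mem_filter] at hx hy
      have h3 := hx.2
      have h4 := hy.2
      rw [ht] at h3 h4
      have h5 := hbs x
      have h6 := hbA x
      have h7 := hbA y
      have h8 : s x = s y := hxy
      refine hsA x (mem_univ _) y (mem_univ _) hxy ?_
      omega
    rw [← h2, h1, Nat.card_Icc]
    omega
  · rw [if_neg hm, Finset.card_eq_zero, Finset.filter_eq_empty_iff]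
    intro x _ hx
    rw [ht] at hx
    have := hbs x
    have := hbA x
    have := hge x
    omega

end

/-- The statement on parity. -/
lemma parity {k : ℕ} {X : Type*} [Fintype X] [DecidableEq X] {s A t : X → ℕ}
    (hs : IsStair k univ s) (hA : IsStair k univ A) (ht : IsStair k univ t)
    (hsA : Transv univ s A) (hst : Transv univ s t) (htA : Transv univ t A)
    (m : Perm X → ℤ)
    (hinv : ∀ h g : Perm X, (∀ x, A (h x) = A x) → ((m (h * g) : ℤ) : ZMod 2) = (m g : ZMod 2))
    (h1 : ((m 1 : ℤ) : ZMod 2) = 1) (P Q : Perm X → Prop) [DecidablePred P] [DecidablePred Q]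
    (hP : ∀ g, P g ↔ Transv univ s (fun x => A (g x)))
    (hQ : ∀ g, Q g ↔ Transv univ t (fun x => s (g x))) :
    ∑ g : Perm X, ((m g : ℤ) : ZMod 2) * (if P g then 1 else 0) * (if Q g then 1 else 0) = 1 := by
  classical
  rw [← Finset.sum_filter_add_sum_filter_not univ (fun g : Perm X => Transv univ t (fun x => A (g x)))]
  have hbad : ∑ g ∈ univ.filter (fun g : Perm X => ¬ Transv univ t (fun x => A (g x))),
      ((m g : ℤ) : ZMod 2) * (if P g then 1 else 0) * (if Q g then 1 else 0) = 0 := by
    have hch : ∀ F : X → ℕ, ∃ σ : Perm X, ¬ Transv univ t F →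
        ∃ x y, σ = swap x y ∧ x ≠ y ∧ t x = t y ∧ F x = F y := by
      intro F
      by_cases hF : Transv univ t F
      · exact ⟨1, fun h => absurd hF h⟩
      · have hF' := hF
        unfold Transv at hF'
        push Not at hF'
        obtain ⟨x, _, y, _, h2, h3, h4⟩ := hF'
        exact ⟨swap x y, fun _ => ⟨x, y, rfl, h4, h2, h3⟩⟩
    choose σ hσ using hch
    -- the labelling `A ∘ g` does not change
    have hsame : ∀ g : Perm X, ¬ Transv univ t (fun x => A (g x)) →
        (fun x => A ((g * σ (fun x => A (g x))) x)) = fun x => A (g x) := by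
      intro g hg
      obtain ⟨x, y, hxy, hne, htxy, hAxy⟩ := hσ _ hg
      funext z
      rw [hxy, Perm.mul_apply]
      by_cases hzx : z = x
      · rw [hzx, swap_apply_left]; exact hAxy.symm
      · by_cases hzy : z = y
        · rw [hzy, swap_apply_right]; exact hAxy
        · rw [swap_apply_of_ne_of_ne hzx hzy]
    refine Finset.sum_involution (fun g _ => g * σ (fun x => A (g x))) ?_ ?_ ?_ ?_
    · intro g hg
      have hg' := (Finset.mem_filter.1 hg).2
      have hsm := hsame g hg'
      obtain ⟨x, y, hxy, hne, htxy, hAxy⟩ := hσ _ hg'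
      have e1 : P (g * σ (fun x => A (g x))) ↔ P g := by
        rw [hP, hP, hsm]
      have htsw : ∀ z, t (swap x y z) = t z := by
        intro z
        by_cases hzx : z = x
        · rw [hzx, swap_apply_left]; exact htxy.symm
        · by_cases hzy : z = y
          · rw [hzy, swap_apply_right]; exact htxy
          · rw [swap_apply_of_ne_of_ne hzx hzy]
      have e2 : Q (g * σ (fun x => A (g x))) ↔ Q g := by
        rw [hQ, hQ, hxy]
        constructor
        · intro h a _ b _ hab hab2
          have h5 := h (swap x y a) (mem_univ _) (swap x y b) (mem_univ _)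
            (by rw [htsw, htsw]; exact hab) (by
              simp only [Perm.mul_apply, swap_apply_self]
              exact hab2)
          exact (swap x y).injective h5
        · intro h a _ b _ hab hab2
          have h5 := h (swap x y a) (mem_univ _) (swap x y b) (mem_univ _)
            (by rw [htsw, htsw]; exact hab) (by
              simp only [Perm.mul_apply] at hab2
              exact hab2)
          exact (swap x y).injective h5
      have e3 : ((m (g * σ (fun x => A (g x))) : ℤ) : ZMod 2) = (m g : ZMod 2) := by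
        have e4 : g * σ (fun x => A (g x)) = swap (g x) (g y) * g := by
          rw [hxy]; exact mul_swap_eq_swap_mul g x y
        rw [e4]
        refine hinv _ _ fun z => ?_
        by_cases hzx : z = g x
        · rw [hzx, swap_apply_left]; exact hAxy.symm
        · by_cases hzy : z = g y
          · rw [hzy, swap_apply_right]; exact hAxy
          · rw [swap_apply_of_ne_of_ne hzx hzy]
      rw [e3]
      simp only [e1, e2]
      exact CharTwo.add_self_eq_zero _
    · intro g hg _ heq
      have hg' := (Finset.mem_filter.1 hg).2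
      obtain ⟨x, y, hxy, hne, htxy, hAxy⟩ := hσ _ hg'
      rw [hxy] at heq
      have h5 : swap x y = 1 := mul_eq_left.1 heq
      have h6 := congrArg (fun f : Perm X => f x) h5
      simp only [swap_apply_left, Perm.coe_one, id_eq] at h6
      exact hne h6.symm
    · intro g hg
      have hg' := (Finset.mem_filter.1 hg).2
      rw [Finset.mem_filter]
      refine ⟨mem_univ _, ?_⟩
      rw [hsame g hg']
      exact hg'
    · intro g hg
      have hg' := (Finset.mem_filter.1 hg).2
      have hsm := hsame g hg'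
      simp only [hsm]
      obtain ⟨x, y, hxy, hne, htxy, hAxy⟩ := hσ _ hg'
      rw [hxy, mul_assoc, swap_mul_self, mul_one]
  rw [hbad, add_zero]
  have hrig0 : ∀ x, s x + t x + A x = 2 * k + 1 := fun x =>
    hs.rigid ht hA hst hsA htA (mem_univ x)
  have hid : ∀ g : Perm X, Transv univ t (fun x => A (g x)) → P g → Q g → g = 1 := by
    intro g hg hPg hQg
    rw [hP] at hPg
    rw [hQ] at hQg
    have hAg : ∀ x, A (g x) = A x := by
      intro x
      have h3 : s x + t x + A (g x) = 2 * k + 1 :=
        hs.rigid ht (isStair_comp hA g) hst hPg hg (mem_univ x)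
      have h4 := hrig0 x
      omega
    have hsgA : Transv univ (fun x => s (g x)) A := by
      intro a _ b _ hab hab2
      have h5 := hsA (g a) (mem_univ _) (g b) (mem_univ _) hab (by rw [hAg, hAg]; exact hab2)
      exact g.injective h5
    have hsg : ∀ x, s (g x) = s x := by
      intro x
      have h3 : s (g x) + t x + A x = 2 * k + 1 :=
        (isStair_comp hs g).rigid ht hA hQg.symm hsgA htA (mem_univ x)
      have h4 := hrig0 x
      omega
    refine Equiv.ext fun x => ?_
    exact hsA (g x) (mem_univ _) x (mem_univ _) (hsg x) (hAg x)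
  rw [Finset.sum_eq_single 1]
  · have hP1 : P 1 := by rw [hP]; exact hsA
    have hQ1 : Q 1 := by rw [hQ]; exact hst.symm
    rw [if_pos hP1, if_pos hQ1, h1, mul_one, mul_one]
  · intro g hg hg1
    have hg' := (Finset.mem_filter.1 hg).2
    by_cases hPg : P g
    · by_cases hQg : Q g
      · exact absurd (hid g hg' hPg hQg) hg1
      · rw [if_neg hQg, mul_zero]
    · rw [if_neg hPg, mul_zero, zero_mul]
  · intro h
    exfalso
    apply h
    rw [Finset.mem_filter]
    exact ⟨mem_univ _, htA⟩

end H338

/-- TARGET -/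
theorem mod2_good {k : ℕ} {X : Type*} [Fintype X] [DecidableEq X] (β : Base k X) (A : X → ℕ)
    (hA : IsStair k univ A) {U : Type*} [AddCommGroup U] [Module ℂ U]
    (ρ : Representation ℂ (Perm X) U) (ℓ : U →ₗ[ℂ] ℂ) (y : U) (m : Perm X → ℤ)
    (hm : ∀ g, ℓ (ρ g y) = m g)
    (hinv : ∀ h g : Perm X, (∀ x, A (h x) = A x) → ((m (h * g) : ℤ) : ZMod 2) = (m g : ZMod 2))
    (h1 : ((m 1 : ℤ) : ZMod 2) = 1) : Good β ρ := by
  classical
  -- `A = C ∘ a⁻¹`
  obtain ⟨a', ha'⟩ := H338.exists_perm_one hA β.hC
  obtain ⟨a, rfl⟩ : ∃ a : Perm X, a' = a⁻¹ := ⟨a'⁻¹, by simp⟩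
  set s : X → ℕ := fun x => β.R (a⁻¹ x) with hsdef
  have hs : IsStair k univ s := H338.isStair_comp β.hR a⁻¹
  have hsA : Transv univ s A := by
    intro x _ y _ h2 h3
    rw [← ha' x, ← ha' y] at h3
    exact a⁻¹.injective (β.hRC _ _ h2 h3)
  obtain ⟨t, htdef⟩ : ∃ t : X → ℕ, ∀ x, t x = 2 * k + 1 - s x - A x := ⟨_, fun _ => rfl⟩
  have ht : IsStair k univ t := H338.third hs hA hsA htdef
  have hbs := fun x => hs.bounds (Finset.mem_univ x)
  have hbA := fun x => hA.bounds (Finset.mem_univ x)
  have hge := fun x => hs.add_ge hA hsA (Finset.mem_univ x)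
  have hst : Transv univ s t := by
    intro x _ y _ h2 h3
    refine hsA x (mem_univ _) y (mem_univ _) h2 ?_
    rw [htdef, htdef] at h3
    have := hbs x
    have := hbA x
    have := hbA y
    omega
  have htA : Transv univ t A := by
    intro x _ y _ h2 h3
    refine hsA x (mem_univ _) y (mem_univ _) ?_ h3
    rw [htdef, htdef] at h2
    have := hbs x
    have := hbs y
    have := hbA x
    omega
  obtain ⟨b', hb'⟩ := H338.exists_perm_one hs β.hC
  obtain ⟨b, rfl⟩ : ∃ b : Perm X, b' = b⁻¹ := ⟨b'⁻¹, by simp⟩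
  obtain ⟨p', hp'⟩ := H338.exists_perm_one ht β.hR
  obtain ⟨p2, rfl⟩ : ∃ p2 : Perm X, p' = p2⁻¹ := ⟨p'⁻¹, by simp⟩
  -- the vector
  set z : Perm X × Perm X → ℂ := fun q => uh β (a⁻¹ * q.1) * uh β (b⁻¹ * q.2) with hz
  let T : U →ₗ[ℂ] (Perm X × Perm X → ℂ) :=
    ∑ g : Perm X, (ℓ ∘ₗ (ρ g⁻¹)).smulRight (rep2 X g z)
  have hT : ∀ x, T x = ∑ g : Perm X, ℓ (ρ g⁻¹ x) • rep2 X g z := by
    intro x
    simp [T]
  refine ⟨T, ?_, ?_, ?_⟩
  · intro h x
    rw [hT, hT, map_sum]
    rw [← Equiv.sum_comp (Equiv.mulLeft h)]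
    refine Finset.sum_congr rfl fun g _ => ?_
    rw [Equiv.coe_mulLeft, map_smul]
    congr 1
    · rw [← rho_mul]
      congr 3
      group
  · intro h0
    have h2 : T y (a, p2) = 0 := by rw [h0]; rfl
    rw [hT, Finset.sum_apply] at h2
    have e1 : ∀ g : Perm X, (ℓ (ρ g⁻¹ y) • rep2 X g z) (a, p2) =
        (((m g⁻¹ * H338.ui β (a⁻¹ * (g⁻¹ * a)) *
          H338.ui β (b⁻¹ * (g⁻¹ * p2)) : ℤ)) : ℂ) := by
      intro g
      rw [Pi.smul_apply, rep2_apply, hz, hm, smul_eq_mul]
      simp only
      rw [H338.uh_eq, H338.uh_eq]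
      push_cast
      ring
    rw [Finset.sum_congr rfl (fun g _ => e1 g), ← Int.cast_sum, Int.cast_eq_zero] at h2
    have h3 := Equiv.sum_comp (Equiv.inv (Perm X)) (fun g : Perm X =>
      m g * H338.ui β (a⁻¹ * (g * a)) *
          H338.ui β (b⁻¹ * (g * p2)))
    simp only [Equiv.inv_apply] at h3
    rw [h3] at h2
    have h4 := congrArg (fun i : ℤ => (i : ZMod 2)) h2
    simp only [Int.cast_sum, Int.cast_mul, Int.cast_zero] at h4
    simp only [H338.ui_mod] at h4
    have h5 := H338.parity hs hA ht hsA hst htA m hinv h1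
      (fun g => Transv univ (fun x => β.R ((a⁻¹ * (g * a))⁻¹ x)) β.C)
      (fun g => Transv univ (fun x => β.R ((b⁻¹ * (g * p2))⁻¹ x)) β.C)
      (by
        intro g
        constructor
        · intro h x _ y _ hx hy
          have h6 := h (a⁻¹ (g x)) (mem_univ _) (a⁻¹ (g y)) (mem_univ _)
            (by simpa [hsdef] using hx) (by rw [ha', ha']; exact hy)
          exact g.injective (a⁻¹.injective h6)
        · intro h x _ y _ hx hy
          have h6 := h (g⁻¹ (a x)) (mem_univ _) (g⁻¹ (a y)) (mem_univ _)
            (by simpa [hsdef] using hx) (by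
              simp only [perm_apply_inv]
              rw [← ha', ← ha', perm_inv_apply, perm_inv_apply]
              exact hy)
          exact a.injective (g⁻¹.injective h6))
      (by
        intro g
        constructor
        · intro h x _ y _ hx hy
          have h6 := h (b⁻¹ (g x)) (mem_univ _) (b⁻¹ (g y)) (mem_univ _)
            (by
              rw [← hp', ← hp'] at hx
              simpa using hx) (by rw [hb', hb']; exact hy)
          exact g.injective (b⁻¹.injective h6)
        · intro h x _ y _ hx hy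
          have h6 := h (g⁻¹ (b x)) (mem_univ _) (g⁻¹ (b y)) (mem_univ _)
            (by
              rw [← hp', ← hp']
              simpa using hx) (by
              simp only [perm_apply_inv]
              rw [← hb', ← hb', perm_inv_apply, perm_inv_apply]
              exact hy)
          exact b.injective (g⁻¹.injective h6))
    rw [h5] at h4
    exact one_ne_zero h4
  · intro x
    rw [hT]
    refine Submodule.sum_mem _ fun g _ => Submodule.smul_mem _ _ (Submodule.subset_span ?_)
    refine ⟨g * a, g * b, ?_⟩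
    funext p
    rw [rep2_apply, hz]
    simp only [mul_inv_rev, mul_assoc]

end Pool.Agent.Helper310_SaxlA
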