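import Mathlib
import Pool.Agent.Helper310_SaxlA.Coeff
import Pool.Agent.Helper310_SaxlA.Comb
import Pool.Agent.Helper310_SaxlA.Labelling
import Pool.Agent.Helper310_SaxlA.ModTwo

/-!
# Shapes inside the box
-/

namespace Pool.Agent.Helper310_SaxlA

open Equiv Finset Pool.Agent.Helper310_Saxl

lemma sum_Icc_id (k : ℕ) : ∑ m ∈ Finset.Icc 1 k, m = k * (k + 1) / 2 := by
  induction k with
  | zero => simp
  | succ k ih =>
    rw [Finset.sum_Icc_succ_top (by omega), ih]
    have h1 : (k + 1) * (k + 1 + 1) = k * (k + 1) + (k + 1) * 2 := by ring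
    rw [h1, Nat.add_mul_div_right _ _ (by norm_num)]

lemma card_of_stair {k : ℕ} {X : Type*} [Fintype X] {a : X → ℕ} (h : IsStair k univ a) :
    Fintype.card X = k * (k + 1) / 2 := by
  have h1 := h.sum (fun _ => 1)
  simp only [Finset.sum_const, smul_eq_mul, mul_one] at h1
  rw [← Finset.card_univ, h1, sum_Icc_id]

theorem good_box {k : ℕ} (hk1 : 1 ≤ k) {X : Type*} [Fintype X] [DecidableEq X] (β : Base k X)
    {U : Type*} [AddCommGroup U] [Module ℂ U] (ρ : Representation ℂ (Perm X) U) (D : X → ℕ)
    (φ : U) (hφ : φ ≠ 0) (hHW : HW ρ univ D φ)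
    (hL : Antitone fun i => (univ.filter fun x => D x = i).card)
    (h0 : (univ.filter fun x => D x = 0).card < k)
    (hk : (univ.filter fun x => D x = k - 1).card = 0)
    (tall : ∀ i, (univ.filter fun x => D x = i).card = 0 →
      (univ.filter fun x => D x = 0).card ≤ i) : Good β ρ := by
  -- the row lengths
  have hDk : ∀ x, D x < k := by
    intro x
    by_contra hcon
    have h1 : (univ.filter fun y => D y = D x).card ≤ (univ.filter fun y => D y = k - 1).card :=
      hL (show k - 1 ≤ D x by omega)
    have h2 : 0 < (univ.filter fun y => D y = D x).card :=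
      Finset.card_pos.2 ⟨x, Finset.mem_filter.2 ⟨Finset.mem_univ _, rfl⟩⟩
    omega
  have hsum : ∑ i ∈ range k, (univ.filter fun x => D x = i).card = k * (k + 1) / 2 := by
    rw [← Finset.card_eq_sum_card_fiberwise (f := D) (t := range k)
      (fun x _ => by simpa using hDk x), Finset.card_univ]
    exact card_of_stair β.hR
  obtain ⟨p, t, T1, T2, hp, ht, htp, hLpt, h1, h2, hr1, hr2, hcol⟩ :=
    comb hk1 hL hsum h0 hk tall
  -- the labelling
  obtain ⟨A, hA, hcnt⟩ := exists_labelling D k (fun i l => T1 i l + 2 * T2 i l) (by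
    intro i
    rw [Finset.sum_add_distrib, ← Finset.mul_sum, hr1, hr2]
    exact hLpt i)
  have hA' : IsStair k univ (fun x => A x + 1) := by
    intro m
    by_cases hm : 1 ≤ m ∧ m ≤ k
    · rw [if_pos hm]
      have e1 : (univ.filter fun x => A x + 1 = m) = univ.filter fun x => A x = m - 1 := by
        ext x
        simp only [Finset.mem_filter, Finset.mem_univ, true_and]
        omega
      rw [e1, Finset.card_eq_sum_card_fiberwise (f := D) (t := range k)
        (fun x _ => by simpa using hDk x)]
      have e2 := hcol (m - 1) (by omega)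
      have e3 : m - 1 + 1 = m := by omega
      rw [e3] at e2
      refine Eq.trans ?_ e2
      refine Finset.sum_congr rfl fun i _ => ?_
      rw [← hcnt i (m - 1) (by omega), Finset.filter_filter]
      congr 1
      ext x
      simp only [Finset.mem_filter, Finset.mem_univ, true_and]
      exact and_comm
    · rw [if_neg hm, Finset.card_eq_zero, Finset.filter_eq_empty_iff]
      intro x _ hx
      have h3 := hA x
      have h4 : A x + 1 = m := hx
      exact hm ⟨by omega, by omega⟩
  -- a linear order
  obtain ⟨o⟩ : Nonempty (LinearOrder X) :=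
    ⟨LinearOrder.lift' (Fintype.equivFin X) (Fintype.equivFin X).injective⟩
  have hd : ‹DecidableEq X› = (o.toDecidableEq : DecidableEq X) := Subsingleton.elim _ _
  subst hd
  obtain ⟨l, m, hm1, hm2, hm3⟩ := exists_coeff ρ D φ hφ hHW k p t hp ht htp hLpt A T1 T2 h1 h2
    hr1 hr2 hA (fun i l hl => hcnt i l hl)
  exact mod2_good β (fun x => A x + 1) hA' ρ l φ m hm1
    (fun h g hhA => hm2 h g fun x => by have := hhA x; omega) hm3

end Pool.Agent.Helper310_SaxlA
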