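import Mathlib
import Pool.Agent.Helper310_SaxlA.Base
import Pool.Agent.Helper310_Saxl.Split
import Pool.Agent.Helper310_Saxl.Wrep

/-!
# From the model to tensor products
-/

namespace Pool.Agent.Helper310_SaxlA

open Finset Equiv Pool.Agent.Helper310_Saxl Pool.Agent.Helper310_SaxlA Representation
open scoped TensorProduct

/-- the map from functions of two permutations to the tensor square -/
noncomputable def e4Phi (X : Type) [Fintype X] [DecidableEq X] :
    (Perm X × Perm X → ℂ) →ₗ[ℂ] (Perm X → ℂ) ⊗[ℂ] (Perm X → ℂ) where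
  toFun F := ∑ p : Perm X × Perm X, F p • ((Pi.single p.1 1 : Perm X → ℂ) ⊗ₜ[ℂ]
    (Pi.single p.2 1 : Perm X → ℂ))
  map_add' := by
    intro F G
    simp only [Pi.add_apply, add_smul, Finset.sum_add_distrib]
  map_smul' := by
    intro c F
    simp only [Pi.smul_apply, smul_eq_mul, mul_smul, Finset.smul_sum, RingHom.id_apply]

lemma e4Phi_apply {X : Type} [Fintype X] [DecidableEq X] (F : Perm X × Perm X → ℂ) :
    e4Phi X F = ∑ p : Perm X × Perm X, F p • ((Pi.single p.1 1 : Perm X → ℂ) ⊗ₜ[ℂ]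
      (Pi.single p.2 1 : Perm X → ℂ)) := rfl

lemma e4_single {X : Type} [Fintype X] [DecidableEq X] (g a : Perm X) :
    repV X g (Pi.single a 1 : Perm X → ℂ) = Pi.single (g * a) 1 := by
  funext h
  rw [repV_apply]
  by_cases h1 : h = g * a
  · subst h1
    rw [inv_mul_cancel_left, Pi.single_eq_same, Pi.single_eq_same]
  · rw [Pi.single_eq_of_ne h1, Pi.single_eq_of_ne]
    intro h2
    apply h1
    rw [← h2, mul_inv_cancel_left]

lemma e4Phi_equiv {X : Type} [Fintype X] [DecidableEq X] (g : Perm X)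
    (F : Perm X × Perm X → ℂ) :
    e4Phi X (rep2 X g F) = ((repV X).tprod (repV X)) g (e4Phi X F) := by
  rw [e4Phi_apply, e4Phi_apply, map_sum]
  refine (Fintype.sum_equiv ((Equiv.mulLeft g).prodCongr (Equiv.mulLeft g)) _ _ ?_).symm
  intro p
  rw [map_smul, Representation.tprod_apply, TensorProduct.map_tmul, e4_single, e4_single,
    rep2_apply]
  simp

lemma e4Phi_prod {X : Type} [Fintype X] [DecidableEq X] (f f' : Perm X → ℂ) :
    e4Phi X (fun p => f p.1 * f' p.2) = f ⊗ₜ[ℂ] f' := by
  have h : ∀ f : Perm X → ℂ, f = ∑ a : Perm X, f a • (Pi.single a 1 : Perm X → ℂ) := by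
    intro f
    funext b
    rw [Finset.sum_apply, Finset.sum_eq_single b]
    · simp
    · intro a _ hab
      rw [Pi.smul_apply, Pi.single_eq_of_ne hab.symm, smul_zero]
    · intro hb; exact absurd (Finset.mem_univ _) hb
  rw [e4Phi_apply]
  conv_rhs => rw [h f, h f', TensorProduct.sum_tmul]
  rw [Fintype.sum_prod_type]
  refine Finset.sum_congr rfl fun a _ => ?_
  rw [TensorProduct.tmul_sum]
  refine Finset.sum_congr rfl fun b _ => ?_
  rw [TensorProduct.smul_tmul_smul]

lemma e4Phi_inj {X : Type} [Fintype X] [DecidableEq X] (F : Perm X × Perm X → ℂ)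
    (hF : e4Phi X F = 0) : F = 0 := by
  funext p
  have h1 := congrArg (fun t => LinearMap.mul' ℂ ℂ (TensorProduct.map
    (LinearMap.proj p.1 : (Perm X → ℂ) →ₗ[ℂ] ℂ) (LinearMap.proj p.2) t)) hF
  simp only [map_zero] at h1
  rw [e4Phi_apply, map_sum, map_sum, Finset.sum_eq_single p] at h1
  · simpa using h1
  · intro q _ hq
    rw [map_smul, map_smul, TensorProduct.map_tmul, LinearMap.mul'_apply, LinearMap.proj_apply,
      LinearMap.proj_apply]
    have h2 : p.1 ≠ q.1 ∨ p.2 ≠ q.2 := by
      by_contra hcon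
      push Not at hcon
      exact hq (Prod.ext hcon.1.symm hcon.2.symm)
    rcases h2 with h2 | h2
    · rw [Pi.single_eq_of_ne h2, zero_mul, smul_zero]
    · rw [Pi.single_eq_of_ne h2, mul_zero, smul_zero]
  · intro hp; exact absurd (Finset.mem_univ _) hp

/-- the indicator of the row stabiliser -/
noncomputable def e4one {X : Type} [Fintype X] [DecidableEq X] {k : ℕ} (β : Base k X)
    (g : Perm X) : ℂ := if ∀ x, β.R (g⁻¹ x) = β.R x then 1 else 0

lemma e4_uh {X : Type} [Fintype X] [DecidableEq X] {k : ℕ} (β : Base k X) :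
    uh β = ∑ c ∈ univ.filter (fun c : Perm X => ∀ x, β.C (c x) = β.C x),
      ((Perm.sign c : ℤ) : ℂ) • repV X c (e4one β) := by
  funext g
  rw [Finset.sum_apply]
  unfold uh
  refine Finset.sum_congr rfl fun c _ => ?_
  rw [Pi.smul_apply, repV_apply, smul_eq_mul]
  congr 1
  unfold e4one
  refine if_congr ?_ rfl rfl
  constructor
  · intro h x
    have := h (c x)
    rw [perm_inv_apply] at this
    rw [mul_inv_rev, inv_inv, Perm.mul_apply]
    exact this
  · intro h x
    have := h (c⁻¹ x)
    rw [mul_inv_rev, inv_inv, Perm.mul_apply, perm_apply_inv] at this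
    exact this

lemma e4_uh_swap {X : Type} [Fintype X] [DecidableEq X] {k : ℕ} (β : Base k X) (x y : X)
    (hxy : x ≠ y) (hC : β.C x = β.C y) : repV X (swap x y) (uh β) = - uh β := by
  rw [e4_uh, map_sum, ← Finset.sum_neg_distrib]
  have hs : ∀ z, β.C (swap x y z) = β.C z := by
    intro z
    by_cases h1 : z = x
    · subst h1; rw [swap_apply_left]; exact hC.symm
    · by_cases h2 : z = y
      · subst h2; rw [swap_apply_right]; exact hC
      · rw [swap_apply_of_ne_of_ne h1 h2]
  refine Finset.sum_bij (fun c _ => swap x y * c) ?_ ?_ ?_ ?_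
  · intro c hc
    rw [Finset.mem_filter] at hc ⊢
    refine ⟨Finset.mem_univ _, fun z => ?_⟩
    rw [Perm.mul_apply, hs, hc.2]
  · intro a _ b _ hab; exact mul_left_cancel hab
  · intro c hc
    rw [Finset.mem_filter] at hc
    refine ⟨swap x y * c, Finset.mem_filter.2 ⟨Finset.mem_univ _, fun z => ?_⟩, ?_⟩
    · rw [Perm.mul_apply, hs, hc.2]
    · rw [← mul_assoc, Equiv.swap_mul_self, one_mul]
  · intro c _
    rw [map_smul, ← Module.End.mul_apply, ← map_mul, Perm.sign_mul, Perm.sign_swap hxy]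
    simp

lemma e4_one_swap {X : Type} [Fintype X] [DecidableEq X] {k : ℕ} (β : Base k X) (x y : X)
    (hR : β.R x = β.R y) : repV X (swap x y) (e4one β) = e4one β := by
  have hs : ∀ z, β.R (swap x y z) = β.R z := by
    intro z
    by_cases h1 : z = x
    · subst h1; rw [swap_apply_left]; exact hR.symm
    · by_cases h2 : z = y
      · subst h2; rw [swap_apply_right]; exact hR
      · rw [swap_apply_of_ne_of_ne h1 h2]
  funext g
  rw [repV_apply]
  unfold e4one
  refine if_congr ?_ rfl rfl
  rw [mul_inv_rev, inv_inv]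
  constructor
  · intro h z
    have := h (swap x y z)
    rw [Perm.mul_apply, swap_apply_self, hs] at this
    exact this
  · intro h z
    rw [Perm.mul_apply, h, hs]

/-- the quotients of the regular representation in which the polytabloid survives -/
lemma e4_key {X : Type} [Fintype X] [DecidableEq X] {k : ℕ} (β : Base k X)
    {ψ : Type} [AddCommGroup ψ] [Module ℂ ψ] (ρψ : Representation ℂ (Perm X) ψ)
    (p : IntertwiningMap (repV X) ρψ) (h : Perm X) (hp : p (repV X h (uh β)) ≠ 0) :
    (∃ v : ψ, v ≠ 0 ∧ ∀ x y, β.R x = β.R y → ρψ (swap x y) v = v) ∧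
      (∃ w : ψ, w ≠ 0 ∧ ∀ x y, x ≠ y → β.C x = β.C y → ρψ (swap x y) w = -w) := by
  have hint : ∀ (g : Perm X) (f : Perm X → ℂ), p (repV X g f) = ρψ g (p f) :=
    fun g f => IntertwiningMap.isIntertwining _ _ p g f
  have h1 : p (uh β) ≠ 0 := by
    intro h0
    apply hp
    rw [hint, h0, map_zero]
  constructor
  · refine ⟨p (e4one β), ?_, ?_⟩
    · intro h0
      apply h1
      rw [e4_uh, map_sum]
      refine Finset.sum_eq_zero fun c _ => ?_
      rw [map_smul, hint, h0, map_zero, smul_zero]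
    · intro x y hxy
      rw [← hint, e4_one_swap β x y hxy]
  · refine ⟨p (uh β), h1, ?_⟩
    intro x y hxy hC
    rw [← hint, e4_uh_swap β x y hxy hC, map_neg]

/-- TARGET -/
theorem good_contains {X : Type} [Fintype X] [DecidableEq X] {k : ℕ} (β : Base k X)
    {U : Type*} [AddCommGroup U] [Module ℂ U] (ρU : Representation ℂ (Perm X) U)
    (hU : Good β ρU)
    {M : Type*} [AddCommGroup M] [Module ℂ M] (ρM : Representation ℂ (Perm X) M)
    (hM : ∀ (ψ : Type) [AddCommGroup ψ] [Module ℂ ψ] (ρψ : Representation ℂ (Perm X) ψ),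
      ρψ.IsIrreducible → (∃ v : ψ, v ≠ 0 ∧ ∀ x y, β.R x = β.R y → ρψ (swap x y) v = v) →
      (∃ w : ψ, w ≠ 0 ∧ ∀ x y, x ≠ y → β.C x = β.C y → ρψ (swap x y) w = -w) →
      ∃ f : IntertwiningMap ρψ ρM, f ≠ 0) :
    ∃ f : IntertwiningMap ρU (ρM.tprod ρM), f ≠ 0 := by
  classical
  obtain ⟨T, hTe, hT0, hTV⟩ := hU
  obtain ⟨x, hx⟩ : ∃ x, T x ≠ 0 := by
    by_contra hcon
    push Not at hcon
    exact hT0 (LinearMap.ext hcon)
  have ht : e4Phi X (T x) ≠ 0 := fun h0 => hx (e4Phi_inj _ h0)
  obtain ⟨P, Q, hP, hQ, p, q, hpq⟩ := exists_irr_tensor (ρA := repV X) (ρB := repV X)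
    (e4Phi X (T x)) ht
  have hz : (∃ h, p (repV X h (uh β)) ≠ 0) ∧ (∃ h, q (repV X h (uh β)) ≠ 0) := by
    by_contra hcon
    apply hpq
    have hgen : ∀ h h' : Perm X, TensorProduct.map p.toLinearMap q.toLinearMap
        (repV X h (uh β) ⊗ₜ[ℂ] repV X h' (uh β)) = 0 := by
      intro h h'
      rw [TensorProduct.map_tmul]
      rw [not_and_or] at hcon
      push Not at hcon
      rcases hcon with h1 | h1
      · have h2 : p.toLinearMap (repV X h (uh β)) = 0 := h1 h
        rw [h2, TensorProduct.zero_tmul]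
      · have h2 : q.toLinearMap (repV X h' (uh β)) = 0 := h1 h'
        rw [h2, TensorProduct.tmul_zero]
    have hker : ∀ F ∈ VV β, TensorProduct.map p.toLinearMap q.toLinearMap (e4Phi X F) = 0 := by
      intro F hF
      unfold VV at hF
      induction hF using Submodule.span_induction with
      | mem F hF =>
        obtain ⟨h, h', rfl⟩ := hF
        have h3 := e4Phi_prod (repV X h (uh β)) (repV X h' (uh β))
        have h4 : (fun p : Perm X × Perm X => uh β (h⁻¹ * p.1) * uh β (h'⁻¹ * p.2)) =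
          fun p => (repV X h (uh β)) p.1 * (repV X h' (uh β)) p.2 := rfl
        rw [h4, h3]
        exact hgen h h'
      | zero => simp
      | add a b _ _ ha hb => rw [map_add, map_add, ha, hb, add_zero]
      | smul c a _ ha => rw [map_smul, map_smul, ha, smul_zero]
    exact hker _ (hTV x)
  obtain ⟨⟨g1, hg1⟩, ⟨g2, hg2⟩⟩ := hz
  obtain ⟨a1, b1⟩ := e4_key β P.toRepresentation p g1 hg1
  obtain ⟨a2, b2⟩ := e4_key β Q.toRepresentation q g2 hg2
  obtain ⟨f1, hf1⟩ := hM _ _ hP a1 b1
  obtain ⟨f2, hf2⟩ := hM _ _ hQ a2 b2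
  have hinj1 : Function.Injective f1 := (IsIrreducible.injective_or_eq_zero f1).resolve_right hf1
  have hinj2 : Function.Injective f2 := (IsIrreducible.injective_or_eq_zero f2).resolve_right hf2
  let L : IntertwiningMap ρU ((repV X).tprod (repV X)) :=
    ((e4Phi X).comp T).intertwiningMap_of_isIntertwiningMap ρU ((repV X).tprod (repV X))
      (fun g v => by rw [LinearMap.comp_apply, LinearMap.comp_apply, hTe, e4Phi_equiv])
  refine ⟨((f1.tensor f2).comp (p.tensor q)).comp L, ?_⟩
  intro h0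
  apply hpq
  have h1 : TensorProduct.map f1.toLinearMap f2.toLinearMap
      (TensorProduct.map p.toLinearMap q.toLinearMap (e4Phi X (T x))) = 0 := by
    have := congrArg (fun F : IntertwiningMap ρU (ρM.tprod ρM) => F x) h0
    exact this
  have h2 : Function.Injective (TensorProduct.map f1.toLinearMap f2.toLinearMap) :=
    TensorProduct.map_injective_of_flat_flat _ _ hinj1 hinj2
  exact h2 (by rw [h1, map_zero])

end Pool.Agent.Helper310_SaxlA
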