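import Mathlib
import Pool.Agent.Helper310_Saxl.Defs

/-!
# Nilpotent orbits and families in type A

The standard combinatorial dictionary for the complex Lie algebra `sl_n` (type `A_(n-1)`):

* the Weyl group is the group of all permutations of `n` letters;
* nilpotent orbits are partitions of `n` (the Jordan types), the closure order is the dominance
  order;
* the reductive part of the centraliser of an orbit is, up to finite index, the subgroup of
  determinant one in a product of one group `GL_m` for each part `j` of multiplicity `m > 0`; so
  the orbit is solvable when its parts are distinct;
* the duality is the transposition of partitions;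
* irreducible characters are labelled by partitions and every family consists of one character;
  the character of the family of the orbit `l` is the one labelled by `l` (or by its transpose,
  depending on the normalisation, which makes no difference when `l` equals its transpose).
-/

namespace Pool.Agent.Helper310_SaxlA

open Equiv Finset Pool.Agent.Helper310_Saxl

/-- Solvable nilpotent orbits of `sl_n`: the partitions of `n` with distinct parts. -/
def IsSolvableOrbitA (n : ℕ) (l : ℕ → ℕ) : Prop :=
  IsPart n l ∧ ∀ j, 0 < j → mult n l j ≤ 1

/-- `l` is the minimal solvable orbit of `sl_n`: the least one in the closure order. -/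
def IsMinSolvableA (n : ℕ) (l : ℕ → ℕ) : Prop :=
  IsSolvableOrbitA n l ∧ ∀ m, IsSolvableOrbitA n m → Dom l m

/-- `m` is the dual `d(l)` of the orbit `l` of `sl_n`: the transposed partition. -/
def IsDualA (n : ℕ) (l m : ℕ → ℕ) : Prop := ∀ j, m j = transp n l j

/-- `t` is a tableau of shape `a`: a bijection from the `n` letters to the cells `(i, j)`,
`j < a i`; here `i` is the number of the row and `j` the number of the column. -/
def IsTableau {n : ℕ} (a : ℕ → ℕ) (t : Fin n → ℕ × ℕ) : Prop :=
  Function.Injective t ∧ ∀ p, (∃ x, t x = p) ↔ p.2 < a p.1

/-- The irreducible representation `ρ` of the symmetric group has the label `a`, where the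
partition `a` is given by its parts `a 0 ≥ a 1 ≥ ...`: for some tableau of shape `a` there is a
nonzero vector fixed by all transpositions of two letters in the same row and a nonzero vector
negated by all transpositions of two letters in the same column. So `ρ` is the Specht module
`S^a`; the label `(n)` is the one of the trivial representation. -/
def HasLabA {n : ℕ} {V : Type*} [AddCommGroup V] [Module ℂ V]
    (ρ : Representation ℂ (Perm (Fin n)) V) (a : ℕ → ℕ) : Prop :=
  ∃ t, IsTableau a t ∧
    (∃ v : V, v ≠ 0 ∧ ∀ x y, (t x).1 = (t y).1 → ρ (swap x y) v = v) ∧
    ∃ w : V, w ≠ 0 ∧ ∀ x y, x ≠ y → (t x).2 = (t y).2 → ρ (swap x y) w = -w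

end Pool.Agent.Helper310_SaxlA
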