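import Mathlib
import Pool.Agent.Helper310_Saxl.Young

/-!
# Rows and columns
-/

namespace Pool.Agent.Helper310_SaxlA

open Finset Equiv Pool.Agent.Helper310_Saxl

/-- TARGET -/
theorem dual_bound {X : Type*} [Fintype X] [DecidableEq X] {V : Type*} [AddCommGroup V]
    [Module ℂ V] (ρ : Representation ℂ (Perm X) V) (hirr : ρ.IsIrreducible)
    (D : X → ℕ) (c : ℕ) (hc : ∀ x, D x < c) (φ : V) (hφ : φ ≠ 0)
    (h1 : ∀ x y, D x = D y → ρ (swap x y) φ = φ)
    (B : Finset X) (w : V) (hw : w ≠ 0)
    (h2 : ∀ x ∈ B, ∀ y ∈ B, x ≠ y → ρ (swap x y) w = -w) : B.card ≤ c := by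
  -- the span of the orbit is everything
  let U : Subrepresentation ρ :=
    { toSubmodule := Submodule.span ℂ (Set.range fun g : Perm X => ρ g φ)
      apply_mem_toSubmodule := by
        intro g v hv
        have hle : Submodule.span ℂ (Set.range fun g : Perm X => ρ g φ) ≤
            (Submodule.span ℂ (Set.range fun g : Perm X => ρ g φ)).comap (ρ g) := by
          rw [Submodule.span_le]
          rintro _ ⟨h, rfl⟩
          rw [SetLike.mem_coe, Submodule.mem_comap, ← rho_mul]
          exact Submodule.subset_span ⟨g * h, rfl⟩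
        exact hle hv }
  have hφU : φ ∈ U.toSubmodule :=
    Submodule.subset_span ⟨1, by beta_reduce; rw [map_one]; rfl⟩
  have hUtop : U = ⊤ := by
    rcases hirr.eq_bot_or_eq_top U with h | h
    · exfalso
      rw [h] at hφU
      exact hφ ((Submodule.mem_bot ℂ).1 hφU)
    · exact h
  have hwU : w ∈ Submodule.span ℂ (Set.range fun g : Perm X => ρ g φ) := by
    have h3 : w ∈ U.toSubmodule := by
      rw [hUtop]
      exact Submodule.mem_top
    exact h3
  -- the antisymmetriser of `w`
  have hsgn : ∀ g ∈ supp B, ρ g w = ((Perm.sign g : ℤ) : ℂ) • w := by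
    intro g hg
    refine young_sign ρ (fun x : X => if x ∈ B then (none : Option X) else some x) w ?_ g ?_
    · intro x y hxy hD
      by_cases hx : x ∈ B
      · by_cases hy : y ∈ B
        · exact h2 x hx y hy hxy
        · simp [hx, hy] at hD
      · by_cases hy : y ∈ B
        · simp [hx, hy] at hD
        · simp [hx, hy] at hD
          exact absurd hD hxy
    · intro x
      rw [mem_supp] at hg
      by_cases hx : x ∈ B
      · have hgx : g x ∈ B := by
          by_contra hn
          have h3 := hg (g x) hn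
          have h4 : g x = x := g.injective h3
          rw [h4] at hn
          exact hn hx
        simp [hx, hgx]
      · rw [hg x hx]
  have hasym : asym ρ B w ≠ 0 := by
    rw [asym_apply]
    have h3 : ∀ g ∈ supp B, ((Perm.sign g : ℤ) : ℂ) • ρ g w = w := by
      intro g hg
      rw [hsgn g hg, smul_smul]
      rcases Int.units_eq_one_or (Perm.sign g) with h | h <;> simp [h]
    rw [Finset.sum_congr rfl h3, Finset.sum_const]
    have h4 : 0 < (supp B).card := Finset.card_pos.2 ⟨1, mem_supp.2 fun x _ => rfl⟩
    rw [← Nat.cast_smul_eq_nsmul ℂ]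
    refine smul_ne_zero ?_ hw
    exact_mod_cast h4.ne'
  obtain ⟨g, hg⟩ : ∃ g : Perm X, asym ρ B (ρ g φ) ≠ 0 := by
    by_contra hcon
    push Not at hcon
    have hle : Submodule.span ℂ (Set.range fun g : Perm X => ρ g φ) ≤
        LinearMap.ker (asym ρ B) := by
      rw [Submodule.span_le]
      rintro _ ⟨h, rfl⟩
      exact hcon h
    exact hasym (hle hwU)
  have hinj : Set.InjOn (fun x => D (g⁻¹ x)) (B : Set X) := by
    intro x hx y hy hxy
    by_contra hne
    have h3 : ρ (swap x y) (ρ g φ) = ρ g φ := by
      rw [← rho_mul, swap_mul_eq_mul_swap, rho_mul, h1 _ _ hxy]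
    have h4 := asym_swap_right ρ (S := B) hx hy hne (ρ g φ)
    rw [h3] at h4
    have h5 : (2 : ℂ) • asym ρ B (ρ g φ) = 0 := by
      rw [two_smul]
      nth_rewrite 1 [h4]
      exact neg_add_cancel _
    rcases smul_eq_zero.1 h5 with h6 | h6
    · norm_num at h6
    · exact hg h6
  have h7 := Finset.card_le_card_of_injOn (s := B) (t := Finset.range c)
    (fun x => D (g⁻¹ x)) (fun x _ => by simpa using hc (g⁻¹ x)) hinj
  rwa [Finset.card_range] at h7

end Pool.Agent.Helper310_SaxlA
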