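import Mathlib
import Pool.Agent.Helper310_Saxl.Peel

/-!
# Existence of highest weight vectors
-/

namespace Pool.Agent.Helper310_SaxlA

open Equiv Finset Pool.Agent.Helper310_Saxl

theorem exists_hw {X : Type*} [Fintype X] [DecidableEq X] {U : Type*} [AddCommGroup U]
    [Module ℂ U] (ρ : Representation ℂ (Perm X) U) (u : U) (hu : u ≠ 0) :
    ∃ (D : X → ℕ) (φ : U), φ ≠ 0 ∧ HW ρ univ D φ ∧
      Antitone (fun i => (univ.filter fun x => D x = i).card) := by
  classical
  set n := Fintype.card X with hn
  set S : Finset (X → Fin n) := univ.filter fun D => ∃ v : U, v ≠ 0 ∧ FixedOn ρ univ D v with hS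
  have hne : S.Nonempty := by
    refine ⟨fun x => Fintype.equivFin X x, Finset.mem_filter.2 ⟨Finset.mem_univ _, u, hu, ?_⟩⟩
    intro x _ y _ hxy
    have : x = y := (Fintype.equivFin X).injective hxy
    have e0 : (swap x y : Perm X) = 1 := by rw [this]; exact swap_self y
    rw [e0, map_one]; rfl
  obtain ⟨D0, hD0, hmax⟩ := Finset.exists_max_image S (fun D => energy univ D) hne
  obtain ⟨_, φ, hφ, hfix⟩ := Finset.mem_filter.1 hD0
  have hraise : ∀ x y0 : X, D0 y0 ≠ D0 x →
      (univ.filter fun z => D0 z = D0 x).card ≤ (univ.filter fun z => D0 z = D0 y0).card →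
      φ + ∑ y ∈ univ.filter (fun y => D0 y = D0 y0), ρ (swap x y) φ = 0 := by
    intro x y0 hxy hle
    by_contra hcon
    have h1 := raise_fixed ρ hfix (Finset.mem_univ x) (Finset.mem_univ y0) hxy
    have h2 : Function.update D0 x (D0 y0) ∈ S :=
      Finset.mem_filter.2 ⟨Finset.mem_univ _, _, hcon, h1⟩
    have h3 := hmax _ h2
    have h4 := energy_update (S := univ) (D := D0) (x := x) (a := D0 y0) (Finset.mem_univ x)
      hxy hle
    omega
  -- sort the rows
  set c : Fin n → ℕ := fun i => (univ.filter fun z => D0 z = i).card with hc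
  set σ : Perm (Fin n) := Tuple.sort (fun i => OrderDual.toDual (c i)) with hσ
  have hmono : ∀ i j : Fin n, i ≤ j → c (σ j) ≤ c (σ i) := by
    intro i j hij
    have := Tuple.monotone_sort (fun i => OrderDual.toDual (c i)) hij
    exact this
  have hiff : ∀ x y, ((σ.symm (D0 x) : Fin n) : ℕ) = (σ.symm (D0 y) : Fin n) ↔ D0 x = D0 y := by
    intro x y
    rw [← Fin.ext_iff]
    exact σ.symm.injective.eq_iff
  refine ⟨fun x => ((σ.symm (D0 x) : Fin n) : ℕ), φ, hφ, ⟨?_, ?_⟩, ?_⟩
  · intro x _ y _ hxy
    exact hfix x (Finset.mem_univ _) y (Finset.mem_univ _) ((hiff x y).1 hxy)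
  · intro x _ y0 _ hlt
    have h1 : D0 y0 ≠ D0 x := by
      intro h
      have := (hiff y0 x).2 h
      simp only at hlt
      omega
    have h2 : (univ.filter fun z => D0 z = D0 x).card ≤
        (univ.filter fun z => D0 z = D0 y0).card := by
      have h3 := hmono (σ.symm (D0 y0)) (σ.symm (D0 x)) (by
        rw [Fin.le_def]; exact le_of_lt hlt)
      rw [σ.apply_symm_apply, σ.apply_symm_apply] at h3
      exact h3
    have h4 := hraise x y0 h1 h2
    have h5 : (univ.filter fun y => ((σ.symm (D0 y) : Fin n) : ℕ) = (σ.symm (D0 y0) : Fin n)) =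
        univ.filter fun y => D0 y = D0 y0 := by
      ext y
      simp only [Finset.mem_filter, Finset.mem_univ, true_and]
      exact hiff y y0
    rw [h5]
    exact h4
  · have hcount : ∀ i (hi : i < n), (univ.filter fun x => ((σ.symm (D0 x) : Fin n) : ℕ) = i).card =
        c (σ ⟨i, hi⟩) := by
      intro i hi
      rw [hc]
      simp only
      congr 1
      ext x
      simp only [Finset.mem_filter, Finset.mem_univ, true_and]
      constructor
      · intro h
        have h1 : σ.symm (D0 x) = ⟨i, hi⟩ := Fin.ext h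
        rw [← h1, σ.apply_symm_apply]
      · intro h
        rw [h, σ.symm_apply_apply]
    intro i j hij
    simp only
    by_cases hj : j < n
    · rw [hcount i (by omega), hcount j hj]
      exact hmono _ _ (by rw [Fin.le_def]; exact hij)
    · have h0 : (univ.filter fun x => ((σ.symm (D0 x) : Fin n) : ℕ) = j) = ∅ := by
        rw [Finset.filter_eq_empty_iff]
        intro x _ h
        have := (σ.symm (D0 x)).2
        omega
      rw [h0, Finset.card_empty]
      exact Nat.zero_le _

end Pool.Agent.Helper310_SaxlA
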