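import Mathlib
import Pool.Agent.Helper310_SaxlA.Base

/-!
# The kernel of the strip map
-/

namespace Pool.Agent.Helper310_SaxlA

open Equiv Finset Pool.Agent.Helper310_Saxl

section

variable {k : ℕ} {X : Type*} [Fintype X] [DecidableEq X]

/-- the column with `k + 1` elements -/
def Base.col (β : Base (k + 1) X) : Finset X := univ.filter fun x => β.C x = k + 1

/-- The kernel: for a row labelling `U` of `X` and a permutation `q` of the complement of the last
column, the signed number of the permutations `π` of the last column with `U` equal to the row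
labelling of `β` transported by `π * q`. -/
noncomputable def JJ (β : Base (k + 1) X) (U : X → ℕ) (q : Perm {x // β.C x ≠ k + 1}) : ℂ :=
  ∑ π ∈ supp β.col, ((Perm.sign π : ℤ) : ℂ) *
    (if ∀ x, U x = β.R ((π * Perm.ofSubtype q)⁻¹ x) then 1 else 0)

/-- `ω` is none on the last column and equal to the pair of the row labellings transported by
`q1` and `q2` outside. -/
def Cond (β : Base (k + 1) X) (q1 q2 : Perm {x // β.C x ≠ k + 1})
    (ω : X → Option (Fin (k + 1) × Fin (k + 1))) : Prop :=
  (∀ x, ω x = none ↔ β.C x = k + 1) ∧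
    ∀ x : {x // β.C x ≠ k + 1}, ∃ c : Fin (k + 1) × Fin (k + 1), ω x = some c ∧
      (c.1 : ℕ) = β.tail.R (q1⁻¹ x) ∧ (c.2 : ℕ) = β.tail.R (q2⁻¹ x)

noncomputable instance (β : Base (k + 1) X) (q1 q2 : Perm {x // β.C x ≠ k + 1})
    (ω : X → Option (Fin (k + 1) × Fin (k + 1))) : Decidable (Cond β q1 q2 ω) :=
  Classical.propDecidable _

end

end Pool.Agent.Helper310_SaxlA
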