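import Mathlib
import Pool.Agent.Helper310_SaxlA.StripDefs

/-!
# The kernel identity
-/

namespace Pool.Agent.Helper310_SaxlA

open Finset Equiv Pool.Agent.Helper310_Saxl Pool.Agent.Helper310_SaxlA

namespace H187S1

lemma perm_right {α : Type*} (q : Perm α) (x : α) : q (q⁻¹ x) = x := Equiv.apply_symm_apply q x

lemma perm_left {α : Type*} (q : Perm α) (x : α) : q⁻¹ (q x) = x := Equiv.symm_apply_apply q x

/-- the column as a type -/
lemma exists_col_equiv {k : ℕ} {X : Type*} [Fintype X] [DecidableEq X] (β : Base (k + 1) X) :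
    ∃ f : Fin (k + 1) ≃ {x // β.C x = k + 1}, ∀ i, β.R (f i : X) = (i : ℕ) + 1 := by
  have hr : ∀ i : Fin (k + 1), ∃ x, β.R x = (i : ℕ) + 1 ∧ β.C x = k + 1 := fun i => by
    have hi := i.2
    obtain ⟨x, hx, _⟩ := β.row_unique (m := (i : ℕ) + 1) ⟨by omega, by omega⟩
    exact ⟨x, hx⟩
  choose r hr1 hr2 using hr
  refine ⟨Equiv.ofBijective (fun i => ⟨r i, hr2 i⟩) ⟨?_, ?_⟩, fun i => hr1 i⟩
  · intro i j hij
    have h1 : r i = r j := congrArg Subtype.val hij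
    have h2 : (i : ℕ) + 1 = (j : ℕ) + 1 := by rw [← hr1 i, ← hr1 j, h1]
    exact Fin.ext (by omega)
  · rintro ⟨x, hx⟩
    have h1 := β.hR.bounds (Finset.mem_univ x)
    refine ⟨⟨β.R x - 1, by omega⟩, Subtype.ext (β.hRC _ _ ?_ ?_)⟩
    · rw [hr1]; show β.R x - 1 + 1 = β.R x; omega
    · rw [hr2, hx]

lemma sum_supp_col {k : ℕ} {X : Type*} [Fintype X] [DecidableEq X] (β : Base (k + 1) X)
    (f : Fin (k + 1) ≃ {x // β.C x = k + 1}) (F : Perm X → ℂ) :
    ∑ π ∈ supp β.col, F π = ∑ σ : Perm (Fin (k + 1)), F (σ.extendDomain f) := by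
  symm
  refine Finset.sum_nbij (fun σ => σ.extendDomain f) ?_ ?_ ?_ ?_
  · intro σ _
    rw [mem_supp]
    intro x hx
    apply Perm.extendDomain_apply_not_subtype
    intro h
    exact hx (Finset.mem_filter.2 ⟨Finset.mem_univ _, h⟩)
  · intro σ _ τ _ h
    ext i
    have h1 := congrArg (fun π : Perm X => π (f i)) h
    simp only [Perm.extendDomain_apply_image] at h1
    rw [f.injective (Subtype.ext h1)]
  · intro π hπ
    have hπ' := mem_supp.1 (Finset.mem_coe.1 hπ)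
    have hcol : ∀ x, x ∉ β.col ↔ ¬ β.C x = k + 1 := fun x => by
      simp [Base.col]
    have hst : ∀ x, β.C x = k + 1 → β.C (π x) = k + 1 := by
      intro x hx
      by_contra h
      have h1 := hπ' (π x) ((hcol _).2 h)
      have h2 : π x = x := π.injective h1
      rw [h2] at h
      exact h hx
    have hst' : ∀ x, β.C x = k + 1 → β.C (π⁻¹ x) = k + 1 := by
      intro x hx
      by_contra h
      have h1 := hπ' (π⁻¹ x) ((hcol _).2 h)
      rw [perm_right] at h1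
      rw [← h1] at h
      exact h hx
    refine ⟨⟨fun i => f.symm ⟨π (f i), hst _ (f i).2⟩, fun i => f.symm ⟨π⁻¹ (f i), hst' _ (f i).2⟩,
      ?_, ?_⟩, Finset.mem_coe.2 (Finset.mem_univ _), ?_⟩
    · intro i; simp
    · intro i; simp
    · ext x
      beta_reduce
      by_cases hx : β.C x = k + 1
      · rw [Perm.extendDomain_apply_subtype _ f hx]
        simp
      · rw [Perm.extendDomain_apply_not_subtype _ f hx]
        exact (hπ' x ((hcol x).2 hx)).symm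
  · intro σ _; rfl

lemma JJ_eq {k : ℕ} {X : Type*} [Fintype X] [DecidableEq X] (β : Base (k + 1) X)
    (f : Fin (k + 1) ≃ {x // β.C x = k + 1}) (hf : ∀ i, β.R (f i : X) = (i : ℕ) + 1)
    (q : Perm {x // β.C x ≠ k + 1}) (u : X → Fin (k + 1))
    [Decidable (∀ x : {x // β.C x ≠ k + 1}, (u x : ℕ) = β.tail.R (q⁻¹ x))] :
    JJ β (fun x => (u x : ℕ) + 1) q =
      (if ∀ x : {x // β.C x ≠ k + 1}, (u x : ℕ) = β.tail.R (q⁻¹ x) then (1 : ℂ) else 0) *
      ∑ σ : Perm (Fin (k + 1)), ((Perm.sign σ : ℤ) : ℂ) *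
        (if ∀ i, u (f (σ i)) = i then (1 : ℂ) else 0) := by
  unfold JJ
  rw [sum_supp_col β f, Finset.mul_sum]
  refine Finset.sum_congr rfl fun σ _ => ?_
  rw [Perm.sign_extendDomain]
  have key : (∀ x, (u x : ℕ) + 1 = β.R ((σ.extendDomain f * Perm.ofSubtype q)⁻¹ x)) ↔
      ((∀ x : {x // β.C x ≠ k + 1}, (u x : ℕ) = β.tail.R (q⁻¹ x)) ∧ ∀ i, u (f (σ i)) = i) := by
    have e1 : ∀ x : {x // β.C x ≠ k + 1}, (σ.extendDomain f * Perm.ofSubtype q)⁻¹ (x : X) =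
        ((q⁻¹ x : {x // β.C x ≠ k + 1}) : X) := by
      intro x
      rw [Perm.inv_eq_iff_eq, Perm.mul_apply, Perm.ofSubtype_apply_coe, perm_right,
        Perm.extendDomain_apply_not_subtype _ f x.2]
    have e2 : ∀ i, (σ.extendDomain f * Perm.ofSubtype q)⁻¹ (f (σ i) : X) = f i := by
      intro i
      rw [Perm.inv_eq_iff_eq, Perm.mul_apply, Perm.ofSubtype_apply_of_not_mem,
        Perm.extendDomain_apply_image]
      intro h; exact h (f i).2
    have hpos : ∀ x, 1 ≤ β.R x := fun x => (β.hR.bounds (Finset.mem_univ x)).1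
    constructor
    · intro h
      refine ⟨fun x => ?_, fun i => ?_⟩
      · have h1 := h x
        rw [e1] at h1
        have h2 := hpos ((q⁻¹ x : {x // β.C x ≠ k + 1}) : X)
        show (u x : ℕ) = β.R ((q⁻¹ x : {x // β.C x ≠ k + 1}) : X) - 1
        omega
      · have h1 := h (f (σ i))
        rw [e2, hf] at h1
        exact Fin.ext (by omega)
    · rintro ⟨h1, h2⟩ x
      by_cases hx : β.C x = k + 1
      · obtain ⟨i, hi⟩ := f.surjective ⟨x, hx⟩
        obtain ⟨j, rfl⟩ := σ.surjective i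
        have hx' : x = f (σ j) := by rw [hi]
        rw [hx', e2, hf, h2]
      · have h3 := h1 ⟨x, hx⟩
        have h4 := e1 ⟨x, hx⟩
        have h5 := hpos ((q⁻¹ ⟨x, hx⟩ : {x // β.C x ≠ k + 1}) : X)
        change (u x : ℕ) = β.R ((q⁻¹ ⟨x, hx⟩ : {x // β.C x ≠ k + 1}) : X) - 1 at h3
        change (σ.extendDomain f * Perm.ofSubtype q)⁻¹ x = _ at h4
        rw [h4]
        omega
  by_cases h1 : ∀ x : {x // β.C x ≠ k + 1}, (u x : ℕ) = β.tail.R (q⁻¹ x)
  · by_cases h2 : ∀ i, u (f (σ i)) = i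
    · rw [if_pos (key.2 ⟨h1, h2⟩), if_pos h1, if_pos h2]; ring
    · rw [if_neg (fun h => h2 (key.1 h).2), if_neg h2]; ring
  · rw [if_neg (fun h => h1 (key.1 h).1), if_neg h1]; ring

lemma sum_b_eq {k : ℕ} {X : Type*} [Fintype X] [DecidableEq X] (β : Base (k + 1) X)
    (f : Fin (k + 1) ≃ {x // β.C x = k + 1})
    (q1 q2 : Perm {x // β.C x ≠ k + 1}) (Ω : X → Fin (k + 1) × Fin (k + 1))
    (P : Perm (Fin (k + 1)))
    [Decidable (∀ x : {x // β.C x ≠ k + 1}, ((Ω x).1 : ℕ) = β.tail.R (q1⁻¹ x))]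
    [Decidable (∀ x : {x // β.C x ≠ k + 1}, ((Ω x).2 : ℕ) = β.tail.R (q2⁻¹ x))] :
    ∑ b ∈ univ.filter (fun b : Fin (k + 1) → X => ∀ i, Ω (b i) = (i, P i)),
        (if Cond β q1 q2 (fun x => if ∃ i, b i = x then none else some (Ω x)) then (1 : ℂ) else 0) =
      (if ∀ x : {x // β.C x ≠ k + 1}, ((Ω x).1 : ℕ) = β.tail.R (q1⁻¹ x) then (1 : ℂ) else 0) *
      (if ∀ x : {x // β.C x ≠ k + 1}, ((Ω x).2 : ℕ) = β.tail.R (q2⁻¹ x) then (1 : ℂ) else 0) *
      ∑ σ : Perm (Fin (k + 1)), (if ∀ i, Ω (f (σ i)) = (i, P i) then (1 : ℂ) else 0) := by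
  have hcond : ∀ b : Fin (k + 1) → X,
      Cond β q1 q2 (fun x => if ∃ i, b i = x then none else some (Ω x)) ↔
      ((∀ x, (∃ i, b i = x) ↔ β.C x = k + 1) ∧
        (∀ x : {x // β.C x ≠ k + 1}, ((Ω x).1 : ℕ) = β.tail.R (q1⁻¹ x)) ∧
        (∀ x : {x // β.C x ≠ k + 1}, ((Ω x).2 : ℕ) = β.tail.R (q2⁻¹ x))) := by
    intro b
    unfold Cond
    constructor
    · rintro ⟨h1, h2⟩
      have h1' : ∀ x, (∃ i, b i = x) ↔ β.C x = k + 1 := by
        intro x
        rw [← h1 x]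
        by_cases h : ∃ i, b i = x
        · simp [h]
        · simp [h]
      have h3 : ∀ x : {x // β.C x ≠ k + 1}, ((Ω x).1 : ℕ) = β.tail.R (q1⁻¹ x) ∧
          ((Ω x).2 : ℕ) = β.tail.R (q2⁻¹ x) := by
        intro x
        obtain ⟨c, hc, h4, h5⟩ := h2 x
        have h6 : ¬ ∃ i, b i = (x : X) := fun h => x.2 ((h1' x).1 h)
        beta_reduce at hc
        rw [if_neg h6] at hc
        have h7 : Ω x = c := Option.some.inj hc
        rw [h7]
        exact ⟨h4, h5⟩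
      exact ⟨h1', fun x => (h3 x).1, fun x => (h3 x).2⟩
    · rintro ⟨h1, h2, h3⟩
      refine ⟨fun x => ?_, fun x => ⟨Ω x, ?_, h2 x, h3 x⟩⟩
      · rw [← h1 x]
        by_cases h : ∃ i, b i = x
        · simp [h]
        · simp [h]
      · have h6 : ¬ ∃ i, b i = (x : X) := fun h => x.2 ((h1 x).1 h)
        exact if_neg h6
  by_cases hQ1 : ∀ x : {x // β.C x ≠ k + 1}, ((Ω x).1 : ℕ) = β.tail.R (q1⁻¹ x)
  swap
  · rw [if_neg hQ1, zero_mul, zero_mul]
    exact Finset.sum_eq_zero fun b _ => if_neg fun h => hQ1 ((hcond b).1 h).2.1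
  by_cases hQ2 : ∀ x : {x // β.C x ≠ k + 1}, ((Ω x).2 : ℕ) = β.tail.R (q2⁻¹ x)
  swap
  · rw [if_neg hQ2, mul_zero, zero_mul]
    exact Finset.sum_eq_zero fun b _ => if_neg fun h => hQ2 ((hcond b).1 h).2.2
  rw [if_pos hQ1, if_pos hQ2, one_mul, one_mul, ← Finset.sum_filter, ← Finset.sum_filter]
  symm
  refine Finset.sum_nbij (fun (σ : Perm (Fin (k + 1))) (i : Fin (k + 1)) => (f (σ i) : X))
    ?_ ?_ ?_ ?_
  · intro σ hσ
    rw [Finset.mem_filter] at hσ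
    rw [Finset.mem_filter, Finset.mem_filter]
    refine ⟨⟨Finset.mem_univ _, hσ.2⟩, (hcond _).2 ⟨fun x => ⟨?_, ?_⟩, hQ1, hQ2⟩⟩
    · rintro ⟨i, rfl⟩; exact (f (σ i)).2
    · intro hx
      exact ⟨σ⁻¹ (f.symm ⟨x, hx⟩), by simp⟩
  · intro σ _ τ _ h
    ext i
    have h1 := congrFun h i
    rw [f.injective (Subtype.ext h1)]
  · intro b hb
    have hb' := Finset.mem_coe.1 hb
    rw [Finset.mem_filter, Finset.mem_filter] at hb'
    have h1 := ((hcond b).1 hb'.2).1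
    set τ : Fin (k + 1) → Fin (k + 1) := fun i => f.symm ⟨b i, (h1 (b i)).1 ⟨i, rfl⟩⟩ with hτ
    have hs : Function.Surjective τ := by
      intro j
      obtain ⟨i, hi⟩ := (h1 (f j)).2 (f j).2
      refine ⟨i, ?_⟩
      rw [hτ]
      show f.symm ⟨b i, _⟩ = j
      rw [Equiv.symm_apply_eq]
      exact Subtype.ext hi
    have hbij : Function.Bijective τ := ⟨Finite.injective_iff_surjective.2 hs, hs⟩
    have hfb : ∀ i, (f (Equiv.ofBijective τ hbij i) : X) = b i := by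
      intro i
      show (f (f.symm ⟨b i, _⟩) : X) = b i
      rw [Equiv.apply_symm_apply]
    refine ⟨Equiv.ofBijective τ hbij, ?_, funext hfb⟩
    refine Finset.mem_coe.2 (Finset.mem_filter.2 ⟨Finset.mem_univ _, fun i => ?_⟩)
    rw [hfb]
    exact hb'.1.2 i
  · intro σ _; rfl

end H187S1

open H187S1 in
/-- TARGET -/
theorem kernel_identity {k : ℕ} {X : Type*} [Fintype X] [DecidableEq X] (β : Base (k + 1) X)
    (q1 q2 : Perm {x // β.C x ≠ k + 1}) (Ω : X → Fin (k + 1) × Fin (k + 1)) :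
    ∑ P : Perm (Fin (k + 1)), ((Perm.sign P : ℤ) : ℂ) *
      ∑ b ∈ univ.filter (fun b : Fin (k + 1) → X => ∀ i, Ω (b i) = (i, P i)),
        (if Cond β q1 q2 (fun x => if ∃ i, b i = x then none else some (Ω x)) then (1 : ℂ) else 0) =
      JJ β (fun x => (Ω x).1 + 1) q1 * JJ β (fun x => (Ω x).2 + 1) q2 := by
  classical
  obtain ⟨f, hf⟩ := exists_col_equiv β
  rw [JJ_eq β f hf q1 (fun x => (Ω x).1), JJ_eq β f hf q2 (fun x => (Ω x).2)]
  simp_rw [sum_b_eq β f q1 q2 Ω]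
  set A : ℂ := if ∀ x : {x // β.C x ≠ k + 1}, ((Ω x).1 : ℕ) = β.tail.R (q1⁻¹ x) then (1 : ℂ) else 0
  set B : ℂ := if ∀ x : {x // β.C x ≠ k + 1}, ((Ω x).2 : ℕ) = β.tail.R (q2⁻¹ x) then (1 : ℂ) else 0
  have e1 : ∀ P : Perm (Fin (k + 1)), ((Perm.sign P : ℤ) : ℂ) * (A * B *
      ∑ σ : Perm (Fin (k + 1)), (if ∀ i, Ω (f (σ i)) = (i, P i) then (1 : ℂ) else 0)) =
      A * B * ∑ σ : Perm (Fin (k + 1)), ((Perm.sign P : ℤ) : ℂ) *
        (if ∀ i, Ω (f (σ i)) = (i, P i) then (1 : ℂ) else 0) := by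
    intro P
    rw [Finset.mul_sum, Finset.mul_sum, Finset.mul_sum]
    exact Finset.sum_congr rfl fun _ _ => by ring
  simp_rw [e1]
  rw [← Finset.mul_sum, Finset.sum_comm]
  have e2 : ∀ σ : Perm (Fin (k + 1)), ∑ P : Perm (Fin (k + 1)), ((Perm.sign P : ℤ) : ℂ) *
      (if ∀ i, Ω (f (σ i)) = (i, P i) then (1 : ℂ) else 0) =
      (((Perm.sign σ : ℤ) : ℂ) * (if ∀ i, (Ω (f (σ i))).1 = i then (1 : ℂ) else 0)) *
      ∑ τ : Perm (Fin (k + 1)), ((Perm.sign τ : ℤ) : ℂ) *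
        (if ∀ i, (Ω (f (τ i))).2 = i then (1 : ℂ) else 0) := by
    intro σ
    rw [Finset.mul_sum]
    symm
    refine Fintype.sum_equiv ((Equiv.inv (Perm (Fin (k + 1)))).trans (Equiv.mulRight σ)) _ _ ?_
    intro τ
    have h0 : ((Equiv.inv (Perm (Fin (k + 1)))).trans (Equiv.mulRight σ)) τ = τ⁻¹ * σ := rfl
    rw [h0]
    have hsgn : ((Perm.sign (τ⁻¹ * σ) : ℤ) : ℂ) = ((Perm.sign σ : ℤ) : ℂ) * ((Perm.sign τ : ℤ) : ℂ) := by
      rw [Perm.sign_mul, Perm.sign_inv]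
      push_cast
      ring
    have hiff : (∀ i, Ω (f (σ i)) = (i, (τ⁻¹ * σ) i)) ↔
        ((∀ i, (Ω (f (σ i))).1 = i) ∧ ∀ i, (Ω (f (τ i))).2 = i) := by
      constructor
      · intro h
        refine ⟨fun i => by rw [h], fun i => ?_⟩
        have h2 := h (σ⁻¹ (τ i))
        rw [perm_right] at h2
        rw [h2, Perm.mul_apply, perm_right, perm_left]
      · rintro ⟨h1, h2⟩ i
        have h3 := h2 (τ⁻¹ (σ i))
        rw [perm_right] at h3
        exact Prod.ext (h1 i) (by rw [h3]; rfl)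
    rw [hsgn]
    by_cases h1 : ∀ i, (Ω (f (σ i))).1 = i
    · by_cases h2 : ∀ i, (Ω (f (τ i))).2 = i
      · rw [if_pos (hiff.2 ⟨h1, h2⟩), if_pos h1, if_pos h2]; ring
      · rw [if_neg (fun h => h2 (hiff.1 h).2), if_neg h2]; ring
    · rw [if_neg (fun h => h1 (hiff.1 h).1), if_neg h1]; ring
  simp_rw [e2]
  rw [← Finset.sum_mul]
  ring

end Pool.Agent.Helper310_SaxlA
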