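import Mathlib
import Pool.Agent.Helper310_SaxlA.StripDefs

/-!
# The kernel and polytabloids
-/

namespace Pool.Agent.Helper310_SaxlA

open Finset Equiv Pool.Agent.Helper310_Saxl Pool.Agent.Helper310_SaxlA

namespace H752

section

variable {k : ℕ} {X : Type*} [Fintype X] [DecidableEq X]

lemma mem_col (β : Base (k + 1) X) (x : X) : x ∈ β.col ↔ β.C x = k + 1 := by
  simp [Base.col]

lemma iota_apply_mem (β : Base (k + 1) X) (q : Perm {x // β.C x ≠ k + 1})
    (y : {x // β.C x ≠ k + 1}) : Perm.ofSubtype q (y : X) = (q y : X) :=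
  Perm.ofSubtype_apply_coe q y

lemma iota_apply_not (β : Base (k + 1) X) (q : Perm {x // β.C x ≠ k + 1})
    (x : X) (hx : β.C x = k + 1) : Perm.ofSubtype q x = x :=
  Perm.ofSubtype_apply_of_not_mem q (by simpa using hx)

lemma iota_inv_apply_mem (β : Base (k + 1) X) (q : Perm {x // β.C x ≠ k + 1})
    (y : {x // β.C x ≠ k + 1}) : (Perm.ofSubtype q)⁻¹ (y : X) = (q⁻¹ y : X) := by
  rw [← map_inv, iota_apply_mem]

lemma iota_inv_apply_not (β : Base (k + 1) X) (q : Perm {x // β.C x ≠ k + 1})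
    (x : X) (hx : β.C x = k + 1) : (Perm.ofSubtype q)⁻¹ x = x := by
  rw [← map_inv, iota_apply_not β _ x hx]

lemma supp_maps (β : Base (k + 1) X) {π : Perm X} (hπ : π ∈ supp β.col) {x : X}
    (hx : β.C x = k + 1) : β.C (π x) = k + 1 := by
  by_contra h
  have h1 : π x ∉ β.col := by rw [mem_col]; exact h
  have h2 := (mem_supp.1 hπ) _ h1
  have h3 := π.injective h2
  rw [h3] at h
  exact h hx

lemma supp_fix (β : Base (k + 1) X) {π : Perm X} (hπ : π ∈ supp β.col) {x : X}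
    (hx : β.C x ≠ k + 1) : π x = x :=
  (mem_supp.1 hπ) _ (by rw [mem_col]; exact hx)

lemma comm_iota (β : Base (k + 1) X) {π : Perm X} (hπ : π ∈ supp β.col)
    (h : Perm {x // β.C x ≠ k + 1}) : Commute π (Perm.ofSubtype h) := by
  refine Perm.Disjoint.commute ?_
  intro x
  by_cases hx : β.C x = k + 1
  · right; exact iota_apply_not β h x hx
  · left; exact supp_fix β hπ hx

/-- the kernel only depends on the row labelling transported by `q` -/
lemma JJ_congr (β : Base (k + 1) X) (U : X → ℕ) (q q2 : Perm {x // β.C x ≠ k + 1})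
    (hq : ∀ y, β.tail.R (q⁻¹ y) = β.tail.R (q2⁻¹ y)) : JJ β U q = JJ β U q2 := by
  have key : ∀ z : X, β.R ((Perm.ofSubtype q)⁻¹ z) = β.R ((Perm.ofSubtype q2)⁻¹ z) := by
    intro z
    by_cases hz : β.C z = k + 1
    · rw [iota_inv_apply_not β q z hz, iota_inv_apply_not β q2 z hz]
    · have h1 := hq ⟨z, hz⟩
      have e1 := iota_inv_apply_mem β q ⟨z, hz⟩
      have e2 := iota_inv_apply_mem β q2 ⟨z, hz⟩
      simp only at e1 e2
      rw [e1, e2]
      have h2 : β.R ((q⁻¹ ⟨z, hz⟩ : {x // β.C x ≠ k + 1}) : X) - 1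
          = β.R ((q2⁻¹ ⟨z, hz⟩ : {x // β.C x ≠ k + 1}) : X) - 1 := h1
      have p1 := (β.hR.bounds (Finset.mem_univ ((q⁻¹ ⟨z, hz⟩ : {x // β.C x ≠ k + 1}) : X))).1
      have p2 := (β.hR.bounds (Finset.mem_univ ((q2⁻¹ ⟨z, hz⟩ : {x // β.C x ≠ k + 1}) : X))).1
      omega
  unfold JJ
  refine Finset.sum_congr rfl fun π _ => ?_
  congr 1
  have : (∀ x, U x = β.R ((π * Perm.ofSubtype q)⁻¹ x)) ↔
      (∀ x, U x = β.R ((π * Perm.ofSubtype q2)⁻¹ x)) := by
    refine forall_congr' fun x => ?_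
    rw [mul_inv_rev, mul_inv_rev, Perm.mul_apply, Perm.mul_apply, key]
  simp only [this]

/-- the sum over the column stabiliser of the tail of the kernel -/
lemma sum_JJ (β : Base (k + 1) X) (h : Perm {x // β.C x ≠ k + 1}) (p : Perm X) :
    ∑ c ∈ univ.filter (fun c : Perm {x // β.C x ≠ k + 1} => ∀ x, β.tail.C (c x) = β.tail.C x),
      ((Perm.sign c : ℤ) : ℂ) * JJ β (fun x => β.R (p⁻¹ x)) (h * c) =
      uh β ((Perm.ofSubtype h)⁻¹ * p) := by
  unfold JJ uh
  simp_rw [Finset.mul_sum]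
  rw [← Finset.sum_product']
  refine Finset.sum_bij (fun cp _ => cp.2 * Perm.ofSubtype cp.1) ?_ ?_ ?_ ?_
  · rintro ⟨c, π⟩ hcp
    rw [Finset.mem_product, Finset.mem_filter] at hcp
    obtain ⟨⟨_, hc⟩, hπ⟩ := hcp
    rw [Finset.mem_filter]
    refine ⟨Finset.mem_univ _, fun x => ?_⟩
    simp only [Perm.mul_apply]
    by_cases hx : β.C x = k + 1
    · rw [iota_apply_not β c x hx, supp_maps β hπ hx, hx]
    · have e1 := iota_apply_mem β c ⟨x, hx⟩
      simp only at e1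
      rw [e1, supp_fix β hπ (c ⟨x, hx⟩).2]
      exact hc ⟨x, hx⟩
  · rintro ⟨c, π⟩ hcp ⟨c2, π2⟩ hcp2 heq
    rw [Finset.mem_product] at hcp hcp2
    simp only at heq hcp hcp2
    have hc : c = c2 := by
      refine Equiv.ext fun y => Subtype.ext ?_
      have h1 := congrArg (fun g : Perm X => g (y : X)) heq
      simp only [Perm.mul_apply] at h1
      rw [iota_apply_mem, iota_apply_mem, supp_fix β hcp.2 (c y).2,
        supp_fix β hcp2.2 (c2 y).2] at h1
      exact h1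
    subst hc
    have := mul_right_cancel heq
    rw [this]
  · intro c hc
    rw [Finset.mem_filter] at hc
    have hc2 := hc.2
    have hiff : ∀ x, β.C (c x) ≠ k + 1 ↔ β.C x ≠ k + 1 := by
      intro x; rw [hc2 x]
    set c' : Perm {x // β.C x ≠ k + 1} := c.subtypePerm hiff with hc'
    have hc'a : ∀ y, ((c' y : {x // β.C x ≠ k + 1}) : X) = c y := by
      intro y; rw [hc']; rfl
    refine ⟨(c', c * (Perm.ofSubtype c')⁻¹), ?_, ?_⟩
    · rw [Finset.mem_product, Finset.mem_filter]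
      refine ⟨⟨Finset.mem_univ _, fun y => ?_⟩, ?_⟩
      · change β.C ((c' y : {x // β.C x ≠ k + 1}) : X) = β.C (y : X)
        rw [hc'a, hc2]
      · rw [mem_supp]
        intro x hx
        rw [mem_col] at hx
        rw [Perm.mul_apply]
        have e1 := iota_inv_apply_mem β c' ⟨x, hx⟩
        simp only at e1
        rw [e1, ← hc'a, perm_apply_inv]
    · simp
  · rintro ⟨c, π⟩ hcp
    rw [Finset.mem_product, Finset.mem_filter] at hcp
    obtain ⟨⟨_, hc⟩, hπ⟩ := hcp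
    simp only
    have hcomm : π⁻¹ * Perm.ofSubtype h = Perm.ofSubtype h * π⁻¹ :=
      ((comm_iota β hπ h).inv_left).eq
    have hiff : (∀ x, β.R (p⁻¹ x) = β.R ((π * Perm.ofSubtype (h * c))⁻¹ x)) ↔
        (∀ x, β.R (((Perm.ofSubtype h)⁻¹ * p)⁻¹ x) = β.R ((π * Perm.ofSubtype c)⁻¹ x)) := by
      constructor
      · intro H x
        have h1 := H (Perm.ofSubtype h x)
        have e1 : ((Perm.ofSubtype h)⁻¹ * p)⁻¹ x = p⁻¹ (Perm.ofSubtype h x) := by
          rw [mul_inv_rev, inv_inv, Perm.mul_apply]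
        have e2 : (π * Perm.ofSubtype (h * c))⁻¹ (Perm.ofSubtype h x)
            = (π * Perm.ofSubtype c)⁻¹ x := by
          have e3 : (π * Perm.ofSubtype (h * c))⁻¹ * Perm.ofSubtype h
              = (π * Perm.ofSubtype c)⁻¹ := by
            rw [map_mul, mul_inv_rev, mul_inv_rev, mul_inv_rev, mul_assoc, hcomm]
            group
          rw [← e3, Perm.mul_apply]
        rw [e1, h1, e2]
      · intro H x
        have h1 := H ((Perm.ofSubtype h)⁻¹ x)
        have e1 : ((Perm.ofSubtype h)⁻¹ * p)⁻¹ ((Perm.ofSubtype h)⁻¹ x) = p⁻¹ x := by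
          rw [mul_inv_rev, inv_inv, Perm.mul_apply, perm_apply_inv]
        have e2 : (π * Perm.ofSubtype c)⁻¹ ((Perm.ofSubtype h)⁻¹ x)
            = (π * Perm.ofSubtype (h * c))⁻¹ x := by
          have e3 : (π * Perm.ofSubtype c)⁻¹ * (Perm.ofSubtype h)⁻¹
              = (π * Perm.ofSubtype (h * c))⁻¹ := by
            have e4 : (π * Perm.ofSubtype (h * c))⁻¹ * Perm.ofSubtype h
                = (π * Perm.ofSubtype c)⁻¹ := by
              rw [map_mul, mul_inv_rev, mul_inv_rev, mul_inv_rev, mul_assoc, hcomm]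
              group
            rw [← e4]; group
          rw [← e3, Perm.mul_apply]
        rw [← e1, h1, e2]
    simp only [hiff]
    rw [Perm.sign_mul, Perm.sign_ofSubtype]
    push_cast
    ring

end

end H752

open H752 in
/-- TARGET -/
theorem kernel_uh {k : ℕ} {X : Type*} [Fintype X] [DecidableEq X] (β : Base (k + 1) X)
    (h : Perm {x // β.C x ≠ k + 1}) (p : Perm X) :
    ∑ q : Perm {x // β.C x ≠ k + 1}, uh β.tail (h⁻¹ * q) * JJ β (fun x => β.R (p⁻¹ x)) q =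
      (((univ : Finset (Perm {x // β.C x ≠ k + 1})).filter
        fun σ => ∀ y, β.tail.R (σ y) = β.tail.R y).card : ℂ) *
        uh β ((Perm.ofSubtype h)⁻¹ * p) := by
  classical
  rw [← sum_JJ β h p, Finset.mul_sum]
  have h1 : ∀ q : Perm {x // β.C x ≠ k + 1},
      uh β.tail (h⁻¹ * q) * JJ β (fun x => β.R (p⁻¹ x)) q =
      ∑ c ∈ univ.filter (fun c : Perm {x // β.C x ≠ k + 1} =>
          ∀ x, β.tail.C (c x) = β.tail.C x),
        ((Perm.sign c : ℤ) : ℂ) *
          (if ∀ x, β.tail.R ((h⁻¹ * q)⁻¹ x) = β.tail.R (c⁻¹ x) then 1 else 0) *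
          JJ β (fun x => β.R (p⁻¹ x)) q := by
    intro q
    unfold uh
    rw [Finset.sum_mul]
  rw [Finset.sum_congr rfl fun q _ => h1 q, Finset.sum_comm]
  refine Finset.sum_congr rfl fun c _ => ?_
  have h2 : ∀ q : Perm {x // β.C x ≠ k + 1},
      ((Perm.sign c : ℤ) : ℂ) *
          (if ∀ x, β.tail.R ((h⁻¹ * q)⁻¹ x) = β.tail.R (c⁻¹ x) then 1 else 0) *
          JJ β (fun x => β.R (p⁻¹ x)) q =
      (if ∀ x, β.tail.R ((h⁻¹ * q)⁻¹ x) = β.tail.R (c⁻¹ x) then
        ((Perm.sign c : ℤ) : ℂ) * JJ β (fun x => β.R (p⁻¹ x)) (h * c) else 0) := by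
    intro q
    by_cases hq : ∀ x, β.tail.R ((h⁻¹ * q)⁻¹ x) = β.tail.R (c⁻¹ x)
    · rw [if_pos hq, if_pos hq, mul_one, JJ_congr β _ q (h * c)]
      intro y
      have h3 := hq (h⁻¹ y)
      have e1 : (h⁻¹ * q)⁻¹ (h⁻¹ y) = q⁻¹ y := by
        rw [mul_inv_rev, inv_inv, Perm.mul_apply, perm_apply_inv]
      have e2 : (h * c)⁻¹ y = c⁻¹ (h⁻¹ y) := by
        rw [mul_inv_rev, Perm.mul_apply]
      rw [e1] at h3
      rw [e2, h3]
    · rw [if_neg hq, if_neg hq, mul_zero, zero_mul]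
  rw [Finset.sum_congr rfl fun q _ => h2 q, ← Finset.sum_filter, Finset.sum_const,
    nsmul_eq_mul]
  congr 1
  norm_cast
  refine (Finset.card_bij (fun σ _ => h * c * σ) ?_ ?_ ?_).symm
  · intro σ hσ
    rw [Finset.mem_filter] at hσ ⊢
    refine ⟨Finset.mem_univ _, fun x => ?_⟩
    have e1 : (h⁻¹ * (h * c * σ))⁻¹ = σ⁻¹ * c⁻¹ := by group
    rw [e1, Perm.mul_apply]
    have h3 := hσ.2 (σ⁻¹ (c⁻¹ x))
    rw [perm_apply_inv] at h3
    exact h3.symm
  · intro σ _ σ2 _ heq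
    exact mul_left_cancel heq
  · intro q hq
    rw [Finset.mem_filter] at hq
    refine ⟨(h * c)⁻¹ * q, ?_, by group⟩
    rw [Finset.mem_filter]
    refine ⟨Finset.mem_univ _, fun y => ?_⟩
    have h3 := hq.2 (c (((h * c)⁻¹ * q) y))
    have e1 : (h⁻¹ * q)⁻¹ (c (((h * c)⁻¹ * q) y)) = y := by
      have e2 : (h⁻¹ * q)⁻¹ * c * ((h * c)⁻¹ * q) = 1 := by group
      have e3 := congrArg (fun g : Perm {x // β.C x ≠ k + 1} => g y) e2
      simpa [Perm.mul_apply] using e3
    rw [e1, perm_inv_apply] at h3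
    exact h3.symm

end Pool.Agent.Helper310_SaxlA
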