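import Mathlib

/-!
# An injectivity lemma
-/

namespace Pool.Agent.Helper310_SaxlA

open Finset

/-- The number of the elements `x` of `B` for which `B` without `x` has `i` elements outside `B0`. -/
theorem gottlieb_count {X : Type*} [DecidableEq X] (B B0 : Finset X) (i : ℕ) :
    (B.filter fun x => ((B.erase x) \ B0).card = i).card =
      (if (B \ B0).card = i then B.card - i else 0) +
        (if (B \ B0).card = i + 1 then i + 1 else 0) := by
  have h1 : ∀ x ∈ B, ((B.erase x) \ B0).card = if x ∈ B \ B0 then (B \ B0).card - 1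
      else (B \ B0).card := by
    intro x _
    rw [erase_sdiff_comm]
    split_ifs with h
    · rw [card_erase_of_mem h]
    · rw [erase_eq_of_notMem h]
  have h2 : (B.filter fun x => ((B.erase x) \ B0).card = i) =
      B.filter fun x => (if x ∈ B \ B0 then (B \ B0).card - 1 else (B \ B0).card) = i := by
    refine filter_congr fun x hx => ?_
    rw [h1 x hx]
  rw [h2]
  by_cases hc : (B \ B0).card = i
  · rw [if_pos hc, if_neg (by omega)]
    have h3 : (B.filter fun x => (if x ∈ B \ B0 then (B \ B0).card - 1 else (B \ B0).card) = i) =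
        B \ (B \ B0) := by
      ext x
      rw [mem_filter, mem_sdiff (s := B) (t := B \ B0)]
      refine and_congr_right fun _ => ?_
      split_ifs with h
      · have : 0 < (B \ B0).card := card_pos.2 ⟨x, h⟩
        constructor
        · intro h4
          omega
        · intro h4
          exact absurd h h4
      · exact ⟨fun _ => h, fun _ => hc⟩
    rw [h3, card_sdiff_of_subset sdiff_subset, hc]
    omega
  · rw [if_neg hc]
    by_cases hc' : (B \ B0).card = i + 1
    · rw [if_pos hc']
      have h3 : (B.filter fun x => (if x ∈ B \ B0 then (B \ B0).card - 1 else (B \ B0).card) = i) =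
          B \ B0 := by
        ext x
        rw [mem_filter]
        constructor
        · rintro ⟨_, h4⟩
          by_contra h5
          rw [if_neg h5] at h4
          exact hc h4
        · intro h4
          refine ⟨(mem_sdiff.1 h4).1, ?_⟩
          rw [if_pos h4]
          omega
      rw [h3, hc']
      omega
    · rw [if_neg hc']
      have h3 : (B.filter fun x => (if x ∈ B \ B0 then (B \ B0).card - 1 else (B \ B0).card) = i) =
          ∅ := by
        rw [filter_eq_empty_iff]
        intro x _
        split_ifs with h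
        · have : 0 < (B \ B0).card := card_pos.2 ⟨x, h⟩
          omega
        · exact hc
      rw [h3, card_empty]

/-- TARGET -/
theorem gottlieb {X : Type*} [DecidableEq X] (Z : Finset X) (b : ℕ) (hb : Z.card < 2 * b)
    (f : Finset X → ℂ)
    (h : ∀ A ⊆ Z, A.card + 1 = b → ∑ x ∈ Z \ A, f (insert x A) = 0) :
    ∀ B ⊆ Z, B.card = b → f B = 0 := by
  intro B0 hB0 hB0c
  have hb1 : 1 ≤ b := by omega
  set s : ℕ → ℂ := fun i => ∑ B ∈ powersetCard b Z, if (B \ B0).card = i then f B else 0 with hs
  -- the relation
  have hrel : ∀ i : ℕ, ((b - i : ℕ) : ℂ) * s i + ((i + 1 : ℕ) : ℂ) * s (i + 1) = 0 := by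
    intro i
    have h1 : ∑ A ∈ (powersetCard (b - 1) Z).filter (fun A => (A \ B0).card = i),
        ∑ x ∈ Z \ A, f (insert x A) = 0 := by
      refine sum_eq_zero fun A hA => ?_
      rw [mem_filter, mem_powersetCard] at hA
      exact h A hA.1.1 (by omega)
    have h2 : ∑ A ∈ (powersetCard (b - 1) Z).filter (fun A => (A \ B0).card = i),
        ∑ x ∈ Z \ A, f (insert x A) = ∑ B ∈ powersetCard b Z,
          ∑ x ∈ B.filter (fun x => ((B.erase x) \ B0).card = i), f B := by
      rw [sum_sigma', sum_sigma']
      refine sum_nbij' (fun p => ⟨insert p.2 p.1, p.2⟩) (fun p => ⟨p.1.erase p.2, p.2⟩)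
        ?_ ?_ ?_ ?_ ?_
      · rintro ⟨A, x⟩ hp
        simp only [mem_sigma, mem_filter, mem_powersetCard, mem_sdiff] at hp ⊢
        obtain ⟨⟨⟨hA1, hA2⟩, hA3⟩, hx1, hx2⟩ := hp
        refine ⟨⟨insert_subset hx1 hA1, ?_⟩, mem_insert_self _ _, ?_⟩
        · rw [card_insert_of_notMem hx2]
          omega
        · rw [erase_insert hx2]
          exact hA3
      · rintro ⟨B, x⟩ hp
        simp only [mem_sigma, mem_filter, mem_powersetCard, mem_sdiff] at hp ⊢
        obtain ⟨⟨hB1, hB2⟩, hx1, hx2⟩ := hp
        refine ⟨⟨⟨(erase_subset _ _).trans hB1, ?_⟩, hx2⟩, hB1 hx1, notMem_erase _ _⟩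
        rw [card_erase_of_mem hx1, hB2]
      · rintro ⟨A, x⟩ hp
        simp only [mem_sigma, mem_sdiff] at hp
        simp only [erase_insert hp.2.2]
      · rintro ⟨B, x⟩ hp
        simp only [mem_sigma, mem_filter] at hp
        simp only [insert_erase hp.2.1]
      · rintro ⟨A, x⟩ _
        rfl
    rw [h2] at h1
    simp only [hs]
    rw [mul_sum, mul_sum, ← sum_add_distrib]
    refine Eq.trans ?_ h1
    refine sum_congr rfl fun B hB => ?_
    rw [mem_powersetCard] at hB
    rw [sum_const, gottlieb_count, hB.2, nsmul_eq_mul]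
    split_ifs <;> push_cast <;> ring
  -- descending induction
  have hbig : ∀ i : ℕ, b ≤ i → s i = 0 := by
    intro i hi
    refine sum_eq_zero fun B hB => ?_
    rw [mem_powersetCard] at hB
    rw [if_neg]
    have h1 : (B \ B0).card ≤ (Z \ B0).card := card_le_card (sdiff_subset_sdiff hB.1 le_rfl)
    rw [card_sdiff_of_subset hB0, hB0c] at h1
    omega
  have hall : ∀ k : ℕ, ∀ i : ℕ, i + k = b → s i = 0 := by
    intro k
    induction k with
    | zero =>
      intro i hi
      exact hbig i (by omega)
    | succ k ih =>
      intro i hi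
      have h1 := hrel i
      rw [ih (i + 1) (by omega), mul_zero, add_zero] at h1
      rcases mul_eq_zero.1 h1 with h2 | h2
      · exfalso
        rw [Nat.cast_eq_zero] at h2
        omega
      · exact h2
  have h0 := hall b 0 (by omega)
  rw [hs] at h0
  have h1 : ∑ B ∈ powersetCard b Z, (if (B \ B0).card = 0 then f B else 0) = f B0 := by
    rw [sum_eq_single B0]
    · simp
    · intro B hB hne
      rw [mem_powersetCard] at hB
      rw [if_neg]
      intro h2
      rw [card_eq_zero, sdiff_eq_empty_iff_subset] at h2
      exact hne (eq_of_subset_of_card_le h2 (by omega))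
    · intro h2
      exact absurd (mem_powersetCard.2 ⟨hB0, hB0c⟩) h2
  rw [← h1]
  exact h0

end Pool.Agent.Helper310_SaxlA
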