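import Mathlib
import Pool.Agent.Helper310_SaxlA.Gottlieb

/-!
# The strip map is injective
-/

namespace Pool.Agent.Helper310_SaxlA

open Finset Equiv

section siaux

variable {X C : Type*} [Fintype X] [DecidableEq X] [DecidableEq C]

/-- the operator `E a` -/
noncomputable def siE (a : C) (F : (X → Option C) → ℂ) (ω : X → Option C) : ℂ :=
  ∑ x ∈ univ.filter (fun x => ω x = some a), F (Function.update ω x none)

theorem si_step1 (a : C) (b : ℕ) (F : (X → Option C) → ℂ)
    (hF : ∀ ω, F ω ≠ 0 → (univ.filter fun x => ω x = none).card = b ∧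
      (univ.filter fun x => ω x = some a).card < b)
    (hE : ∀ ω, siE a F ω = 0) : ∀ ω, F ω = 0 := by
  intro ω
  by_contra hω
  obtain ⟨h1, h2⟩ := hF ω hω
  obtain ⟨Z, hZ⟩ : ∃ Z, Z = univ.filter (fun x => ω x = none ∨ ω x = some a) := ⟨_, rfl⟩
  have mZ : ∀ x, x ∈ Z ↔ ω x = none ∨ ω x = some a := by intro x; simp [hZ]
  have hZc : Z.card < 2 * b := by
    have : Z.card ≤ (univ.filter fun x => ω x = none).card +
        (univ.filter fun x => ω x = some a).card := by
      rw [hZ, Finset.filter_or]; exact card_union_le _ _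
    omega
  obtain ⟨g, hg⟩ : ∃ g : Finset X → X → Option C,
      ∀ B x, g B x = if x ∈ B then none else if x ∈ Z then some a else ω x := ⟨_, fun _ _ => rfl⟩
  have key := gottlieb Z b hZc (fun B => F (g B)) (by
    intro A hA hAc
    have h3 := hE (g A)
    unfold siE at h3
    rw [← h3]
    have e : Z \ A = univ.filter (fun x => g A x = some a) := by
      ext x
      simp only [mem_sdiff, mem_filter, mem_univ, true_and, hg]
      by_cases hx : x ∈ A
      · simp [hx]
      · by_cases hz : x ∈ Z
        · simp [hx, hz]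
        · have := (not_or.1 (mt (mZ x).2 hz)).2
          simp [hx, hz, this]
    rw [← e]
    apply Finset.sum_congr rfl
    intro x hx
    congr 1
    funext y
    rw [Function.update_apply, hg, hg]
    by_cases hy : y = x
    · simp [hy]
    · simp [hy]) (univ.filter fun x => ω x = none) (by
    intro x hx
    rw [mZ]; left; exact (Finset.mem_filter.1 hx).2) h1
  apply hω
  have e : g (univ.filter fun x => ω x = none) = ω := by
    funext x
    rw [hg]
    by_cases hx : ω x = none
    · simp [hx]
    · by_cases hz : x ∈ Z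
      · have := ((mZ x).1 hz).resolve_left hx
        simp [this, hz]
      · simp [hx, hz]
  have key2 : F (g (univ.filter fun x => ω x = none)) = 0 := key
  rwa [e] at key2

/-- `D r c F = E (c 0) (E (c 1) ... (E (c (r-1)) F))` -/
noncomputable def siD : (r : ℕ) → (Fin r → C) → ((X → Option C) → ℂ) → (X → Option C) → ℂ
  | 0, _, F => F
  | r + 1, c, F => siD r (fun i => c i.castSucc) (siE (c (Fin.last r)) F)

theorem siD_zero (c : Fin 0 → C) (F : (X → Option C) → ℂ) : siD 0 c F = F := rfl

theorem siD_succ (r : ℕ) (c : Fin (r + 1) → C) (F : (X → Option C) → ℂ) :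
    siD (r + 1) c F = siD r (fun i => c i.castSucc) (siE (c (Fin.last r)) F) := rfl

/-- the support condition -/
def siS (ρ : C → ℕ) (r : ℕ) (F : (X → Option C) → ℂ) : Prop :=
  ∀ ω, F ω ≠ 0 → (univ.filter fun x => ω x = none).card = r ∧
    ∀ i, i < r → (univ.filter fun x => ∃ d, ω x = some d ∧ ρ d = i).card ≤ i

theorem siS_E {ρ : C → ℕ} {r : ℕ} {F : (X → Option C) → ℂ} (h : siS ρ (r + 1) F) {a : C}
    (ha : ρ a = r) : siS ρ r (siE a F) := by
  intro ω hω
  unfold siE at hω
  obtain ⟨x, hx, hx2⟩ := Finset.exists_ne_zero_of_sum_ne_zero hω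
  have hxa : ω x = some a := (Finset.mem_filter.1 hx).2
  obtain ⟨h1, h2⟩ := h _ hx2
  constructor
  · have e : (univ.filter fun y => Function.update ω x none y = none) =
        insert x (univ.filter fun y => ω y = none) := by
      ext y
      simp only [mem_filter, mem_univ, true_and, mem_insert, Function.update_apply]
      by_cases hy : y = x
      · simp [hy]
      · simp [hy]
    rw [e, Finset.card_insert_of_notMem (by simp [hxa])] at h1
    omega
  · intro i hi
    refine le_trans (Finset.card_le_card ?_) (h2 i (by omega))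
    intro y hy
    simp only [mem_filter, mem_univ, true_and] at hy ⊢
    obtain ⟨d, hd, hd2⟩ := hy
    refine ⟨d, ?_, hd2⟩
    rw [Function.update_apply, if_neg]
    · exact hd
    · rintro rfl
      rw [hxa] at hd
      have := Option.some.inj hd
      rw [← this, ha] at hd2
      omega

theorem siD_none {ρ : C → ℕ} : ∀ (r : ℕ) (c : Fin r → C) (F : (X → Option C) → ℂ),
    siS ρ r F → (∀ i, ρ (c i) = i) → ∀ ω, siD r c F ω ≠ 0 →
      (univ.filter fun x => ω x = none).card = 0 := by
  intro r
  induction r with
  | zero =>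
    intro c F hS _ ω hω
    exact (hS ω hω).1
  | succ r ih =>
    intro c F hS hc ω hω
    rw [siD_succ] at hω
    exact ih _ _ (siS_E hS (by rw [hc]; simp)) (fun i => by rw [hc]; simp) ω hω

theorem siD_inj {ρ : C → ℕ} : ∀ (r : ℕ) (c : Fin r → C) (F : (X → Option C) → ℂ),
    siS ρ r F → (∀ i, ρ (c i) = i) → (∀ ω, siD r c F ω = 0) → ∀ ω, F ω = 0 := by
  intro r
  induction r with
  | zero =>
    intro c F _ _ h
    exact h
  | succ r ih =>
    intro c F hS hc h
    rw [siD_succ] at h
    have hlast : ρ (c (Fin.last r)) = r := by rw [hc]; simp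
    have h1 := ih _ _ (siS_E hS hlast) (fun i => by rw [hc]; simp) h
    apply si_step1 (c (Fin.last r)) (r + 1) F _ h1
    intro ω hω
    obtain ⟨h2, h3⟩ := hS ω hω
    refine ⟨h2, Nat.lt_succ_of_le (le_trans (Finset.card_le_card ?_) (h3 r (by omega)))⟩
    intro y hy
    simp only [mem_filter, mem_univ, true_and] at hy ⊢
    exact ⟨_, hy, hlast⟩

theorem siD_eq : ∀ (r : ℕ) (c : Fin r → C) (F : (X → Option C) → ℂ),
    Function.Injective c → ∀ ω, siD r c F ω =
      ∑ b ∈ univ.filter (fun b : Fin r → X => ∀ i, ω (b i) = some (c i)),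
        F (fun x => if ∃ i, b i = x then none else ω x) := by
  intro r
  induction r with
  | zero =>
    intro c F _ ω
    rw [siD_zero]
    have e : (univ.filter (fun b : Fin 0 → X => ∀ i, ω (b i) = some (c i))) =
        {fun i => i.elim0} := by
      ext b
      simp only [mem_filter, mem_univ, true_and, mem_singleton]
      constructor
      · intro _; funext i; exact i.elim0
      · intro _ i; exact i.elim0
    rw [e, Finset.sum_singleton]
    have e2 : (fun x => if ∃ i : Fin 0, (fun i : Fin 0 => (i.elim0 : X)) i = x then none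
        else ω x) = ω := by
      funext x
      rw [if_neg]
      rintro ⟨i, _⟩
      exact i.elim0
    exact (congrArg F e2).symm
  | succ r ih =>
    intro c F hc ω
    rw [siD_succ, ih _ _ (fun i j h => Fin.castSucc_injective _ (hc h))]
    unfold siE
    rw [Finset.sum_sigma']
    refine Finset.sum_bij' (fun p _ => (Fin.snoc p.1 p.2 : Fin (r + 1) → X))
      (fun b _ => ⟨fun i => b i.castSucc, b (Fin.last r)⟩) ?_ ?_ ?_ ?_ ?_
    · rintro ⟨b, x⟩ hp
      simp only [mem_sigma, mem_filter, mem_univ, true_and] at hp ⊢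
      obtain ⟨h1, h2⟩ := hp
      intro i
      refine Fin.lastCases ?_ ?_ i
      · rw [Fin.snoc_last]
        by_cases hx : ∃ i, b i = x
        · rw [if_pos hx] at h2; cases h2
        · rw [if_neg hx] at h2; exact h2
      · intro j
        rw [Fin.snoc_castSucc]; exact h1 j
    · intro b hb
      simp only [mem_sigma, mem_filter, mem_univ, true_and] at hb ⊢
      refine ⟨fun i => hb _, ?_⟩
      rw [if_neg, hb]
      rintro ⟨i, hi⟩
      have h1 := hb i.castSucc
      rw [hi, hb] at h1
      have := hc (Option.some.inj h1)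
      exact absurd this.symm (Fin.castSucc_lt_last i).ne
    · rintro ⟨b, x⟩ _
      simp
    · intro b _
      dsimp only
      funext i
      refine Fin.lastCases ?_ ?_ i
      · simp
      · intro j; simp
    · rintro ⟨b, x⟩ _
      congr 1
      funext y
      rw [Function.update_apply]
      by_cases hy : y = x
      · rw [if_pos hy, if_pos]
        exact ⟨Fin.last r, by rw [Fin.snoc_last]; exact hy.symm⟩
      · rw [if_neg hy]
        by_cases hb : ∃ i, b i = y
        · rw [if_pos hb, if_pos]
          obtain ⟨i, hi⟩ := hb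
          exact ⟨i.castSucc, by rw [Fin.snoc_castSucc]; exact hi⟩
        · rw [if_neg hb, if_neg]
          rintro ⟨i, hi⟩
          revert hi
          refine Fin.lastCases ?_ ?_ i
          · rw [Fin.snoc_last]; exact fun h => hy h.symm
          · intro j
            rw [Fin.snoc_castSucc]; exact fun h => hb ⟨j, h⟩

end siaux

/-- TARGET -/
theorem strip_inj {X : Type*} [Fintype X] [DecidableEq X] (k : ℕ)
    (ξ : (X → Option (Fin k × Fin k)) → ℂ)
    (hrow : ∀ ω, ξ ω ≠ 0 → ∀ i : Fin k,
      (univ.filter fun x => ∃ j, ω x = some (i, j)).card ≤ (i : ℕ))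
    (hstar : ∀ ω, ξ ω ≠ 0 → (univ.filter fun x => ω x = none).card = k)
    (h : ∀ Ω : X → Fin k × Fin k, ∑ P : Perm (Fin k), ((Perm.sign P : ℤ) : ℂ) *
      ∑ b ∈ univ.filter (fun b : Fin k → X => ∀ i, Ω (b i) = (i, P i)),
        ξ (fun x => if ∃ i, b i = x then none else some (Ω x)) = 0) :
    ξ = 0 := by
  classical
  by_contra hne
  have hex : ∃ ω, ξ ω ≠ 0 := by
    by_contra h'
    push Not at h'
    exact hne (funext h')
  obtain ⟨wt, hwt⟩ : ∃ wt : (X → Option (Fin k × Fin k)) → ℕ, ∀ ω, wt ω =
      (univ.filter fun x => ∃ c : Fin k × Fin k, ω x = some c ∧ c.2 ≠ Fin.rev c.1).card :=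
    ⟨_, fun _ => rfl⟩
  have hexn : ∃ m, ∃ ω, ξ ω ≠ 0 ∧ wt ω = m := by
    obtain ⟨ω, hω⟩ := hex
    exact ⟨_, ω, hω, rfl⟩
  obtain ⟨ω0, hω0, hw0⟩ := Nat.find_spec hexn
  have hmin : ∀ ω, wt ω < Nat.find hexn → ξ ω = 0 := by
    intro ω hlt
    by_contra h'
    exact Nat.find_min hexn hlt ⟨ω, h', rfl⟩
  obtain ⟨w0, hw0'⟩ : ∃ w0, w0 = Nat.find hexn := ⟨_, rfl⟩
  rw [← hw0'] at hw0 hmin
  obtain ⟨ξ0, hξ0⟩ : ∃ ξ0 : (X → Option (Fin k × Fin k)) → ℂ,
      ∀ ω, ξ0 ω = if wt ω = w0 then ξ ω else 0 := ⟨_, fun _ => rfl⟩
  have hS : siS (fun c : Fin k × Fin k => (c.1 : ℕ)) k ξ0 := by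
    intro ω hω
    have h1 : ξ ω ≠ 0 := by
      intro h'
      apply hω
      rw [hξ0, h']
      simp
    refine ⟨?_, ?_⟩
    · exact hstar ω h1
    · intro i hi
      refine le_trans (Finset.card_le_card ?_) (hrow ω h1 ⟨i, hi⟩)
      intro x hx
      simp only [mem_filter, mem_univ, true_and] at hx ⊢
      obtain ⟨d, hd, hd2⟩ := hx
      refine ⟨d.2, ?_⟩
      rw [hd]
      congr 1
      exact Prod.ext (Fin.ext hd2) rfl
  have hci : Function.Injective (fun i : Fin k => (i, Fin.rev i)) := fun i j h => congrArg Prod.fst h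
  have hzero : ∀ Ω : X → Fin k × Fin k,
      ∑ b ∈ univ.filter (fun b : Fin k → X => ∀ i, Ω (b i) = (i, Fin.rev i)),
        ξ0 (fun x => if ∃ i, b i = x then none else some (Ω x)) = 0 := by
    intro Ω
    -- weights of the terms
    have hsame : ∀ b : Fin k → X, (∀ i, Ω (b i) = (i, Fin.rev i)) →
        wt (fun x => if ∃ i, b i = x then none else some (Ω x)) = wt (fun x => some (Ω x)) := by
      intro b hb
      rw [hwt, hwt]
      congr 1
      ext x
      simp only [mem_filter, mem_univ, true_and]
      by_cases hx : ∃ i, b i = x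
      · obtain ⟨i, hi⟩ := hx
        have hxx : ∃ i, b i = x := ⟨i, hi⟩
        rw [if_pos hxx]
        constructor
        · rintro ⟨c, hc, _⟩; cases hc
        · rintro ⟨c, hc, hc2⟩
          exfalso
          have := Option.some.inj hc
          rw [← hi, hb] at this
          rw [← this] at hc2
          exact hc2 rfl
      · rw [if_neg hx]
    by_cases hΩ : wt (fun x => some (Ω x)) = w0
    · have h1 := h Ω
      rw [Finset.sum_eq_single (Fin.revPerm : Perm (Fin k))] at h1
      · rcases mul_eq_zero.1 h1 with h2 | h2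
        · exfalso
          have h3 : (Perm.sign (Fin.revPerm : Perm (Fin k)) : ℤ) = 0 := by exact_mod_cast h2
          exact Units.ne_zero _ h3
        · rw [← h2]
          apply Finset.sum_congr rfl
          intro b hb
          rw [hξ0, if_pos ((hsame b (Finset.mem_filter.1 hb).2).trans hΩ)]
      · intro P _ hP
        rw [mul_eq_zero]
        right
        apply Finset.sum_eq_zero
        intro b hb
        have hb' := (Finset.mem_filter.1 hb).2
        apply hmin
        rw [← hΩ, hwt, hwt]
        apply Finset.card_lt_card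
        rw [Finset.ssubset_iff_of_subset]
        · obtain ⟨i, hi⟩ : ∃ i, P i ≠ Fin.rev i := by
            by_contra h'
            push Not at h'
            apply hP
            ext i
            rw [h' i]; rfl
          refine ⟨b i, ?_, ?_⟩
          · simp only [mem_filter, mem_univ, true_and]
            exact ⟨(i, P i), by rw [hb'], hi⟩
          · simp only [mem_filter, mem_univ, true_and]
            have hxx : ∃ j, b j = b i := ⟨i, rfl⟩
            rw [if_pos hxx]
            rintro ⟨c, hc, _⟩
            cases hc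
        · intro x hx
          simp only [mem_filter, mem_univ, true_and] at hx ⊢
          by_cases hxx : ∃ i, b i = x
          · rw [if_pos hxx] at hx
            obtain ⟨c, hc, _⟩ := hx
            cases hc
          · rw [if_neg hxx] at hx
            exact hx
      · intro h'
        exact absurd (Finset.mem_univ _) h'
    · apply Finset.sum_eq_zero
      intro b hb
      rw [hξ0, if_neg]
      rw [hsame b (Finset.mem_filter.1 hb).2]
      exact hΩ
  have hD : ∀ ω, siD k (fun i : Fin k => (i, Fin.rev i)) ξ0 ω = 0 := by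
    intro ω
    by_contra h'
    have h1 := siD_none k (fun i : Fin k => (i, Fin.rev i)) ξ0 hS (fun i => rfl) ω h'
    have h2 : ∀ x, ω x ≠ none := by
      intro x hx
      have : x ∈ (univ.filter fun x => ω x = none) := Finset.mem_filter.2 ⟨Finset.mem_univ _, hx⟩
      rw [Finset.card_eq_zero.1 h1] at this
      exact absurd this (Finset.notMem_empty _)
    have h3 : ∀ x, ∃ c, ω x = some c := fun x => Option.ne_none_iff_exists'.1 (h2 x)
    choose Ω hΩ using h3
    apply h'
    rw [siD_eq k _ ξ0 hci]
    have e : ω = fun x => some (Ω x) := funext hΩ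
    rw [← hzero Ω, e]
    apply Finset.sum_congr
    · ext b
      simp only [mem_filter, mem_univ, true_and, Option.some.injEq]
    · intro b _
      rfl
  have := siD_inj k (fun i : Fin k => (i, Fin.rev i)) ξ0 hS (fun i => rfl) hD ω0
  rw [hξ0, if_pos hw0] at this
  exact hω0 this

end Pool.Agent.Helper310_SaxlA
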