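import Mathlib
import Pool.Agent.Helper310_SaxlA.Kernel1
import Pool.Agent.Helper310_SaxlA.Kernel2
import Pool.Agent.Helper310_SaxlA.StripInj

/-!
# The strip map
-/

namespace Pool.Agent.Helper310_SaxlA

open Equiv Finset Pool.Agent.Helper310_Saxl

section

variable {k : ℕ} {X : Type*} [Fintype X] [DecidableEq X] (β : Base (k + 1) X)

/-- The map between the models. -/
noncomputable def stripMap :
    (Perm {x // β.C x ≠ k + 1} × Perm {x // β.C x ≠ k + 1} → ℂ) →ₗ[ℂ] (Perm X × Perm X → ℂ) where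
  toFun F p := ∑ q, F q * (JJ β (fun x => β.R (p.1⁻¹ x)) q.1 * JJ β (fun x => β.R (p.2⁻¹ x)) q.2)
  map_add' F F' := by
    funext p
    simp only [Pi.add_apply, add_mul, Finset.sum_add_distrib]
  map_smul' c F := by
    funext p
    simp only [Pi.smul_apply, smul_eq_mul, RingHom.id_apply, Finset.mul_sum, mul_assoc]

lemma stripMap_apply (F : Perm {x // β.C x ≠ k + 1} × Perm {x // β.C x ≠ k + 1} → ℂ)
    (p : Perm X × Perm X) : stripMap β F p =
      ∑ q, F q * (JJ β (fun x => β.R (p.1⁻¹ x)) q.1 * JJ β (fun x => β.R (p.2⁻¹ x)) q.2) := rfl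

lemma stripMap_VV {F : Perm {x // β.C x ≠ k + 1} × Perm {x // β.C x ≠ k + 1} → ℂ}
    (hF : F ∈ VV β.tail) : stripMap β F ∈ VV β := by
  induction hF using Submodule.span_induction with
  | mem F hF =>
    obtain ⟨h, h', rfl⟩ := hF
    set c : ℂ := (((univ : Finset (Perm {x // β.C x ≠ k + 1})).filter
        fun σ => ∀ y, β.tail.R (σ y) = β.tail.R y).card : ℂ) with hc
    have key : stripMap β (fun q => uh β.tail (h⁻¹ * q.1) * uh β.tail (h'⁻¹ * q.2)) =
        (c * c) • fun p : Perm X × Perm X =>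
          uh β ((Perm.ofSubtype h)⁻¹ * p.1) * uh β ((Perm.ofSubtype h')⁻¹ * p.2) := by
      funext p
      rw [stripMap_apply, Fintype.sum_prod_type]
      have h1 := kernel_uh β h p.1
      have h2 := kernel_uh β h' p.2
      have h3 : ∀ a b : Perm {x // β.C x ≠ k + 1},
          uh β.tail (h⁻¹ * a) * uh β.tail (h'⁻¹ * b) *
            (JJ β (fun x => β.R (p.1⁻¹ x)) a * JJ β (fun x => β.R (p.2⁻¹ x)) b) =
          (uh β.tail (h⁻¹ * a) * JJ β (fun x => β.R (p.1⁻¹ x)) a) *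
            (uh β.tail (h'⁻¹ * b) * JJ β (fun x => β.R (p.2⁻¹ x)) b) := fun a b => by ring
      simp only [h3]
      rw [← Finset.sum_mul_sum, h1, h2, Pi.smul_apply, smul_eq_mul]
      ring
    rw [key]
    exact Submodule.smul_mem _ _ (Submodule.subset_span ⟨_, _, rfl⟩)
  | zero => rw [map_zero]; exact Submodule.zero_mem _
  | add a b _ _ ha hb => rw [map_add]; exact Submodule.add_mem _ ha hb
  | smul c a _ ha => rw [map_smul]; exact Submodule.smul_mem _ _ ha

/-- The function to which the injectivity theorem is applied. -/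
noncomputable def xi
    (ψ : Perm X → Perm {x // β.C x ≠ k + 1} × Perm {x // β.C x ≠ k + 1} → ℂ)
    (ω : X → Option (Fin (k + 1) × Fin (k + 1))) : ℂ :=
  ∑ g : Perm X, ∑ q, ψ g q * (if Cond β q.1 q.2 (fun x => ω (g x)) then 1 else 0)

lemma xi_relation (ψ : Perm X → Perm {x // β.C x ≠ k + 1} × Perm {x // β.C x ≠ k + 1} → ℂ)
    (Ω : X → Fin (k + 1) × Fin (k + 1)) :
    ∑ P : Perm (Fin (k + 1)), ((Perm.sign P : ℤ) : ℂ) *
      ∑ b ∈ univ.filter (fun b : Fin (k + 1) → X => ∀ i, Ω (b i) = (i, P i)),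
        xi β ψ (fun x => if ∃ i, b i = x then none else some (Ω x)) =
      ∑ g : Perm X, ∑ q, ψ g q * (JJ β (fun x => ((Ω (g x)).1 : ℕ) + 1) q.1 *
        JJ β (fun x => ((Ω (g x)).2 : ℕ) + 1) q.2) := by
  have e1 : ∀ P : Perm (Fin (k + 1)), ((Perm.sign P : ℤ) : ℂ) *
      ∑ b ∈ univ.filter (fun b : Fin (k + 1) → X => ∀ i, Ω (b i) = (i, P i)),
        xi β ψ (fun x => if ∃ i, b i = x then none else some (Ω x)) =
      ∑ g : Perm X, ∑ q, ψ g q * (((Perm.sign P : ℤ) : ℂ) *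
        ∑ b ∈ univ.filter (fun b : Fin (k + 1) → X => ∀ i, Ω (g (b i)) = (i, P i)),
          (if Cond β q.1 q.2 (fun x => if ∃ i, b i = x then none else some (Ω (g x))) then
            (1 : ℂ) else 0)) := by
    intro P
    simp only [xi]
    rw [Finset.sum_comm, Finset.mul_sum]
    refine Finset.sum_congr rfl fun g _ => ?_
    rw [Finset.sum_comm, Finset.mul_sum]
    refine Finset.sum_congr rfl fun q _ => ?_
    rw [← Finset.mul_sum]
    have e2 : ∑ b ∈ univ.filter (fun b : Fin (k + 1) → X => ∀ i, Ω (b i) = (i, P i)),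
        (if Cond β q.1 q.2 (fun x => if ∃ i, b i = g x then none else some (Ω (g x))) then
          (1 : ℂ) else 0) =
        ∑ b ∈ univ.filter (fun b : Fin (k + 1) → X => ∀ i, Ω (g (b i)) = (i, P i)),
        (if Cond β q.1 q.2 (fun x => if ∃ i, b i = x then none else some (Ω (g x))) then
          (1 : ℂ) else 0) := by
      refine Finset.sum_bij' (fun b _ => fun i => g⁻¹ (b i)) (fun b _ => fun i => g (b i))
        ?_ ?_ ?_ ?_ ?_
      · intro b hb
        rw [Finset.mem_filter] at hb ⊢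
        refine ⟨Finset.mem_univ _, fun i => ?_⟩
        rw [perm_apply_inv]; exact hb.2 i
      · intro b hb
        rw [Finset.mem_filter] at hb ⊢
        exact ⟨Finset.mem_univ _, fun i => hb.2 i⟩
      · intro b _
        funext i
        rw [perm_apply_inv]
      · intro b _
        funext i
        rw [perm_inv_apply]
      · intro b _
        have e3 : ∀ x, (∃ i, b i = g x) ↔ ∃ i, g⁻¹ (b i) = x := by
          intro x
          constructor
          · rintro ⟨i, hi⟩; exact ⟨i, by rw [hi, perm_inv_apply]⟩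
          · rintro ⟨i, hi⟩; exact ⟨i, by rw [← hi, perm_apply_inv]⟩
        have e4 : (fun x => if ∃ i, b i = g x then none else some (Ω (g x))) =
            fun x => if ∃ i, g⁻¹ (b i) = x then none else some (Ω (g x)) := by
          funext x
          by_cases hx : ∃ i, b i = g x
          · rw [if_pos hx, if_pos ((e3 x).1 hx)]
          · rw [if_neg hx, if_neg (fun h => hx ((e3 x).2 h))]
        rw [e4]
    rw [e2]
    ring
  rw [Finset.sum_congr rfl fun P _ => e1 P, Finset.sum_comm]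
  refine Finset.sum_congr rfl fun g _ => ?_
  rw [Finset.sum_comm]
  refine Finset.sum_congr rfl fun q _ => ?_
  rw [← Finset.mul_sum]
  congr 1
  exact kernel_identity β q.1 q.2 (fun x => Ω (g x))

lemma xi_cond {ψ : Perm X → Perm {x // β.C x ≠ k + 1} × Perm {x // β.C x ≠ k + 1} → ℂ}
    {ω : X → Option (Fin (k + 1) × Fin (k + 1))} (h : xi β ψ ω ≠ 0) :
    ∃ (g : Perm X) (q1 q2 : Perm {x // β.C x ≠ k + 1}), Cond β q1 q2 (fun x => ω (g x)) := by
  by_contra hcon
  push Not at hcon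
  apply h
  rw [xi]
  refine Finset.sum_eq_zero fun g _ => Finset.sum_eq_zero fun q _ => ?_
  rw [if_neg (hcon g q.1 q.2), mul_zero]

lemma card_col : (univ.filter fun x => β.C x = k + 1).card = k + 1 := by
  rw [β.hC (k + 1), if_pos ⟨by omega, le_refl _⟩]

lemma xi_star {ψ : Perm X → Perm {x // β.C x ≠ k + 1} × Perm {x // β.C x ≠ k + 1} → ℂ}
    {ω : X → Option (Fin (k + 1) × Fin (k + 1))} (h : xi β ψ ω ≠ 0) :
    (univ.filter fun x => ω x = none).card = k + 1 := by
  obtain ⟨g, q1, q2, hc⟩ := xi_cond β h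
  refine Eq.trans ?_ (card_col β)
  refine Finset.card_bij' (fun x _ => g⁻¹ x) (fun x _ => g x) ?_ ?_ ?_ ?_
  · intro x hx
    rw [Finset.mem_filter] at hx ⊢
    refine ⟨Finset.mem_univ _, (hc.1 _).1 ?_⟩
    simp only
    rw [perm_apply_inv]; exact hx.2
  · intro x hx
    rw [Finset.mem_filter] at hx ⊢
    exact ⟨Finset.mem_univ _, (hc.1 _).2 hx.2⟩
  · intro x _; exact perm_apply_inv _ _
  · intro x _; exact perm_inv_apply _ _

lemma xi_row {ψ : Perm X → Perm {x // β.C x ≠ k + 1} × Perm {x // β.C x ≠ k + 1} → ℂ}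
    {ω : X → Option (Fin (k + 1) × Fin (k + 1))} (h : xi β ψ ω ≠ 0) (i : Fin (k + 1)) :
    (univ.filter fun x => ∃ j, ω x = some (i, j)).card ≤ (i : ℕ) := by
  obtain ⟨g, q1, q2, hc⟩ := xi_cond β h
  have h1 : (univ.filter fun z : {x // β.C x ≠ k + 1} => β.tail.R z = (i : ℕ)).card ≤ (i : ℕ) := by
    rw [β.tail.hR]
    by_cases h2 : 1 ≤ (i : ℕ) ∧ (i : ℕ) ≤ k
    · rw [if_pos h2]
    · rw [if_neg h2]; omega
  refine le_trans ?_ h1
  refine le_trans (Finset.card_le_card (t := (univ.filter fun z : {x // β.C x ≠ k + 1} =>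
    β.tail.R z = (i : ℕ)).image fun z => g ((q1 z : {x // β.C x ≠ k + 1}) : X)) ?_)
    Finset.card_image_le
  intro x hx
  rw [Finset.mem_filter] at hx
  obtain ⟨j, hj⟩ := hx.2
  have hx2 : ω (g (g⁻¹ x)) = some (i, j) := by rw [perm_apply_inv]; exact hj
  have hne : β.C (g⁻¹ x) ≠ k + 1 := by
    intro hcon
    have := (hc.1 (g⁻¹ x)).2 hcon
    simp only at this
    rw [hx2] at this
    exact absurd this (by simp)
  obtain ⟨c, hc1, hc2, hc3⟩ := hc.2 ⟨g⁻¹ x, hne⟩
  simp only at hc1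
  rw [hx2] at hc1
  have hc4 : (i, j) = c := Option.some.inj hc1
  rw [Finset.mem_image]
  refine ⟨q1⁻¹ ⟨g⁻¹ x, hne⟩, Finset.mem_filter.2 ⟨Finset.mem_univ _, ?_⟩, ?_⟩
  · rw [← hc2, ← hc4]
  · rw [perm_apply_inv]
    exact perm_apply_inv _ _

lemma JJ_ne {U : X → ℕ} {q : Perm {x // β.C x ≠ k + 1}} (h : JJ β U q ≠ 0) :
    ∃ w : Perm X, ∀ x, U x = β.R (w⁻¹ x) := by
  by_contra hcon
  push Not at hcon
  apply h
  rw [JJ]
  refine Finset.sum_eq_zero fun π _ => ?_
  rw [if_neg, mul_zero]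
  intro h2
  obtain ⟨x, hx⟩ := hcon (π * Perm.ofSubtype q)
  exact hx (h2 x)

/-- if the sum of the translates of the images vanishes then `xi` vanishes -/
lemma xi_zero (ψ : Perm X → Perm {x // β.C x ≠ k + 1} × Perm {x // β.C x ≠ k + 1} → ℂ)
    (h : ∑ g : Perm X, rep2 X g (stripMap β (ψ g)) = 0) : xi β ψ = 0 := by
  refine strip_inj (k + 1) (xi β ψ) (fun ω hω i => xi_row β hω i) (fun ω hω => xi_star β hω) ?_
  intro Ω
  rw [xi_relation]
  by_contra hcon
  -- some term is nonzero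
  obtain ⟨g, _, hg⟩ := Finset.exists_ne_zero_of_sum_ne_zero hcon
  obtain ⟨q, _, hq⟩ := Finset.exists_ne_zero_of_sum_ne_zero hg
  have hq' := right_ne_zero_of_mul hq
  obtain ⟨w1, hw1⟩ := JJ_ne β (left_ne_zero_of_mul hq')
  obtain ⟨w2, hw2⟩ := JJ_ne β (right_ne_zero_of_mul hq')
  apply hcon
  have h1 := congrFun h (g * w1, g * w2)
  rw [Finset.sum_apply] at h1
  rw [← h1.trans (by rfl : (0 : Perm X × Perm X → ℂ) (g * w1, g * w2) = 0)]
  refine Finset.sum_congr rfl fun a _ => ?_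
  rw [rep2_apply, stripMap_apply]
  have e1 : ∀ x, ((Ω x).1 : ℕ) + 1 = β.R ((g * w1)⁻¹ x) := by
    intro x
    have := hw1 (g⁻¹ x)
    rw [perm_apply_inv] at this
    rw [this, mul_inv_rev, Perm.mul_apply]
  have e2 : ∀ x, ((Ω x).2 : ℕ) + 1 = β.R ((g * w2)⁻¹ x) := by
    intro x
    have := hw2 (g⁻¹ x)
    rw [perm_apply_inv] at this
    rw [this, mul_inv_rev, Perm.mul_apply]
  have e3 : ∀ x, β.R ((a⁻¹ * (g * w1))⁻¹ x) = ((Ω (a x)).1 : ℕ) + 1 := by
    intro x
    rw [e1, mul_inv_rev, inv_inv, Perm.mul_apply]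
  have e4 : ∀ x, β.R ((a⁻¹ * (g * w2))⁻¹ x) = ((Ω (a x)).2 : ℕ) + 1 := by
    intro x
    rw [e2, mul_inv_rev, inv_inv, Perm.mul_apply]
  simp only [e3, e4]

end

end Pool.Agent.Helper310_SaxlA
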