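import Mathlib
import Pool.Agent.Helper310_SaxlA.Strip1

/-!
# The strip theorem
-/

namespace Pool.Agent.Helper310_SaxlA

open Equiv Finset Pool.Agent.Helper310_Saxl

section

lemma uh_right {k : ℕ} {X : Type*} [Fintype X] [DecidableEq X] (β : Base k X) (g r : Perm X)
    (hr : ∀ x, β.R (r x) = β.R x) : uh β (g * r) = uh β g := by
  have hr' : ∀ x, β.R (r⁻¹ x) = β.R x := by
    intro x
    have := hr (r⁻¹ x)
    rw [perm_apply_inv] at this
    exact this.symm
  simp only [uh, mul_inv_rev, Perm.mul_apply, hr']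

lemma VV_right {k : ℕ} {X : Type*} [Fintype X] [DecidableEq X] (β : Base k X)
    {F : Perm X × Perm X → ℂ} (hF : F ∈ VV β) (g1 g2 r1 r2 : Perm X)
    (h1 : ∀ x, β.R (r1 x) = β.R x) (h2 : ∀ x, β.R (r2 x) = β.R x) :
    F (g1 * r1, g2 * r2) = F (g1, g2) := by
  induction hF using Submodule.span_induction with
  | mem F hF =>
    obtain ⟨h, h', rfl⟩ := hF
    simp only
    rw [← mul_assoc, ← mul_assoc, uh_right β _ _ h1, uh_right β _ _ h2]
  | zero => rfl
  | add a b _ _ ha hb => simp only [Pi.add_apply, ha, hb]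
  | smul c a _ ha => simp only [Pi.smul_apply, ha]

variable {k : ℕ} {X : Type*} [Fintype X] [DecidableEq X] (β : Base (k + 1) X)

/-- evaluation of `xi` -/
lemma psi_zero (ψ : Perm X → Perm {x // β.C x ≠ k + 1} × Perm {x // β.C x ≠ k + 1} → ℂ)
    (F : Perm {x // β.C x ≠ k + 1} × Perm {x // β.C x ≠ k + 1} → ℂ) (hF : F ∈ VV β.tail)
    (hψ : ∀ (g : Perm X) (g' : Perm {x // β.C x ≠ k + 1}),
      (∀ x : {x // β.C x ≠ k + 1}, g x = (g' x : X)) → ∀ q, ψ g q = F (g' * q.1, g' * q.2))
    (h : xi β ψ = 0) : F = 0 := by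
  funext q0
  obtain ⟨h1, h2⟩ := q0
  have hb : ∀ (q : Perm {x // β.C x ≠ k + 1}) (x : {x // β.C x ≠ k + 1}),
      β.tail.R (q⁻¹ x) < k + 1 := by
    intro q x
    have := (β.tail.hR.bounds (Finset.mem_univ (q⁻¹ x))).2
    omega
  set ω : X → Option (Fin (k + 1) × Fin (k + 1)) := fun x =>
    if hx : β.C x ≠ k + 1 then
      some (⟨β.tail.R (h1⁻¹ ⟨x, hx⟩), hb _ _⟩, ⟨β.tail.R (h2⁻¹ ⟨x, hx⟩), hb _ _⟩)
    else none with hω
  have hterm : ∀ (g : Perm X) (q1 q2 : Perm {x // β.C x ≠ k + 1}),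
      Cond β q1 q2 (fun x => ω (g x)) → ψ g (q1, q2) = F (h1, h2) := by
    intro g q1 q2 hc
    have hg : ∀ x, β.C x ≠ k + 1 ↔ β.C (g x) ≠ k + 1 := by
      intro x
      have h3 := hc.1 x
      simp only [hω] at h3
      by_cases h4 : β.C (g x) ≠ k + 1
      · rw [dif_pos h4] at h3
        constructor
        · intro _; exact h4
        · intro _ h5
          exact absurd (h3.2 h5) (by simp)
      · constructor
        · intro h5
          rw [dif_neg h4] at h3
          exact absurd (h3.1 rfl) h5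
        · intro h5; exact absurd h5 h4
    let g' : Perm {x // β.C x ≠ k + 1} := g.subtypePerm (fun x => (hg x).symm)
    have hg' : ∀ x : {x // β.C x ≠ k + 1}, g x = (g' x : X) := fun x => rfl
    rw [hψ g g' hg']
    have h5 : ∀ x : {x // β.C x ≠ k + 1}, β.tail.R (h1⁻¹ (g' x)) = β.tail.R (q1⁻¹ x) ∧
        β.tail.R (h2⁻¹ (g' x)) = β.tail.R (q2⁻¹ x) := by
      intro x
      obtain ⟨c, hc1, hc2, hc3⟩ := hc.2 x
      simp only [hω] at hc1
      rw [dif_pos ((hg x).1 x.2)] at hc1
      have hc4 := Option.some.inj hc1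
      rw [← hc2, ← hc3, ← hc4]
      exact ⟨rfl, rfl⟩
    have e1 : g' * q1 = h1 * (h1⁻¹ * g' * q1) := by group
    have e2 : g' * q2 = h2 * (h2⁻¹ * g' * q2) := by group
    simp only
    rw [e1, e2]
    refine VV_right β.tail hF _ _ _ _ ?_ ?_
    · intro x
      have := (h5 (q1 x)).1
      rw [perm_inv_apply] at this
      exact this
    · intro x
      have := (h5 (q2 x)).2
      rw [perm_inv_apply] at this
      exact this
  have hone : Cond β h1 h2 (fun x => ω ((1 : Perm X) x)) := by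
    refine ⟨?_, ?_⟩
    · intro x
      simp only [hω, Perm.one_apply]
      by_cases h3 : β.C x ≠ k + 1
      · rw [dif_pos h3]
        constructor
        · intro h4; exact absurd h4 (by simp)
        · intro h4; exact absurd h4 h3
      · rw [dif_neg h3]
        exact ⟨fun _ => not_not.1 h3, fun _ => rfl⟩
    · intro x
      refine ⟨(⟨β.tail.R (h1⁻¹ x), hb _ _⟩, ⟨β.tail.R (h2⁻¹ x), hb _ _⟩), ?_, rfl, rfl⟩
      simp only [hω, Perm.one_apply]
      rw [dif_pos x.2]
  have hsum : xi β ψ ω = ((univ.filter fun z : Perm X × (Perm {x // β.C x ≠ k + 1} ×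
      Perm {x // β.C x ≠ k + 1}) => Cond β z.2.1 z.2.2 (fun x => ω (z.1 x))).card : ℂ) *
      F (h1, h2) := by
    rw [xi, ← Fintype.sum_prod_type', Finset.card_filter, Nat.cast_sum, Finset.sum_mul]
    refine Finset.sum_congr rfl fun z _ => ?_
    by_cases hz : Cond β z.2.1 z.2.2 (fun x => ω (z.1 x))
    · rw [if_pos hz, if_pos hz, mul_one, Nat.cast_one, one_mul]
      exact hterm z.1 z.2.1 z.2.2 hz
    · rw [if_neg hz, if_neg hz, mul_zero, Nat.cast_zero, zero_mul]
  rw [h] at hsum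
  have h6 := (mul_eq_zero.1 hsum.symm).resolve_left ?_
  · exact h6
  · rw [Nat.cast_eq_zero, Finset.card_eq_zero]
    intro h7
    have h8 : ((1 : Perm X), (h1, h2)) ∈ (univ.filter fun z : Perm X ×
      (Perm {x // β.C x ≠ k + 1} × Perm {x // β.C x ≠ k + 1}) =>
        Cond β z.2.1 z.2.2 (fun x => ω (z.1 x))) := Finset.mem_filter.2 ⟨Finset.mem_univ _, hone⟩
    rw [h7] at h8
    exact absurd h8 (Finset.notMem_empty _)

variable {U : Type*} [AddCommGroup U] [Module ℂ U] (ρ : Representation ℂ (Perm X) U)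

/-- the vectors fixed by the swaps of the last column -/
def fixedW : Submodule ℂ U where
  carrier := {v | ∀ x y, β.C x = k + 1 → β.C y = k + 1 → ρ (swap x y) v = v}
  add_mem' := by
    intro a b ha hb x y hx hy
    rw [map_add, ha x y hx hy, hb x y hx hy]
  zero_mem' := by
    intro x y _ _
    rw [map_zero]
  smul_mem' := by
    intro c a ha x y hx hy
    rw [map_smul, ha x y hx hy]

lemma fixedW_stable (g : Perm {x // β.C x ≠ k + 1}) (v : U) (hv : v ∈ fixedW β ρ) :
    ρ (Perm.ofSubtype g) v ∈ fixedW β ρ := by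
  intro x y hx hy
  have hfix : ∀ z, β.C z = k + 1 → Perm.ofSubtype g z = z := fun z hz =>
    Perm.ofSubtype_apply_of_not_mem g (fun h => h hz)
  have e : swap x y * Perm.ofSubtype g = Perm.ofSubtype g * swap x y := by
    rw [Equiv.mul_swap_eq_swap_mul, hfix x hx, hfix y hy]
  rw [← rho_mul, e, rho_mul, hv x y hx hy]

/-- the action of the permutations of the complement -/
noncomputable def rhoW : Representation ℂ (Perm {x // β.C x ≠ k + 1}) (fixedW β ρ) where
  toFun g := (ρ (Perm.ofSubtype g)).restrict (fixedW_stable β ρ g)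
  map_one' := by
    ext v
    simp
  map_mul' g h := by
    ext v
    simp

lemma rhoW_apply (g : Perm {x // β.C x ≠ k + 1}) (v : fixedW β ρ) :
    (rhoW β ρ g v : U) = ρ (Perm.ofSubtype g) v := rfl

/-- the averaging operator -/
noncomputable def avg : U →ₗ[ℂ] fixedW β ρ :=
  LinearMap.codRestrict (fixedW β ρ) (∑ s ∈ supp β.col, ρ s) (by
    intro v x y hx hy
    rw [LinearMap.sum_apply, map_sum]
    have hxc : x ∈ β.col := Finset.mem_filter.2 ⟨Finset.mem_univ _, hx⟩
    have hyc : y ∈ β.col := Finset.mem_filter.2 ⟨Finset.mem_univ _, hy⟩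
    refine Finset.sum_bij (fun g _ => swap x y * g) ?_ ?_ ?_ ?_
    · intro g hg; exact supp_mul (supp_swap hxc hyc) hg
    · intro g _ h _ hgh; exact mul_left_cancel hgh
    · intro g hg
      exact ⟨swap x y * g, supp_mul (supp_swap hxc hyc) hg, by
        rw [← mul_assoc, swap_mul_self, one_mul]⟩
    · intro g _
      rw [rho_mul])

lemma avg_apply (v : U) : (avg β ρ v : U) = ∑ s ∈ supp β.col, ρ s v := by
  simp [avg]

lemma avg_of_mem (v : U) (hv : v ∈ fixedW β ρ) :
    avg β ρ v = ((supp β.col).card : ℂ) • (⟨v, hv⟩ : fixedW β ρ) := by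
  apply Subtype.ext
  rw [avg_apply, Submodule.coe_smul]
  have h1 : ∀ s ∈ supp β.col, ρ s v = v := by
    intro s hs
    rw [mem_supp] at hs
    refine young_fixed ρ (fun x => if β.C x = k + 1 then none else some x) v ?_ s ?_
    · intro x y _ hD
      by_cases hx : β.C x = k + 1 <;> by_cases hy : β.C y = k + 1
      · exact hv x y hx hy
      · simp [hx, hy] at hD
      · simp [hx, hy] at hD
      · simp only [hx, hy, if_false, Option.some.injEq] at hD
        have e0 : (swap x y : Perm X) = 1 := by rw [hD]; exact swap_self y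
        rw [e0, map_one]; rfl
    · intro x
      have hcol : ∀ z, z ∈ β.col ↔ β.C z = k + 1 := fun z => by simp [Base.col]
      by_cases hx : β.C x = k + 1
      · have h2 : β.C (s x) = k + 1 := by
          by_contra hcon
          have h3 := hs (s x) (fun h => hcon ((hcol _).1 h))
          exact hcon (by rw [s.injective h3]; exact hx)
        simp [hx, h2]
      · rw [hs x (fun h => hx ((hcol _).1 h))]
  rw [Finset.sum_congr rfl h1, Finset.sum_const, Nat.cast_smul_eq_nsmul]

lemma avg_equivariant (g : Perm X) (g' : Perm {x // β.C x ≠ k + 1})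
    (hg : ∀ x : {x // β.C x ≠ k + 1}, g x = (g' x : X)) (v : U) :
    avg β ρ (ρ g⁻¹ v) = rhoW β ρ g'⁻¹ (avg β ρ v) := by
  apply Subtype.ext
  rw [avg_apply, rhoW_apply, avg_apply, map_sum]
  have hcol : ∀ z, z ∈ β.col ↔ β.C z = k + 1 := fun z => by simp [Base.col]
  have hι : ∀ z (hz : β.C z ≠ k + 1), Perm.ofSubtype g' z = (g' ⟨z, hz⟩ : X) := fun z hz =>
    Perm.ofSubtype_apply_of_mem g' hz
  have hι' : ∀ z, β.C z = k + 1 → ∀ q : Perm {x // β.C x ≠ k + 1}, Perm.ofSubtype q z = z :=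
    fun z hz q => Perm.ofSubtype_apply_of_not_mem q (fun h => h hz)
  -- the part of `g` in the column
  set t : Perm X := Perm.ofSubtype g' * g⁻¹ with ht
  have htm : t ∈ supp β.col := by
    rw [mem_supp]
    intro x hx
    have hx' : β.C x ≠ k + 1 := fun h => hx ((hcol x).2 h)
    have h1 : g⁻¹ x = (g'⁻¹ ⟨x, hx'⟩ : X) := by
      rw [Perm.inv_eq_iff_eq, hg, perm_apply_inv]
    rw [ht, Perm.mul_apply, h1, hι _ (g'⁻¹ ⟨x, hx'⟩).2]
    simp
  have hcomm : ∀ s ∈ supp β.col, s * (Perm.ofSubtype g')⁻¹ = (Perm.ofSubtype g')⁻¹ * s := by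
    intro s hs
    rw [← map_inv]
    refine Equiv.ext fun x => ?_
    rw [Perm.mul_apply, Perm.mul_apply]
    rw [mem_supp] at hs
    by_cases hx : β.C x = k + 1
    · rw [hι' x hx]
      have h2 : β.C (s x) = k + 1 := by
        by_contra hcon
        have h3 := hs (s x) (fun h => hcon ((hcol _).1 h))
        exact hcon (by rw [s.injective h3]; exact hx)
      rw [hι' _ h2]
    · have h4 : Perm.ofSubtype g'⁻¹ x = (g'⁻¹ ⟨x, hx⟩ : X) := Perm.ofSubtype_apply_of_mem g'⁻¹ hx
      rw [hs x (fun h => hx ((hcol _).1 h)), h4]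
      exact hs _ (fun h => (g'⁻¹ ⟨x, hx⟩).2 ((hcol _).1 h))
  refine Finset.sum_bij (fun s _ => s * t) ?_ ?_ ?_ ?_
  · intro s hs; exact supp_mul hs htm
  · intro s _ s' _ h; exact mul_right_cancel h
  · intro s hs
    exact ⟨s * t⁻¹, supp_mul hs (supp_inv htm), by simp⟩
  · intro s hs
    rw [← rho_mul, ← rho_mul, map_inv]
    have h5 : (Perm.ofSubtype g')⁻¹ * (s * t) = s * g⁻¹ := by
      rw [← mul_assoc, ← hcomm s hs, ht]; group
    rw [h5]

/-- **The strip theorem.** -/
theorem strip {k : ℕ} {X : Type*} [Fintype X] [DecidableEq X] (β : Base (k + 1) X)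
    {U : Type*} [AddCommGroup U] [Module ℂ U] (ρ : Representation ℂ (Perm X) U)
    (u : U) (hu : u ≠ 0)
    (hfix : ∀ x y, β.C x = k + 1 → β.C y = k + 1 → ρ (swap x y) u = u)
    (hP : ∀ (W : Submodule ℂ U) (ρ' : Representation ℂ (Perm {x // β.C x ≠ k + 1}) W),
      (∃ w : W, w ≠ 0) → Good β.tail ρ') : Good β ρ := by
  obtain ⟨T', hT'1, hT'2, hT'3⟩ := hP (fixedW β ρ) (rhoW β ρ)
    ⟨⟨u, hfix⟩, fun h => hu (congrArg Subtype.val h)⟩
  refine ⟨∑ g : Perm X, (rep2 X g).comp ((stripMap β).comp (T'.comp ((avg β ρ).comp (ρ g⁻¹)))),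
    ?_, ?_, ?_⟩
  · intro h x
    simp only [LinearMap.sum_apply, LinearMap.comp_apply]
    rw [map_sum]
    refine Finset.sum_bij (fun g _ => h⁻¹ * g) (fun _ _ => Finset.mem_univ _) ?_ ?_ ?_
    · intro a _ b _ hab; exact mul_left_cancel hab
    · intro b _
      exact ⟨h * b, Finset.mem_univ _, by rw [inv_mul_cancel_left]⟩
    · intro g _
      have e1 : (rep2 X h) ((rep2 X (h⁻¹ * g)) (stripMap β (T' (avg β ρ (ρ (h⁻¹ * g)⁻¹ x))))) =
          rep2 X (h * (h⁻¹ * g)) (stripMap β (T' (avg β ρ (ρ (h⁻¹ * g)⁻¹ x)))) :=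
        (rho_mul (rep2 X) h (h⁻¹ * g) _).symm
      rw [e1, mul_inv_cancel_left, ← rho_mul]
      have e2 : (h⁻¹ * g)⁻¹ = g⁻¹ * h := by group
      rw [e2]
  · intro h0
    -- `T'` vanishes
    apply hT'2
    ext w
    have h1 : ∑ g : Perm X, rep2 X g (stripMap β (T' (avg β ρ (ρ g⁻¹ (w : U))))) = 0 := by
      have := congrArg (fun L : U →ₗ[ℂ] (Perm X × Perm X → ℂ) => L (w : U)) h0
      simpa only [LinearMap.sum_apply, LinearMap.comp_apply, LinearMap.zero_apply] using this
    have h2 := xi_zero β (fun g => T' (avg β ρ (ρ g⁻¹ (w : U)))) h1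
    have h3 := psi_zero β (fun g => T' (avg β ρ (ρ g⁻¹ (w : U)))) (T' (avg β ρ (w : U)))
      (hT'3 _) (by
        intro g g' hg q
        rw [avg_equivariant β ρ g g' hg, hT'1, rep2_apply, inv_inv]) h2
    rw [avg_of_mem β ρ (w : U) w.2, map_smul] at h3
    have h4 : ((supp β.col).card : ℂ) ≠ 0 := by
      rw [Nat.cast_ne_zero]
      have : (1 : Perm X) ∈ supp β.col := by rw [mem_supp]; intro x _; rfl
      exact Finset.card_ne_zero_of_mem this
    have h5 := (smul_eq_zero.1 h3).resolve_left h4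
    have h6 : T' w = 0 := h5
    rw [h6]; rfl
  · intro x
    simp only [LinearMap.sum_apply, LinearMap.comp_apply]
    refine Submodule.sum_mem _ fun g _ => ?_
    have h1 := stripMap_VV β (hT'3 (avg β ρ (ρ g⁻¹ x)))
    generalize stripMap β (T' (avg β ρ (ρ g⁻¹ x))) = F at h1
    induction h1 using Submodule.span_induction with
    | mem F hF =>
      obtain ⟨h, h', rfl⟩ := hF
      refine Submodule.subset_span ⟨g * h, g * h', ?_⟩
      funext p
      rw [rep2_apply]
      simp only [mul_inv_rev, mul_assoc]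
    | zero => rw [map_zero]; exact Submodule.zero_mem _
    | add a b _ _ ha hb => rw [map_add]; exact Submodule.add_mem _ ha hb
    | smul c a _ ha => rw [map_smul]; exact Submodule.smul_mem _ _ ha

end

end Pool.Agent.Helper310_SaxlA
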