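import Mathlib
import Pool.Agent.Helper310_SaxlA.Base

/-!
# The sign twist
-/

namespace Pool.Agent.Helper310_SaxlA

open Finset Equiv Pool.Agent.Helper310_Saxl Pool.Agent.Helper310_SaxlA

namespace W1

section abs

variable {G : Type*} [Group G] [Fintype G]

/-- right convolution -/
noncomputable def rc (w : G → ℂ) : (G → ℂ) →ₗ[ℂ] (G → ℂ) where
  toFun f g := ∑ x, w x * f (g * x)
  map_add' := by
    intro f h
    ext g
    simp [mul_add, Finset.sum_add_distrib]
  map_smul' := by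
    intro c f
    ext g
    simp only [Pi.smul_apply, smul_eq_mul, RingHom.id_apply, Finset.mul_sum]
    exact sum_congr rfl fun x _ => by ring

lemma rc_apply (w f : G → ℂ) (g : G) : rc w f g = ∑ x, w x * f (g * x) := rfl

noncomputable def ip (f h : G → ℂ) : ℂ := ∑ g, (starRingEnd ℂ) (f g) * h g

lemma ip_rc {w : G → ℂ} (hw : ∀ x, w x⁻¹ = w x) (hr : ∀ x, (starRingEnd ℂ) (w x) = w x)
    (f h : G → ℂ) : ip (rc w f) h = ip f (rc w h) := by
  unfold ip
  simp only [rc_apply, map_sum, map_mul, hr, Finset.sum_mul, Finset.mul_sum]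
  rw [Finset.sum_comm]
  have h1 : ∀ x : G, ∑ g, w x * (starRingEnd ℂ) (f (g * x)) * h g =
      ∑ g, w x * (starRingEnd ℂ) (f g) * h (g * x⁻¹) := by
    intro x
    rw [← Equiv.sum_comp (Equiv.mulRight x) (fun g => w x * (starRingEnd ℂ) (f g) * h (g * x⁻¹))]
    refine sum_congr rfl fun g _ => ?_
    simp
  rw [Finset.sum_congr rfl fun x _ => h1 x]
  rw [← Equiv.sum_comp (Equiv.inv G)]
  rw [Finset.sum_comm]
  refine sum_congr rfl fun g _ => sum_congr rfl fun x _ => ?_
  simp only [Equiv.inv_apply, hw, inv_inv]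
  ring

lemma eq_zero_of_ip {f : G → ℂ} (h : ip f f = 0) : f = 0 := by
  unfold ip at h
  have h1 : ∑ g, ‖f g‖ ^ 2 = 0 := by
    have h2 : ((∑ g, ‖f g‖ ^ 2 : ℝ) : ℂ) = 0 := by
      rw [← h]
      push_cast
      refine sum_congr rfl fun g _ => ?_
      rw [Complex.conj_mul']
    exact_mod_cast h2
  rw [Finset.sum_eq_zero_iff_of_nonneg fun g _ => by positivity] at h1
  ext g
  have h2 := h1 g (mem_univ g)
  simpa using h2

theorem key {wP wQ : G → ℂ} (hP : ∀ x, wP x⁻¹ = wP x) (hP' : ∀ x, (starRingEnd ℂ) (wP x) = wP x)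
    (hQ : ∀ x, wQ x⁻¹ = wQ x) (hQ' : ∀ x, (starRingEnd ℂ) (wQ x) = wQ x) {N : ℂ}
    (hN : ∀ f, rc wQ (rc wQ f) = N • rc wQ f) (b : G → ℂ)
    (h : rc wP (rc wQ (rc wP b)) = 0) : rc wQ (rc wP b) = 0 := by
  apply eq_zero_of_ip
  rw [ip_rc hQ hQ', hN]
  have h1 : ip (rc wP b) (rc wQ (rc wP b)) = 0 := by
    rw [ip_rc hP hP', h]
    simp [ip]
  unfold ip at h1 ⊢
  simp only [Pi.smul_apply, smul_eq_mul]
  have h2 : ∀ g, (starRingEnd ℂ) (rc wP b g) * (N * rc wQ (rc wP b) g) =
      N * ((starRingEnd ℂ) (rc wP b g) * rc wQ (rc wP b) g) := fun g => by ring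
  rw [Finset.sum_congr rfl fun g _ => h2 g, ← Finset.mul_sum, h1, mul_zero]

end abs

section conc

variable {k : ℕ} {X : Type*} [Fintype X] [DecidableEq X] (β : Base k X)

theorem exists_t : ∃ t : Perm X, (∀ x, β.R (t x) = β.C x) ∧ (∀ x, β.C (t x) = β.R x) ∧
    t * t = 1 := by
  have h1 : ∀ x, ∃ y, β.R y = β.C x ∧ β.C y = β.R x := by
    intro x
    have hCb := β.hC.bounds (Finset.mem_univ x)
    have hRb := β.hR.bounds (Finset.mem_univ x)
    have h2 := β.hR.image_block β.hC (fun x _ y _ h1 h2 => β.hRC x y h1 h2) (m := β.C x) hCb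
    have h3 := β.hR.add_ge β.hC (fun x _ y _ h1 h2 => β.hRC x y h1 h2) (Finset.mem_univ x)
    have h4 : β.R x ∈ (univ.filter fun y => β.R y = β.C x).image β.C := by
      rw [h2, Finset.mem_Icc]
      omega
    obtain ⟨y, hy, hy'⟩ := Finset.mem_image.1 h4
    exact ⟨y, (Finset.mem_filter.1 hy).2, hy'⟩
  choose f hf hf' using h1
  have hinv : Function.Involutive f := by
    intro x
    exact β.hRC _ _ (by rw [hf, hf']) (by rw [hf', hf])
  refine ⟨hinv.toPerm, fun x => hf x, fun x => hf' x, ?_⟩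
  refine Equiv.ext fun x => ?_
  exact hinv x

/-- sign -/
noncomputable def sg (g : Perm X) : ℂ := ((Perm.sign g : ℤ) : ℂ)

lemma sg_mul (g h : Perm X) : sg (g * h) = sg g * sg h := by
  simp [sg]

lemma sg_inv (g : Perm X) : sg g⁻¹ = sg g := by
  simp [sg]

lemma sg_sq (g : Perm X) : sg g * sg g = 1 := by
  unfold sg
  rcases Int.units_eq_one_or (Perm.sign g) with h | h <;> simp [h]

lemma sg_conj (g : Perm X) : (starRingEnd ℂ) (sg g) = sg g := by
  simp [sg]

open Classical in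
noncomputable def wP (x : Perm X) : ℂ := if ∀ y, β.R (x y) = β.R y then 1 else 0

open Classical in
noncomputable def wQ (x : Perm X) : ℂ := if ∀ y, β.C (x y) = β.C y then sg x else 0

omit [Fintype X] [DecidableEq X] in
lemma stab_inv {f : X → ℕ} {x : Perm X} : (∀ y, f (x⁻¹ y) = f y) ↔ ∀ y, f (x y) = f y := by
  constructor
  · intro h y
    have := h (x y)
    simp at this
    exact this.symm
  · intro h y
    have := h (x⁻¹ y)
    simp at this
    exact this.symm

omit [Fintype X] [DecidableEq X] in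
lemma stab_mul {f : X → ℕ} {x z : Perm X} (hx : ∀ y, f (x y) = f y) :
    (∀ y, f ((x * z) y) = f y) ↔ ∀ y, f (z y) = f y := by
  simp only [Perm.mul_apply, hx]

lemma wP_inv (x : Perm X) : wP β x⁻¹ = wP β x := by
  unfold wP
  rw [if_congr stab_inv rfl rfl]

lemma wQ_inv (x : Perm X) : wQ β x⁻¹ = wQ β x := by
  unfold wQ
  rw [if_congr stab_inv (sg_inv x) rfl]

lemma wP_conj (x : Perm X) : (starRingEnd ℂ) (wP β x) = wP β x := by
  unfold wP
  split_ifs <;> simp

lemma wQ_conj (x : Perm X) : (starRingEnd ℂ) (wQ β x) = wQ β x := by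
  unfold wQ
  split_ifs <;> simp [sg_conj]

lemma wQ_sq : ∃ N : ℂ, ∀ f, rc (wQ β) (rc (wQ β) f) = N • rc (wQ β) f := by
  classical
  refine ⟨∑ x : Perm X, sg x * wQ β x, fun f => ?_⟩
  ext g
  rw [Pi.smul_apply, smul_eq_mul, rc_apply, Finset.sum_mul]
  refine sum_congr rfl fun x _ => ?_
  rw [rc_apply, rc_apply]
  by_cases hx : ∀ y, β.C (x y) = β.C y
  · rw [Finset.mul_sum, Finset.mul_sum,
      ← Equiv.sum_comp (Equiv.mulLeft x) (fun z => sg x * wQ β x * (wQ β z * f (g * z)))]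
    refine sum_congr rfl fun z _ => ?_
    have h1 : wQ β (x * z) = sg x * wQ β z := by
      unfold wQ
      rw [if_congr (stab_mul hx) (sg_mul x z) rfl]
      split_ifs <;> simp
    rw [Equiv.coe_mulLeft, h1, mul_assoc g x z]
    have h2 := sg_sq x
    linear_combination (-(wQ β x * wQ β z * f (g * (x * z)))) * h2
  · have h1 : wQ β x = 0 := by
      unfold wQ
      rw [if_neg hx]
    rw [h1]
    simp

lemma wQ_t {t : Perm X} (h1 : ∀ x, β.R (t x) = β.C x) (h2 : ∀ x, β.C (t x) = β.R x)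
    (h3 : t * t = 1) (x : Perm X) : wQ β (t * x * t) = sg x * wP β x := by
  have h4 : sg (t * x * t) = sg x := by
    rw [sg_mul, sg_mul]
    linear_combination sg x * sg_sq t
  have ht : ∀ y, t (t y) = y := fun y => by
    have := congrArg (fun s : Perm X => s y) h3
    simpa using this
  have h5 : (∀ y, β.C ((t * x * t) y) = β.C y) ↔ ∀ y, β.R (x y) = β.R y := by
    simp only [Perm.mul_apply, h2]
    constructor
    · intro h y
      have h6 := h (t y)
      rw [ht, h2] at h6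
      exact h6
    · intro h y
      rw [h, h1]
  unfold wQ wP
  rw [if_congr h5 h4 rfl]
  split_ifs <;> simp

lemma wP_t {t : Perm X} (h1 : ∀ x, β.R (t x) = β.C x) (h2 : ∀ x, β.C (t x) = β.R x)
    (h3 : t * t = 1) (x : Perm X) : wP β (t * x * t) = sg x * wQ β x := by
  have ht : ∀ y, t (t y) = y := fun y => by
    have := congrArg (fun s : Perm X => s y) h3
    simpa using this
  have h5 : (∀ y, β.R ((t * x * t) y) = β.R y) ↔ ∀ y, β.C (x y) = β.C y := by
    simp only [Perm.mul_apply, h1]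
    constructor
    · intro h y
      have h6 := h (t y)
      rw [ht, h1] at h6
      exact h6
    · intro h y
      rw [h, h2]
  unfold wQ wP
  rw [if_congr h5 rfl rfl]
  split_ifs
  · rw [sg_sq]
  · simp

/-- the polytabloid functions are given by the convolutions -/
lemma rc_rc (a : Perm X → ℂ) (g : Perm X) :
    rc (wP β) (rc (wQ β) a) g = ∑ h, a h * uh β (h⁻¹ * g) := by
  have h1 : ∀ h : Perm X, uh β (h⁻¹ * g) = ∑ c, wQ β c * wP β (g⁻¹ * h * c⁻¹) := by
    intro h
    unfold uh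
    rw [Finset.sum_filter, ← Equiv.sum_comp (Equiv.inv _)]
    refine sum_congr rfl fun c _ => ?_
    unfold wQ wP
    simp only [Equiv.inv_apply]
    have e1 : (∀ x, β.C (c⁻¹ x) = β.C x) ↔ ∀ x, β.C (c x) = β.C x := stab_inv
    have e2 : (∀ x, β.R ((h⁻¹ * g)⁻¹ x) = β.R (c⁻¹⁻¹ x)) ↔
        ∀ y, β.R ((g⁻¹ * h * c⁻¹) y) = β.R y := by
      constructor
      · intro h5 y
        have h6 := h5 (c⁻¹ y)
        simp only [inv_inv, mul_inv_rev, Perm.mul_apply] at h6 ⊢
        rwa [show c (c⁻¹ y) = y from Equiv.apply_symm_apply c y] at h6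
      · intro h5 y
        have h6 := h5 (c y)
        simp only [inv_inv, mul_inv_rev, Perm.mul_apply] at h6 ⊢
        rwa [show c⁻¹ (c y) = y from Equiv.symm_apply_apply c y] at h6
    rw [if_congr e1 rfl rfl]
    by_cases h5 : ∀ x, β.C (c x) = β.C x
    · rw [if_pos h5, if_pos h5, if_congr e2 rfl rfl]
      congr 1
      exact sg_inv c
    · rw [if_neg h5, if_neg h5, zero_mul]
  simp only [rc_apply, h1, Finset.mul_sum]
  rw [Finset.sum_comm]
  rw [Finset.sum_comm (s := univ) (t := univ) (f := fun h c => a h * (wQ β c * wP β (g⁻¹ * h * c⁻¹)))]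
  refine sum_congr rfl fun c _ => ?_
  rw [← Equiv.sum_comp (Equiv.mulRight c) (fun h => a h * (wQ β c * wP β (g⁻¹ * h * c⁻¹))),
    ← Equiv.sum_comp (Equiv.mulLeft g)
      (fun h => a (Equiv.mulRight c h) * (wQ β c * wP β (g⁻¹ * (Equiv.mulRight c h) * c⁻¹)))]
  refine sum_congr rfl fun x _ => ?_
  simp only [Equiv.coe_mulLeft, Equiv.coe_mulRight]
  rw [show g⁻¹ * (g * x * c) * c⁻¹ = x by group]
  ring

variable (t : Perm X)

/-- the twist on functions -/
noncomputable def tS : (Perm X → ℂ) →ₗ[ℂ] (Perm X → ℂ) where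
  toFun f g := sg (g * t) * f (g * t)
  map_add' := by
    intro f h
    ext g
    simp [mul_add]
  map_smul' := by
    intro c f
    ext g
    simp only [Pi.smul_apply, smul_eq_mul, RingHom.id_apply]
    ring

lemma tS_apply (f : Perm X → ℂ) (g : Perm X) : tS t f g = sg (g * t) * f (g * t) := rfl

variable {t}

lemma tS_tS (h3 : t * t = 1) (f : Perm X → ℂ) : tS t (tS t f) = sg t • f := by
  ext g
  rw [tS_apply, tS_apply, mul_assoc g t t, h3, mul_one, Pi.smul_apply, smul_eq_mul, sg_mul]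
  linear_combination (sg t * f g) * sg_sq g

lemma tS_rc (h1 : ∀ x, β.R (t x) = β.C x) (h2 : ∀ x, β.C (t x) = β.R x)
    (h3 : t * t = 1) (a : Perm X → ℂ) :
    tS t (rc (wP β) (rc (wQ β) a)) = rc (wQ β) (rc (wP β) (tS t a)) := by
  have e : ∀ F : Perm X → ℂ, ∑ x, F x = ∑ x, F (t * x * t) := by
    intro F
    rw [← Equiv.sum_comp ((Equiv.mulLeft t).trans (Equiv.mulRight t)) F]
    rfl
  ext g
  rw [tS_apply, rc_apply, rc_apply, e, Finset.mul_sum]
  refine sum_congr rfl fun x _ => ?_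
  rw [rc_apply, rc_apply, e, wP_t β h1 h2 h3, Finset.mul_sum, Finset.mul_sum, Finset.mul_sum]
  refine sum_congr rfl fun y _ => ?_
  rw [wQ_t β h1 h2 h3, tS_apply]
  have h4 : g * t * (t * x * t) * (t * y * t) = g * x * y * t := by
    calc g * t * (t * x * t) * (t * y * t) = g * (t * t) * x * (t * t) * y * t := by group
      _ = g * x * y * t := by rw [h3]; group
  rw [h4]
  simp only [sg_mul]
  ring

/-- the twist of the model -/
noncomputable def Th (t : Perm X) : (Perm X × Perm X → ℂ) →ₗ[ℂ] (Perm X × Perm X → ℂ) where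
  toFun F q := rc (wP β) (tS t (fun g => F (g, q.2))) q.1
  map_add' := by
    intro F F'
    ext q
    have : (fun g => (F + F') (g, q.2)) = (fun g => F (g, q.2)) + fun g => F' (g, q.2) := rfl
    rw [this, map_add, map_add]
    rfl
  map_smul' := by
    intro c F
    ext q
    have : (fun g => (c • F) (g, q.2)) = c • (fun g => F (g, q.2)) := rfl
    rw [this, map_smul, map_smul]
    rfl

lemma Th_apply (F : Perm X × Perm X → ℂ) (q : Perm X × Perm X) :
    Th β t F q = rc (wP β) (tS t (fun g => F (g, q.2))) q.1 := rfl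

lemma Th_rep2 (g : Perm X) (F : Perm X × Perm X → ℂ) :
    Th β t (rep2 X g F) = sg g • rep2 X g (Th β t F) := by
  ext q
  rw [Pi.smul_apply, smul_eq_mul, rep2_apply, Th_apply, Th_apply, rc_apply, rc_apply,
    Finset.mul_sum]
  refine sum_congr rfl fun x _ => ?_
  rw [tS_apply, tS_apply, rep2_apply]
  simp only [sg_mul, sg_inv, mul_assoc]
  have := sg_sq g
  linear_combination (-(wP β x * (sg q.1 * (sg x * (sg t * F (g⁻¹ * (q.1 * (x * t)), g⁻¹ * q.2)))))) * this

lemma slice {F : Perm X × Perm X → ℂ} (hF : F ∈ VV β) (g₂ : Perm X) :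
    ∃ a : Perm X → ℂ, (fun g => F (g, g₂)) = rc (wP β) (rc (wQ β) a) := by
  unfold VV at hF
  induction hF using Submodule.span_induction with
  | mem F hF =>
    obtain ⟨h, h', rfl⟩ := hF
    refine ⟨fun x => if x = h then uh β (h'⁻¹ * g₂) else 0, ?_⟩
    ext g
    rw [rc_rc, Finset.sum_eq_single h]
    · rw [if_pos rfl, mul_comm]
    · intro x _ hx
      rw [if_neg hx, zero_mul]
    · intro hh
      exact absurd (Finset.mem_univ _) hh
  | zero =>
    refine ⟨0, ?_⟩
    rw [map_zero, map_zero]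
    rfl
  | add F F' _ _ h h' =>
    obtain ⟨a, ha⟩ := h
    obtain ⟨a', ha'⟩ := h'
    refine ⟨a + a', ?_⟩
    rw [map_add, map_add, ← ha, ← ha']
    rfl
  | smul c F _ h =>
    obtain ⟨a, ha⟩ := h
    refine ⟨c • a, ?_⟩
    rw [map_smul, map_smul, ← ha]
    rfl

lemma Th_inj (h1 : ∀ x, β.R (t x) = β.C x) (h2 : ∀ x, β.C (t x) = β.R x)
    (h3 : t * t = 1) {F : Perm X × Perm X → ℂ} (hF : F ∈ VV β) (h : Th β t F = 0) : F = 0 := by
  obtain ⟨N, hN⟩ := wQ_sq β
  ext ⟨g₁, g₂⟩
  obtain ⟨a, ha⟩ := slice β hF g₂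
  have e1 : rc (wP β) (rc (wQ β) (rc (wP β) (tS t a))) = 0 := by
    rw [← tS_rc β h1 h2 h3, ← ha]
    ext g
    exact congrFun h (g, g₂)
  have e2 := key (wP_inv β) (wP_conj β) (wQ_inv β) (wQ_conj β) hN _ e1
  rw [← tS_rc β h1 h2 h3, ← ha] at e2
  have e3 := tS_tS h3 (fun g => F (g, g₂))
  rw [e2, map_zero] at e3
  have e4 := congrFun e3 g₁
  have e5 : sg t ≠ 0 := fun h => by
    have := sg_sq t
    rw [h] at this
    simp at this
  rw [Pi.smul_apply, smul_eq_mul] at e4
  exact (mul_eq_zero.1 e4.symm).resolve_left e5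

lemma Th_VV (h1 : ∀ x, β.R (t x) = β.C x) (h2 : ∀ x, β.C (t x) = β.R x)
    (h3 : t * t = 1) {F : Perm X × Perm X → ℂ} (hF : F ∈ VV β) : Th β t F ∈ VV β := by
  unfold VV at hF
  induction hF using Submodule.span_induction with
  | mem F hF =>
    obtain ⟨h, h', rfl⟩ := hF
    set δ : Perm X → ℂ := fun x => if x = h then 1 else 0 with hδ
    have e0 : (fun g => uh β (h⁻¹ * g)) = rc (wP β) (rc (wQ β) δ) := by
      ext g
      rw [rc_rc, Finset.sum_eq_single h]
      · rw [hδ]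
        simp
      · intro x _ hx
        rw [hδ]
        simp [hx]
      · intro hh
        exact absurd (Finset.mem_univ _) hh
    have e1 : Th β t (fun p => uh β (h⁻¹ * p.1) * uh β (h'⁻¹ * p.2)) =
        ∑ x, (rc (wP β) (tS t δ) x) •
          (fun p : Perm X × Perm X => uh β (x⁻¹ * p.1) * uh β (h'⁻¹ * p.2)) := by
      ext q
      rw [Th_apply]
      have e2 : (fun g => uh β (h⁻¹ * (g, q.2).1) * uh β (h'⁻¹ * (g, q.2).2)) =
          uh β (h'⁻¹ * q.2) • (fun g => uh β (h⁻¹ * g)) := by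
        ext g
        rw [Pi.smul_apply, smul_eq_mul, mul_comm]
      rw [e2, map_smul, map_smul, e0, tS_rc β h1 h2 h3, Pi.smul_apply, rc_rc, smul_eq_mul,
        Finset.mul_sum, Finset.sum_apply]
      refine sum_congr rfl fun x _ => ?_
      rw [Pi.smul_apply, smul_eq_mul]
      ring
    rw [e1]
    refine Submodule.sum_mem _ fun x _ => Submodule.smul_mem _ _ (Submodule.subset_span ⟨x, h', rfl⟩)
  | zero =>
    rw [map_zero]
    exact Submodule.zero_mem _
  | add F F' hF hF' h h' =>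
    rw [map_add]
    exact Submodule.add_mem _ h h'
  | smul c F hF h =>
    rw [map_smul]
    exact Submodule.smul_mem _ _ h

end conc

end W1

open W1 in
/-- TARGET -/
theorem good_twist {k : ℕ} {X : Type*} [Fintype X] [DecidableEq X] (β : Base k X)
    {U : Type*} [AddCommGroup U] [Module ℂ U]
    (ρ : Representation ℂ (Perm X) U) (h : Good β (tw ρ)) : Good β ρ := by
  obtain ⟨t, h1, h2, h3⟩ := exists_t β
  obtain ⟨T, hT1, hT2, hT3⟩ := h
  refine ⟨Th β t ∘ₗ T, fun g x => ?_, fun h0 => hT2 ?_, fun x => Th_VV β h1 h2 h3 (hT3 x)⟩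
  · have e1 := hT1 g x
    rw [tw_apply, map_smul] at e1
    have e2 : T (ρ g x) = sg g • rep2 X g (T x) := by
      rw [← e1, smul_smul]
      have : sg g * (((Perm.sign g : ℤˣ) : ℤ) : ℂ) = 1 := sg_sq g
      rw [this, one_smul]
    rw [LinearMap.comp_apply, LinearMap.comp_apply, e2, map_smul, Th_rep2, smul_smul, sg_sq,
      one_smul]
  · ext1 x
    exact Th_inj β h1 h2 h3 (hT3 x) (congrArg (fun L => L x) h0)

end Pool.Agent.Helper310_SaxlA
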