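import Mathlib
import Pool.Agent.Helper310_SaxlA.Box
import Pool.Agent.Helper310_SaxlA.Strip2
import Pool.Agent.Helper310_SaxlA.Twist
import Pool.Agent.Helper310_SaxlA.DualBound
import Pool.Agent.Helper310_SaxlA.Hw
import Pool.Agent.Helper310_Saxl.Split

/-!
# The main induction
-/

namespace Pool.Agent.Helper310_SaxlA

open Equiv Finset Pool.Agent.Helper310_Saxl Representation

section

variable {X : Type*} [Fintype X] [DecidableEq X]

lemma tw_swap {V : Type*} [AddCommGroup V] [Module ℂ V] (ρ : Representation ℂ (Perm X) V)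
    {x y : X} (h : x ≠ y) (v : V) : tw ρ (swap x y) v = -ρ (swap x y) v := by
  rw [tw_apply, Perm.sign_swap h]
  simp

lemma tw_irr {V : Type*} [AddCommGroup V] [Module ℂ V] (ρ : Representation ℂ (Perm X) V)
    (h : ρ.IsIrreducible) : (tw ρ).IsIrreducible := by
  have hne : ∃ v : V, v ≠ 0 := by
    by_contra hcon
    push Not at hcon
    have h3 : (⊥ : Subrepresentation ρ) = ⊤ := by
      apply Subrepresentation.toSubmodule_injective
      show (⊥ : Submodule ℂ V) = ⊤
      rw [eq_comm, Submodule.eq_bot_iff]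
      intro x _
      exact hcon x
    exact bot_ne_top h3
  haveI : Nontrivial (Subrepresentation (tw ρ)) := by
    refine ⟨⊥, ⊤, ?_⟩
    intro h0
    have h1 : (⊥ : Submodule ℂ V) = ⊤ := congrArg Subrepresentation.toSubmodule h0
    obtain ⟨v, hv⟩ := hne
    have h2 : v ∈ (⊤ : Submodule ℂ V) := Submodule.mem_top
    rw [← h1, Submodule.mem_bot] at h2
    exact hv h2
  refine { eq_bot_or_eq_top := ?_ }
  intro M
  let N : Subrepresentation ρ :=
    { toSubmodule := M.toSubmodule
      apply_mem_toSubmodule := by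
        intro g v hv
        have h1 := M.apply_mem_toSubmodule g hv
        rw [tw_apply] at h1
        have h2 := Submodule.smul_mem M.toSubmodule (((Perm.sign g : ℤˣ) : ℤ) : ℂ) h1
        rw [smul_smul] at h2
        have h3 : (((Perm.sign g : ℤˣ) : ℤ) : ℂ) * (((Perm.sign g : ℤˣ) : ℤ) : ℂ) = 1 := by
          rw [← Int.cast_mul, ← Units.val_mul, Int.units_mul_self]
          simp
        rwa [h3, one_smul] at h2 }
  rcases h.eq_bot_or_eq_top N with h1 | h1
  · left
    apply Subrepresentation.toSubmodule_injective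
    have h2 : M.toSubmodule = (⊥ : Submodule ℂ V) :=
      congrArg (fun S : Subrepresentation ρ => S.toSubmodule) h1
    exact h2
  · right
    apply Subrepresentation.toSubmodule_injective
    have h2 : M.toSubmodule = (⊤ : Submodule ℂ V) :=
      congrArg (fun S : Subrepresentation ρ => S.toSubmodule) h1
    exact h2

/-- a representation with a nonzero map to a good irreducible representation is good -/
lemma good_of_map {k : ℕ} (β : Base k X) {U V : Type*} [AddCommGroup U] [Module ℂ U]
    [AddCommGroup V] [Module ℂ V] {ρ : Representation ℂ (Perm X) U}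
    {σ : Representation ℂ (Perm X) V} (hσ : σ.IsIrreducible) (f : IntertwiningMap ρ σ) (u : U)
    (hf : f u ≠ 0) (h : Good β σ) : Good β ρ := by
  obtain ⟨T, hT1, hT2, hT3⟩ := h
  refine ⟨T.comp f.toLinearMap, ?_, ?_, ?_⟩
  · intro g x
    have h1 : f (ρ g x) = σ g (f x) := IntertwiningMap.isIntertwining _ _ f g x
    show T (f (ρ g x)) = rep2 X g (T (f x))
    rw [h1, hT1]
  · intro h0
    let K : Subrepresentation σ :=
      { toSubmodule := LinearMap.ker T
        apply_mem_toSubmodule := by
          intro g v hv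
          rw [LinearMap.mem_ker] at hv ⊢
          rw [hT1, hv, map_zero] }
    rcases hσ.eq_bot_or_eq_top K with h1 | h1
    · have h2 : LinearMap.ker T = ⊥ := congrArg Subrepresentation.toSubmodule h1
      have h3 : f u ∈ LinearMap.ker T := by
        rw [LinearMap.mem_ker]
        exact congrArg (fun L : U →ₗ[ℂ] (Perm X × Perm X → ℂ) => L u) h0
      rw [h2, Submodule.mem_bot] at h3
      exact hf h3
    · have h2 : LinearMap.ker T = ⊤ := congrArg Subrepresentation.toSubmodule h1
      exact hT2 (LinearMap.ker_eq_top.1 h2)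
  · intro x
    exact hT3 _

/-- transport of the strip theorem to another set of `k + 1` elements -/
lemma strip_set {k : ℕ} (β : Base (k + 1) X)
    {U : Type*} [AddCommGroup U] [Module ℂ U] (ρ : Representation ℂ (Perm X) U)
    (hP : ∀ (W : Submodule ℂ U) (ρ' : Representation ℂ (Perm {x // β.C x ≠ k + 1}) W),
      (∃ w : W, w ≠ 0) → Good β.tail ρ') (B : Finset X) (hB : B.card = k + 1)
    (u : U) (hu : u ≠ 0) (hfix : ∀ x ∈ B, ∀ y ∈ B, ρ (swap x y) u = u) : Good β ρ := by
  have hc : β.col.card = B.card := by rw [hB]; exact card_col β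
  obtain ⟨e⟩ : Nonempty ({x // x ∈ β.col} ≃ {x // x ∈ B}) :=
    Fintype.card_eq.1 (by simpa using hc)
  let g : Perm X := e.extendSubtype
  have hg : ∀ x, x ∈ β.col → g x ∈ B := by
    intro x hx
    have h1 : g x = e ⟨x, hx⟩ := Equiv.extendSubtype_apply_of_mem e x hx
    rw [h1]; exact (e ⟨x, hx⟩).2
  refine strip β ρ (ρ g⁻¹ u) ?_ ?_ hP
  · intro h0
    apply hu
    have h1 : ρ g (ρ g⁻¹ u) = u := by rw [← rho_mul, mul_inv_cancel, map_one]; rfl
    rw [← h1, h0, map_zero]
  · intro x y hx hy
    have hx' : x ∈ β.col := Finset.mem_filter.2 ⟨Finset.mem_univ _, hx⟩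
    have hy' : y ∈ β.col := Finset.mem_filter.2 ⟨Finset.mem_univ _, hy⟩
    have e1 : swap x y * g⁻¹ = g⁻¹ * swap (g x) (g y) := by
      rw [Equiv.mul_swap_eq_swap_mul, perm_inv_apply, perm_inv_apply]
    rw [← rho_mul, e1, rho_mul, hfix _ (hg x hx') _ (hg y hy')]

lemma HW.fixed_row {U : Type*} [AddCommGroup U] [Module ℂ U]
    {ρ : Representation ℂ (Perm X) U} {D : X → ℕ} {φ : U} (h : HW ρ univ D φ) {x y : X}
    (hxy : D x = D y) : ρ (swap x y) φ = φ :=
  h.1 x (Finset.mem_univ _) y (Finset.mem_univ _) hxy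

/-- a transversal of the first `k + 1` rows -/
lemma exists_anti {k : ℕ} {U : Type*} [AddCommGroup U] [Module ℂ U]
    {ρ : Representation ℂ (Perm X) U} {D : X → ℕ} {φ : U} (hφ : φ ≠ 0) (h : HW ρ univ D φ)
    (hL : Antitone fun i => (univ.filter fun x => D x = i).card)
    (hk : (univ.filter fun x => D x = k).card ≠ 0) :
    ∃ (B : Finset X) (v : U), B.card = k + 1 ∧ v ≠ 0 ∧
      ∀ x ∈ B, ∀ y ∈ B, x ≠ y → ρ (swap x y) v = -v := by
  have hex : ∀ i : Fin (k + 1), ∃ x, D x = i := by
    intro i
    have h1 : (univ.filter fun x => D x = k).card ≤ (univ.filter fun x => D x = (i : ℕ)).card :=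
      hL (by omega)
    obtain ⟨x, hx⟩ := Finset.card_pos.1 (show 0 < (univ.filter fun x => D x = (i : ℕ)).card by omega)
    exact ⟨x, (Finset.mem_filter.1 hx).2⟩
  choose f hf using hex
  have hfinj : Function.Injective f := by
    intro i j hij
    have := hf i
    rw [hij, hf j] at this
    exact Fin.ext this.symm
  refine ⟨univ.image f, asym ρ (univ.image f) φ, ?_, ?_, ?_⟩
  · rw [Finset.card_image_of_injective _ hfinj, Finset.card_univ, Fintype.card_fin]
  · refine h.asym_ne_zero ρ hφ _ (Finset.subset_univ _) ?_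
    intro x hx y hy hxy
    rw [Finset.mem_coe, Finset.mem_image] at hx hy
    obtain ⟨i, _, rfl⟩ := hx
    obtain ⟨j, _, rfl⟩ := hy
    rw [hf, hf] at hxy
    rw [Fin.ext hxy]
  · intro x hx y hy hxy
    exact asym_swap_left ρ hx hy hxy φ

end

section

variable {X : Type*} [Fintype X] [DecidableEq X]

/-- the induction step for irreducible representations -/
theorem sax_step {k : ℕ} (β : Base (k + 1) X) {V : Type*} [AddCommGroup V] [Module ℂ V]
    (ρ : Representation ℂ (Perm X) V) (hirr : ρ.IsIrreducible) (v : V) (hv : v ≠ 0)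
    (hP : ∀ (W : Submodule ℂ V) (ρ' : Representation ℂ (Perm {x // β.C x ≠ k + 1}) W),
      (∃ w : W, w ≠ 0) → Good β.tail ρ') : Good β ρ := by
  by_cases hA : ∃ (B : Finset X) (v : V), B.card = k + 1 ∧ v ≠ 0 ∧
      ∀ x ∈ B, ∀ y ∈ B, ρ (swap x y) v = v
  · obtain ⟨B, w, hB, hw, hfix⟩ := hA
    exact strip_set β ρ hP B hB w hw hfix
  by_cases hB : ∃ (B : Finset X) (v : V), B.card = k + 1 ∧ v ≠ 0 ∧
      ∀ x ∈ B, ∀ y ∈ B, x ≠ y → ρ (swap x y) v = -v
  · obtain ⟨B, w, hB, hw, hanti⟩ := hB
    refine good_twist β ρ (strip_set β (tw ρ) hP B hB w hw ?_)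
    intro x hx y hy
    by_cases hxy : x = y
    · rw [hxy, swap_self]
      show tw ρ 1 w = w
      rw [map_one]; rfl
    · rw [tw_swap ρ hxy, hanti x hx y hy hxy, neg_neg]
  -- highest weight vectors
  obtain ⟨D, φ, hφ, hHW, hL⟩ := exists_hw ρ v hv
  obtain ⟨D', φ', hφ', hHW', hL'⟩ := exists_hw (tw ρ) v hv
  -- vectors fixed under the twist
  have htwfix : ∀ (B : Finset X) (w : V), (∀ x ∈ B, ∀ y ∈ B, tw ρ (swap x y) w = w) →
      ∀ x ∈ B, ∀ y ∈ B, x ≠ y → ρ (swap x y) w = -w := by
    intro B w h x hx y hy hxy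
    have h1 := h x hx y hy
    rw [tw_swap ρ hxy] at h1
    exact neg_eq_iff_eq_neg.1 h1
  have hrow : ∀ (E : X → ℕ) (i : ℕ), (univ.filter fun x => E x = i).card = 0 →
      (Antitone fun i => (univ.filter fun x => E x = i).card) → ∀ x, E x < i := by
    intro E i hi hE x
    by_contra hcon
    have h1 : (univ.filter fun y => E y = E x).card ≤ (univ.filter fun y => E y = i).card :=
      hE (not_lt.1 hcon)
    have h2 : 0 < (univ.filter fun y => E y = E x).card :=
      Finset.card_pos.2 ⟨x, Finset.mem_filter.2 ⟨Finset.mem_univ _, rfl⟩⟩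
    omega
  have hL0 : (univ.filter fun x => D x = 0).card < k + 1 := by
    by_contra hcon
    obtain ⟨B, hBs, hBc⟩ := Finset.exists_subset_card_eq
      (show k + 1 ≤ (univ.filter fun x => D x = 0).card by omega)
    refine hA ⟨B, φ, hBc, hφ, fun x hx y hy => HW.fixed_row hHW ?_⟩
    rw [(Finset.mem_filter.1 (hBs hx)).2, (Finset.mem_filter.1 (hBs hy)).2]
  have hL0' : (univ.filter fun x => D' x = 0).card < k + 1 := by
    by_contra hcon
    obtain ⟨B, hBs, hBc⟩ := Finset.exists_subset_card_eq
      (show k + 1 ≤ (univ.filter fun x => D' x = 0).card by omega)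
    refine hB ⟨B, φ', hBc, hφ', htwfix B φ' fun x hx y hy => HW.fixed_row hHW' ?_⟩
    rw [(Finset.mem_filter.1 (hBs hx)).2, (Finset.mem_filter.1 (hBs hy)).2]
  have hLk : (univ.filter fun x => D x = k).card = 0 := by
    by_contra hcon
    exact hB (exists_anti hφ hHW hL hcon)
  have hLk' : (univ.filter fun x => D' x = k).card = 0 := by
    by_contra hcon
    obtain ⟨B, w, hBc, hw, hanti⟩ := exists_anti hφ' hHW' hL' hcon
    refine hA ⟨B, w, hBc, hw, fun x hx y hy => ?_⟩
    by_cases hxy : x = y
    · rw [hxy, swap_self]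
      show ρ 1 w = w
      rw [map_one]; rfl
    · have h1 := hanti x hx y hy hxy
      rw [tw_swap ρ hxy] at h1
      exact neg_injective h1
  by_cases tall : ∀ i, (univ.filter fun x => D x = i).card = 0 →
      (univ.filter fun x => D x = 0).card ≤ i
  · exact good_box (by omega) β ρ D φ hφ hHW hL hL0 (by simpa using hLk) tall
  by_cases tall' : ∀ i, (univ.filter fun x => D' x = i).card = 0 →
      (univ.filter fun x => D' x = 0).card ≤ i
  · exact good_twist β ρ
      (good_box (by omega) β (tw ρ) D' φ' hφ' hHW' hL' hL0' (by simpa using hLk') tall')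
  exfalso
  push Not at tall tall'
  obtain ⟨i, hi, hi'⟩ := tall
  obtain ⟨j, hj, hj'⟩ := tall'
  have b1 := dual_bound ρ hirr D i (hrow D i hi hL) φ hφ (fun x y h => HW.fixed_row hHW h)
    (univ.filter fun x => D' x = 0) φ' hφ'
    (htwfix _ φ' fun x hx y hy => HW.fixed_row hHW' (by
      rw [(Finset.mem_filter.1 hx).2, (Finset.mem_filter.1 hy).2]))
  have b2 := dual_bound (tw ρ) (tw_irr ρ hirr) D' j (hrow D' j hj hL') φ' hφ'
    (fun x y h => HW.fixed_row hHW' h) (univ.filter fun x => D x = 0) φ hφ
    (fun x hx y hy hxy => by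
      rw [tw_swap ρ hxy, HW.fixed_row hHW (by
        rw [(Finset.mem_filter.1 hx).2, (Finset.mem_filter.1 hy).2])])
  omega

/-- the case of the empty set -/
lemma good_zero (β : Base 0 X) {U : Type*} [AddCommGroup U] [Module ℂ U]
    (ρ : Representation ℂ (Perm X) U) (u : U) (hu : u ≠ 0) : Good β ρ := by
  have hempty : ∀ x : X, False := by
    intro x
    have := β.hR.bounds (Finset.mem_univ x)
    omega
  have hone : ∀ g : Perm X, g = 1 := fun g => Equiv.ext fun x => (hempty x).elim
  have huh : ∀ g : Perm X, uh β g = 1 := by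
    intro g
    rw [uh, Finset.sum_eq_single (1 : Perm X)]
    · rw [if_pos (fun x => (hempty x).elim)]
      simp
    · intro c _ hc
      exact absurd (hone c) hc
    · intro h
      exact absurd (Finset.mem_filter.2 ⟨Finset.mem_univ _, fun x => (hempty x).elim⟩) h
  obtain ⟨l, hl⟩ : ∃ l : Module.Dual ℂ U, l u ≠ 0 := by
    by_contra hcon
    push Not at hcon
    exact hu ((Module.forall_dual_apply_eq_zero_iff ℂ u).1 hcon)
  refine ⟨{ toFun := fun x _ => l x, map_add' := fun x y => by funext p; simp,
            map_smul' := fun c x => by funext p; simp }, ?_, ?_, ?_⟩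
  · intro g x
    funext p
    rw [rep2_apply, hone g, map_one]
    rfl
  · intro h0
    apply hl
    have h1 := congrArg (fun L : U →ₗ[ℂ] (Perm X × Perm X → ℂ) => L u (1, 1)) h0
    exact h1
  · intro x
    have h1 : (fun _ : Perm X × Perm X => l x) =
        (l x) • fun p : Perm X × Perm X => uh β ((1 : Perm X)⁻¹ * p.1) * uh β ((1 : Perm X)⁻¹ * p.2) := by
      funext p
      rw [Pi.smul_apply, huh, huh]
      simp
    show (fun _ : Perm X × Perm X => l x) ∈ VV β
    rw [h1]
    exact Submodule.smul_mem _ _ (Submodule.subset_span ⟨1, 1, rfl⟩)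

end

/-- **Main theorem.** Every nonzero representation has a nonzero equivariant map to the model of
the tensor square. -/
theorem sax_all.{u, v} (k : ℕ) : ∀ {X : Type u} [Fintype X] [DecidableEq X] (β : Base k X)
    {U : Type v} [AddCommGroup U] [Module ℂ U] (ρ : Representation ℂ (Perm X) U) (u : U),
    u ≠ 0 → Good β ρ := by
  induction k with
  | zero =>
    intro X _ _ β U _ _ ρ u hu
    exact good_zero β ρ u hu
  | succ k ih =>
    intro X _ _ β U _ _ ρ u hu
    -- a finite dimensional subrepresentation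
    let Q : Subrepresentation ρ :=
      { toSubmodule := Submodule.span ℂ (Set.range fun g : Perm X => ρ g u)
        apply_mem_toSubmodule := by
          intro g v hv
          induction hv using Submodule.span_induction with
          | mem w hw =>
            obtain ⟨h, rfl⟩ := hw
            refine Submodule.subset_span ⟨g * h, ?_⟩
            simp only
            rw [rho_mul]
          | zero => rw [map_zero]; exact Submodule.zero_mem _
          | add a b _ _ ha hb => rw [map_add]; exact Submodule.add_mem _ ha hb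
          | smul c a _ ha => rw [map_smul]; exact Submodule.smul_mem _ _ ha }
    have hfd : FiniteDimensional ℂ Q.toSubmodule :=
      FiniteDimensional.span_of_finite ℂ (Set.finite_range _)
    have huQ : u ∈ Q.toSubmodule := Submodule.subset_span ⟨1, by simp⟩
    obtain ⟨_, p, hp, _, _⟩ := exists_proj Q
    have hu' : (⟨u, huQ⟩ : Q.toSubmodule) ≠ 0 := fun h => hu (congrArg Subtype.val h)
    obtain ⟨P, hP, q, hq⟩ := exists_irr (ρ := Q.toRepresentation) (⟨u, huQ⟩ : Q.toSubmodule) hu'
    have hpu : p u = ⟨u, huQ⟩ := Subtype.ext (hp u huQ)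
    have hqu : (q.comp p) u ≠ 0 := by
      show q (p u) ≠ 0
      rw [hpu]; exact hq
    refine good_of_map β hP (q.comp p) u hqu ?_
    exact sax_step β P.toRepresentation hP ((q.comp p) u) hqu
      (fun W ρ' hw => by
        obtain ⟨w, hw⟩ := hw
        exact ih β.tail ρ' w hw)

end Pool.Agent.Helper310_SaxlA
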