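import Mathlib

/-!
# Self-conjugate partitions with distinct parts
-/

namespace Pool.Agent.Helper310_SaxlA

set_option autoImplicit false
open Finset

/-- TARGET -/
theorem staircase_of_selfdual (N : ℕ) (l : ℕ → ℕ) (h1 : Antitone l) (h2 : ∀ i, N ≤ i → l i = 0)
    (h3 : ∑ i ∈ range N, l i = N)
    (hm : ∀ j, 0 < j → ((range N).filter fun i => l i = j).card ≤ 1)
    (hd : ∀ j, l j = ((range N).filter fun i => j < l i).card) :
    ∃ k : ℕ, N = k * (k + 1) / 2 ∧ ∀ i, l i = k - i := by
  have hs : ∀ i, 0 < l (i + 1) → l (i + 1) < l i := by
    intro i hi
    rcases lt_or_eq_of_le (h1 (Nat.le_succ i)) with h | h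
    · exact h
    · exfalso
      have hN : i + 1 < N := by
        by_contra hc
        rw [h2 (i + 1) (by omega)] at hi
        exact lt_irrefl _ hi
      have h4 := hm (l (i + 1)) hi
      have h5 : ({i, i + 1} : Finset ℕ) ⊆ (range N).filter fun x => l x = l (i + 1) := by
        intro x hx
        rw [mem_insert, mem_singleton] at hx
        rw [mem_filter, mem_range]
        rcases hx with rfl | rfl
        · exact ⟨by omega, h.symm⟩
        · exact ⟨hN, rfl⟩
      have h6 := card_le_card h5
      rw [card_pair (by omega)] at h6
      omega
  have hup : ∀ i, l i ≤ l 0 - i := by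
    intro i
    induction i with
    | zero => simp
    | succ i ih =>
      rcases Nat.eq_zero_or_pos (l (i + 1)) with h | h
      · rw [h]; exact Nat.zero_le _
      · have := hs i h
        omega
  have hk := hd 0
  have hpos : ∀ i, i < l 0 → 0 < l i := by
    intro i hi
    by_contra hc
    have h4 : (range N).filter (fun x => 0 < l x) ⊆ range i := by
      intro x hx
      rw [mem_filter] at hx
      rw [mem_range]
      by_contra hx2
      have := h1 (Nat.le_of_not_lt hx2)
      omega
    have h5 := card_le_card h4
    rw [card_range, ← hk] at h5
    omega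
  have hlow : ∀ d i, i + d + 1 = l 0 → d + 1 ≤ l i := by
    intro d
    induction d with
    | zero =>
      intro i hi
      exact hpos i (by omega)
    | succ d ih =>
      intro i hi
      have h4 := ih (i + 1) (by omega)
      have h5 := hs i (by omega)
      omega
  have hl : ∀ i, l i = l 0 - i := by
    intro i
    apply le_antisymm (hup i)
    rcases Nat.lt_or_ge i (l 0) with h | h
    · have := hlow (l 0 - i - 1) i (by omega)
      omega
    · omega
  refine ⟨l 0, ?_, hl⟩
  have hkN : l 0 ≤ N := by
    rw [hk]
    exact (card_filter_le _ _).trans (by rw [card_range])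
  have key : ∀ k N : ℕ, k ≤ N → (∑ i ∈ range N, (k - i)) * 2 = k * (k + 1) := by
    intro k N h
    obtain ⟨m, rfl⟩ := Nat.exists_eq_add_of_le h
    clear h
    induction m with
    | zero =>
      rw [add_zero]
      have := Finset.sum_range_reflect (fun i => i + 1) k
      have e : ∑ i ∈ range k, (k - i) = ∑ i ∈ range k, (i + 1) := by
        rw [← this]
        apply sum_congr rfl
        intro i hi
        rw [mem_range] at hi
        omega
      rw [e, sum_add_distrib, add_mul, Finset.sum_range_id_mul_two]
      simp
      cases k with
      | zero => simp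
      | succ k => simp; ring
    | succ m ih =>
      rw [← add_assoc, sum_range_succ]
      have : k - (k + m) = 0 := by omega
      rw [this, add_zero, ih]
  have h4 := key (l 0) N hkN
  rw [← sum_congr rfl (fun i _ => hl i), h3] at h4
  omega

end Pool.Agent.Helper310_SaxlA
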