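import Mathlib
import Pool.Agent.Helper310_SaxlA.Functional

/-!
# The label determines the irreducible representation
-/

namespace Pool.Agent.Helper310_SaxlA

open Finset Equiv Pool.Agent.Helper310_Saxl Pool.Agent.Helper310_SaxlA Representation

section LU

variable {X : Type*} [Fintype X] [DecidableEq X]

/-- the map `F ↦ Σ F g • ρ g z` -/
noncomputable def lu_pi {V : Type*} [AddCommGroup V] [Module ℂ V]
    (ρ : Representation ℂ (Perm X) V) (z : V) : (Perm X → ℂ) →ₗ[ℂ] V :=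
  ∑ g, (LinearMap.proj g : (Perm X → ℂ) →ₗ[ℂ] ℂ).smulRight (ρ g z)

lemma lu_pi_apply {V : Type*} [AddCommGroup V] [Module ℂ V]
    (ρ : Representation ℂ (Perm X) V) (z : V) (F : Perm X → ℂ) :
    lu_pi ρ z F = ∑ g, F g • ρ g z := by
  simp [lu_pi, LinearMap.sum_apply]

lemma lu_pi_single {V : Type*} [AddCommGroup V] [Module ℂ V]
    (ρ : Representation ℂ (Perm X) V) (z : V) :
    lu_pi ρ z (Pi.single 1 1) = z := by
  rw [lu_pi_apply, Finset.sum_eq_single 1]
  · rw [Pi.single_eq_same, one_smul, map_one]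
    rfl
  · intro g _ hg
    rw [Pi.single_eq_of_ne hg, zero_smul]
  · intro h
    exact absurd (mem_univ _) h

lemma lu_pi_shift {V : Type*} [AddCommGroup V] [Module ℂ V]
    (ρ : Representation ℂ (Perm X) V) (z : V) (g : Perm X) (F : Perm X → ℂ) :
    ρ g (lu_pi ρ z F) = lu_pi ρ z (fun x => F (g⁻¹ * x)) := by
  rw [lu_pi_apply, lu_pi_apply, map_sum]
  refine Fintype.sum_equiv (Equiv.mulLeft g) _ _ fun x => ?_
  rw [map_smul, Equiv.coe_mulLeft, inv_mul_cancel_left, rho_mul]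

lemma lu_surj {V : Type*} [AddCommGroup V] [Module ℂ V]
    (ρ : Representation ℂ (Perm X) V) (hirr : ρ.IsIrreducible) {z : V} (hz : z ≠ 0) (w : V) :
    ∃ F, lu_pi ρ z F = w := by
  haveI : IsSimpleOrder (Subrepresentation ρ) := hirr
  let S : Subrepresentation ρ :=
    { toSubmodule := LinearMap.range (lu_pi ρ z)
      apply_mem_toSubmodule := by
        rintro g v ⟨F, rfl⟩
        exact ⟨_, (lu_pi_shift ρ z g F).symm⟩ }
  have hzS : z ∈ S.toSubmodule := ⟨_, lu_pi_single ρ z⟩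
  rcases IsSimpleOrder.eq_bot_or_eq_top S with h | h
  · exfalso
    apply hz
    rw [h] at hzS
    exact (Submodule.mem_bot ℂ).1 hzS
  · have hw : w ∈ S.toSubmodule := by
      rw [h]
      exact Submodule.mem_top
    exact hw

/-- the sign attached to `g` -/
noncomputable def lu_eps {κ : Type*} (D : X → ℕ) (s : X → κ) (g : Perm X) : ℂ := by
  classical
  exact if h : ∃ h : Perm X, (∀ x, s (h x) = s x) ∧ ∀ x, D (g⁻¹ (h x)) = D x then
    ((Perm.sign h.choose : ℤ) : ℂ) else 0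

lemma lu_eps_spec {κ : Type*} [DecidableEq κ] (D : X → ℕ) (s : X → κ)
    (hinj : ∀ x y, D x = D y → s x = s y → x = y)
    (htop : ∀ x, ∀ i < D x, ∃ y, s y = s x ∧ D y = i)
    {V : Type*} [AddCommGroup V] [Module ℂ V] (ρ : Representation ℂ (Perm X) V)
    (v : V) (hv : ∀ x y, D x = D y → ρ (swap x y) v = v) (g : Perm X) :
    colasym ρ s (ρ g v) = lu_eps D s g • colasym ρ s v := by
  classical
  by_cases hinj' : ∀ x y, D (g⁻¹ x) = D (g⁻¹ y) → s x = s y → x = y
  · have hcD : ∀ i, (univ.filter fun x => D (g⁻¹ x) = i).card =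
        (univ.filter fun x => D x = i).card := by
      intro i
      refine Finset.card_bij' (fun x _ => g⁻¹ x) (fun x _ => g x) ?_ ?_ ?_ ?_
      · intro x hx
        rw [Finset.mem_filter] at hx ⊢
        exact ⟨mem_univ _, hx.2⟩
      · intro x hx
        rw [Finset.mem_filter] at hx ⊢
        exact ⟨mem_univ _, by rw [perm_inv_apply]; exact hx.2⟩
      · intro x _
        exact perm_apply_inv g x
      · intro x _
        exact perm_inv_apply g x
    have hex : ∃ h : Perm X, (∀ x, s (h x) = s x) ∧ ∀ x, D (g⁻¹ (h x)) = D x :=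
      exists_col_perm D (fun x => D (g⁻¹ x)) s hcD hinj htop hinj'
    unfold lu_eps
    rw [dif_pos hex]
    obtain ⟨h1, h2⟩ := hex.choose_spec
    have hfix : ρ (g⁻¹ * hex.choose) v = v := by
      refine young_fixed ρ D v (fun x y _ hxy => hv x y hxy) _ ?_
      intro z
      rw [Perm.mul_apply]
      exact h2 z
    have hρ : ρ g v = ρ hex.choose v := by
      have h3 : ρ g (ρ (g⁻¹ * hex.choose) v) = ρ hex.choose v := by
        rw [← rho_mul]
        congr 1
        group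
      rw [hfix] at h3
      exact h3
    rw [hρ, colasym_rho ρ s _ h1]
  · have hno : ¬ ∃ h : Perm X, (∀ x, s (h x) = s x) ∧ ∀ x, D (g⁻¹ (h x)) = D x := by
      rintro ⟨h, h1, h2⟩
      apply hinj'
      intro x y hxy hs
      have e1 := h2 (h⁻¹ x)
      have e2 := h2 (h⁻¹ y)
      have e3 := h1 (h⁻¹ x)
      have e4 := h1 (h⁻¹ y)
      rw [perm_apply_inv] at e1 e2 e3 e4
      have e5 := hinj (h⁻¹ x) (h⁻¹ y) (by rw [← e1, ← e2, hxy]) (by rw [← e3, ← e4, hs])
      exact h⁻¹.injective e5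
    unfold lu_eps
    rw [dif_neg hno, zero_smul]
    push Not at hinj'
    obtain ⟨x, y, hxy, hsxy, hne⟩ := hinj'
    have h1 : ρ (swap x y) (ρ g v) = ρ g v := by
      rw [rho_swap_conj, hv _ _ hxy]
    have hsw : ∀ z, s (swap x y z) = s z := by
      intro z
      by_cases h2 : z = x
      · rw [h2, swap_apply_left, hsxy]
      · by_cases h3 : z = y
        · rw [h3, swap_apply_right, hsxy]
        · rw [swap_apply_of_ne_of_ne h2 h3]
    have h2 := colasym_rho ρ s (swap x y) hsw (ρ g v)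
    rw [h1, Perm.sign_swap hne] at h2
    have h4 : colasym ρ s (ρ g v) = -colasym ρ s (ρ g v) := by
      simpa using h2
    have h5 : (2 : ℂ) • colasym ρ s (ρ g v) = 0 := by
      rw [two_smul]
      nth_rewrite 1 [h4]
      simp
    exact (smul_eq_zero.1 h5).resolve_left two_ne_zero

lemma lu_N {κ : Type*} [DecidableEq κ] (s : X → κ)
    {V : Type*} [AddCommGroup V] [Module ℂ V] (ρ : Representation ℂ (Perm X) V)
    (w : V) (hw : ∀ x y, x ≠ y → s x = s y → ρ (swap x y) w = -w) :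
    colasym ρ s w =
      (((univ : Finset (Perm X)).filter (fun g => ∀ x, s (g x) = s x)).card : ℂ) • w := by
  rw [colasym_apply, Finset.sum_congr rfl (g := fun _ => w), Finset.sum_const]
  · rw [Nat.cast_smul_eq_nsmul]
  · intro g hg
    rw [young_sign ρ s w hw g (Finset.mem_filter.1 hg).2, smul_smul]
    have h1 : ((Perm.sign g : ℤ) : ℂ) * ((Perm.sign g : ℤ) : ℂ) = 1 := by
      rcases Int.units_eq_one_or (Perm.sign g) with h2 | h2 <;> rw [h2] <;> simp
    rw [h1, one_smul]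

lemma lu_N_ne {κ : Type*} [DecidableEq κ] (s : X → κ) :
    (((univ : Finset (Perm X)).filter (fun g => ∀ x, s (g x) = s x)).card : ℂ) ≠ 0 := by
  rw [Nat.cast_ne_zero]
  exact Finset.card_ne_zero_of_mem (a := (1 : Perm X))
    (Finset.mem_filter.2 ⟨mem_univ _, fun x => rfl⟩)

/-- the scalars of step (3) -/
noncomputable def lu_lam {κ : Type*} [DecidableEq κ] (D : X → ℕ) (s : X → κ) (g : Perm X) : ℂ :=
  ∑ h ∈ (univ : Finset (Perm X)).filter (fun g => ∀ x, s (g x) = s x),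
    ((Perm.sign h : ℤ) : ℂ) * lu_eps D s (g * h)

lemma lu_lam_spec {κ : Type*} [DecidableEq κ] (D : X → ℕ) (s : X → κ)
    (hinj : ∀ x y, D x = D y → s x = s y → x = y)
    (htop : ∀ x, ∀ i < D x, ∃ y, s y = s x ∧ D y = i)
    {V : Type*} [AddCommGroup V] [Module ℂ V] (ρ : Representation ℂ (Perm X) V)
    (v : V) (hv : ∀ x y, D x = D y → ρ (swap x y) v = v) (g : Perm X) :
    colasym ρ s (ρ g (colasym ρ s v)) = lu_lam D s g • colasym ρ s v := by
  rw [colasym_apply ρ s v, map_sum, map_sum, ← colasym_apply ρ s v]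
  unfold lu_lam
  rw [Finset.sum_smul]
  refine Finset.sum_congr rfl fun h _ => ?_
  rw [map_smul, ← rho_mul, map_smul, lu_eps_spec D s hinj htop ρ v hv, smul_smul]

lemma lu_pi_colasym {κ : Type*} [DecidableEq κ] (D : X → ℕ) (s : X → κ)
    (hinj : ∀ x y, D x = D y → s x = s y → x = y)
    (htop : ∀ x, ∀ i < D x, ∃ y, s y = s x ∧ D y = i)
    {V : Type*} [AddCommGroup V] [Module ℂ V] (ρ : Representation ℂ (Perm X) V)
    (v : V) (hv : ∀ x y, D x = D y → ρ (swap x y) v = v) (F : Perm X → ℂ) :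
    colasym ρ s (lu_pi ρ (colasym ρ s v) F) = (∑ g, F g * lu_lam D s g) • colasym ρ s v := by
  rw [lu_pi_apply, map_sum, Finset.sum_smul]
  refine Finset.sum_congr rfl fun g _ => ?_
  rw [map_smul, lu_lam_spec D s hinj htop ρ v hv, smul_smul]

lemma lu_z_ne {κ : Type*} [DecidableEq κ] (D : X → ℕ) (s : X → κ)
    (hinj : ∀ x y, D x = D y → s x = s y → x = y)
    (htop : ∀ x, ∀ i < D x, ∃ y, s y = s x ∧ D y = i)
    {V : Type*} [AddCommGroup V] [Module ℂ V] (ρ : Representation ℂ (Perm X) V)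
    (hirr : ρ.IsIrreducible) (v w : V) (hv0 : v ≠ 0) (hw0 : w ≠ 0)
    (hv : ∀ x y, D x = D y → ρ (swap x y) v = v)
    (hw : ∀ x y, x ≠ y → s x = s y → ρ (swap x y) w = -w) : colasym ρ s v ≠ 0 := by
  intro h0
  obtain ⟨F, hF⟩ := lu_surj ρ hirr hv0 w
  have h1 : colasym ρ s w = 0 := by
    rw [← hF, lu_pi_apply, map_sum]
    refine Finset.sum_eq_zero fun g _ => ?_
    rw [map_smul, lu_eps_spec D s hinj htop ρ v hv, h0, smul_zero, smul_zero]
  rw [lu_N s ρ w hw] at h1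
  rcases smul_eq_zero.1 h1 with h2 | h2
  · exact lu_N_ne s h2
  · exact hw0 h2

end LU

/-- TARGET -/
theorem label_unique {X : Type*} [Fintype X] [DecidableEq X] {κ : Type*} [DecidableEq κ]
    (D : X → ℕ) (s : X → κ)
    (hinj : ∀ x y, D x = D y → s x = s y → x = y)
    (htop : ∀ x, ∀ i < D x, ∃ y, s y = s x ∧ D y = i)
    {V1 : Type*} [AddCommGroup V1] [Module ℂ V1] (ρ1 : Representation ℂ (Perm X) V1)
    {V2 : Type*} [AddCommGroup V2] [Module ℂ V2] (ρ2 : Representation ℂ (Perm X) V2)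
    (h1 : ρ1.IsIrreducible) (h2 : ρ2.IsIrreducible)
    (v1 w1 : V1) (hv1 : v1 ≠ 0) (hw1 : w1 ≠ 0)
    (hv1' : ∀ x y, D x = D y → ρ1 (swap x y) v1 = v1)
    (hw1' : ∀ x y, x ≠ y → s x = s y → ρ1 (swap x y) w1 = -w1)
    (v2 w2 : V2) (hv2 : v2 ≠ 0) (hw2 : w2 ≠ 0)
    (hv2' : ∀ x y, D x = D y → ρ2 (swap x y) v2 = v2)
    (hw2' : ∀ x y, x ≠ y → s x = s y → ρ2 (swap x y) w2 = -w2) :
    ∃ f : IntertwiningMap ρ1 ρ2, f ≠ 0 := by
  classical
  have hz1 := lu_z_ne D s hinj htop ρ1 h1 v1 w1 hv1 hw1 hv1' hw1'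
  have hz2 := lu_z_ne D s hinj htop ρ2 h2 v2 w2 hv2 hw2 hv2' hw2'
  have hker : ∀ F, lu_pi ρ1 (colasym ρ1 s v1) F = 0 → lu_pi ρ2 (colasym ρ2 s v2) F = 0 := by
    intro F hF
    by_contra hne
    obtain ⟨c, hc⟩ := lu_surj ρ2 h2 hne w2
    have hmu : ∀ g, ∑ x, F (g⁻¹ * x) * lu_lam D s x = 0 := by
      intro g
      have e1 : colasym ρ1 s (ρ1 g (lu_pi ρ1 (colasym ρ1 s v1) F)) = 0 := by
        rw [hF, map_zero, map_zero]
      rw [lu_pi_shift, lu_pi_colasym D s hinj htop ρ1 v1 hv1'] at e1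
      exact (smul_eq_zero.1 e1).resolve_right hz1
    have e2 : colasym ρ2 s w2 = 0 := by
      rw [← hc, lu_pi_apply, map_sum]
      refine Finset.sum_eq_zero fun g _ => ?_
      rw [map_smul, lu_pi_shift, lu_pi_colasym D s hinj htop ρ2 v2 hv2', hmu g, zero_smul,
        smul_zero]
    rw [lu_N s ρ2 w2 hw2'] at e2
    rcases smul_eq_zero.1 e2 with h3 | h3
    · exact lu_N_ne s h3
    · exact hw2 h3
  have hsurj : Function.Surjective (lu_pi ρ1 (colasym ρ1 s v1)) :=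
    fun w => lu_surj ρ1 h1 hz1 w
  obtain ⟨r, hr⟩ := (lu_pi ρ1 (colasym ρ1 s v1)).exists_rightInverse_of_surjective
    (LinearMap.range_eq_top.2 hsurj)
  have hr' : ∀ v, lu_pi ρ1 (colasym ρ1 s v1) (r v) = v := fun v => LinearMap.congr_fun hr v
  have hf : ∀ F, lu_pi ρ2 (colasym ρ2 s v2) (r (lu_pi ρ1 (colasym ρ1 s v1) F)) =
      lu_pi ρ2 (colasym ρ2 s v2) F := by
    intro F
    rw [← sub_eq_zero, ← map_sub]
    apply hker
    rw [map_sub, hr', sub_self]
  obtain ⟨f, hfdef⟩ : ∃ f : V1 →ₗ[ℂ] V2, f = (lu_pi ρ2 (colasym ρ2 s v2)) ∘ₗ r := ⟨_, rfl⟩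
  have hf2 : ∀ F, f (lu_pi ρ1 (colasym ρ1 s v1) F) = lu_pi ρ2 (colasym ρ2 s v2) F := by
    intro F
    rw [hfdef]
    exact hf F
  have hint : ∀ (g : Perm X) (v : V1), f (ρ1 g v) = ρ2 g (f v) := by
    intro g v
    rw [← hr' v, lu_pi_shift, hf2, hf2, lu_pi_shift]
  refine ⟨f.intertwiningMap_of_isIntertwiningMap ρ1 ρ2 hint, ?_⟩
  intro h0
  have h3 : f (colasym ρ1 s v1) = 0 := by
    have h4 := LinearMap.toIntertwiningMap ρ1 ρ2 f hint (colasym ρ1 s v1)
    rw [h0] at h4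
    rw [← h4]
    rfl
  rw [← lu_pi_single ρ1 (colasym ρ1 s v1), hf2, lu_pi_single] at h3
  exact hz2 h3

end Pool.Agent.Helper310_SaxlA
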