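import Mathlib
import Pool.Agent.Helper310_SaxlA.DefsA
import Pool.Agent.Helper310_SaxlA.Sax
import Pool.Agent.Helper310_SaxlA.Contains
import Pool.Agent.Helper310_SaxlA.SelfDual
import Pool.Agent.Helper310_SaxlA.Unique
import Pool.Agent.Helper310_Saxl.Bridge
import Pool.Agent.Helper310_Saxl.Orbit
import Pool.Agent.Helper310_Saxl.Main

/-!
# The tensor square of the staircase representation
-/

namespace Pool.Agent.Helper310_SaxlA

open Equiv Finset Pool.Agent.Helper310_Saxl Representation

/-- the base of a tableau of staircase shape -/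
lemma base_of_tableau {X : Type*} [Fintype X] (k : ℕ) (t : X → ℕ × ℕ)
    (hinj : Function.Injective t) (him : ∀ p, (∃ x, t x = p) ↔ p.2 < k - p.1) :
    ∃ β : Base k X, (∀ x, β.R x = k - (t x).1) ∧ ∀ x, β.C x = k - (t x).2 := by
  classical
  have hlt : ∀ x, (t x).2 < k - (t x).1 := fun x => (him (t x)).1 ⟨x, rfl⟩
  have hR : IsStair k univ (fun x => k - (t x).1) := by
    intro m
    by_cases hm : 1 ≤ m ∧ m ≤ k
    · rw [if_pos hm]
      have h1 : (univ.filter fun x => k - (t x).1 = m).card = (range m).card := by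
        refine Finset.card_bij (fun x _ => (t x).2) ?_ ?_ ?_
        · intro x hx
          have h2 := (Finset.mem_filter.1 hx).2
          have h3 := hlt x
          rw [Finset.mem_range]
          omega
        · intro x hx y hy hxy
          have h2 := (Finset.mem_filter.1 hx).2
          have h3 := (Finset.mem_filter.1 hy).2
          have h4 := hlt x
          have h5 := hlt y
          exact hinj (Prod.ext (by omega) hxy)
        · intro j hj
          rw [Finset.mem_range] at hj
          obtain ⟨x, hx⟩ := (him (k - m, j)).2 (by simp only; omega)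
          refine ⟨x, Finset.mem_filter.2 ⟨Finset.mem_univ _, ?_⟩, ?_⟩
          · rw [hx]; simp only; omega
          · rw [hx]
      rw [h1, Finset.card_range]
    · rw [if_neg hm, Finset.card_eq_zero, Finset.filter_eq_empty_iff]
      intro x _ h2
      have h3 := hlt x
      have h4 : k - (t x).1 = m := h2
      exact hm ⟨by omega, by omega⟩
  have hC : IsStair k univ (fun x => k - (t x).2) := by
    intro m
    by_cases hm : 1 ≤ m ∧ m ≤ k
    · rw [if_pos hm]
      have h1 : (univ.filter fun x => k - (t x).2 = m).card = (range m).card := by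
        refine Finset.card_bij (fun x _ => (t x).1) ?_ ?_ ?_
        · intro x hx
          have h2 := (Finset.mem_filter.1 hx).2
          have h3 := hlt x
          rw [Finset.mem_range]
          omega
        · intro x hx y hy hxy
          have h2 := (Finset.mem_filter.1 hx).2
          have h3 := (Finset.mem_filter.1 hy).2
          have h4 := hlt x
          have h5 := hlt y
          exact hinj (Prod.ext hxy (by omega))
        · intro j hj
          rw [Finset.mem_range] at hj
          obtain ⟨x, hx⟩ := (him (j, k - m)).2 (by simp only; omega)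
          refine ⟨x, Finset.mem_filter.2 ⟨Finset.mem_univ _, ?_⟩, ?_⟩
          · rw [hx]; simp only; omega
          · rw [hx]
      rw [h1, Finset.card_range]
    · rw [if_neg hm, Finset.card_eq_zero, Finset.filter_eq_empty_iff]
      intro x _ h2
      have h3 := hlt x
      have h4 : k - (t x).2 = m := h2
      exact hm ⟨by omega, by omega⟩
  refine ⟨⟨fun x => k - (t x).1, fun x => k - (t x).2, hR, hC, ?_⟩, fun _ => rfl, fun _ => rfl⟩
  intro x y h1 h2
  have h3 := hlt x
  have h4 := hlt y
  exact hinj (Prod.ext (by omega) (by omega))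

/-- **Saxl's conjecture.** -/
theorem saxl_staircase (k n : ℕ) (l : ℕ → ℕ) (hl : ∀ i, l i = k - i)
    {M : Type*} [AddCommGroup M] [Module ℂ M] (ρ : Representation ℂ (Perm (Fin n)) M)
    (hρ : ρ.IsIrreducible) (hlab : HasLabA ρ l)
    {U : Type*} [AddCommGroup U] [Module ℂ U] (σ : Representation ℂ (Perm (Fin n)) U)
    (hσ : σ.IsIrreducible) : Contains (ρ.tprod ρ) σ := by
  obtain ⟨t, ⟨htinj, htim⟩, ⟨v, hv, hv'⟩, w, hw, hw'⟩ := hlab
  have him : ∀ p, (∃ x, t x = p) ↔ p.2 < k - p.1 := by
    intro p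
    rw [htim p, hl]
  have hlt : ∀ x, (t x).2 < k - (t x).1 := fun x => (him (t x)).1 ⟨x, rfl⟩
  obtain ⟨β, hβR, hβC⟩ := base_of_tableau k t htinj him
  obtain ⟨u, hu⟩ : ∃ u : U, u ≠ 0 := by
    by_contra hcon
    push Not at hcon
    have h3 : (⊥ : Subrepresentation σ) = ⊤ := by
      apply Subrepresentation.toSubmodule_injective
      show (⊥ : Submodule ℂ U) = ⊤
      rw [eq_comm, Submodule.eq_bot_iff]
      intro x _
      exact hcon x
    exact bot_ne_top h3
  refine good_contains β σ (sax_all k β σ u hu) ρ ?_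
  intro ψ _ _ ρψ hψ hvψ hwψ
  obtain ⟨v1, hv1, hv1'⟩ := hvψ
  obtain ⟨w1, hw1, hw1'⟩ := hwψ
  refine label_unique (fun x => (t x).1) (fun x => (t x).2) ?_ ?_ ρψ ρ hψ hρ v1 w1 hv1 hw1 ?_ ?_
    v w hv hw hv' hw'
  · intro x y h1 h2
    exact htinj (Prod.ext h1 h2)
  · intro x i hi
    have h1 := hlt x
    obtain ⟨y, hy⟩ := (him (i, (t x).2)).2 (by simp only at hi ⊢; omega)
    exact ⟨y, by rw [hy], by rw [hy]⟩
  · intro x y hxy
    refine hv1' x y ?_
    rw [hβR, hβR, hxy]
  · intro x y hne hxy
    refine hw1' x y hne ?_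
    rw [hβC, hβC, hxy]

/-- the self-dual minimal solvable orbit of `sl_n` -/
theorem typeA (n : ℕ) (l : ℕ → ℕ) (hmin : IsMinSolvableA n l) (hdual : IsDualA n l l)
    {M : Type*} [AddCommGroup M] [Module ℂ M] (ρ : Representation ℂ (Perm (Fin n)) M)
    (hρ : ρ.IsIrreducible) (hlab : HasLabA ρ l)
    {U : Type*} [AddCommGroup U] [Module ℂ U] (σ : Representation ℂ (Perm (Fin n)) U)
    (hσ : σ.IsIrreducible) : Contains (ρ.tprod ρ) σ := by
  obtain ⟨k, _, hl⟩ := staircase_of_selfdual n l hmin.1.1.1 hmin.1.1.2.1 hmin.1.1.2.2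
    hmin.1.2 hdual
  exact saxl_staircase k n l hl ρ hρ hlab σ hσ

/-- types `B`, `C` and `D` -/
theorem typesBCD (T : Ty) (n : ℕ) (l : ℕ → ℕ) (hmin : IsMinSolvable T n l)
    (hdual : IsDual T n l l)
    {M : Type*} [AddCommGroup M] [Module ℂ M] (ρ : Representation ℂ (Weyl T n) M)
    (hρ : ContainsFamily T n l ρ)
    {U : Type*} [AddCommGroup U] [Module ℂ U] (σ : Representation ℂ (Weyl T n) U)
    (hσ : σ.IsIrreducible) : Contains (ρ.tprod ρ) σ := by
  have h0 := finite_weyl T n
  have : Fintype (Weyl T n) := Fintype.ofFinite _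
  obtain ⟨r, k, h1, h2, hn, hfam⟩ := family_box hmin.1 hdual.2.1
  have e : Fin n ≃ Fin r × Fin k := (finCongr hn).trans finProdFinEquiv.symm
  refine main_box h1 h2 e (sgrp T n) σ ?_ ρ ?_
  · by_contra hcon
    push Not at hcon
    have h3 : (⊥ : Subrepresentation σ) = ⊤ := by
      apply Subrepresentation.toSubmodule_injective
      show (⊥ : Submodule ℂ U) = ⊤
      rw [eq_comm, Submodule.eq_bot_iff]
      intro x _
      exact hcon x
    exact bot_ne_top h3
  · intro ψ _ _ ρψ hirr hlab
    obtain ⟨a, ha, ha0, hak, hlab⟩ := hlab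
    exact hρ ψ ρψ hirr ⟨a, _, hfam a ha ha0 hak, hasLab_of_hasLabel ρψ _ _ hlab⟩

end Pool.Agent.Helper310_SaxlA
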